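import Pool.Agent.Lib.MP_305fdd_al.F8.PIC7.StmT
import Pool.Agent.Lib.MP_305fdd_al.F8.PIC.P_X4

/-!
# MP_305fdd_al, PIC7, piece `X4`: lifting of the conjugation
-/

set_option autoImplicit false

namespace Pool.Agent.F8.PIC7

open Pool.Agent.MP_305fdd_al Pool.Agent.Lib.MP_305fdd_al Pool.Agent.F2X Pool.Agent.F8
  Pool.Agent.F8.HN Pool.Agent.F8.AB Pool.Agent.F8.D7
open scoped QuadraticAlgebra

/-! ### Generation by elementary matrices -/

section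

variable {R : Type} [CommRing R]

theorem X4_gen_unit (K : Subgroup (SL2 R)) (hU : ∀ x : R, mU x ∈ K) (hB : mB R ∈ K) (g : SL2 R)
    (a' : R) (h : g.val 0 0 * a' = 1) : g ∈ K := by
  rw [PIC.X4_dec g a' h]
  have hL : ∀ x : R, mB R * mU x * (mB R)⁻¹ ∈ K :=
    fun x => Subgroup.mul_mem _ (Subgroup.mul_mem _ hB (hU x)) (Subgroup.inv_mem _ hB)
  refine Subgroup.mul_mem _ (Subgroup.mul_mem _ (hL _) ?_) (hU _)
  exact Subgroup.mul_mem _ (Subgroup.mul_mem _ (Subgroup.mul_mem _ (hU _) (hL _)) (hU _)) hB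

theorem X4_gen (K : Subgroup (SL2 R)) (hU : ∀ x : R, mU x ∈ K) (hB : mB R ∈ K)
    (hR : ∀ a b c d : R, a * d - b * c = 1 → (∃ a', a * a' = 1) ∨ ∃ c', c * c' = 1)
    (g : SL2 R) : g ∈ K := by
  rcases hR _ _ _ _ (G.SL_det g) with ⟨w, hw⟩ | ⟨w, hw⟩
  · exact X4_gen_unit K hU hB g w hw
  · have h2 : (mB R)⁻¹ * g ∈ K := by
      apply X4_gen_unit K hU hB _ w
      rw [G.SL_mul, PIC.X4_mB, mx_inv, mx_00, mx_01]
      linear_combination hw
    have h3 := Subgroup.mul_mem _ hB h2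
    rwa [mul_inv_cancel_left] at h3

/-- `mB` is a product of elementary matrices -/
theorem X4_mB_eq : mB R = mU (-1) * (mB R * mU (-1) * (mB R)⁻¹) * mU (-1) := by
  rw [PIC.X4_L, PIC.X4_mU, PIC.X4_mB, mx_mul, mx_mul]
  apply mx_congr <;> ring

end

/-! ### Surjectivity of `r42` -/

theorem X4_r4_U (z : O7) : r4 (mU z) = mU (ev7 (Int.castRingHom (ZMod 4)) 2 (by decide) z) := by
  unfold r4
  apply G.SL_ext
  · show ev7 (Int.castRingHom (ZMod 4)) 2 (by decide) 1 = 1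
    rw [map_one]
  · rfl
  · show ev7 (Int.castRingHom (ZMod 4)) 2 (by decide) 0 = 0
    rw [map_zero]
  · show ev7 (Int.castRingHom (ZMod 4)) 2 (by decide) 1 = 1
    rw [map_one]

theorem X4_r2_U (z : O7) : r2 (mU z) = mU (ev7 (Int.castRingHom (ZMod 2)) 1 (by decide) z) := by
  unfold r2
  apply G.SL_ext
  · show ev7 (Int.castRingHom (ZMod 2)) 1 (by decide) 1 = 1
    rw [map_one]
  · rfl
  · show ev7 (Int.castRingHom (ZMod 2)) 1 (by decide) 0 = 0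
    rw [map_zero]
  · show ev7 (Int.castRingHom (ZMod 2)) 1 (by decide) 1 = 1
    rw [map_one]

theorem X4_r4_B : r4 (mB O7) = mB (ZMod 4) := by
  unfold r4
  apply G.SL_ext
  · show ev7 (Int.castRingHom (ZMod 4)) 2 (by decide) 0 = 0
    rw [map_zero]
  · show ev7 (Int.castRingHom (ZMod 4)) 2 (by decide) (-1) = -1
    rw [map_neg, map_one]
  · show ev7 (Int.castRingHom (ZMod 4)) 2 (by decide) 1 = 1
    rw [map_one]
  · show ev7 (Int.castRingHom (ZMod 4)) 2 (by decide) 0 = 0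
    rw [map_zero]

theorem X4_r2_B : r2 (mB O7) = mB (ZMod 2) := by
  unfold r2
  apply G.SL_ext
  · show ev7 (Int.castRingHom (ZMod 2)) 1 (by decide) 0 = 0
    rw [map_zero]
  · show ev7 (Int.castRingHom (ZMod 2)) 1 (by decide) (-1) = -1
    rw [map_neg, map_one]
  · show ev7 (Int.castRingHom (ZMod 2)) 1 (by decide) 1 = 1
    rw [map_one]
  · show ev7 (Int.castRingHom (ZMod 2)) 1 (by decide) 0 = 0
    rw [map_zero]

theorem X4_mU_zero (R : Type) [CommRing R] : mU (0 : R) = 1 := by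
  rw [PIC.X4_mU, mx_one]

theorem X4_U4 (x : ZMod 4) : ((mU x, 1) : SL2 (ZMod 4) × SL2 (ZMod 2)) ∈ r42.range := by
  obtain ⟨n, hn⟩ := ZMod.intCast_surjective x
  refine ⟨mU ⟨-n, n⟩, ?_⟩
  rw [r42_apply, X4_r4_U, X4_r2_U, ev7_apply, ev7_apply, ← X4_mU_zero (ZMod 2)]
  refine Prod.ext (congrArg mU ?_) (congrArg mU ?_)
  · show (Int.castRingHom (ZMod 4)) (-n) + (Int.castRingHom (ZMod 4)) n * 2 = x
    rw [← hn, map_neg]
    show -(n : ZMod 4) + (n : ZMod 4) * 2 = n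
    ring
  · show (Int.castRingHom (ZMod 2)) (-n) + (Int.castRingHom (ZMod 2)) n * 1 = 0
    rw [map_neg]
    ring

theorem X4_U2 (x : ZMod 2) : ((1, mU x) : SL2 (ZMod 4) × SL2 (ZMod 2)) ∈ r42.range := by
  obtain ⟨n, hn⟩ := ZMod.intCast_surjective x
  refine ⟨mU ⟨2 * n, n⟩, ?_⟩
  rw [r42_apply, X4_r4_U, X4_r2_U, ev7_apply, ev7_apply, ← X4_mU_zero (ZMod 4)]
  refine Prod.ext (congrArg mU ?_) (congrArg mU ?_)
  · show (Int.castRingHom (ZMod 4)) (2 * n) + (Int.castRingHom (ZMod 4)) n * 2 = 0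
    have h4 : (4 : ZMod 4) = 0 := by decide
    have h5 : (Int.castRingHom (ZMod 4)) (2 * n) = 2 * (n : ZMod 4) := by
      rw [map_mul]
      rfl
    rw [h5]
    show 2 * (n : ZMod 4) + (n : ZMod 4) * 2 = 0
    linear_combination (n : ZMod 4) * h4
  · show (Int.castRingHom (ZMod 2)) (2 * n) + (Int.castRingHom (ZMod 2)) n * 1 = x
    have h2 : (2 : ZMod 2) = 0 := by decide
    have h5 : (Int.castRingHom (ZMod 2)) (2 * n) = 2 * (n : ZMod 2) := by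
      rw [map_mul]
      rfl
    rw [h5, ← hn]
    show 2 * (n : ZMod 2) + (n : ZMod 2) * 1 = n
    linear_combination (n : ZMod 2) * h2

theorem X4_BB : ((mB (ZMod 4), mB (ZMod 2)) : SL2 (ZMod 4) × SL2 (ZMod 2)) ∈ r42.range :=
  ⟨mB O7, by rw [r42_apply, X4_r4_B, X4_r2_B]⟩

theorem X4_B4 : ((mB (ZMod 4), 1) : SL2 (ZMod 4) × SL2 (ZMod 2)) ∈ r42.range := by
  have h1 := Subgroup.mul_mem _ (Subgroup.mul_mem _ X4_BB (X4_U4 (-1)))
    (Subgroup.inv_mem _ X4_BB)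
  have h2 := Subgroup.mul_mem _ (Subgroup.mul_mem _ (X4_U4 (-1)) h1) (X4_U4 (-1))
  have h3 : ((mB (ZMod 4), 1) : SL2 (ZMod 4) × SL2 (ZMod 2)) =
      (mU (-1), 1) * ((mB (ZMod 4), mB (ZMod 2)) * (mU (-1), 1) *
        (mB (ZMod 4), mB (ZMod 2))⁻¹) * (mU (-1), 1) := by
    refine Prod.ext ?_ ?_
    · exact X4_mB_eq
    · show (1 : SL2 (ZMod 2)) = 1 * (mB (ZMod 2) * 1 * (mB (ZMod 2))⁻¹) * 1
      group
  rw [h3]
  exact h2

theorem X4_B2 : ((1, mB (ZMod 2)) : SL2 (ZMod 4) × SL2 (ZMod 2)) ∈ r42.range := by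
  have h1 := Subgroup.mul_mem _ (Subgroup.inv_mem _ X4_B4) X4_BB
  have h3 : ((1, mB (ZMod 2)) : SL2 (ZMod 4) × SL2 (ZMod 2)) =
      (mB (ZMod 4), 1)⁻¹ * (mB (ZMod 4), mB (ZMod 2)) := by
    refine Prod.ext ?_ ?_
    · show (1 : SL2 (ZMod 4)) = (mB (ZMod 4))⁻¹ * mB (ZMod 4)
      group
    · show mB (ZMod 2) = (1 : SL2 (ZMod 2))⁻¹ * mB (ZMod 2)
      group
  rw [h3]
  exact h1

theorem X4_loc4 : ∀ a b c d : ZMod 4, a * d - b * c = 1 →
    (∃ a' : ZMod 4, a * a' = 1) ∨ ∃ c' : ZMod 4, c * c' = 1 := by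
  decide

theorem X4_loc2 : ∀ a b c d : ZMod 2, a * d - b * c = 1 →
    (∃ a' : ZMod 2, a * a' = 1) ∨ ∃ c' : ZMod 2, c * c' = 1 := by
  decide

theorem X4_surj42 (g : SL2 (ZMod 4)) (h : SL2 (ZMod 2)) : ∃ x : GG, r42 x = (g, h) := by
  have h1 : ((g, 1) : SL2 (ZMod 4) × SL2 (ZMod 2)) ∈ r42.range :=
    X4_gen (r42.range.comap (MonoidHom.inl (SL2 (ZMod 4)) (SL2 (ZMod 2)))) X4_U4 X4_B4
      X4_loc4 g
  have h2 : ((1, h) : SL2 (ZMod 4) × SL2 (ZMod 2)) ∈ r42.range :=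
    X4_gen (r42.range.comap (MonoidHom.inr (SL2 (ZMod 4)) (SL2 (ZMod 2)))) X4_U2 X4_B2
      X4_loc2 h
  have h3 := Subgroup.mul_mem _ h1 h2
  have h4 : ((g, 1) : SL2 (ZMod 4) × SL2 (ZMod 2)) * (1, h) = (g, h) := by
    refine Prod.ext ?_ ?_
    · show g * 1 = g
      group
    · show 1 * h = h
      group
  rw [h4] at h3
  exact h3

/-! ### Conjugation with diagonal matrices -/

theorem X4_dg_r4 (e e' : O7) (h : e * e' = 1) (g : GG) : r4 (PIC.X4_dg e e' h g) =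
    PIC.X4_dg (ev7 (Int.castRingHom (ZMod 4)) 2 (by decide) e)
      (ev7 (Int.castRingHom (ZMod 4)) 2 (by decide) e')
      (by rw [← map_mul, h, map_one]) (r4 g) := by
  unfold r4
  rw [PIC.X4_dg_apply, PIC.X4_dg_apply, mx_map]
  apply mx_congr
  · rfl
  · rw [map_mul]; rfl
  · rw [map_mul]; rfl
  · rfl

theorem X4_dg_r2 (e e' : O7) (h : e * e' = 1) (g : GG) : r2 (PIC.X4_dg e e' h g) =
    PIC.X4_dg (ev7 (Int.castRingHom (ZMod 2)) 1 (by decide) e)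
      (ev7 (Int.castRingHom (ZMod 2)) 1 (by decide) e')
      (by rw [← map_mul, h, map_one]) (r2 g) := by
  unfold r2
  rw [PIC.X4_dg_apply, PIC.X4_dg_apply, mx_map]
  apply mx_congr
  · rfl
  · rw [map_mul]; rfl
  · rw [map_mul]; rfl
  · rfl

theorem X4_units4 : ∀ u v : ZMod 4, u * v = 1 → u = 1 ∨ u = -1 := by decide

theorem X4_units2 : ∀ u v : ZMod 2, u * v = 1 → u = 1 := by decide

/-- the unit `e = ±1` -/
theorem X4_e (u v : ZMod 4) (h : u * v = 1) : ∃ e e' : O7, e * e' = 1 ∧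
    ev7 (Int.castRingHom (ZMod 4)) 2 (by decide) e = u ∧
    ev7 (Int.castRingHom (ZMod 2)) 1 (by decide) e = 1 := by
  rcases X4_units4 u v h with rfl | rfl
  · exact ⟨1, 1, one_mul 1, map_one _, map_one _⟩
  · refine ⟨-1, -1, by ring, ?_, ?_⟩
    · rw [map_neg, map_one]
    · rw [map_neg, map_one]
      decide

theorem p_X4 : S_X4 := by
  intro Λ _ ρ r r' C D C' D' hCD hDC hCD' hDC' hr hr'
  have hdet : C.det * D.det = 1 := by rw [← Matrix.det_mul, hCD, Matrix.det_one]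
  have hdet' : C'.det * D'.det = 1 := by rw [← Matrix.det_mul, hCD', Matrix.det_one]
  obtain ⟨e, e', he, hu, hu'⟩ := X4_e C.det D.det hdet
  have he4 : ev7 (Int.castRingHom (ZMod 4)) 2 (by decide) e *
      ev7 (Int.castRingHom (ZMod 4)) 2 (by decide) e' = 1 := by
    rw [← map_mul, he, map_one]
  have he2 : ev7 (Int.castRingHom (ZMod 2)) 1 (by decide) e *
      ev7 (Int.castRingHom (ZMod 2)) 1 (by decide) e' = 1 := by
    rw [← map_mul, he, map_one]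
  obtain ⟨C₁, hC₁⟩ := PIC.X4_conj C D hCD hDC _ _ he4 hu.symm
  obtain ⟨C₂, hC₂⟩ := PIC.X4_conj C' D' hCD' hDC' _ _ he2
    ((X4_units2 _ _ hdet').trans hu'.symm)
  obtain ⟨γ, hγ⟩ := X4_surj42 C₁ C₂
  rw [r42_apply] at hγ
  have hγ4 : r4 γ = C₁ := congrArg Prod.fst hγ
  have hγ2 : r2 γ = C₂ := congrArg Prod.snd hγ
  refine ⟨(PIC.X4_dg e e' he).comp ((MulAut.conj γ).toMonoidHom.comp ρ), ?_, ?_⟩
  · intro l
    show tr (PIC.X4_dg e e' he (γ * ρ l * γ⁻¹)) = tr (ρ l)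
    rw [PIC.X4_dg_tr, PIC.X4_tr_conj]
  · intro l
    show r42 (PIC.X4_dg e e' he (γ * ρ l * γ⁻¹)) = (r l, r' l)
    rw [r42_apply]
    refine Prod.ext ?_ ?_
    · show r4 (PIC.X4_dg e e' he (γ * ρ l * γ⁻¹)) = r l
      have hc : r4 (γ * ρ l * γ⁻¹) = C₁ * r4 (ρ l) * C₁⁻¹ := by
        rw [map_mul, map_mul, map_inv, hγ4]
      rw [X4_dg_r4, hc]
      exact (hC₁ _ _ (hr l)).symm
    · show r2 (PIC.X4_dg e e' he (γ * ρ l * γ⁻¹)) = r' l
      have hc : r2 (γ * ρ l * γ⁻¹) = C₂ * r2 (ρ l) * C₂⁻¹ := by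
        rw [map_mul, map_mul, map_inv, hγ2]
      rw [X4_dg_r2, hc]
      exact (hC₂ _ _ (hr' l)).symm

end Pool.Agent.F8.PIC7
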