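import Pool.Agent.Lib.MP_305fdd_al.F8.PIC7.StmO
import Mathlib.FieldTheory.Minpoly.IsIntegrallyClosed
import Mathlib.RingTheory.Polynomial.RationalRoot

/-!
# MP_305fdd_al: the rings of integers of `ℚ(√-7)` and `ℚ(i)`
-/

set_option autoImplicit false

namespace Pool.Agent.F8.PIC7

open Pool.Agent.MP_305fdd_al Pool.Agent.Lib.MP_305fdd_al Pool.Agent.F2X Pool.Agent.F8
  Pool.Agent.F8.HN Pool.Agent.F8.AB Pool.Agent.F8.D7
open scoped QuadraticAlgebra
open Polynomial

/-- `1, w` are linearly independent over `ℚ` -/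
private lemma ok7_ind {K : Type} [Field K] [NumberField K] {w : K} {D : ℕ} (hD : 0 < D)
    (hw : w ^ 2 = -(D : K)) (a b : ℚ) (h : (a : K) + (b : K) * w = 0) : a = 0 ∧ b = 0 := by
  have h1 : (a : K) ^ 2 = -(D : K) * (b : K) ^ 2 := by
    have h2 : (a : K) = -((b : K) * w) := by linear_combination h
    rw [h2, neg_sq, mul_pow, hw]
    ring
  have h3 : a ^ 2 = -(D : ℚ) * b ^ 2 := by exact_mod_cast h1
  have h4 : (0 : ℚ) < (D : ℚ) := by exact_mod_cast hD
  have hb : b = 0 := by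
    by_contra hb
    have h5 : 0 < b ^ 2 := by positivity
    nlinarith [sq_nonneg a]
  refine ⟨?_, hb⟩
  rw [hb] at h3
  have h6 : a ^ 2 = 0 := by rw [h3]; ring
  exact pow_eq_zero_iff (two_ne_zero) |>.1 h6

/-- `1, w` is a basis -/
private lemma ok7_span {K : Type} [Field K] [NumberField K] {w : K} {D : ℕ} (hD : 0 < D)
    (hw : w ^ 2 = -(D : K)) (hf : Module.finrank ℚ K = 2) (x : K) :
    ∃ a b : ℚ, x = (a : K) + (b : K) * w := by
  let f : (ℚ × ℚ) →ₗ[ℚ] K :=
    { toFun := fun p => (p.1 : K) + (p.2 : K) * w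
      map_add' := fun p q => by
        rw [Prod.fst_add, Prod.snd_add]
        push_cast
        ring
      map_smul' := fun c p => by
        show ((c • p.1 : ℚ) : K) + ((c • p.2 : ℚ) : K) * w = c • ((p.1 : K) + (p.2 : K) * w)
        rw [smul_eq_mul, smul_eq_mul, Rat.smul_def]
        push_cast
        ring }
  have hfv : ∀ p : ℚ × ℚ, f p = (p.1 : K) + (p.2 : K) * w := fun _ => rfl
  have hinj : Function.Injective f := by
    rw [← LinearMap.ker_eq_bot, LinearMap.ker_eq_bot']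
    intro p hp
    rw [hfv] at hp
    obtain ⟨h1, h2⟩ := ok7_ind hD hw _ _ hp
    exact Prod.ext h1 h2
  have hfin : Module.finrank ℚ (ℚ × ℚ) = Module.finrank ℚ K := by
    rw [hf, Module.finrank_prod, Module.finrank_self]
  obtain ⟨p, hp⟩ := (LinearMap.injective_iff_surjective_of_finrank_eq_finrank hfin).1 hinj x
  exact ⟨p.1, p.2, by rw [← hp, hfv]⟩

/-- a rational number `c` with `D c²` an integer, `D` squarefree, is an integer -/
private lemma ok7_int {D : ℕ} (hD : ∀ e : ℕ, e ^ 2 ∣ D → e = 1) (c : ℚ) (M : ℤ)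
    (h : (D : ℚ) * c ^ 2 = M) : ∃ n : ℤ, c = n := by
  have hden : (0 : ℚ) < c.den := by exact_mod_cast c.den_pos
  have h1 : (D : ℚ) * (c.num : ℚ) ^ 2 = M * (c.den : ℚ) ^ 2 := by
    have h2 : (c.num : ℚ) = c * c.den := (Rat.mul_den_eq_num c).symm
    rw [h2, ← h]
    ring
  have h3 : (D : ℤ) * c.num ^ 2 = M * (c.den : ℤ) ^ 2 := by exact_mod_cast h1
  have h4 : (c.den : ℤ) ^ 2 ∣ (D : ℤ) * c.num ^ 2 := ⟨M, by rw [h3]; ring⟩
  have h5 : IsCoprime ((c.den : ℤ) ^ 2) (c.num ^ 2) := by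
    apply IsCoprime.pow
    rw [Int.isCoprime_iff_gcd_eq_one]
    have := c.reduced
    rw [Nat.coprime_comm] at this
    simpa [Int.gcd] using this
  have h6 : (c.den : ℤ) ^ 2 ∣ (D : ℤ) := h5.dvd_of_dvd_mul_right h4
  have h7 : c.den ^ 2 ∣ D := by exact_mod_cast h6
  have h8 := hD _ h7
  exact ⟨c.num, ((Rat.den_eq_one_iff c).1 h8).symm⟩

/-- trace and norm of integral elements -/
private lemma ok7_tr {K : Type} [Field K] [NumberField K] {w : K} {D : ℕ} (hD : 0 < D)
    (hw : w ^ 2 = -(D : K)) (a b : ℚ) (hx : IsIntegral ℤ ((a : K) + (b : K) * w)) :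
    ∃ T N : ℤ, 2 * a = T ∧ a ^ 2 + D * b ^ 2 = N := by
  by_cases hb : b = 0
  · rw [hb] at hx ⊢
    have h1 : IsIntegral ℤ (a : K) := by simpa using hx
    have h2 : IsIntegral ℤ a := by
      have h3 : IsIntegral ℤ (algebraMap ℚ K a) := by rwa [eq_ratCast]
      exact (isIntegral_algebraMap_iff (algebraMap ℚ K).injective).1 h3
    obtain ⟨m, hm⟩ := IsIntegrallyClosed.isIntegral_iff.1 h2
    rw [eq_intCast] at hm
    refine ⟨2 * m, m ^ 2, ?_, ?_⟩
    · rw [← hm]; push_cast; ring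
    · rw [← hm]; push_cast; ring
  · obtain ⟨u, hu⟩ : ∃ u : ℚ, u = 2 * a := ⟨_, rfl⟩
    obtain ⟨v, hv⟩ : ∃ v : ℚ, v = a ^ 2 + D * b ^ 2 := ⟨_, rfl⟩
    obtain ⟨P, hP⟩ : ∃ P : ℚ[X], P = X ^ 2 - C u * X + C v := ⟨_, rfl⟩
    have hdeg : P.natDegree = 2 := by
      rw [hP]
      compute_degree!
    have hmon : P.Monic := by
      rw [hP]
      monicity!
    obtain ⟨x, hxdef⟩ : ∃ x : K, x = (a : K) + (b : K) * w := ⟨_, rfl⟩
    rw [← hxdef] at hx
    have hroot : aeval x P = 0 := by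
      rw [hP]
      simp only [map_add, map_sub, map_mul, map_pow, aeval_X, aeval_C, eq_ratCast]
      rw [hxdef, hu, hv]
      push_cast
      linear_combination ((b : K) ^ 2) * hw
    have hxQ : IsIntegral ℚ x := hx.tower_top
    have hdvd : minpoly ℚ x ∣ P := minpoly.dvd ℚ x hroot
    have hnot : x ∉ (algebraMap ℚ K).range := by
      rintro ⟨q, hq⟩
      rw [eq_ratCast, hxdef] at hq
      have h1 : (((a - q : ℚ)) : K) + (b : K) * w = 0 := by
        push_cast
        linear_combination -hq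
      exact hb (ok7_ind hD hw _ _ h1).2
    have h2 : 2 ≤ (minpoly ℚ x).natDegree := (minpoly.two_le_natDegree_iff hxQ).2 hnot
    have hEq : P = minpoly ℚ x :=
      Polynomial.eq_of_monic_of_dvd_of_natDegree_le (minpoly.monic hxQ) hmon hdvd
        (by rw [hdeg]; exact h2)
    have hmap := minpoly.isIntegrallyClosed_eq_field_fractions' (R := ℤ) ℚ hx
    rw [← hEq] at hmap
    have hc0 : P.coeff 0 = v := by
      rw [hP]
      simp
    have hc1 : P.coeff 1 = -u := by
      rw [hP]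
      simp [coeff_C]
    refine ⟨-((minpoly ℤ x).coeff 1), (minpoly ℤ x).coeff 0, ?_, ?_⟩
    · have h3 : P.coeff 1 = ((minpoly ℤ x).coeff 1 : ℚ) := by
        rw [hmap, coeff_map, eq_intCast]
      push_cast
      rw [← h3, hc1, hu]
      ring
    · have h3 : P.coeff 0 = ((minpoly ℤ x).coeff 0 : ℚ) := by
        rw [hmap, coeff_map, eq_intCast]
      rw [← h3, hc0, hv]

/-- integral elements -/
private lemma ok7_mn {K : Type} [Field K] [NumberField K] {w : K} {D : ℕ} (hD0 : 0 < D)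
    (hD : ∀ e : ℕ, e ^ 2 ∣ D → e = 1) (hw : w ^ 2 = -(D : K)) (hf : Module.finrank ℚ K = 2)
    (x : K) (hx : IsIntegral ℤ x) :
    ∃ m n : ℤ, 2 * x = (m : K) + (n : K) * w ∧ (4 : ℤ) ∣ m ^ 2 + D * n ^ 2 := by
  obtain ⟨a, b, rfl⟩ := ok7_span hD0 hw hf x
  obtain ⟨T, N, h1, h2⟩ := ok7_tr hD0 hw a b hx
  have h3 : (D : ℚ) * (2 * b) ^ 2 = ((4 * N - T ^ 2 : ℤ) : ℚ) := by
    push_cast
    rw [← h1, ← h2]
    ring
  obtain ⟨n, hn⟩ := ok7_int hD (2 * b) _ h3
  refine ⟨T, n, ?_, N, ?_⟩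
  · have h4 : (2 * (a : K)) = (T : K) := by exact_mod_cast congrArg (fun q : ℚ => (q : K)) h1
    have h5 : (2 * (b : K)) = (n : K) := by exact_mod_cast congrArg (fun q : ℚ => (q : K)) hn
    linear_combination h4 + w * h5
  · rw [hn] at h3
    have h6 : (D : ℤ) * n ^ 2 = 4 * N - T ^ 2 := by exact_mod_cast h3
    linear_combination h6

/-- the isomorphism -/
private lemma ok7_iso {K R : Type} [Field K] [NumberField K] [CommRing R] (f : R →+* K)
    (hi : ∀ z, IsIntegral ℤ (f z)) (hinj : ∀ z, f z = 0 → z = 0)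
    (hsur : ∀ x : K, IsIntegral ℤ x → ∃ z, f z = x) :
    Nonempty (R ≃+* NumberField.RingOfIntegers K) := by
  let g : R →+* NumberField.RingOfIntegers K :=
    { toFun := fun z => ⟨f z, hi z⟩
      map_one' := by
        apply NumberField.RingOfIntegers.ext
        exact map_one f
      map_zero' := by
        apply NumberField.RingOfIntegers.ext
        exact map_zero f
      map_add' := fun x y => by
        apply NumberField.RingOfIntegers.ext
        exact map_add f x y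
      map_mul' := fun x y => by
        apply NumberField.RingOfIntegers.ext
        exact map_mul f x y }
  have hg : ∀ z, ((g z : NumberField.RingOfIntegers K) : K) = f z := fun _ => rfl
  refine ⟨RingEquiv.ofBijective g ⟨?_, ?_⟩⟩
  · rw [injective_iff_map_eq_zero]
    intro z hz
    apply hinj
    rw [← hg, hz]
    rfl
  · intro x
    obtain ⟨z, hz⟩ := hsur x x.2
    refine ⟨z, ?_⟩
    apply NumberField.RingOfIntegers.ext
    rw [hg, hz]

private lemma ok7_sq7 : ∀ e : ℕ, e ^ 2 ∣ 7 → e = 1 := by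
  intro e he
  have h1 := Nat.le_of_dvd (by norm_num) he
  have h2 : e < 3 := by nlinarith
  interval_cases e
  · revert he; decide
  · rfl
  · revert he; decide

private lemma ok7_sq1 : ∀ e : ℕ, e ^ 2 ∣ 1 → e = 1 := by
  intro e he
  have h1 := Nat.dvd_one.1 he
  rcases Nat.pow_eq_one.1 h1 with h2 | h2
  · exact h2
  · exact absurd h2 (by norm_num)

private lemma ok7_ok7 : S_ok7 := by
  intro K _ _ w hw hf
  have hw' : w ^ 2 = -((7 : ℕ) : K) := by rw [hw]; norm_num
  have h2 : (2 : K) ≠ 0 := two_ne_zero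
  obtain ⟨d, hd⟩ : ∃ d : K, d = (w - 1) / 2 := ⟨_, rfl⟩
  have hwd : w = 2 * d + 1 := by rw [hd]; field_simp; ring
  have hdd : d * d + d + 2 = 0 := by
    rw [hd]
    field_simp
    linear_combination hw
  have hdi : IsIntegral ℤ d := by
    refine ⟨X ^ 2 + X + C 2, ?_, ?_⟩
    · monicity!
    · rw [eval₂_add, eval₂_add, eval₂_pow, eval₂_X, eval₂_C, map_ofNat]
      linear_combination hdd
  refine ok7_iso (ev7 (Int.castRingHom K) d hdd) ?_ ?_ ?_
  · intro z
    rw [ev7_apply]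
    exact (isIntegral_algebraMap (R := ℤ) (A := K) (x := z.re)).add
      ((isIntegral_algebraMap (R := ℤ) (A := K) (x := z.im)).mul hdi)
  · intro z hz
    rw [ev7_apply, eq_intCast, eq_intCast] at hz
    have h3 : (((z.re - z.im / 2 : ℚ)) : K) + ((z.im / 2 : ℚ) : K) * w = 0 := by
      push_cast
      rw [hwd]
      linear_combination hz
    obtain ⟨h4, h5⟩ := ok7_ind (by norm_num) hw' _ _ h3
    have h6 : (z.im : ℚ) = 0 := by linarith
    have h7 : (z.re : ℚ) = 0 := by linarith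
    apply QuadraticAlgebra.ext
    · exact_mod_cast h7
    · exact_mod_cast h6
  · intro x hx
    obtain ⟨m, n, h3, h4⟩ := ok7_mn (by norm_num) ok7_sq7 hw' hf x hx
    have h5 : ∃ k : ℤ, m + n = 2 * k := by
      have h6 : (m + n) % 2 = 0 := by
        have h7 : (m ^ 2 + ((7 : ℕ) : ℤ) * n ^ 2) % 2 = 0 := by omega
        rcases Int.emod_two_eq_zero_or_one m with hm | hm <;>
          rcases Int.emod_two_eq_zero_or_one n with hn | hn <;>
          simp [pow_two, Int.add_emod, Int.mul_emod, hm, hn] at h7 ⊢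
      exact ⟨(m + n) / 2, by omega⟩
    obtain ⟨k, hk⟩ := h5
    refine ⟨⟨k, n⟩, ?_⟩
    rw [ev7_apply, eq_intCast, eq_intCast]
    show (k : K) + (n : K) * d = x
    have h8 : (m : K) + (n : K) = 2 * (k : K) := by exact_mod_cast congrArg (fun q : ℤ => (q : K)) hk
    apply mul_left_cancel₀ h2
    rw [h3, hwd]
    linear_combination -h8

private lemma ok7_ok1 : S_ok1 := by
  intro K _ _ w hw hf
  have hw' : w ^ 2 = -((1 : ℕ) : K) := by rw [hw]; norm_num
  have h2 : (2 : K) ≠ 0 := two_ne_zero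
  have hww : w * w = -1 := by rw [← pow_two, hw]
  have hwi : IsIntegral ℤ w := by
    refine ⟨X ^ 2 + C 1, ?_, ?_⟩
    · monicity!
    · rw [eval₂_add, eval₂_pow, eval₂_X, eval₂_C, map_one]
      linear_combination hw
  refine ok7_iso (D1.ev1 (Int.castRingHom K) w hww) ?_ ?_ ?_
  · intro z
    rw [D1.ev1_apply]
    exact (isIntegral_algebraMap (R := ℤ) (A := K) (x := z.re)).add
      ((isIntegral_algebraMap (R := ℤ) (A := K) (x := z.im)).mul hwi)
  · intro z hz
    rw [D1.ev1_apply, eq_intCast, eq_intCast] at hz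
    have h3 : ((z.re : ℚ) : K) + ((z.im : ℚ) : K) * w = 0 := by
      push_cast
      linear_combination hz
    obtain ⟨h4, h5⟩ := ok7_ind (by norm_num) hw' _ _ h3
    apply QuadraticAlgebra.ext
    · exact_mod_cast h4
    · exact_mod_cast h5
  · intro x hx
    obtain ⟨m, n, h3, h4⟩ := ok7_mn (by norm_num) ok7_sq1 hw' hf x hx
    have h5 : m % 2 = 0 ∧ n % 2 = 0 := by
      have h6 : (m ^ 2 + ((1 : ℕ) : ℤ) * n ^ 2) % 4 = 0 := by omega
      have h7 : m % 4 = 0 ∨ m % 4 = 1 ∨ m % 4 = 2 ∨ m % 4 = 3 := by omega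
      have h8 : n % 4 = 0 ∨ n % 4 = 1 ∨ n % 4 = 2 ∨ n % 4 = 3 := by omega
      rcases h7 with hm | hm | hm | hm <;> rcases h8 with hn | hn | hn | hn <;>
        first
        | (constructor <;> omega)
        | (exfalso; simp [pow_two, Int.add_emod, Int.mul_emod, hm, hn] at h6)
    obtain ⟨k, hk⟩ : ∃ k : ℤ, m = 2 * k := ⟨m / 2, by omega⟩
    obtain ⟨l, hl⟩ : ∃ l : ℤ, n = 2 * l := ⟨n / 2, by omega⟩
    refine ⟨⟨k, l⟩, ?_⟩
    rw [D1.ev1_apply, eq_intCast, eq_intCast]
    show (k : K) + (l : K) * w = x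
    apply mul_left_cancel₀ h2
    rw [h3, hk, hl]
    push_cast
    ring

theorem p_ok7 : S_ok7 := ok7_ok7

theorem p_ok1 : S_ok1 := ok7_ok1

end Pool.Agent.F8.PIC7
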