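import Pool.Agent.Lib.MP_305fdd_al.F8.PIC7.StmO

/-!
# MP_305fdd_al, PIC7, piece pso: `SL₂(R) / ±1` and Mathlib's `PSL₂`
-/

set_option autoImplicit false

namespace Pool.Agent.F8.PIC7

open Pool.Agent.MP_305fdd_al Pool.Agent.Lib.MP_305fdd_al Pool.Agent.F2X Pool.Agent.F8
  Pool.Agent.F8.HN Pool.Agent.F8.AB

/-- base change along an isomorphism -/
def pso_slE {R S : Type} [CommRing R] [CommRing S] (e : R ≃+* S) : SL2 R ≃* SL2 S :=
  MonoidHom.toMulEquiv (SLm e.toRingHom) (SLm e.symm.toRingHom)
    (by
      ext g i j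
      exact e.symm_apply_apply _)
    (by
      ext g i j
      exact e.apply_symm_apply _)

theorem pso_center (R : Type) [CommRing R] [IsDomain R] : pm R = Subgroup.center (SL2 R) := by
  ext g
  constructor
  · rintro (rfl | rfl)
    · exact Subgroup.one_mem _
    · rw [Subgroup.mem_center_iff]
      intro g
      rw [mul_neg, neg_mul, mul_one, one_mul]
  · intro hg
    rw [Subgroup.mem_center_iff] at hg
    have h1 := hg (mU 1)
    have h2 := hg (mB R)
    have a1 := congrArg (fun x : SL2 R => x.val 0 0) h1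
    have a2 := congrArg (fun x : SL2 R => x.val 0 1) h1
    have b1 := congrArg (fun x : SL2 R => x.val 0 0) h2
    simp only [G.SL_mul, G.mU00, G.mU01, G.mU10, G.mU11] at a1 a2
    simp only [G.SL_mul, G.mB00, G.mB01, G.mB10, G.mB11] at b1
    have hc : g.val 1 0 = 0 := by linear_combination a1
    have hd : g.val 1 1 = g.val 0 0 := by linear_combination a2
    have hb : g.val 0 1 = 0 := by linear_combination (-1 : R) * b1 - hc
    have hdet := G.SL_det g
    rw [hc, hd, mul_zero, sub_zero] at hdet
    rcases mul_self_eq_one_iff.1 hdet with h0 | h0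
    · left
      apply G.SL_ext
      · rw [G.one00, h0]
      · rw [G.one01, hb]
      · rw [G.one10, hc]
      · rw [G.one11, hd, h0]
    · right
      apply G.SL_ext
      · rw [G.SL_neg, G.one00, h0]
      · rw [G.SL_neg, G.one01, hb, neg_zero]
      · rw [G.SL_neg, G.one10, hc, neg_zero]
      · rw [G.SL_neg, G.one11, hd, h0]

/-- piece pso -/
theorem p_pso : S_pso := by
  intro R S _ _ _ _ e
  refine ⟨QuotientGroup.congr (pm R) (Subgroup.center (SL2 S)) (pso_slE e) ?_⟩
  rw [pso_center]
  ext x
  rw [Subgroup.mem_map]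
  constructor
  · rintro ⟨y, hy, rfl⟩
    rw [Subgroup.mem_center_iff] at hy
    rw [Subgroup.mem_center_iff]
    intro g
    obtain ⟨g, rfl⟩ := (pso_slE e).surjective g
    show pso_slE e g * pso_slE e y = pso_slE e y * pso_slE e g
    rw [← map_mul, ← map_mul, hy]
  · intro hx
    rw [Subgroup.mem_center_iff] at hx
    refine ⟨(pso_slE e).symm x, ?_, (pso_slE e).apply_symm_apply x⟩
    rw [Subgroup.mem_center_iff]
    intro g
    apply (pso_slE e).injective
    rw [map_mul, map_mul, MulEquiv.apply_symm_apply, hx]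

end Pool.Agent.F8.PIC7
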