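import Pool.Agent.Lib.MP_305fdd_al.F8.PIC7.StmG

/-!
# MP_305fdd_al, PIC7: the matrices of the elements of even length
-/

set_option autoImplicit false

namespace Pool.Agent.F8.PIC7

open Pool.Agent.MP_305fdd_al Pool.Agent.Lib.MP_305fdd_al Pool.Agent.F2X Pool.Agent.F8
  Pool.Agent.F8.HN Pool.Agent.F8.AB Pool.Agent.F8.D7 Pool.Agent.F8.D7.PG
open scoped QuadraticAlgebra

/-- the labels of an element of `A6` -/
structure e1_Lab (g : SL2 (ZMod 4) × SL2 (ZMod 2)) (b c : ZMod 4) : Prop where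
  mem : g ∈ A6
  l1 : b = g.1.val 1 0
  l2 : c = 2 * g.1.val 0 1 + g.1.val 1 0

theorem e1_Lab.cast {g : SL2 (ZMod 4) × SL2 (ZMod 2)} {b c b' c' : ZMod 4} (h : e1_Lab g b c)
    (hb : b = b') (hc : c = c') : e1_Lab g b' c' := by
  subst hb hc
  exact h

theorem e1_one : e1_Lab 1 0 0 := by
  refine ⟨A6.one_mem, ?_, ?_⟩
  · show (0 : ZMod 4) = (1 : SL2 (ZMod 4)).val 1 0
    rw [G.one10]
  · show (0 : ZMod 4) = 2 * (1 : SL2 (ZMod 4)).val 0 1 + (1 : SL2 (ZMod 4)).val 1 0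
    rw [G.one10, G.one01]; decide

theorem e1_Lab.mul {g h : SL2 (ZMod 4) × SL2 (ZMod 2)} {b c b' c' : ZMod 4} (hg : e1_Lab g b c)
    (hh : e1_Lab h b' c') : e1_Lab (g * h) (b + b') (c + c') := by
  obtain ⟨g1, g2⟩ := g
  obtain ⟨h1, h2⟩ := h
  obtain ⟨m1, p1, p2⟩ := hg
  obtain ⟨m2, q1, q2⟩ := hh
  have hm := A6.mul_mem m1 m2
  obtain ⟨a1, a2, a3⟩ := a6_even g1 g2 m1
  obtain ⟨b1, b2, b3⟩ := a6_even h1 h2 m2
  replace p1 : b = g1.val 1 0 := p1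
  replace p2 : c = 2 * g1.val 0 1 + g1.val 1 0 := p2
  replace q1 : b' = h1.val 1 0 := q1
  replace q2 : c' = 2 * h1.val 0 1 + h1.val 1 0 := q2
  have e1 : (g1 * h1).val 1 0 = g1.val 1 0 + h1.val 1 0 := by
    rw [G.SL_mul, z4_even _ _ a1 b2, mul_comm (g1.val 1 1), z4_even _ _ b1 a3]
  refine ⟨hm, ?_, ?_⟩
  · show b + b' = (g1 * h1).val 1 0
    rw [e1, p1, q1]
  · show c + c' = 2 * (g1 * h1).val 0 1 + (g1 * h1).val 1 0
    rw [e1, p2, q2, G.SL_mul]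
    linear_combination -(h1.val 0 1 * a2) - g1.val 0 1 * b3

theorem e1_Lab.inv {g : SL2 (ZMod 4) × SL2 (ZMod 2)} {b c : ZMod 4} (hg : e1_Lab g b c) :
    e1_Lab g⁻¹ (-b) (-c) := by
  have h' : e1_Lab g⁻¹ _ _ := ⟨A6.inv_mem hg.mem, rfl, rfl⟩
  have h2 := hg.mul h'
  rw [mul_inv_cancel] at h2
  obtain ⟨-, p1, p2⟩ := h2
  obtain ⟨-, q1, q2⟩ := e1_one
  refine h'.cast ?_ ?_
  · exact eq_neg_of_add_eq_zero_right (p1.trans q1.symm)
  · exact eq_neg_of_add_eq_zero_right (p2.trans q2.symm)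

theorem e1_Lab.zpow {g : SL2 (ZMod 4) × SL2 (ZMod 2)} {b c : ZMod 4} (hg : e1_Lab g b c) (n : ℤ) :
    e1_Lab (g ^ n) (n * b) (n * c) := by
  induction n with
  | zero =>
    rw [zpow_zero]
    refine e1_one.cast ?_ ?_ <;> push_cast <;> ring
  | succ n ih =>
    rw [zpow_add_one]
    refine (ih.mul hg).cast ?_ ?_ <;> push_cast <;> ring
  | pred n ih =>
    rw [zpow_sub_one]
    refine (ih.mul hg.inv).cast ?_ ?_ <;> push_cast <;> ring

/-- `X` is the matrix of `M` up to sign -/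
def e1_P (X : GG) (M : SL2 Z7) : Prop := TP X M ∨ TP X (-M)

theorem e1_P_iff (X : GG) (M : SL2 Z7) : e1_P X M ↔ ph X = SLm il M ∨ ph X = -SLm il M := by
  unfold e1_P
  rw [TP_iff, TP_iff, SLm_neg]

theorem e1_P.mul {X X' : GG} {M M' : SL2 Z7} (h : e1_P X M) (h' : e1_P X' M') :
    e1_P (X * X') (M * M') := by
  rw [e1_P_iff] at *
  rw [map_mul, map_mul]
  rcases h with h | h <;> rcases h' with h' | h' <;> rw [h, h']
  · exact Or.inl rfl
  · exact Or.inr (mul_neg _ _)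
  · exact Or.inr (neg_mul _ _)
  · exact Or.inl (neg_mul_neg _ _)

theorem e1_P.inv {X : GG} {M : SL2 Z7} (h : e1_P X M) : e1_P X⁻¹ M⁻¹ := by
  rw [e1_P_iff] at *
  rw [map_inv, map_inv]
  rcases h with h | h <;> rw [h]
  · exact Or.inl rfl
  · exact Or.inr (inv_eq_of_mul_eq_one_left (by rw [neg_mul_neg, inv_mul_cancel]))

theorem e1_P.zpow {X : GG} {M : SL2 Z7} (h : e1_P X M) (n : ℤ) : e1_P (X ^ n) (M ^ n) := by
  induction n with
  | zero => rw [zpow_zero, zpow_zero, e1_P_iff, map_one, map_one]; exact Or.inl rfl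
  | succ n ih => rw [zpow_add_one, zpow_add_one]; exact ih.mul h
  | pred n ih => rw [zpow_sub_one, zpow_sub_one]; exact ih.mul h.inv

/-! ### The generators -/

/-- the matrix of `x0` -/
def e1_X1 : GG := mx ⟨3, 2⟩ ⟨3, 0⟩ ⟨0, -1⟩ ⟨-1, -1⟩ (by decide)
/-- the matrix of `ga * ga` -/
def e1_X2 : GG := mx ⟨-1, 0⟩ ⟨0, 1⟩ ⟨2, 1⟩ ⟨1, -1⟩ (by decide)
/-- the matrix of `ga * x0 * ga⁻¹` -/
def e1_X3 : GG := mx ⟨1, 0⟩ ⟨1, 0⟩ ⟨0, 1⟩ ⟨1, 1⟩ (by decide)
/-- the matrix of `t` -/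
def e1_X4 : GG := mx ⟨1, 0⟩ ⟨1, 0⟩ ⟨0, 0⟩ ⟨1, 0⟩ (by decide)

theorem e1_M1 : Mv' * Mu = mx (zz 3 2 0 0) (zz 0 0 3 0) (zz 0 0 (-1) 0) (zz (-1) (-1) 0 0)
    (by decide) := by
  unfold Mv' Mu
  rw [mx_mul]
  apply mx_congr <;> decide

theorem e1_M2 : Mu * Mu = mx (zz (-1) 0 0 0) (zz 0 0 0 1) (zz 0 0 0 (-1)) (zz 1 (-1) 0 0)
    (by decide) := by
  unfold Mu
  rw [mx_mul]
  apply mx_congr <;> decide

theorem e1_M3 : Mu * (Mv' * Mu) * Mu' = mx (zz 1 0 0 0) (zz 0 0 1 0) (zz 0 0 1 0) (zz 1 1 0 0)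
    (by decide) := by
  unfold Mv' Mu Mu'
  rw [mx_mul, mx_mul, mx_mul]
  apply mx_congr <;> decide

theorem e1_T1 : TP e1_X1 (Mv' * Mu) := by
  rw [e1_M1]
  exact ⟨by decide, by decide, by decide, by decide⟩

theorem e1_T2 : TP e1_X2 (Mu * Mu) := by
  rw [e1_M2]
  exact ⟨by decide, by decide, by decide, by decide⟩

theorem e1_T3 : TP e1_X3 (Mu * (Mv' * Mu) * Mu') := by
  rw [e1_M3]
  exact ⟨by decide, by decide, by decide, by decide⟩

theorem e1_T4 : TP e1_X4 PG.Mt := by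
  unfold PG.Mt
  exact ⟨by decide, by decide, by decide, by decide⟩

theorem e1_L1 : e1_Lab (r42 e1_X1) 2 0 := ⟨by show _ = _; decide, by decide, by decide⟩
theorem e1_L2 : e1_Lab (r42 e1_X2) 0 0 := ⟨by show _ = _; decide, by decide, by decide⟩
theorem e1_L3 : e1_Lab (r42 e1_X3) 2 0 := ⟨by show _ = _; decide, by decide, by decide⟩
theorem e1_L4 : e1_Lab (r42 e1_X4) 0 2 := ⟨by show _ = _; decide, by decide, by decide⟩

/-- the elements of even length and their matrices -/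
def e1_K : Subgroup F where
  carrier := {w | ∃ X : GG, e1_P X (rz (iA al7 w)) ∧ e1_Lab (r42 X) (2 * vec w 1 : ℤ) 0}
  one_mem' := by
    refine ⟨1, ?_, ?_⟩
    · rw [map_one, map_one, e1_P_iff, map_one, map_one]; exact Or.inl rfl
    · rw [map_one]
      refine e1_one.cast ?_ rfl
      · rw [vec_one]; simp
  mul_mem' := by
    rintro w w' ⟨X, h1, h2⟩ ⟨X', h1', h2'⟩
    refine ⟨X * X', ?_, ?_⟩
    · rw [map_mul, map_mul]; exact h1.mul h1'
    · rw [map_mul]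
      refine (h2.mul h2').cast ?_ (add_zero 0)
      · rw [vec_mul, Pi.add_apply]; push_cast; ring
  inv_mem' := by
    rintro w ⟨X, h1, h2⟩
    refine ⟨X⁻¹, ?_, ?_⟩
    · rw [map_inv, map_inv]; exact h1.inv
    · rw [map_inv]
      refine h2.inv.cast ?_ neg_zero
      · rw [vec_inv, Pi.neg_apply]; push_cast; ring

theorem e1_ru : rz (iA al7 ga) = Mu := by rw [rho7_iA, rF7_ga]; exact mu_M
theorem e1_rv : rz (iA al7 gb) = Mv := by rw [rho7_iA, rF7_gb]; exact mv_M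
theorem e1_rt : rz (tA al7) = PG.Mt := by rw [rho7_tA]; exact mt_M

theorem e1_vga : vec ga 1 = 0 := by simp [ga]
theorem e1_vgb : vec gb 1 = 1 := by simp [gb]

theorem e1_rx : rz (iA al7 x0) = Mv' * Mu := by
  unfold x0
  rw [map_mul, map_mul, map_inv, map_inv, e1_ru, e1_rv, Mv_inv]

theorem p_e1 (hf6 : S_f6) : S_e1 := by
  intro w n h0
  have hw : w ∈ e1_K := by
    apply hf6 e1_K
    · refine ⟨e1_X1, Or.inl ?_, e1_L1.cast ?_ rfl⟩
      · rw [e1_rx]; exact e1_T1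
      · unfold x0
        rw [vec_mul, vec_inv, Pi.add_apply, Pi.neg_apply, e1_vga, e1_vgb]
        decide
    · refine ⟨e1_X2, Or.inl ?_, e1_L2.cast ?_ rfl⟩
      · rw [map_mul, map_mul, e1_ru]; exact e1_T2
      · rw [vec_mul, Pi.add_apply, e1_vga]
        decide
    · refine ⟨e1_X3, Or.inl ?_, e1_L3.cast ?_ rfl⟩
      · rw [map_mul, map_mul, map_mul, map_mul, map_inv, map_inv, e1_rx, e1_ru, Mu_inv]
        exact e1_T3
      · unfold x0
        rw [vec_mul, vec_mul, vec_mul, vec_inv, vec_inv, Pi.add_apply, Pi.add_apply, Pi.add_apply,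
          Pi.neg_apply, Pi.neg_apply, e1_vga, e1_vgb]
        decide
    · exact h0
  obtain ⟨X, hX, hl⟩ := hw
  have hT' : e1_P e1_X4 (rz (tA al7)) := by
    left
    rw [e1_rt]
    exact e1_T4
  have h3 := hX.mul (hT'.zpow n)
  have h4 := hl.mul (e1_L4.zpow n)
  rw [← map_zpow, ← map_mul] at h3
  rw [← map_zpow, ← map_mul] at h4
  obtain ⟨m, p1, p2⟩ := h4
  refine ⟨X * e1_X4 ^ n, m, h3, ?_, ?_⟩
  · refine Eq.trans ?_ p1
    push_cast; ring
  · refine Eq.trans ?_ p2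
    push_cast; ring

end Pool.Agent.F8.PIC7
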