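import Pool.Agent.Lib.MP_305fdd_al.F8.PIC7.StmG

/-!
# MP_305fdd_al, PIC7, piece e2: every element of `G6` is the matrix of an element of even length
-/

set_option autoImplicit false

namespace Pool.Agent.F8.PIC7

open Pool.Agent.MP_305fdd_al Pool.Agent.Lib.MP_305fdd_al Pool.Agent.F2X Pool.Agent.F8
  Pool.Agent.F8.HN Pool.Agent.F8.AB Pool.Agent.F8.D7
open Pool.Agent.F8.D7.PG (TP TP_iff Mu Mv Mk)
open scoped QuadraticAlgebra

noncomputable section

/-! ### The entries of a matrix in `G6` -/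

theorem e2_two (n : ℤ) (h : 2 * (n : ZMod 4) = 0) : Even n := by
  have h1 : ((2 * n : ℤ) : ZMod 4) = 0 := by push_cast; exact h
  have h2 : (4 : ℤ) ∣ 2 * n := by
    have := (ZMod.intCast_zmod_eq_zero_iff_dvd (2 * n) 4).1 h1
    exact_mod_cast this
  rw [Int.even_iff]
  omega

theorem e2_dvd (X : GG) (hX : X ∈ G6) : ∃ c : O7, X.val 1 0 = D7.dl ℤ * c := by
  have h : 2 * (r4 X).val 0 1 + (r4 X).val 1 0 = sx (r2 X) := hX
  obtain ⟨h1, -, -⟩ := a6_even _ _ h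
  have h2 : 2 * (((X.val 1 0).re : ZMod 4) + ((X.val 1 0).im : ZMod 4) * 2) = 0 := h1
  have h4 : (4 : ZMod 4) = 0 := by decide
  have h3 : Even (X.val 1 0).re := by
    apply e2_two
    linear_combination h2 - ((X.val 1 0).im : ZMod 4) * h4
  obtain ⟨k, hk⟩ := h3
  refine ⟨⟨(X.val 1 0).im - k, -k⟩, ?_⟩
  apply QuadraticAlgebra.ext
  · rw [QuadraticAlgebra.re_mul, hk]
    simp only [D7.dl]; ring
  · rw [QuadraticAlgebra.im_mul]
    simp only [D7.dl]; ring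

/-! ### The matrix over `Z7` -/

theorem e2_sg (z : O7) : sg ℤ (c7 z) = c7 z := by
  rw [sg_apply]
  apply QuadraticAlgebra.ext
  · rfl
  · show -(c7 z).im = (c7 z).im
    rw [PG.c7_im, neg_zero]

theorem e2_ss : D7.ss ℤ * D7.ss ℤ = c7 (D7.dl ℤ) := by decide

/-- the matrix of an element of `G6` -/
theorem e2_M (X : GG) (hX : X ∈ G6) : ∃ M : SL2 Z7, TP X M ∧ tw (sg ℤ) M = M := by
  obtain ⟨c, hc⟩ := e2_dvd X hX
  have hd := congrArg c7 (G.SL_det X)
  rw [map_sub, map_mul, map_mul, map_one, hc, map_mul, ← e2_ss] at hd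
  refine ⟨mx (c7 (X.val 0 0)) (D7.ss ℤ * c7 (X.val 0 1)) (D7.ss ℤ * c7 c)
    (c7 (X.val 1 1)) (by linear_combination hd), ⟨?_, ?_, ?_, ?_⟩, ?_⟩
  · rw [mx_00]
  · rw [mx_01]
  · rw [mx_10, hc, map_mul, ← e2_ss]
    ring
  · rw [mx_11]
  · rw [tw_mx]
    apply mx_congr <;> simp only [map_mul, e2_sg, sg_ss] <;> ring

/-! ### The types -/

theorem e2_nn (g : SL2 Z7) (h : g = -g) : False := by
  have h0 : ∀ i k : Fin 2, g.val i k = 0 := by
    intro i k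
    apply PG.two_nd
    have h1 : g.val i k = -(g.val i k) := congrArg (fun g : SL2 Z7 => g.val i k) h
    linear_combination h1
  have hd := G.SL_det g
  rw [h0, h0, h0, h0] at hd
  have h1 : (0 : Z7) = 1 := by linear_combination hd
  exact absurd h1 (by decide)

theorem e2_neg_inv (g : SL2 Z7) : (-g)⁻¹ = -g⁻¹ := by
  apply inv_eq_of_mul_eq_one_left
  rw [neg_mul_neg, inv_mul_cancel]

theorem e2_tw_u : tw (sg ℤ) Mu = -Mu := by
  unfold Mu
  rw [tw_mx, mx_neg]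
  apply mx_congr <;> decide

theorem e2_tw_v : tw (sg ℤ) Mv = -Mv := by
  unfold Mv
  rw [tw_mx, mx_neg]
  apply mx_congr <;> decide

theorem e2_tw_t : tw (sg ℤ) PG.Mt = PG.Mt := by
  unfold PG.Mt
  rw [tw_mx]
  apply mx_congr <;> decide

theorem e2_tw_k : tw (sg ℤ) Mk = Mk := by
  unfold Mk
  rw [tw_mx]
  apply mx_congr <;> decide

/-- the representation of `F` -/
abbrev e2_r : F →* SL2 Z7 := rF7 (D7.ss ℤ) (ss_eq ℤ)

theorem e2_F (S : Subgroup F) (ha : ga ∈ S) (hb : gb ∈ S) (w : F) : w ∈ S := by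
  have e : S.subtype.comp (liF (⟨ga, ha⟩ : S) ⟨gb, hb⟩) = MonoidHom.id F := by
    apply hom_ext
    · rw [MonoidHom.comp_apply, liF_ga]; rfl
    · rw [MonoidHom.comp_apply, liF_gb]; rfl
  have e1 := DFunLike.congr_fun e w
  have e2 : S.subtype (liF (⟨ga, ha⟩ : S) ⟨gb, hb⟩ w) = w := e1
  rw [← e2]
  exact (liF (⟨ga, ha⟩ : S) ⟨gb, hb⟩ w).2

/-- signs -/
theorem e2_sgn (w : F) :
    (Even (vec w 0 + vec w 1) ∧ tw (sg ℤ) (e2_r w) = e2_r w) ∨
      (¬ Even (vec w 0 + vec w 1) ∧ tw (sg ℤ) (e2_r w) = -e2_r w) := by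
  let S : Subgroup F :=
    { carrier := {w | (Even (vec w 0 + vec w 1) ∧ tw (sg ℤ) (e2_r w) = e2_r w) ∨
        (¬ Even (vec w 0 + vec w 1) ∧ tw (sg ℤ) (e2_r w) = -e2_r w)}
      one_mem' := by
        left
        refine ⟨?_, by rw [map_one, map_one]⟩
        rw [vec_one]
        simp
      mul_mem' := by
        intro x y hx hy
        have hv : vec (x * y) 0 + vec (x * y) 1 =
            (vec x 0 + vec x 1) + (vec y 0 + vec y 1) := by
          rw [vec_mul, Pi.add_apply, Pi.add_apply]; ring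
        show (Even (vec (x * y) 0 + vec (x * y) 1) ∧ _) ∨
          (¬ Even (vec (x * y) 0 + vec (x * y) 1) ∧ _)
        rw [hv, map_mul, map_mul, Int.even_add]
        rcases hx with ⟨h1, h2⟩ | ⟨h1, h2⟩ <;> rcases hy with ⟨h3, h4⟩ | ⟨h3, h4⟩
        · left; exact ⟨⟨fun _ => h3, fun _ => h1⟩, by rw [h2, h4]⟩
        · right; exact ⟨fun h => h3 (h.1 h1), by rw [h2, h4, mul_neg]⟩
        · right; exact ⟨fun h => h1 (h.2 h3), by rw [h2, h4, neg_mul]⟩
        · left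
          exact ⟨⟨fun h => absurd h h1, fun h => absurd h h3⟩, by rw [h2, h4, neg_mul_neg]⟩
      inv_mem' := by
        intro x hx
        have hv : vec x⁻¹ 0 + vec x⁻¹ 1 = -(vec x 0 + vec x 1) := by
          rw [vec_inv, Pi.neg_apply, Pi.neg_apply]; ring
        show (Even (vec x⁻¹ 0 + vec x⁻¹ 1) ∧ _) ∨
          (¬ Even (vec x⁻¹ 0 + vec x⁻¹ 1) ∧ _)
        rw [hv, map_inv, map_inv, even_neg]
        rcases hx with ⟨h1, h2⟩ | ⟨h1, h2⟩
        · left; exact ⟨h1, by rw [h2]⟩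
        · right; exact ⟨h1, by rw [h2, e2_neg_inv]⟩ }
  apply e2_F S
  · show (Even (vec ga 0 + vec ga 1) ∧ _) ∨ (¬ Even (vec ga 0 + vec ga 1) ∧ _)
    have h1 : vec ga 0 + vec ga 1 = 1 := by simp [ga]
    have h2 : e2_r ga = Mu := by rw [← PG.mu_M]; exact rF7_ga _ _
    rw [h1, h2]
    exact Or.inr ⟨by decide, e2_tw_u⟩
  · show (Even (vec gb 0 + vec gb 1) ∧ _) ∨ (¬ Even (vec gb 0 + vec gb 1) ∧ _)
    have h1 : vec gb 0 + vec gb 1 = 1 := by simp [gb]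
    have h2 : e2_r gb = Mv := by rw [← PG.mv_M]; exact rF7_gb _ _
    rw [h1, h2]
    exact Or.inr ⟨by decide, e2_tw_v⟩

theorem e2_rz (w : F) (n : ℤ) : rz (iA al7 w * tA al7 ^ n) = e2_r w * PG.Mt ^ n := by
  rw [map_mul, map_zpow, rho7_iA, rho7_tA, PG.mt_M]

/-- the length of an element of type zero is even -/
theorem e2_ev (M : SL2 Z7) (h1 : tw (sg ℤ) M = M) (g : G7) (h : pj Z7 M = pj Z7 (rz g)) :
    ∃ (w : F) (n : ℤ), Even (vec w 0 + vec w 1) ∧
      (M = rz (iA al7 w * tA al7 ^ n) ∨ M = -rz (iA al7 w * tA al7 ^ n)) := by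
  obtain ⟨w, n, rfl⟩ := GA_cases al7 g
  have h3 := pj_eq h
  refine ⟨w, n, ?_, h3⟩
  by_contra hc
  rcases e2_sgn w with ⟨h4, -⟩ | ⟨-, h4⟩
  · exact hc h4
  have h5 : tw (sg ℤ) (rz (iA al7 w * tA al7 ^ n)) = -rz (iA al7 w * tA al7 ^ n) := by
    rw [e2_rz, map_mul, map_zpow, h4, e2_tw_t, neg_mul]
  rcases h3 with h3 | h3
  · rw [h3, h5] at h1
    exact e2_nn _ h1.symm
  · rw [h3, tw_neg, h5] at h1
    exact e2_nn _ (by rw [h1])

/-! ### The element `k` -/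

theorem e2_ssc (z y : O7) (h : D7.ss ℤ * c7 z = D7.ss ℤ * c7 y) : z = y := by
  have h1 := congrArg QuadraticAlgebra.im h
  rw [QuadraticAlgebra.im_mul, QuadraticAlgebra.im_mul, PG.c7_im, PG.c7_im, PG.c7_re,
    PG.c7_re] at h1
  simpa [D7.ss] using h1

theorem e2_Mk_not (Y : GG) (hY : Y ∈ G6) (h : TP Y Mk ∨ TP Y (-Mk)) : False := by
  have h3 : 2 * (r4 Y).val 0 1 + (r4 Y).val 1 0 = sx (r2 Y) := hY
  rcases h with h | h
  · have y1 : Y.val 0 0 = ⟨1, 1⟩ := by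
      apply PG.c7_inj; rw [← h.a]; decide
    have y2 : Y.val 0 1 = 1 := by
      apply e2_ssc; rw [← h.b]; decide
    have y3 : Y.val 1 0 = ⟨0, -1⟩ := by
      apply PG.c7_inj; rw [← h.c]; decide
    have y4 : Y.val 1 1 = ⟨-1, -1⟩ := by
      apply PG.c7_inj; rw [← h.d]; decide
    have hY : Y = mx ⟨1, 1⟩ 1 ⟨0, -1⟩ ⟨-1, -1⟩ (by decide) := by
      apply G.SL_ext
      · rw [mx_00, y1]
      · rw [mx_01, y2]
      · rw [mx_10, y3]
      · rw [mx_11, y4]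
    rw [hY] at h3
    revert h3
    decide
  · have y1 : Y.val 0 0 = ⟨-1, -1⟩ := by
      apply PG.c7_inj; rw [← h.a]; decide
    have y2 : Y.val 0 1 = -1 := by
      apply e2_ssc; rw [← h.b]; decide
    have y3 : Y.val 1 0 = ⟨0, 1⟩ := by
      apply PG.c7_inj; rw [← h.c]; decide
    have y4 : Y.val 1 1 = ⟨1, 1⟩ := by
      apply PG.c7_inj; rw [← h.d]; decide
    have hY : Y = mx ⟨-1, -1⟩ (-1) ⟨0, 1⟩ ⟨1, 1⟩ (by decide) := by
      apply G.SL_ext
      · rw [mx_00, y1]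
      · rw [mx_01, y2]
      · rw [mx_10, y3]
      · rw [mx_11, y4]
    rw [hY] at h3
    revert h3
    decide

theorem e2_TP_mul {X X' : GG} {M M' : SL2 Z7} (h : TP X M) (h' : TP X' M') :
    TP (X'⁻¹ * X) (M'⁻¹ * M) := by
  rw [TP_iff] at h h' ⊢
  rw [map_mul, map_mul, map_inv, map_inv, h, h']

/-- [PIC7 e2] every element of `G6` is such a matrix. -/
theorem p_e2 (h1 : S_e1) : S_e2 := by
  intro X hX
  obtain ⟨M, hTP, htw⟩ := e2_M X hX
  obtain ⟨z, hz⟩ := PG.ex_zero M htw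
  obtain ⟨g, hg | hg⟩ := K_cases kp7 z
  · have h2 : pj Z7 M = pj Z7 (rz g) := by
      rw [← hz, hg]
      exact Th7s_iK _ _ g
    obtain ⟨w, n, e1, h3⟩ := e2_ev M htw g h2
    refine ⟨w, n, e1, ?_⟩
    rcases h3 with h3 | h3
    · left; rw [← h3]; exact hTP
    · right; rw [← h3]; exact hTP
  · exfalso
    have h2 : pj Z7 (M * Mk⁻¹) = pj Z7 (rz g) := by
      have k3 : D7.Th7 (iK kp7 g) = pj Z7 (rz g) := Th7s_iK _ _ _
      have k4 : iK kp7 g = z * (PG.nk)⁻¹ := by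
        rw [hg]
        exact (mul_inv_cancel_right _ _).symm
      rw [← k3, k4, map_mul, map_inv, map_mul D7.Th7, map_inv D7.Th7, PG.Th_nk, hz]
    obtain ⟨w, n, e1, h3⟩ := e2_ev (M * Mk⁻¹)
      (by rw [map_mul, map_inv, htw, e2_tw_k]) _ h2
    obtain ⟨X', hX', h4, -⟩ := h1 w n e1
    have h5 : TP X' (M * Mk⁻¹) ∨ TP X' (-(M * Mk⁻¹)) := by
      rcases h3 with h3 | h3 <;> rcases h4 with h4 | h4
      · left; rw [h3]; exact h4
      · right; rw [h3]; exact h4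
      · right; rw [h3, neg_neg]; exact h4
      · left; rw [h3]; exact h4
    apply e2_Mk_not (X'⁻¹ * X) (G6.mul_mem (G6.inv_mem hX') hX)
    rcases h5 with h5 | h5
    · left
      have h6 := e2_TP_mul hTP h5
      have h7 : (M * Mk⁻¹)⁻¹ * M = Mk := by group
      rwa [h7] at h6
    · right
      have h6 := e2_TP_mul hTP h5
      have h7 : (-(M * Mk⁻¹))⁻¹ * M = -Mk := by
        rw [e2_neg_inv, neg_mul]
        congr 1
        group
      rwa [h7] at h6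

end

end Pool.Agent.F8.PIC7
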