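import Pool.Agent.Lib.MP_305fdd_al.F8.PIC7.StmG
import Pool.Agent.Lib.MP_305fdd_al.F8.D7.G.End

/-!
# MP_305fdd_al, `PSL₂(O₇)`: the homomorphism `G6 → G7`
-/

set_option autoImplicit false

namespace Pool.Agent.F8.PIC7

open Pool.Agent.MP_305fdd_al Pool.Agent.Lib.MP_305fdd_al Pool.Agent.F2X Pool.Agent.F8
  Pool.Agent.F8.HN Pool.Agent.F8.AB Pool.Agent.F8.D7
open Pool.Agent.F8.D7.PG (TP TP_iff ph ph_neg il mp mp_inj mp_pj SLm_neg SLm_val Th_injective
  c7_inj c7_re c7_im)
open Pool.Agent.F8.G (SL_ext SL_mul SL_det SL_neg one00 one01 one10 one11)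
open scoped QuadraticAlgebra

/-- the injective homomorphism `G7 → SL₂(L) / ±1` -/
noncomputable def eta_Ps : G7 →* SL2 PG.L ⧸ pm PG.L := mp.comp (D7.Th7.comp (iK kp7))

theorem eta_Ps_apply (g : G7) : eta_Ps g = pj PG.L (SLm il (rz g)) := by
  show mp (D7.Th7s _ _ (iK kp7 g)) = _
  rw [Th7s_iK, mp_pj]

theorem eta_Ps_inj : Function.Injective eta_Ps := by
  intro x y h
  exact SemidirectProduct.inl_injective (Th_injective (mp_inj h))

theorem eta_TP {X : GG} {g : G7} :
    (TP X (rz g) ∨ TP X (-rz g)) ↔ pj PG.L (ph X) = eta_Ps g := by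
  rw [eta_Ps_apply]
  constructor
  · rintro (h | h)
    · rw [(TP_iff _ _).1 h]
    · rw [(TP_iff _ _).1 h, SLm_neg, pj_neg]
  · intro h
    rcases pj_eq h with h | h
    · left; exact (TP_iff _ _).2 h
    · right; rw [← SLm_neg] at h; exact (TP_iff _ _).2 h

theorem eta_ex (h2 : S_e2) (X : G6) : ∃ g : G7, pj PG.L (ph X.val) = eta_Ps g := by
  obtain ⟨w, n, -, h⟩ := h2 X.val X.2
  exact ⟨_, eta_TP.1 h⟩

/-- the homomorphism -/
noncomputable def eta_hom (h2 : S_e2) : G6 →* G7 where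
  toFun X := Classical.choose (eta_ex h2 X)
  map_one' := by
    apply eta_Ps_inj
    rw [← Classical.choose_spec (eta_ex h2 1), map_one eta_Ps]
    show pj PG.L (ph 1) = 1
    rw [map_one ph, map_one]
  map_mul' X Y := by
    apply eta_Ps_inj
    rw [map_mul eta_Ps, ← Classical.choose_spec (eta_ex h2 (X * Y)),
      ← Classical.choose_spec (eta_ex h2 X), ← Classical.choose_spec (eta_ex h2 Y)]
    show pj PG.L (ph (X.val * Y.val)) = _
    rw [map_mul ph, map_mul]

theorem eta_spec (h2 : S_e2) (X : G6) : pj PG.L (ph X.val) = eta_Ps (eta_hom h2 X) :=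
  Classical.choose_spec (eta_ex h2 X)

theorem eta_eq (h2 : S_e2) {X : G6} {g : G7} (h : TP X.val (rz g) ∨ TP X.val (-rz g)) :
    eta_hom h2 X = g := by
  apply eta_Ps_inj
  rw [← eta_spec, eta_TP.1 h]

theorem eta_ker (h2 : S_e2) (x : G6) : eta_hom h2 x = 1 ↔ x.val = 1 ∨ x.val = -1 := by
  constructor
  · intro h
    have h3 := eta_spec h2 x
    rw [h] at h3
    have h4 := eta_TP.2 h3
    rw [map_one] at h4
    rcases h4 with h2 | h2
    · left
      apply SL_ext
      · apply c7_inj; rw [← h2.a, one00, one00, map_one]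
      · have := h2.b
        rw [one01] at this
        have h5 := congrArg QuadraticAlgebra.im this
        rw [QuadraticAlgebra.im_mul, c7_re, c7_im] at h5
        rw [one01]
        simpa [ss] using h5.symm
      · apply c7_inj; rw [← h2.c, one10, one10, map_zero, mul_zero]
      · apply c7_inj; rw [← h2.d, one11, one11, map_one]
    · right
      apply SL_ext
      · apply c7_inj; rw [← h2.a, SL_neg, SL_neg, one00, one00, map_neg, map_one]
      · have := h2.b
        rw [SL_neg, one01, neg_zero] at this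
        have h5 := congrArg QuadraticAlgebra.im this
        rw [QuadraticAlgebra.im_mul, c7_re, c7_im] at h5
        rw [SL_neg, one01, neg_zero]
        simpa [ss] using h5.symm
      · apply c7_inj; rw [← h2.c, SL_neg, SL_neg, one10, one10, neg_zero, neg_zero, map_zero,
          mul_zero]
      · apply c7_inj; rw [← h2.d, SL_neg, SL_neg, one11, one11, map_neg, map_one]
  · intro h
    apply eta_Ps_inj
    rw [← eta_spec, map_one]
    rcases h with h | h
    · rw [h, map_one, map_one]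
    · rw [h, ph_neg, pj_neg, map_one, map_one]

theorem eta_uniq {w w' : F} {n n' : ℤ} (h : iA al7 w * tA al7 ^ n = iA al7 w' * tA al7 ^ n') :
    w = w' ∧ n = n' := by
  have h1 := congrArg (nA al7) h
  rw [map_mul, map_mul, map_zpow, map_zpow, nA_iA, nA_iA, nA_tA, one_mul, one_mul,
    ← ofAdd_zsmul, ← ofAdd_zsmul] at h1
  have h2 : n • (1 : ℤ) = n' • (1 : ℤ) := Multiplicative.ofAdd.injective h1
  have h3 : n = n' := by simpa using h2
  subst h3
  exact ⟨iA_injective al7 (mul_right_cancel h), rfl⟩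

theorem eta_ev (h2 : S_e2) (x : G6) (w : F) (n : ℤ)
    (h : eta_hom h2 x = iA al7 w * tA al7 ^ n) : Even (vec w 0 + vec w 1) := by
  obtain ⟨w', n', e, h3⟩ := h2 x.val x.2
  have h4 := eta_eq h2 h3
  rw [h] at h4
  obtain ⟨rfl, rfl⟩ := eta_uniq h4
  exact e

theorem eta_neg4 : ∀ a : ZMod 4, 2 * a = 0 → -a = a := by decide

theorem eta_two4 : ∀ a : ZMod 4, 2 * -a = 2 * a := by decide

theorem eta_c {X : GG} (hX : X ∈ G6) : 2 * (r4 X).val 1 0 = 0 :=
  (a6_even (r4 X) (r2 X) hX).1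

theorem eta_neg (X : GG) (i k : Fin 2) : (r4 (-X)).val i k = -(r4 X).val i k := by
  show (SLm _ (-X)).val i k = -(SLm _ X).val i k
  rw [SLm_neg, SL_neg]

theorem eta_lab (h1 : S_e1) (h2 : S_e2) (x : G6) (w : F) (n : ℤ)
    (h : eta_hom h2 x = iA al7 w * tA al7 ^ n) :
    ((2 * vec w 1 : ℤ) : ZMod 4) = (r4 x.val).val 1 0 ∧
    ((2 * n : ℤ) : ZMod 4) = 2 * (r4 x.val).val 0 1 + (r4 x.val).val 1 0 := by
  obtain ⟨X, hX, h5, l1, l2⟩ := h1 w n (eta_ev h2 x w n h)
  have h6 : eta_hom h2 ⟨X, hX⟩ = eta_hom h2 x := by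
    rw [h]
    exact eta_eq h2 h5
  have h7 : eta_hom h2 ((⟨X, hX⟩ : G6)⁻¹ * x) = 1 := by
    rw [map_mul, map_inv, h6, inv_mul_cancel]
  rcases (eta_ker h2 _).1 h7 with h8 | h8
  · have h9 : x.val = X := by
      have : X⁻¹ * x.val = 1 := h8
      rw [inv_mul_eq_one] at this
      exact this.symm
    rw [h9]
    exact ⟨l1, l2⟩
  · have h9 : x.val = -X := by
      have : X⁻¹ * x.val = -1 := h8
      rw [inv_mul_eq_iff_eq_mul, mul_neg, mul_one] at this
      exact this
    rw [h9, eta_neg, eta_neg, eta_neg4 _ (eta_c hX), eta_two4]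
    exact ⟨l1, l2⟩

/-- the lower left entry is zero -/
def eta_UT : Subgroup (SL2 Z7) where
  carrier := {M | M.val 1 0 = 0}
  one_mem' := one10
  mul_mem' := by
    intro M N hM hN
    show (M * N).val 1 0 = 0
    have h1 : M.val 1 0 = 0 := hM
    have h2 : N.val 1 0 = 0 := hN
    rw [SL_mul, h1, h2, zero_mul, mul_zero, add_zero]
  inv_mem' := by
    intro M hM
    have h1 : M.val 1 0 = 0 := hM
    show (M⁻¹).val 1 0 = 0
    rw [Matrix.SpecialLinearGroup.SL2_inv_expl]
    show -M.val 1 0 = 0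
    rw [h1, neg_zero]

theorem eta_cc : rz (iA al7 PIC.cc) = PG.Mu * PG.Mv' * PG.Mu' * PG.Mv := by
  unfold PIC.cc
  rw [rho7_iA, map_mul, map_mul, map_mul, map_inv, map_inv, rF7_ga, rF7_gb, PG.mu_M, PG.mv_M,
    PG.Mu_inv, PG.Mv_inv]

theorem eta_cc10 : (PG.Mu * PG.Mv' * PG.Mu' * PG.Mv).val 1 0 = 0 := by
  simp only [SL_mul]
  decide +kernel

theorem eta_par1 (g : G7) (hg : g ∈ Subgroup.closure {iA al7 PIC.cc, tA al7}) :
    (rz g).val 1 0 = 0 := by
  have h : Subgroup.closure {iA al7 PIC.cc, tA al7} ≤ eta_UT.comap rz := by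
    rw [Subgroup.closure_le]
    rintro x (rfl | rfl)
    · show (rz (iA al7 PIC.cc)).val 1 0 = 0
      rw [eta_cc]
      exact eta_cc10
    · show (rz (tA al7)).val 1 0 = 0
      rw [rho7_tA, PG.mt_M]
      rfl
  exact h hg

theorem eta_par (h2 : S_e2) (x : G6)
    (hx : eta_hom h2 x ∈ Subgroup.closure {iA al7 PIC.cc, tA al7}) : x.val.val 1 0 = 0 := by
  have h3 := eta_par1 _ hx
  have h4 := eta_TP.2 (eta_spec h2 x)
  apply c7_inj
  rcases h4 with h4 | h4
  · rw [← h4.c, h3, map_zero, mul_zero]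
  · rw [← h4.c, SL_neg, h3, map_zero, neg_zero, mul_zero]

theorem p_eta (h1 : S_e1) (h2 : S_e2) : S_eta := by
  refine ⟨eta_hom h2, eta_ker h2, ?_, eta_ev h2, eta_lab h1 h2, eta_par h2⟩
  intro w n e
  obtain ⟨X, hX, h5, -⟩ := h1 w n e
  exact ⟨⟨X, hX⟩, eta_eq h2 h5⟩

end Pool.Agent.F8.PIC7
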