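import Pool.Agent.Lib.MP_305fdd_al.F8.PIC7.StmG

/-!
# Piece f6: generators of the subgroup of `F` of the elements of even length
-/

set_option autoImplicit false

namespace Pool.Agent.F8.PIC7

open Pool.Agent.MP_305fdd_al Pool.Agent.Lib.MP_305fdd_al Pool.Agent.F2X Pool.Agent.F8
  Pool.Agent.F8.HN Pool.Agent.F8.AB Pool.Agent.F8.D7

/-- `w` lies in the coset of `K` given by the parity of its length -/
private def f6_Q (K : Subgroup F) (w : F) : Prop :=
  (Even (vec w 0 + vec w 1) → w ∈ K) ∧ (¬ Even (vec w 0 + vec w 1) → w * ga⁻¹ ∈ K)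

private theorem f6_ga (w : F) : Even (vec (w * ga) 0 + vec (w * ga) 1) ↔
    ¬ Even (vec w 0 + vec w 1) := by
  rw [vec_mul, Pi.add_apply, Pi.add_apply]
  have h0 : vec ga 0 = 1 := by simp
  have h1 : vec ga 1 = 0 := by simp
  rw [h0, h1, add_zero, add_right_comm, Int.even_add_one]

private theorem f6_ga' (w : F) : Even (vec (w * ga⁻¹) 0 + vec (w * ga⁻¹) 1) ↔
    ¬ Even (vec w 0 + vec w 1) := by
  have h := f6_ga (w * ga⁻¹)
  rw [inv_mul_cancel_right] at h
  rw [h, not_not]

private theorem f6_x (w : F) : Even (vec (w * x0) 0 + vec (w * x0) 1) ↔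
    Even (vec w 0 + vec w 1) := by
  have h0 : vec x0 0 = 1 := by unfold x0; simp
  have h1 : vec x0 1 = -1 := by unfold x0; simp
  rw [vec_mul, Pi.add_apply, Pi.add_apply, h0, h1]
  have e : vec w 0 + 1 + (vec w 1 + -1) = vec w 0 + vec w 1 := by ring
  rw [e]

private theorem f6_x' (w : F) : Even (vec (w * x0⁻¹) 0 + vec (w * x0⁻¹) 1) ↔
    Even (vec w 0 + vec w 1) := by
  have h := f6_x (w * x0⁻¹)
  rw [inv_mul_cancel_right] at h
  exact h.symm

theorem p_f6 : S_f6 := by
  intro K y1 y2 y3
  -- the set of all the elements which preserve the property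
  let S : Subgroup F :=
    { carrier := {z | ∀ w, f6_Q K w → f6_Q K (w * z) ∧ f6_Q K (w * z⁻¹)}
      one_mem' := fun w hw => by
        rw [mul_one, inv_one, mul_one]
        exact ⟨hw, hw⟩
      mul_mem' := by
        intro y z hy hz w hw
        rw [← mul_assoc, mul_inv_rev, ← mul_assoc]
        exact ⟨(hz _ (hy w hw).1).1, (hy _ (hz w hw).2).2⟩
      inv_mem' := by
        intro z hz w hw
        rw [inv_inv]
        exact ⟨(hz w hw).2, (hz w hw).1⟩ }
  have hga : ga ∈ S := by
    intro w hw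
    obtain ⟨h1, h2⟩ := hw
    constructor
    · refine ⟨fun p => ?_, fun p => ?_⟩
      · have := K.mul_mem (h2 ((f6_ga w).1 p)) y2
        have e : w * ga⁻¹ * (ga * ga) = w * ga := by group
        rwa [e] at this
      · rw [mul_inv_cancel_right]
        exact h1 (by by_contra hc; exact p ((f6_ga w).2 hc))
    · refine ⟨fun p => ?_, fun p => ?_⟩
      · exact h2 ((f6_ga' w).1 p)
      · have := K.mul_mem (h1 (by by_contra hc; exact p ((f6_ga' w).2 hc))) (K.inv_mem y2)
        rwa [mul_inv_rev, ← mul_assoc] at this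
  have hx : x0 ∈ S := by
    intro w hw
    obtain ⟨h1, h2⟩ := hw
    constructor
    · refine ⟨fun p => ?_, fun p => ?_⟩
      · exact K.mul_mem (h1 ((f6_x w).1 p)) y1
      · have := K.mul_mem (h2 (fun hc => p ((f6_x w).2 hc))) y3
        have e : w * ga⁻¹ * (ga * x0 * ga⁻¹) = w * x0 * ga⁻¹ := by group
        rwa [e] at this
    · refine ⟨fun p => ?_, fun p => ?_⟩
      · exact K.mul_mem (h1 ((f6_x' w).1 p)) (K.inv_mem y1)
      · have := K.mul_mem (h2 (fun hc => p ((f6_x' w).2 hc))) (K.inv_mem y3)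
        have e : w * ga⁻¹ * (ga * x0 * ga⁻¹)⁻¹ = w * x0⁻¹ * ga⁻¹ := by group
        rwa [e] at this
  have hgb : gb ∈ S := by
    have e : gb = ga * x0⁻¹ := by unfold x0; group
    rw [e]
    exact S.mul_mem hga (S.inv_mem hx)
  have hS : ∀ z : F, z ∈ S := by
    intro z
    have h1 : Subgroup.closure (Set.range (FreeGroup.of : Fin 2 → F)) ≤ S := by
      rw [Subgroup.closure_le]
      rintro _ ⟨i, rfl⟩
      fin_cases i
      · exact hga
      · exact hgb
    have h2 : z ∈ Subgroup.closure (Set.range (FreeGroup.of : Fin 2 → F)) := by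
      rw [FreeGroup.closure_range_of]
      exact Subgroup.mem_top z
    exact h1 h2
  intro w e
  have hone : f6_Q K 1 := by
    refine ⟨fun _ => K.one_mem, fun h => ?_⟩
    exact absurd (by simp) h
  have := (hS w 1 hone).1
  rw [one_mul] at this
  exact this.1 e

end Pool.Agent.F8.PIC7
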