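import Pool.Agent.Lib.MP_305fdd_al.F8.PIC7.StmU
import Pool.Agent.Lib.MP_305fdd_al.F8.PIC7.P_tab
import Pool.Agent.Lib.MP_305fdd_al.F8.PIC.P_coc
import Pool.Agent.Lib.MP_305fdd_al.F8.P.wc

/-!
# MP_305fdd_al, project PIC7: piece `coc`, the representations with a cocycle
-/

set_option autoImplicit false

namespace Pool.Agent.F8.PIC7

open Pool.Agent.MP_305fdd_al Pool.Agent.Lib.MP_305fdd_al Pool.Agent.F2X Pool.Agent.F8
  Pool.Agent.F8.HN Pool.Agent.F8.AB Pool.Agent.F8.D7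
open scoped QuadraticAlgebra

theorem coc_yy_eq : yy = mB O7 * tt * tt * uu * (mB O7)⁻¹ := by decide

theorem coc_comm : tt * uu⁻¹ = uu⁻¹ * tt := by decide

theorem coc_rel : yy * (tt * yy * uu⁻¹ * yy * tt) = tt * yy * uu⁻¹ * yy * tt * yy := by
  decide

theorem coc_vv_P1 : uu⁻¹ ∈ P1 := P1.inv_mem tab_uu_P1

/-- the linear equation for the translation part of `y` -/
theorem coc_lin {K : Type} [CommRing K] (a c y : Q2 K) (ha : a.t = 1) (hc : c.t = 1)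
    (hy : y.t = 1) (hav : a.v = 0) (hcv : c.v = 0)
    (hrel : y * (a * y * c * y * a) = a * y * c * y * a * y) :
    (1 - (a.m * y.m * c.m * y.m * a.m).val -
      (1 - y.m.val) * (a.m.val + (a.m * y.m * c.m).val)).mulVec y.v = 0 := by
  have t1 : (a * y).t = 1 := by rw [Q2.mul_t, ha, hy, one_mul]
  have t2 : (a * y * c).t = 1 := by rw [Q2.mul_t, t1, hc, one_mul]
  have t3 : (a * y * c * y).t = 1 := by rw [Q2.mul_t, t2, hy, one_mul]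
  have t4 : (a * y * c * y * a).t = 1 := by rw [Q2.mul_t, t3, ha, one_mul]
  have v1 : (a * y).v = a.m.val.mulVec y.v := by
    rw [PIC.coc_mul_v a y ha, hav, zero_add]
  have v2 : (a * y * c).v = a.m.val.mulVec y.v := by
    rw [PIC.coc_mul_v _ c t1, hcv, Matrix.mulVec_zero, add_zero, v1]
  have v3 : (a * y * c * y).v = a.m.val.mulVec y.v + (a.m * y.m * c.m).val.mulVec y.v := by
    rw [PIC.coc_mul_v _ y t2, v2, Q2.mul_m, Q2.mul_m]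
  have v4 : (a * y * c * y * a).v = a.m.val.mulVec y.v + (a.m * y.m * c.m).val.mulVec y.v := by
    rw [PIC.coc_mul_v _ a t3, hav, Matrix.mulVec_zero, add_zero, v3]
  have hv := congrArg Q2.v hrel
  rw [PIC.coc_mul_v y _ hy, PIC.coc_mul_v _ y t4, v4, Q2.mul_m, Q2.mul_m, Q2.mul_m, Q2.mul_m,
    ← Matrix.add_mulVec, Matrix.mulVec_mulVec] at hv
  rw [Matrix.sub_mulVec, Matrix.sub_mulVec, sub_mul, one_mul, Matrix.sub_mulVec,
    Matrix.one_mulVec]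
  generalize (y.m.val * (a.m.val + (a.m * y.m * c.m).val)).mulVec y.v = P at *
  generalize (a.m.val + (a.m * y.m * c.m).val).mulVec y.v = R at *
  generalize (a.m * y.m * c.m * y.m * a.m).val.mulVec y.v = S at *
  rw [sub_sub_eq_add_sub, sub_add_eq_add_sub, hv, add_sub_cancel_right, sub_self]

theorem coc_main {K : Type} [Field K] (h2 : (2 : K) ≠ 0) (ρ : GG →* SL2 K) (s p a b : K)
    (hNF : NF ρ s p a b) (Θ : P1 →* Q2 K) (hm : Q2.mH.comp Θ = ρ.comp P1.subtype)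
    (ht : Q2.tH.comp Θ = 1) (hnc : NC Θ) (htab : S_tab)
    (hd : (1 - (ρ tt * ρ yy * ρ uu⁻¹ * ρ yy * ρ tt).val -
      (1 - (ρ yy).val) * ((ρ tt).val + (ρ tt * ρ yy * ρ uu⁻¹).val)).det ≠ 0)
    (hpq : ¬ (p ^ 2 = 1 ∧ a + p * b = 1)) : False := by
  have hmg : ∀ g : P1, (Θ g).m = ρ g.val := fun g => DFunLike.congr_fun hm g
  have htg : ∀ g : P1, (Θ g).t = 1 := fun g => DFunLike.congr_fun ht g
  have hcm : (ρ tt).val * (ρ uu⁻¹).val = (ρ uu⁻¹).val * (ρ tt).val := by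
    rw [← Matrix.SpecialLinearGroup.coe_mul, ← Matrix.SpecialLinearGroup.coe_mul, ← map_mul,
      ← map_mul, coc_comm]
  have hcm' : ((ρ tt).val - 1) * ((ρ uu⁻¹).val - 1) =
      ((ρ uu⁻¹).val - 1) * ((ρ tt).val - 1) := by
    rw [mul_sub, sub_mul, sub_mul, mul_one, one_mul, mul_sub, sub_mul, sub_mul, mul_one, one_mul,
      hcm]
    simp only [mul_one]
    abel
  have hdet : ∀ M : SL2 K, (M.val - 1).det = 2 - (M.val 0 0 + M.val 1 1) := by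
    intro M
    have hM := G.SL_det M
    rw [Matrix.det_fin_two]
    simp only [Matrix.sub_apply, Matrix.one_apply_eq]
    have e01 : (1 : Matrix (Fin 2) (Fin 2) K) 0 1 = 0 := rfl
    have e10 : (1 : Matrix (Fin 2) (Fin 2) K) 1 0 = 0 := rfl
    rw [e01, e10]
    linear_combination hM
  have hdT : ((ρ tt).val - 1).det = 2 * (1 - p) := by
    rw [hdet, hNF.T]
    show 2 - (p + p) = 2 * (1 - p)
    ring
  have hdU : ((ρ uu⁻¹).val - 1).det = 2 * (1 - (a + b * p)) := by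
    rw [hdet, hNF.U]
    show 2 - (a + b * p + (a + b * p)) = 2 * (1 - (a + b * p))
    ring
  -- the fixed point
  have hfix : ∃ e : Fin 2 → K, (Θ ⟨tt, tab_tt_P1⟩).v + ((ρ tt).val - 1).mulVec e = 0 ∧
      (Θ ⟨uu⁻¹, coc_vv_P1⟩).v + ((ρ uu⁻¹).val - 1).mulVec e = 0 := by
    have hc : (⟨tt, tab_tt_P1⟩ : P1) * ⟨uu⁻¹, coc_vv_P1⟩ =
        ⟨uu⁻¹, coc_vv_P1⟩ * ⟨tt, tab_tt_P1⟩ := Subtype.ext coc_comm
    have hc2 := congrArg Q2.v (congrArg Θ hc)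
    rw [map_mul, map_mul, PIC.coc_mul_v _ _ (htg _), PIC.coc_mul_v _ _ (htg _), hmg, hmg] at hc2
    have hc3 : ((ρ tt).val - 1).mulVec (Θ ⟨uu⁻¹, coc_vv_P1⟩).v =
        ((ρ uu⁻¹).val - 1).mulVec (Θ ⟨tt, tab_tt_P1⟩).v := by
      rw [Matrix.sub_mulVec, Matrix.sub_mulVec, Matrix.one_mulVec, Matrix.one_mulVec]
      have h5 : (ρ tt).val.mulVec (Θ ⟨uu⁻¹, coc_vv_P1⟩).v = (Θ ⟨uu⁻¹, coc_vv_P1⟩).v +
          (ρ uu⁻¹).val.mulVec (Θ ⟨tt, tab_tt_P1⟩).v - (Θ ⟨tt, tab_tt_P1⟩).v := by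
        rw [← hc2]; abel
      rw [h5]; abel
    by_cases hp : p = 1
    · obtain ⟨e, he1, he2⟩ := PIC.coc_fix ((ρ uu⁻¹).val - 1) ((ρ tt).val - 1)
        (Θ ⟨uu⁻¹, coc_vv_P1⟩).v (Θ ⟨tt, tab_tt_P1⟩).v hcm'.symm hc3.symm (by
          rw [hdU]
          intro h
          rcases mul_eq_zero.1 h with h6 | h6
          · exact absurd h6 h2
          · apply hpq
            rw [hp] at h6 ⊢
            exact ⟨one_pow 2, by linear_combination -h6⟩)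
      exact ⟨e, he2, he1⟩
    · exact PIC.coc_fix ((ρ tt).val - 1) ((ρ uu⁻¹).val - 1) (Θ ⟨tt, tab_tt_P1⟩).v
        (Θ ⟨uu⁻¹, coc_vv_P1⟩).v hcm' hc3 (by
          rw [hdT]
          intro h
          rcases mul_eq_zero.1 h with h6 | h6
          · exact absurd h6 h2
          · exact hp (by linear_combination -h6))
  obtain ⟨e, he1, he2⟩ := hfix
  -- the conjugate
  set c : Q2 K := ⟨1, 1, -e⟩ with hc
  let Θ' : P1 →* Q2 K := (MulAut.conj c).toMonoidHom.comp Θ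
  have hΘ' : ∀ g, Θ' g = c * Θ g * c⁻¹ := fun g => rfl
  have hv' : ∀ g, (Θ' g).v = (Θ g).v + ((ρ g.val).val - 1).mulVec e := by
    intro g
    rw [hΘ', hc, PIC.coc_conj e (Θ g) (htg g), hmg]
  have ht' : ∀ g, (Θ' g).t = 1 := by
    intro g
    rw [hΘ', Q2.mul_t, Q2.mul_t, Q2.inv_t, htg]
    show (1 : Kˣ) * 1 * 1⁻¹ = 1
    simp
  have hm' : ∀ g : P1, (Θ' g).m = ρ g.val := by
    intro g
    rw [hΘ', Q2.mul_m, Q2.mul_m, Q2.inv_m, hmg]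
    show (1 : SL2 K) * ρ g.val * 1⁻¹ = _
    simp
  have hvt : (Θ' ⟨tt, tab_tt_P1⟩).v = 0 := by rw [hv']; exact he1
  have hvu : (Θ' ⟨uu⁻¹, coc_vv_P1⟩).v = 0 := by rw [hv']; exact he2
  have hyt : (Θ' ⟨yy, tab_yy_P1⟩).v = 0 := by
    have hr : (⟨yy, tab_yy_P1⟩ : P1) * (⟨tt, tab_tt_P1⟩ * ⟨yy, tab_yy_P1⟩ *
        ⟨uu⁻¹, coc_vv_P1⟩ * ⟨yy, tab_yy_P1⟩ * ⟨tt, tab_tt_P1⟩) =
        ⟨tt, tab_tt_P1⟩ * ⟨yy, tab_yy_P1⟩ * ⟨uu⁻¹, coc_vv_P1⟩ * ⟨yy, tab_yy_P1⟩ *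
          ⟨tt, tab_tt_P1⟩ * ⟨yy, tab_yy_P1⟩ := Subtype.ext coc_rel
    have hr2 := congrArg Θ' hr
    simp only [map_mul] at hr2
    have h5 := coc_lin (Θ' ⟨tt, tab_tt_P1⟩) (Θ' ⟨uu⁻¹, coc_vv_P1⟩) (Θ' ⟨yy, tab_yy_P1⟩) (ht' _)
      (ht' _) (ht' _) hvt hvu hr2
    rw [hm', hm', hm'] at h5
    exact Matrix.eq_zero_of_mulVec_eq_zero hd h5
  have hall : P1 ≤ ((PIC.coc_S K).comap Θ').map P1.subtype := by
    apply htab.1
    · exact ⟨⟨tt, tab_tt_P1⟩, hvt, rfl⟩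
    · refine ⟨⟨uu, tab_uu_P1⟩, ?_, rfl⟩
      have h7 : (⟨uu⁻¹, coc_vv_P1⟩ : P1)⁻¹ = ⟨uu, tab_uu_P1⟩ := Subtype.ext (inv_inv uu)
      rw [← h7]
      exact Subgroup.inv_mem _ hvu
    · exact ⟨⟨yy, tab_yy_P1⟩, hyt, rfl⟩
  have hz : ∀ g : P1, (Θ' g).v = 0 := by
    intro g
    obtain ⟨x, hx, hxg⟩ := hall g.2
    have : x = g := Subtype.ext hxg
    rw [← this]
    exact hx
  obtain ⟨g, k, hgk⟩ := hnc
  apply hgk
  have h6 : Q2.W (Θ' g) (Θ' k) = Q2.W (Θ g) (Θ k) := by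
    rw [hΘ', hΘ', pf_wc K c (Θ g) (Θ k), hc]
    rw [Units.val_one, one_smul, Matrix.SpecialLinearGroup.coe_one, Matrix.one_mulVec]
  rw [← h6]
  unfold Q2.W
  rw [hz g, hz k, Matrix.mulVec_zero, Matrix.mulVec_zero, smul_zero, sub_zero]

/-- the abelian case -/
theorem coc_ab {K : Type} [Field K] (h2 : (2 : K) ≠ 0) (ρ : GG →* SL2 K) (s p a b : K)
    (hNF : NF ρ s p a b) (hirr : Irr (ρ.comp P1.subtype)) (htab : S_tab)
    (hp : p = 0) (ha : a = -1) (hb : b = 0) : False := by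
  have e1 := hNF.e1
  have h4 : (4 : K) ≠ 0 := by
    have : (4 : K) = 2 * 2 := by norm_num
    rw [this]; exact mul_ne_zero h2 h2
  have hTT : ρ tt * ρ tt = ρ uu⁻¹ := by
    obtain ⟨x, hx⟩ : ∃ x : K, x = (s + 1) / 2 := ⟨_, rfl⟩
    obtain ⟨y, hy⟩ : ∃ y : K, y = (s - 1) / 2 := ⟨_, rfl⟩
    have hx2 : x * 2 = s + 1 := by rw [hx, div_mul_cancel₀ _ h2]
    have hy2 : y * 2 = s - 1 := by rw [hy, div_mul_cancel₀ _ h2]
    have hT := hNF.T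
    have hU := hNF.U
    rw [← hx, ← hy] at hT hU
    subst hp ha hb
    have t00 : (ρ tt).val 0 0 = 0 := by rw [hT]; rfl
    have t01 : (ρ tt).val 0 1 = x := by rw [hT]; rfl
    have t10 : (ρ tt).val 1 0 = y := by rw [hT]; rfl
    have t11 : (ρ tt).val 1 1 = 0 := by rw [hT]; rfl
    have u00 : (ρ uu⁻¹).val 0 0 = -1 + 0 * 0 := by rw [hU]; rfl
    have u01 : (ρ uu⁻¹).val 0 1 = 0 * x := by rw [hU]; rfl
    have u10 : (ρ uu⁻¹).val 1 0 = 0 * y := by rw [hU]; rfl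
    have u11 : (ρ uu⁻¹).val 1 1 = -1 + 0 * 0 := by rw [hU]; rfl
    have hd := G.SL_det (ρ tt)
    rw [t00, t01, t10, t11] at hd
    apply G.SL_ext
    · rw [G.SL_mul, t00, t01, t10, u00]
      linear_combination -hd
    · rw [G.SL_mul, t00, t01, t11, u01]
      ring
    · rw [G.SL_mul, t00, t10, t11, u10]
      ring
    · rw [G.SL_mul, t01, t10, t11, u11]
      linear_combination -hd
  have hTTU : ρ tt * ρ tt * ρ uu = 1 := by
    rw [hTT, map_inv, inv_mul_cancel]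
  have hy : ρ yy = 1 := by
    rw [coc_yy_eq, map_mul, map_mul, map_mul, map_mul, map_inv, mul_assoc (ρ (mB O7)),
      mul_assoc (ρ (mB O7)), hTTU, mul_one, mul_inv_cancel]
  have hall : P1 ≤ (Subgroup.zpowers (ρ tt)).comap ρ := by
    apply htab.1
    · exact Subgroup.mem_zpowers (ρ tt)
    · show ρ uu ∈ Subgroup.zpowers (ρ tt)
      have : ρ uu = (ρ tt * ρ tt)⁻¹ := eq_inv_of_mul_eq_one_right hTTU
      rw [this]
      exact Subgroup.inv_mem _ (Subgroup.mul_mem _ (Subgroup.mem_zpowers _)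
        (Subgroup.mem_zpowers _))
    · show ρ yy ∈ Subgroup.zpowers (ρ tt)
      rw [hy]
      exact Subgroup.one_mem _
  obtain ⟨g, h, hgh⟩ := hirr
  apply hgh
  obtain ⟨m, hm⟩ := hall g.2
  obtain ⟨n, hn⟩ := hall h.2
  have hc : ρ g.val * ρ h.val = ρ h.val * ρ g.val := by
    have hm' : ρ tt ^ m = ρ g.val := hm
    have hn' : ρ tt ^ n = ρ h.val := hn
    rw [← hm', ← hn', ← zpow_add, ← zpow_add, add_comm]
  have : (ρ.comp P1.subtype) (g * h * g⁻¹ * h⁻¹) = 1 := by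
    show ρ (g.val * h.val * (g.val)⁻¹ * (h.val)⁻¹) = 1
    rw [map_mul, map_mul, map_mul, map_inv, map_inv, hc, mul_inv_cancel_right, mul_inv_cancel]
  rw [this, tr_eq, Matrix.SpecialLinearGroup.coe_one]
  show (1 : K) + 1 = 2
  norm_num

/-- [PIC7 coc] -/
theorem p_coc (htab : S_tab) (halg : S_alg) (hdet : S_det) : S_coc := by
  intro K _ h2 ρ s p a b hNF hPt
  obtain ⟨hirr, Θ, hm, ht, hnc⟩ := hPt
  by_contra hpq
  by_cases hd : (1 - (ρ tt * ρ yy * ρ uu⁻¹ * ρ yy * ρ tt).val -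
      (1 - (ρ yy).val) * ((ρ tt).val + (ρ tt * ρ yy * ρ uu⁻¹).val)).det = 0
  · have hY : ρ yy = ρ (mB O7) * ρ tt * ρ tt * (ρ uu⁻¹)⁻¹ * (ρ (mB O7))⁻¹ := by
      rw [← map_inv ρ uu⁻¹, inv_inv, coc_yy_eq, map_mul, map_mul, map_mul, map_mul, map_inv]
    have h5 := hdet K h2 s p a b hNF.hs hNF.e1 hNF.e2 hNF.e3 (ρ tt) (ρ uu⁻¹) (ρ (mB O7)) (ρ yy)
      hNF.T hNF.U hNF.B hY
    rw [hd] at h5
    rcases halg K h2 s p a b hNF.hs hNF.e1 hNF.e2 hNF.e3 h5.symm with h7 | ⟨h7, h8, h9⟩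
    · exact hpq h7
    · exact coc_ab h2 ρ s p a b hNF hirr htab h7 h8 h9
  · exact coc_main h2 ρ s p a b hNF Θ hm ht hnc htab hd hpq

end Pool.Agent.F8.PIC7
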