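import Pool.Agent.Lib.MP_305fdd_al.F8.PIC7.StmU

/-!
# MP_305fdd_al, [PIC7 std] the standard representations
-/

set_option autoImplicit false

namespace Pool.Agent.F8.PIC7

open Pool.Agent.MP_305fdd_al Pool.Agent.Lib.MP_305fdd_al Pool.Agent.F2X Pool.Agent.F8
  Pool.Agent.F8.HN Pool.Agent.F8.AB Pool.Agent.F8.D7
open scoped QuadraticAlgebra

theorem std_uu : uu⁻¹ = mU (-(D7.dl ℤ)) := by
  apply inv_eq_of_mul_eq_one_right
  show mU (D7.dl ℤ) * mU (-(D7.dl ℤ)) = 1
  rw [← G.mU_add, add_neg_cancel, G.mU_zero]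

/-- a representation with the standard values on the generators is standard -/
theorem std_main (K : Type) [Field K] (w : K) (hw : w * w + w + 2 = 0) (ρ : GG →* SL2 K)
    (hB : (ρ (mB O7)).val = !![0, -1; 1, 0])
    (hT : (ρ tt).val = !![1, 1; 0, 1]) (hU : (ρ uu⁻¹).val = !![1, -w; 0, 1]) (g : GG) :
    ρ g = SLm (ev7 (Int.castRingHom K) w hw) g := by
  have hf : ∀ x y : ℤ, ev7 (Int.castRingHom K) w hw ⟨x, y⟩ = (x : K) + (y : K) * w :=
    fun x y => rfl
  have key : ∀ h : GG, ∀ a b c d : K, (ρ h).val = !![a, b; c, d] →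
      ev7 (Int.castRingHom K) w hw (h.val 0 0) = a → ev7 (Int.castRingHom K) w hw (h.val 0 1) = b →
      ev7 (Int.castRingHom K) w hw (h.val 1 0) = c → ev7 (Int.castRingHom K) w hw (h.val 1 1) = d →
      h ∈ MonoidHom.eqLocus ρ (SLm (ev7 (Int.castRingHom K) w hw)) := by
    intro h a b c d h0 ha hb hc hd
    show ρ h = SLm (ev7 (Int.castRingHom K) w hw) h
    apply G.SL_ext
    · rw [h0]; exact ha.symm
    · rw [h0]; exact hb.symm
    · rw [h0]; exact hc.symm
    · rw [h0]; exact hd.symm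
  have hu : uu⁻¹ ∈ MonoidHom.eqLocus ρ (SLm (ev7 (Int.castRingHom K) w hw)) := by
    rw [std_uu] at hU ⊢
    refine key _ _ _ _ _ hU (map_one _) ?_ (map_zero _) (map_one _)
    show ev7 (Int.castRingHom K) w hw (-⟨0, 1⟩) = -w
    rw [map_neg, hf]; simp
  have hm := PG.SL_sub (MonoidHom.eqLocus ρ (SLm (ev7 (Int.castRingHom K) w hw)))
    (key _ _ _ _ _ hT (map_one _) (map_one _) (map_zero _) (map_one _))
    (by
      have h := Subgroup.inv_mem _ hu
      rw [inv_inv] at h
      exact h)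
    (key _ _ _ _ _ hB (map_zero _) (by
      show ev7 (Int.castRingHom K) w hw (-1) = -1
      rw [map_neg, map_one]) (map_one _) (map_zero _)) g
  exact hm

/-- conjugation with `B` -/
theorem std_cj {K : Type} [CommRing K] (x : SL2 K) (a b c d : K) (hx : x.val = !![a, b; c, d]) :
    (mB K * x * (mB K)⁻¹).val = !![d, -c; -b, a] := by
  have hi : (mB K)⁻¹ = mx 0 1 (-1) 0 (by ring) := by
    apply inv_eq_of_mul_eq_one_right
    apply G.SL_ext
    · rw [G.SL_mul, G.mB00, G.mB01, mx_00, mx_10, G.one00]; ring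
    · rw [G.SL_mul, G.mB00, G.mB01, mx_01, mx_11, G.one01]; ring
    · rw [G.SL_mul, G.mB10, G.mB11, mx_00, mx_10, G.one10]; ring
    · rw [G.SL_mul, G.mB10, G.mB11, mx_01, mx_11, G.one11]; ring
  have x00 : x.val 0 0 = a := by rw [hx]; rfl
  have x01 : x.val 0 1 = b := by rw [hx]; rfl
  have x10 : x.val 1 0 = c := by rw [hx]; rfl
  have x11 : x.val 1 1 = d := by rw [hx]; rfl
  have h : mB K * x * (mB K)⁻¹ = mx d (-c) (-b) a (by
      have := G.SL_det x
      rw [x00, x01, x10, x11] at this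
      linear_combination this) := by
    rw [hi]
    apply G.SL_ext
    · rw [G.SL_mul, G.SL_mul, G.SL_mul, G.mB00, G.mB01, mx_00, mx_10, mx_00, x00, x10, x01, x11]
      ring
    · rw [G.SL_mul, G.SL_mul, G.SL_mul, G.mB00, G.mB01, mx_01, mx_11, mx_01, x00, x10, x01, x11]
      ring
    · rw [G.SL_mul, G.SL_mul, G.SL_mul, G.mB10, G.mB11, mx_00, mx_10, mx_10, x00, x10, x01, x11]
      ring
    · rw [G.SL_mul, G.SL_mul, G.SL_mul, G.mB10, G.mB11, mx_01, mx_11, mx_11, x00, x10, x01, x11]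
      ring
  rw [h]
  rfl

theorem std_tr {K : Type} [CommRing K] (γ x : SL2 K) : tr (γ * x * γ⁻¹) = tr x := by
  show (γ * x * γ⁻¹).val.trace = x.val.trace
  rw [Matrix.SpecialLinearGroup.coe_mul, Matrix.trace_mul_comm,
    ← Matrix.SpecialLinearGroup.coe_mul, inv_mul_cancel_left]

theorem p_std : S_std := by
  intro K _ h2 ρ s a b hN hab
  obtain ⟨hs, e1, e2, e3, hB, hT, hU⟩ := hN
  have hs2 : (s - 1) * (s + 1) = 0 := by linear_combination (-1 : K) * e1
  have hss : s ^ 2 = 1 := by linear_combination hs2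
  have ha : a = 1 - b := by linear_combination hab
  subst ha
  have hw : (-b) * (-b) + (-b) + 2 = 0 := by
    rw [hss] at e2
    linear_combination -e2
  rw [mul_one] at hU
  rcases mul_eq_zero.1 hs2 with h | h
  · have h1 : s = 1 := by linear_combination h
    subst h1
    have hh : ((1 : K) + 1) / 2 = 1 := by
      rw [div_eq_iff h2]; ring
    have hh0 : ((1 : K) - 1) / 2 = 0 := by rw [sub_self, zero_div]
    rw [hh, hh0] at hT hU
    rw [sub_add_cancel, mul_one, mul_zero] at hU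
    refine ⟨-b, hw, fun g => ?_⟩
    rw [std_main K (-b) hw ρ hB hT (by rw [neg_neg]; exact hU) g, tr_map]
  · have h1 : s = -1 := by linear_combination h
    subst h1
    have hh : ((-1 : K) + 1) / 2 = 0 := by rw [neg_add_cancel, zero_div]
    have hh0 : ((-1 : K) - 1) / 2 = -1 := by
      rw [div_eq_iff h2]; ring
    rw [hh, hh0] at hT hU
    rw [sub_add_cancel, mul_zero, mul_neg, mul_one] at hU
    refine ⟨-b, hw, fun g => ?_⟩
    have hm := std_main K (-b) hw ((MulAut.conj (mB K)).toMonoidHom.comp ρ)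
      (by
        show (mB K * ρ (mB O7) * (mB K)⁻¹).val = _
        rw [std_cj _ _ _ _ _ hB]
        simp)
      (by
        show (mB K * ρ tt * (mB K)⁻¹).val = _
        rw [std_cj _ _ _ _ _ hT]
        simp)
      (by
        show (mB K * ρ uu⁻¹ * (mB K)⁻¹).val = _
        rw [std_cj _ _ _ _ _ hU]
        simp) g
    have h3 : tr ((MulAut.conj (mB K)).toMonoidHom.comp ρ g) = tr (ρ g) := std_tr (mB K) (ρ g)
    rw [← h3, hm, tr_map]

end Pool.Agent.F8.PIC7
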