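import Pool.Agent.Lib.MP_305fdd_al.F8.PIC7.Defs
import Pool.Agent.Lib.MP_305fdd_al.F8.D7.G.Mat

/-!
# MP_305fdd_al, `PSL₂(O₇)` is profinitely rigid: the statements on the subgroup `G6`, the finiteness of the index and surjectivity

Every piece is the analogue of a piece of the Picard group project (`F8/PIC/Stm.lean`, proofs `F8/PIC/P_*.lean`), with `al7`, `G7`, `G6` instead of
`al1`, `G1`, `G5`; the changes are described in the docstrings. Every piece may use the statements named in its docstring (Uses ..) as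
hypotheses.
-/

set_option autoImplicit false

namespace Pool.Agent.F8.PIC7

open Pool.Agent.MP_305fdd_al Pool.Agent.Lib.MP_305fdd_al Pool.Agent.F2X Pool.Agent.F8
  Pool.Agent.F8.HN Pool.Agent.F8.AB Pool.Agent.F8.D7
open Pool.Agent.F8.D7.PG (TP)
open scoped QuadraticAlgebra

noncomputable section

/-! ## G6: the subgroup `G6` and the punctured torus bundle group -/

/-- [PIC7 f6] generators of the subgroup of `F` of the elements of even length.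

Proof. Let `K` be a subgroup containing the three elements. Every `w : F` is in `K r` for some `r ∈ {1, u}` (`u = ga`, `x = x0 = gb⁻¹ * ga`): the set of the
`z` with `⋃ K r z = ⋃ K r` is a subgroup containing `x` (`u x = (u x u⁻¹) u`) and `u` (`u u ∈ K`), and `F` is generated by `x`, `u`. The length is even on `K₀ = ⟨three elements⟩ ≤ K`; if `w` has even length then `r = 1`
(as `PIC/P_f5.lean`). -/
def S_f6 : Prop := ∀ K : Subgroup F, x0 ∈ K → ga * ga ∈ K → ga * x0 * ga⁻¹ ∈ K →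
  ∀ w : F, Even (vec w 0 + vec w 1) → w ∈ K

/-- [PIC7 e1] the matrices of the elements of even length. (Uses `S_f6`.)

`TP X M` (`D7/G/Mat.lean`) says `M = [[a, s b], [c / s, d]]` for `X = [[a, b], [c, d]]`. As `PIC/P_e1.lean`. The set of the `(w, n)` with the property is closed under products and
inverses (`TP` is multiplicative: `TP_iff`; `G6` is a subgroup; both labels are additive: `vec (al7 w) = (4 vec w 0 + vec w 1, -vec w 0)`, so `vec w 1` is additive modulo `2` on the elements of even length; on matrices in `A6`: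
`c'' = c + c'`, `2 b'' = 2 b + 2 b'`, see the proof of `mul_mem'` of `A6`), so by `S_f6` it is enough to check the four generators: `X` for `x0`: `[[3 + 2 δ, 3], [-δ, -1 - δ]]`; `ga ga`: `[[-1, δ], [2 + δ, 1 - δ]]`;
`ga x0 ga⁻¹`: `[[1, 1], [δ, 1 + δ]]`; `t`: `[[1, 1], [0, 1]]`, all with the sign `+`. (Matrices of `ga`, `gb`, `t`: `Mu`, `Mv`, `Mt` in `D7/G/Mat.lean`.) -/
def S_e1 : Prop := ∀ (w : F) (n : ℤ), Even (vec w 0 + vec w 1) → ∃ X ∈ G6,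
  (TP X (rz (iA al7 w * tA al7 ^ n)) ∨
    TP X (-rz (iA al7 w * tA al7 ^ n))) ∧
  ((2 * vec w 1 : ℤ) : ZMod 4) = (r4 X).val 1 0 ∧
  ((2 * n : ℤ) : ZMod 4) = 2 * (r4 X).val 0 1 + (r4 X).val 1 0

/-- [PIC7 e2] every element of `G6` is such a matrix. (Uses `S_e1`.)

Proof. Let `X ∈ G6`, `X = [[a, b], [c, d]]`. `c` is even for `δ ↦ 2` modulo `4` (`a6_even`), so `c = δ c'` (`dl_dvd` in `D7/E/Ar.lean`: `δ ∣ x` iff `x.re` is even), `M = [[a, s b], [s c', d]]`, `TP X M`, `tw (sg ℤ) M = M`. By `PG.ex_zero`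
(`D7/G/End.lean`) there is `z : N2A kp7` with `Th7 z = pj Z7 M`. `z = iK g` or `z = iK g * k` (`K_cases`; see `PIC/P_e2.lean`). The type: `g = (w, n)` has even length (`k` has type zero, `Mk`; `ch7`, or apply `tw (sg ℤ)` to `± rho7 g = M`).
In the second case let `X' ∈ G6` be as in `S_e1` for `g`; then `X'⁻¹ X ∈ G6` is `±` the matrix `[[1 + δ, 1], [-δ, -1 - δ]]` of `k`. But this is not in `G6` (nor is its negative): `b = 1`, `c' = -1`, and modulo the conjugate of `δ` (`δ ↦ 1`) it is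
`[[0, 1], [1, 0]]`, an odd permutation (`decide`). -/
def S_e2 : Prop := ∀ X ∈ G6, ∃ (w : F) (n : ℤ), Even (vec w 0 + vec w 1) ∧
  (TP X (rz (iA al7 w * tA al7 ^ n)) ∨
    TP X (-rz (iA al7 w * tA al7 ^ n)))

/-- [PIC7 eta] the homomorphism `G6 → G7`. (Uses `S_e1`, `S_e2`; `PG.Th_injective`.)

As `PIC/P_eta.lean`. `lab` from `S_e1` (the `X` of `S_e1` is `±` the given one; the labels do not change under `X ↦ -X` because `c` and `2 b` are even modulo `4`). `par`: `rF7 cc = [[-1, 2 s³], [0, -1]]`, upper triangular. -/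
def S_eta : Prop := ∃ η : G6 →* G7, Eta η

/-- [PIC7 n5] no cocycle modulo `5` on `G6`. (Uses `S_f6`.)

As `PIC/P_n3.lean`. `κ (-1)` commutes with `κ x`, `x` with odd `n`: `κ (-1) = (1, 1, v)` and `-v = v`, so `v = 0`. So `κ` depends only on
`η x`: let `f w ∈ (ZMod 5)²` be the translation part of `κ` at `η x = iA w`, `w` of even length; a homomorphism, `f (al7 w) = -f w` (conjugate with
`x₀`, `η x₀ = tA`). With `y₁ = x0`, `y₂ = ga ga`, `y₃ = ga x0 ga⁻¹`: `al7 y₁ = y₁ y₂`, `al7 y₂ = y₃ y₂ y₂ y₁ y₂`, `al7 y₃ = y₃ y₂` (`al7_x`, `al7_u`). So with `f_i = f y_i` modulo `5`: `2 f₁ + f₂ = 0`,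
`f₁ + 4 f₂ + f₃ = 0`, `f₂ + 2 f₃ = 0`; the determinant is `12`, so all `f_i = 0` and `f = 0` (`S_f6`). For `x` with `(κ x).t = 1`: `n` is even, `η x = iA w * tA ^ n =
η (x₁ x₀ ^ n)`, `κ x = κ (x₀) ^ n = 1` because `κ(x₀)² = 1`. -/
def S_n5 : Prop := ∀ η : G6 →* G7, Eta η → ∀ κ : G6 →* Q2 (ZMod 5), Q2.mH.comp κ = 1 →
  (∀ x, (κ x).t = sn (η x)) → ∀ x, (κ x).t = 1 → κ x = 1

/-- [PIC7 h6] the subgroup `H6`, first properties.

As `PIC/P_h5.lean`. `l ∈ L6 Φ ↔ ρ l ∈ G6` by `Rho.four`. `fg`: `H6` is the image of `L6 Φ`, a subgroup of finite index of the finitely generated `Λ`. `ev`: `Eta.ev`. `odd`, `lab`: for every `x₀ ∈ G6` there is `l` with `rd 4 (ρ l) = rd 4 x₀`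
(`Rho.img`), so `r42 (ρ l) = r42 x₀`, `ρ l ∈ G6`, and by `Eta.lab` the labels of `η (ρ l)` are those of `η x₀`; take `η x₀ = tA` and `η x₀ = iA x0` (`Eta.sur`; `vec x0 = (1, -1)`). -/
def S_h6 : Prop := ∀ (Λ : Type) [Group Λ] [Group.FG Λ] (Φ : NatBij GG Λ) (ρ : Λ →* GG),
  Rho Φ ρ → ∀ η : G6 →* G7, Eta η → (∀ l, l ∈ L6 Φ ↔ ρ l ∈ G6) ∧ (H6 ρ η).FG ∧
  (∀ (w : F) (n : ℤ), iA al7 w * tA al7 ^ n ∈ H6 ρ η → Even (vec w 0 + vec w 1)) ∧
  (∃ (w : F) (n : ℤ), iA al7 w * tA al7 ^ n ∈ H6 ρ η ∧ Odd n) ∧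
  ∃ (w : F) (n : ℤ), iA al7 w * tA al7 ^ n ∈ H6 ρ η ∧ Even n ∧ Odd (vec w 1)

/-- [PIC7 m5] no cocycle modulo `5` on `H6`. (Uses `S_n5`.)

As `PIC/P_m3.lean`. Scalar part: the function `λ` on `A6`, `λ (g, h) = 1` if `sx h = 0`, `-1` otherwise, is a homomorphism to `(ZMod 5)ˣ` (`sx_mul`), and
`sn (η x) = λ (r42 x)` by `Eta.lab` and the definition of `A6` (`2 n = 2 b + c = sx h`). -/
def S_m5 : Prop := ∀ (Λ : Type) [Group Λ] (Φ : NatBij GG Λ) (ρ : Λ →* GG), Rho Φ ρ →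
  ∀ η : G6 →* G7, Eta η → (∀ l, l ∈ L6 Φ ↔ ρ l ∈ G6) →
  ∀ f : H6 ρ η → ZMod 5, (∀ x y : H6 ρ η, f (x * y) = f x + (sn x).val * f y) →
  ∀ x : H6 ρ η, nA al7 x = 1 → f x = 0

/-! ## A: finite generation -/

/-- [PIC7 frm] a finiteness criterion for modules.

As `PIC/P_frm.lean`, with `5` instead of `3`: `I = (5, τ + 1)`. -/
def S_frm : Prop := ∀ (B : Type) (τ : (B →₀ ℤ) ≃+ (B →₀ ℤ)) (S : Finset (B →₀ ℤ)),
  (∀ K : AddSubgroup (B →₀ ℤ), (∀ x ∈ S, x ∈ K) → (∀ x ∈ K, τ x ∈ K ∧ τ.symm x ∈ K) → K = ⊤) →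
  (∀ f : (B →₀ ℤ) →+ ZMod 5, (∀ x, f (τ x) = -f x) → f = 0) → Finite B

/-- [PIC7 frg] a finiteness criterion for free groups. (Uses `S_frm`.)

As `PIC/P_frg.lean`. -/
def S_frg : Prop := ∀ (P : Type) [Group P], IsFreeGroup P → ∀ (τ : P ≃* P) (S : Finset P),
  (∀ K : Subgroup P, (∀ x ∈ S, x ∈ K) → (∀ x ∈ K, τ x ∈ K ∧ τ.symm x ∈ K) → K = ⊤) →
  (∀ f : P →* Multiplicative (ZMod 5), (∀ x, f (τ x) = (f x)⁻¹) → f = 1) → Group.FG P

/-- [PIC7 afg] the intersection with `F` is finitely generated. (Uses `S_frg`.)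

As `PIC/P_afg.lean` (`5` instead of `3`). -/
def S_afg : Prop := ∀ H : Subgroup G7, Hyp6 H → (H.comap (iA al7)).FG

/-! ## INF: finite index -/

/-- [PIC7 i2] an eigenvector. (Uses `PIC.S_i1`.)

As `PIC/P_i2.lean`, with `al7` instead of `al1`; `ℓ e_(v, false) = 1`, `ℓ e_(v, true) = (1 + √3) / 2`; `al7 x0 = x0 ga ga`, `al7 ga = ga x0 ga ga`, eigenvalue `2 + √3`. -/
def S_i2 : Prop := ∀ P : Subgroup F, P.FG → (∃ x ∈ P, vec x ≠ 0) → ∀ (w : F) (k : ℕ), 1 ≤ k →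
  (∀ x, x ∈ P ↔ w * (al7 ^ k) x * w⁻¹ ∈ P) →
  ∀ D : (F ⧸ P) → F → ((F ⧸ P) × Bool →₀ ℝ), PIC.IsD D →
  ∃ ψ : (F ⧸ P) → (F ⧸ P), Function.Injective ψ ∧
    (∀ (g : F) (v : F ⧸ P), ψ (g • v) = (al7 ^ k) g • ψ v) ∧
    ∃ A : ((F ⧸ P) × Bool →₀ ℝ) →ₗ[ℝ] ((F ⧸ P) × Bool →₀ ℝ),
      (∀ v g, A (D v g) = D (ψ v) ((al7 ^ k) g)) ∧
      ∃ z, z ≠ 0 ∧ A z = ((2 + Real.sqrt 3) ^ k : ℝ) • z

/-- [PIC7 i3] the absolute value of the eigenvector.

As `PIC/P_i3.lean`, with `al7` instead of `al1`; `ℓ e_(v, false) = 1`, `ℓ e_(v, true) = (1 + √3) / 2`, eigenvalue `2 + √3`. -/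
def S_i3 : Prop := ∀ (V : Type) [MulAction F V] (D : V → F → (V × Bool →₀ ℝ)), PIC.IsD D →
  ∀ k : ℕ, 1 ≤ k → ∀ ψ : V → V, Function.Injective ψ →
  (∀ (g : F) (v : V), ψ (g • v) = (al7 ^ k) g • ψ v) →
  ∀ A : (V × Bool →₀ ℝ) →ₗ[ℝ] (V × Bool →₀ ℝ), (∀ v g, A (D v g) = D (ψ v) ((al7 ^ k) g)) →
  ∀ z : V × Bool →₀ ℝ, z ≠ 0 → A z = ((2 + Real.sqrt 3) ^ k : ℝ) • z →
  ∃ y : V × Bool →₀ ℝ, y ≠ 0 ∧ (∀ e, 0 ≤ y e) ∧ A y = ((2 + Real.sqrt 3) ^ k : ℝ) • y ∧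
    ∀ v, y (v, false) + y (v, true) = y (x0 • v, false) + y (ga • v, true)

/-- [PIC7 i4] finiteness.

As `PIC/P_i4.lean`, with `al7` instead of `al1`: `al7 x0 = x0 ga ga`, `al7 ga = ga x0 ga ga`, so `(al7 ^ k) x_i = x_i g = g' ga` and `(al7 ^ k) ga = ga x0 g''` with `g, g', g''` in the submonoid generated by `x0`, `ga`. -/
def S_i4 : Prop := ∀ (V : Type) [MulAction F V], (∀ v v' : V, ∃ g : F, g • v = v') →
  ∀ D : V → F → (V × Bool →₀ ℝ), PIC.IsD D → ∀ k : ℕ, 1 ≤ k →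
  ∀ ψ : V → V, Function.Injective ψ → (∀ (g : F) (v : V), ψ (g • v) = (al7 ^ k) g • ψ v) →
  ∀ A : (V × Bool →₀ ℝ) →ₗ[ℝ] (V × Bool →₀ ℝ), (∀ v g, A (D v g) = D (ψ v) ((al7 ^ k) g)) →
  ∀ (c : ℝ) (y : V × Bool →₀ ℝ), 0 < c → y ≠ 0 → (∀ e, 0 ≤ y e) → A y = c • y →
  (∀ v, y (v, false) + y (v, true) = y (x0 • v, false) + y (ga • v, true)) → Finite V

/-- finitely generated subgroups normalised by `w t ^ k` (from `PIC.S_i0`, `S_i2`, `S_i3`, `S_i4`) -/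
def S_inf : Prop := ∀ P : Subgroup F, P.FG → (∃ x ∈ P, vec x ≠ 0) → ∀ (w : F) (k : ℕ), 1 ≤ k →
  (∀ x, x ∈ P ↔ w * (al7 ^ k) x * w⁻¹ ∈ P) → P.FiniteIndex

/-- [PIC7 fin] the index of `H` is finite. (Uses `S_afg`, `S_inf`.)

As `PIC/P_fin.lean`, with another argument for the existence of an element of `P = H.comap (iA al7)` with `vec ≠ 0`: let `h = iA w * tA ^ k ∈ H` with `k ≥ 1` the positive generator of the exponents `n` of the elements of `H`; `k` is odd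
(`Hyp6.odd`). Every element of `H` is `iA x * h ^ m`, `x ∈ P`. The function `(w, n) ↦ vec w 1` modulo `2` is additive on the elements with `w` of even length (`vec (al7 w) 1 = -vec w 0`), so it is
additive on `H`. Suppose `vec x = 0` for all `x ∈ P`. Take the element `iA x * h ^ m = iA w' * tA ^ n` of `Hyp6.lab`: `n = k m` is even, so `m` is even and `h ^ m` is a square, so the function is `0` on it, and `vec w' 1 = vec x 1 = 0` modulo `2`, contradiction.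
`S_inf`; then `H ⊇ iA P * ⟨h⟩` has finite index. -/
def S_fin : Prop := ∀ H : Subgroup G7, Hyp6 H → H.FiniteIndex

/-- [PIC7 fi] the index of `ρ(Λ)` is finite. (Uses `S_eta`, `S_h6`, `S_m5`, `S_fin`.)

As `PIC/P_fi.lean`. -/
def S_fi : Prop := ∀ (Λ : Type) [Group Λ] [Group.FG Λ] (Φ : NatBij GG Λ) (ρ : Λ →* GG), Rho Φ ρ →
  ρ.range.FiniteIndex

/-! ## HL: too many homomorphisms -/

/-- [PIC7 con] surjectivity. (Uses `S_eta`, `PIC.S_hl1`, `PIC.S_hl2`.)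

As `PIC/P_con.lean` (`PIC.S_hl1` for `α = al7`, `al7_cc`); the image of `η` has index `2` in `G7`; units of `O7` are `± 1`; `ker (rd M) ≤ G6` for `4 ∣ M`. -/
def S_con : Prop := ∀ (Λ : Type) [Group Λ] [Group.FG Λ] (Φ : NatBij GG Λ) (ρ : Λ →* GG), Rho Φ ρ →
  ρ.range.FiniteIndex → Function.Surjective ρ

end

end Pool.Agent.F8.PIC7
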