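import Pool.Agent.Lib.MP_305fdd_al.F8.PIC7.Defs
import Mathlib.NumberTheory.NumberField.Basic
import Mathlib.LinearAlgebra.Matrix.ProjectiveSpecialLinearGroup

/-!
# MP_305fdd_al, `PSL₂` of the ring of integers of `ℚ(√-7)` and `ℚ(i)`: from the models to Mathlib's ring of integers
-/

set_option autoImplicit false

namespace Pool.Agent.F8.PIC7

open Pool.Agent.MP_305fdd_al Pool.Agent.Lib.MP_305fdd_al Pool.Agent.F2X Pool.Agent.F8
  Pool.Agent.F8.HN Pool.Agent.F8.AB Pool.Agent.F8.D7
open scoped QuadraticAlgebra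

/-- [PIC7 ok7] the ring of integers of `ℚ(√-7)`.

Proof. Let `d = (w - 1) / 2`, `d² + d + 2 = 0`. `ev7 (Int.castRingHom K) d : O7 →+* K` has its image in the integral elements (`d` is integral) and is injective (`w` is not rational: `w² < 0`).
Onto: `1, w` is a basis of `K` over `ℚ`; let `x = a + b w` be integral, `a, b : ℚ`. Then `2 a` and `a² + 7 b²` are integers (trace and norm: `Algebra.isIntegral_trace`, `Algebra.isIntegral_norm`; or: if `b ≠ 0` then
`X² - 2 a X + (a² + 7 b²)` is the minimal polynomial of `x` over `ℚ` and its coefficients are integers, `minpoly.isIntegrallyClosed_eq_field_fractions'`). So `7 (2 b)²` is an integer, so `2 b` is an integer, `m = 2 a`, `n = 2 b`,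
`m² + 7 n² = 0` modulo `4`, `m = n` modulo `2`, `x = (m + n) / 2 + n d`. -/
def S_ok7 : Prop := ∀ (K : Type) [Field K] [NumberField K] (w : K), w ^ 2 = -7 →
  Module.finrank ℚ K = 2 → Nonempty (O7 ≃+* NumberField.RingOfIntegers K)

/-- [PIC7 ok1] the ring of integers of `ℚ(i)`.

Proof. The same with `w² = -1`: `x = a + b w`, `2 a` and `a² + b²` integers, `m = 2 a`, `n = 2 b` integers, `m² + n² = 0` modulo `4`, so `m, n` are even. -/
def S_ok1 : Prop := ∀ (K : Type) [Field K] [NumberField K] (w : K), w ^ 2 = -1 →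
  Module.finrank ℚ K = 2 → Nonempty (D1.O1 ≃+* NumberField.RingOfIntegers K)

/-- [PIC7 pso] `SL₂(R) / ±1` and Mathlib's `PSL₂` of the ring of integers.

Proof. For a domain `R` (`char ≠ 2` or not) with a nontrivial ring the center of `SL₂(R)` is `pm R = {±1}` (see `pm_center` in `PIC/Psl.lean`, which is the same for every domain), and an isomorphism of rings `e : R ≃+* S` induces an
isomorphism of the quotients (`slE`, `pslE` in `PIC/Psl.lean`). -/
def S_pso : Prop := ∀ (R S : Type) [CommRing R] [IsDomain R] [CommRing S] [IsDomain S],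
  (R ≃+* S) → Nonempty ((SL2 R ⧸ pm R) ≃* Matrix.ProjectiveSpecialLinearGroup (Fin 2) S)

/-- the final statement for `ℚ(√-7)` -/
def S_main7 : Prop := ∀ (K : Type) [Field K] [NumberField K] (w : K), w ^ 2 = -7 →
  Module.finrank ℚ K = 2 →
  ProfinitelyRigid (Matrix.ProjectiveSpecialLinearGroup (Fin 2) (NumberField.RingOfIntegers K))

end Pool.Agent.F8.PIC7
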