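import Pool.Agent.Lib.MP_305fdd_al.F8.PIC7.StmT
import Pool.Agent.Lib.MP_305fdd_al.F8.PIC7.StmG
import Pool.Agent.Lib.MP_305fdd_al.F8.PIC7.StmO
import Pool.Agent.Lib.MP_305fdd_al.F8.Models

/-!
# MP_305fdd_al, `SL₂(O₇)`: assembly of the pieces
-/

set_option autoImplicit false

namespace Pool.Agent.F8.PIC7

open Pool.Agent.MP_305fdd_al Pool.Agent.Lib.MP_305fdd_al Pool.Agent.F2X Pool.Agent.F8
  Pool.Agent.F8.HN Pool.Agent.F8.AB Pool.Agent.F8.D7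
open scoped QuadraticAlgebra

noncomputable section

theorem inf_of (h0 : PIC.S_i0) (h2 : S_i2) (h3 : S_i3) (h4 : S_i4) : S_inf := by
  intro P hP hv w k hk hn
  obtain ⟨D, hD⟩ := h0 (F ⧸ P)
  obtain ⟨ψ, hψ, hsm, A, hA, z, hz, hz2⟩ := h2 P hP hv w k hk hn D hD
  obtain ⟨y, hy, hy0, hAy, hfl⟩ := h3 (F ⧸ P) D hD k hk ψ hψ hsm A hA z hz hz2
  have : Finite (F ⧸ P) := h4 (F ⧸ P) (fun v v' => MulAction.exists_smul_eq F v v') D hD k hk ψ hψ
    hsm A hA _ y (by positivity) hy hy0 hAy hfl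
  exact Subgroup.finiteIndex_of_finite_quotient

theorem fg_GG : Group.FG GG := by
  rw [Group.fg_iff]
  refine ⟨{mU 1, mU (D7.dl ℤ), mB O7}, ?_, Set.toFinite _⟩
  rw [eq_top_iff]
  intro g _
  refine PG.SL_sub _ ?_ ?_ ?_ g
  · exact Subgroup.subset_closure (by simp)
  · exact Subgroup.subset_closure (by simp)
  · exact Subgroup.subset_closure (by simp)

/-- A group in the genus of `SL₂(O7)` is isomorphic to it by a homomorphism which is compatible with a given matching of the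
finite quotients. -/
def S_rho : Prop := ∀ (Λ : Type) [Group Λ], InGenus GG Λ → ∀ Φ : NatBij GG Λ,
  ∃ ρ : Λ →* GG, Function.Bijective ρ ∧ Rho Φ ρ

theorem rho_of (hout : S_out) (hX5 : S_X5) (hfi : S_fi) (hcon : S_con) : S_rho := by
  intro Λ _ hΛ Φ
  obtain ⟨hfg, hrf, hs⟩ := hΛ
  have := hfg
  have := hrf
  have := fg_GG
  obtain ⟨T, s, w, hw, hO⟩ := hout Λ Φ
  obtain ⟨ρ, hρ⟩ := hX5 Λ Φ T s w hw hO
  have hsur := hcon Λ Φ ρ hρ (hfi Λ Φ ρ hρ)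
  exact ⟨ρ, ⟨injective_of_surj hs ρ hsur, hsur⟩, hρ⟩

/-- `SL₂(O7)` is profinitely rigid -/
theorem rigid_SL (h : S_rho) : ProfinitelyRigid GG := by
  intro Λ _ hΛ
  have := hΛ.1
  have := fg_GG
  obtain ⟨Φ⟩ := exists_natBij hΛ.2.2.symm
  obtain ⟨ρ, hb, -⟩ := h Λ hΛ Φ
  exact ⟨MulEquiv.ofBijective ρ hb⟩

/-- the final statement -/
theorem main_of (h : S_rho) (hpsl : S_psl) (hok : S_ok7) (hpso : S_pso) : S_main7 := by
  intro K _ _ w hw hK
  obtain ⟨e⟩ := hok K w hw hK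
  have : IsDomain O7 := e.toMulEquiv.isDomain _
  obtain ⟨e'⟩ := hpso O7 _ e
  exact rigid_equiv e' (hpsl (rigid_SL h))

end

end Pool.Agent.F8.PIC7
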