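import Pool.Agent.Lib.MP_305fdd_al.F8.PIC7.StmT
import Pool.Agent.Lib.MP_305fdd_al.F8.D7.E.Main

/-!
# MP_305fdd_al, project PIC7, piece E: from characters to matrices
-/

set_option autoImplicit false

namespace Pool.Agent.F8.PIC7

open Pool.Agent.MP_305fdd_al Pool.Agent.Lib.MP_305fdd_al Pool.Agent.F2X Pool.Agent.F8
  Pool.Agent.F8.HN Pool.Agent.F8.AB Pool.Agent.F8.D7
open scoped QuadraticAlgebra

/-- evaluation at a root of `w² + w + 2` is injective -/
theorem E_inj {K : Type} [Field K] [CharZero K] (w : K) (hw : w * w + w + 2 = 0) :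
    Function.Injective (ev7 (Int.castRingHom K) w hw) := by
  rw [injective_iff_map_eq_zero]
  intro z hz
  rw [ev7_apply, eq_intCast, eq_intCast] at hz
  have h1 : ((z.re * z.re - z.re * z.im + 2 * (z.im * z.im) : ℤ) : K) = 0 := by
    push_cast
    linear_combination ((z.re : K) - z.im - z.im * w) * hz + (z.im : K) * z.im * hw
  have h2 : z.re * z.re - z.re * z.im + 2 * (z.im * z.im) = 0 := by exact_mod_cast h1
  have h3 : z.im * z.im = 0 := by
    nlinarith [mul_self_nonneg (2 * z.re - z.im), mul_self_nonneg z.im]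
  have h4 : z.im = 0 := mul_self_eq_zero.1 h3
  have h5 : z.re * z.re = 0 := by
    rw [h4] at h2
    linear_combination h2
  apply QuadraticAlgebra.ext
  · exact mul_self_eq_zero.1 h5
  · exact h4

theorem p_E (hsig : S_sig) : S_E := by
  intro Λ _ Φ T s w hw hO
  exact EG.E_gen leg7 dvd_n7 (ev7 (Int.castRingHom (AlgebraicClosure ℚ)) w hw)
    (E_inj w hw) s T hO.char hO.irr (by
      intro m hm
      have : NeZero m := ⟨hm.ne'⟩
      obtain ⟨e, he, h⟩ := hsig Λ Φ T s w hw hO m
      refine ⟨E7 (ZMod m), inferInstance, E7m (Int.castRingHom (ZMod m)), E7m_surj m,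
        E7m_ker m, (SLm (sge e he)).comp (Φ.toFun _ (rd m)), fun l => ?_⟩
      rw [h l]
      exact tr_map _ _)

end Pool.Agent.F8.PIC7
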