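import Pool.Agent.Lib.MP_305fdd_al.F8.PIC7.StmT
import Pool.Agent.Lib.MP_305fdd_al.F8.PIC.P_X3

/-!
# MP_305fdd_al, `PSL₂(O₇)`: piece X3
-/

set_option autoImplicit false

namespace Pool.Agent.F8.PIC7

open Pool.Agent.MP_305fdd_al Pool.Agent.Lib.MP_305fdd_al Pool.Agent.F2X Pool.Agent.F8
  Pool.Agent.F8.HN Pool.Agent.F8.AB Pool.Agent.F8.D7
open scoped QuadraticAlgebra

theorem X3_z2 : ∀ a b c d : ZMod 2, a * b + c * d = 1 → a = 1 ∨ c = 1 := by decide

theorem X3_units {R : Type} [CommRing R] (res : R →+* ZMod 2) (hres : ∀ x, res x = 1 → IsUnit x)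
    (t m s n q : R) (h : 2 * t + m * s + n * q = 1) :
    (∃ u, m * u = 1) ∨ ∃ u, n * u = 1 := by
  have h1 : res m * res s + res n * res q = 1 := by
    have h2 := congrArg res h
    rw [map_add, map_add, map_mul, map_mul, map_mul, map_one, map_ofNat] at h2
    have h3 : (2 : ZMod 2) = 0 := by decide
    rw [h3, zero_mul, zero_add] at h2
    exact h2
  rcases X3_z2 _ _ _ _ h1 with h4 | h4
  · exact Or.inl (hres m h4).exists_right_inv
  · exact Or.inr (hres n h4).exists_right_inv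

theorem p_X3 : S_X3 := by
  rintro R _ res hres Λ _ r r' hT ⟨l₁, hl₁⟩ ⟨l₂, hl₂⟩
  have t1 : tr (r' l₁) = 2 := by
    rw [hT, hl₁, tr_eq]
    show (1 : R) + 1 = 2
    ring
  have t2 : tr (r' l₂) = 0 := by
    rw [hT, hl₂, tr_eq]
    show (0 : R) + 0 = 0
    ring
  have t3 : tr (r' l₁ * r' l₂) = 1 := by
    rw [← map_mul, hT, map_mul, hl₁, hl₂, tr_eq, G.SL_mul, G.SL_mul]
    show (1 : R) * 0 + 1 * 1 + (0 * (-1) + 1 * 0) = 1
    ring
  have hu : (∃ u, (r' l₁).val 0 1 * u = 1) ∨ ∃ u, (r' l₁).val 1 0 * u = 1 := by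
    have h1 := t1
    have h2 := t2
    have h3 := t3
    rw [tr_eq] at h1 h2
    rw [tr_eq, G.SL_mul, G.SL_mul] at h3
    refine X3_units res hres (((r' l₁).val 0 0 - 1) * (r' l₂).val 0 0) _ ((r' l₂).val 1 0) _
      ((r' l₂).val 0 1) ?_
    linear_combination h3 - (r' l₂).val 1 1 * h1 + ((r' l₁).val 0 0 - 2) * h2
  obtain ⟨M, K, hMK, hKM, hx, hb⟩ := PIC.X3_core (r' l₁) (r' l₂) t1 t2 t3 hu
  have cx : K * (r' l₁).val * M = (mU 1).val := by
    rw [Matrix.mul_assoc, hx, ← Matrix.mul_assoc, hKM, Matrix.one_mul]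
  have cb : K * (r' l₂).val * M = (mB _).val := by
    rw [Matrix.mul_assoc, hb, ← Matrix.mul_assoc, hKM, Matrix.one_mul]
  have hprod : ∀ A B : Matrix (Fin 2) (Fin 2) R,
      K * A * M * (K * B * M) = K * (A * B) * M := by
    intro A B
    calc K * A * M * (K * B * M) = K * A * (M * K) * (B * M) := by
          simp only [Matrix.mul_assoc]
      _ = K * (A * B) * M := by
          rw [hMK, Matrix.mul_one]; simp only [Matrix.mul_assoc]
  have htr : ∀ A : Matrix (Fin 2) (Fin 2) R, (K * A * M).trace = A.trace := by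
    intro A
    rw [Matrix.mul_assoc, Matrix.trace_mul_comm, Matrix.mul_assoc, hMK, Matrix.mul_one]
  refine ⟨K, M, hKM, hMK, fun l => ?_⟩
  have key : ∀ l' : Λ, K * (r' l').val * M = (r l').val →
      ((K * (r' l).val * M - (r l).val) * (r l').val).trace = 0 := by
    intro l' h
    rw [Matrix.sub_mul, Matrix.trace_sub]
    nth_rewrite 1 [← h]
    rw [hprod, htr]
    have e1 : (r' l).val * (r' l').val = (r' (l * l')).val := by
      rw [map_mul]; rfl
    have e2 : (r l).val * (r l').val = (r (l * l')).val := by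
      rw [map_mul]; rfl
    rw [e1, e2]
    have := hT (l * l')
    unfold tr at this
    rw [this, sub_self]
  have k0 := key 1 (by
    rw [map_one, map_one]
    show K * 1 * M = 1
    rw [Matrix.mul_one, hKM])
  have k1 := key l₁ (by rw [cx, hl₁])
  have k2 := key l₂ (by rw [cb, hl₂])
  have k3 := key (l₁ * l₂) (by
    rw [map_mul, map_mul]
    show K * ((r' l₁).val * (r' l₂).val) * M = (r l₁).val * (r l₂).val
    rw [← hprod, cx, cb, hl₁, hl₂])
  have hz : K * (r' l).val * M - (r l).val = 0 := by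
    refine PIC.X3_zero _ ?_ ?_ ?_ ?_
    · rw [map_one] at k0
      have e : ((1 : SL2 R).val : Matrix (Fin 2) (Fin 2) R) = 1 := rfl
      rw [e, Matrix.mul_one] at k0
      exact k0
    · rw [hl₁] at k1; exact k1
    · rw [hl₂] at k2; exact k2
    · rw [map_mul, hl₁, hl₂] at k3
      exact k3
  exact (sub_eq_zero.1 hz).symm

end Pool.Agent.F8.PIC7
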