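import Pool.Agent.Lib.MP_305fdd_al.F8.PIC7.StmU

set_option autoImplicit false

/-!
# Piece alg: the equations
-/

namespace Pool.Agent.F8.PIC7

theorem p_alg : S_alg := by
  intro K _ h2 s p a b hs e1 e2 e3 e4
  have h4 : (4 : K) ≠ 0 := by
    have : (4 : K) = 2 * 2 := by norm_num
    rw [this]; exact mul_ne_zero h2 h2
  have hz : s ^ 2 ≠ 0 := pow_ne_zero 2 hs
  generalize s ^ 2 = z at *
  -- half of the last equation
  have f : 4 - 2 * a - 2 * p * b - z * a + z * a ^ 2 = 0 := by
    apply mul_left_cancel₀ h2
    linear_combination e4
  by_cases hp : p = 0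
  · right
    subst hp
    have hz3 : z = -3 := by linear_combination -e1
    have h3 : (3 : K) ≠ 0 := by
      intro h
      apply hz
      rw [hz3, h, neg_zero]
    have hab : a * b = 0 := by
      have : a * b * z = 0 := by linear_combination e2
      exact (mul_eq_zero.mp this).resolve_right hz
    have hsum : a ^ 2 + b ^ 2 = 1 := by
      apply mul_right_cancel₀ hz
      linear_combination e3 - hz3
    have ha : a ≠ 0 := by
      intro h
      apply h4
      rw [h] at f
      linear_combination f
    have hb : b = 0 := (mul_eq_zero.mp hab).resolve_left ha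
    refine ⟨rfl, ?_, hb⟩
    have h1 : (a - 1) * (a + 1) = 0 := by
      rw [hb] at hsum
      linear_combination hsum
    rcases mul_eq_zero.mp h1 with h | h
    · exfalso
      apply h2
      have ha1 : a = 1 := by linear_combination h
      rw [ha1, hb] at f
      linear_combination f
    · linear_combination h
  · left
    have h2p : 2 * p ≠ 0 := mul_ne_zero h2 hp
    have C : 4 + a + z * a ^ 3 - z * a + z * a ^ 2 = 0 := by
      apply mul_left_cancel₀ h2p
      linear_combination (z * b * a) * f + (-4 + 2 * a + a * z - a ^ 2 * z) * e2
        + 2 * p * a * e3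
    have A : z ^ 2 * a ^ 3 - z ^ 2 * a ^ 2 - 2 * z * a ^ 2 + 4 * z * a - (z + 3) = 0 := by
      linear_combination z * a * f + 2 * p * e2 + e1
    have h : 2 * z * (1 + z) * a ^ 2 - z * (z + 3) * a + (5 * z + 3) = 0 := by
      linear_combination z * C - A
    have key : z * (z - 1) ^ 2 * (1 - (z + 2) * a) = 0 := by
      linear_combination (z ^ 2 + 3 * z + 4 - 2 * (1 + z) * z * a) * h + 4 * (1 + z) ^ 2 * A
    rcases mul_eq_zero.mp key with hk | hk
    · have hz1 : z = 1 := by
        have h5 := (mul_eq_zero.mp hk).resolve_left hz
        have h6 : z - 1 = 0 := by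
          rcases pow_eq_zero_iff (two_ne_zero) |>.mp h5 with h
          exact h
        linear_combination h6
      subst hz1
      have hp2 : p ^ 2 = 1 := by
        apply mul_left_cancel₀ h4
        linear_combination e1
      refine ⟨hp2, ?_⟩
      have hab : a * b = 2 * p := by linear_combination e2
      have hsum : a ^ 2 + b ^ 2 = -3 := by linear_combination e3
      have hsq : (a + p * b - 1) * (a + p * b + 1) = 0 := by
        linear_combination hsum + 2 * p * hab + (b ^ 2 + 4) * hp2
      rcases mul_eq_zero.mp hsq with h7 | h7
      · linear_combination h7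
      · exfalso
        have g1 : 6 - a + a ^ 2 = 0 := by linear_combination f + 2 * h7
        have g2 : a ^ 2 + a + 2 = 0 := by
          linear_combination a * h7 - p * hab - 2 * hp2
        have g3 : a = 2 := by
          apply mul_left_cancel₀ h2
          linear_combination g2 - g1
        rw [g3] at g2
        have h8 : (4 : K) * 2 = 0 := by linear_combination g2
        exact (mul_ne_zero h4 h2) h8
    · exfalso
      have ha : (z + 2) * a = 1 := by linear_combination -hk
      have hh : 4 * (z + 1) ^ 2 * (z + 3) = 0 := by
        linear_combination (z + 2) ^ 2 * h - (2 * z * (1 + z) * ((z + 2) * a + 1) -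
          z * (z + 3) * (z + 2)) * ha
      have hz3 : z + 3 ≠ 0 := by
        intro h3
        apply mul_ne_zero h4 (pow_ne_zero 2 hp)
        linear_combination e1 + h3
      have hz1 : z + 1 = 0 := by
        have h5 := (mul_eq_zero.mp hh).resolve_right hz3
        have h6 := (mul_eq_zero.mp h5).resolve_left h4
        exact pow_eq_zero_iff (two_ne_zero) |>.mp h6
      have hz' : z = -1 := by linear_combination hz1
      subst hz'
      have ha1 : a = 1 := by linear_combination ha
      subst ha1
      have hb : b = -(2 * p) := by linear_combination -e2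
      subst hb
      apply h4
      linear_combination f - e1
end Pool.Agent.F8.PIC7
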