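import Pool.Agent.Lib.MP_305fdd_al.F8.PIC7.StmT

/-!
# MP_305fdd_al, `PSL₂(O₇)` is profinitely rigid: proof of `S_d5`
-/

set_option autoImplicit false

namespace Pool.Agent.F8.PIC7

open Pool.Agent.MP_305fdd_al Pool.Agent.Lib.MP_305fdd_al Pool.Agent.F2X Pool.Agent.F8
  Pool.Agent.F8.HN Pool.Agent.F8.AB Pool.Agent.F8.D7
open scoped QuadraticAlgebra

/-- the case of the positive sign -/
private theorem d5_pos (K : Type) [Field K] [CharZero K] (w : K) (hw : w * w + w + 2 = 0) (c c' : K)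
    (S P m : ℤ) (h1 : c + c' = S) (h3 : S * S - 4 * P = -7 * (m * m))
    (h : 2 * c = S + m * (2 * w + 1)) :
    ∃ T : O7, c = ev7 (Int.castRingHom K) w hw T ∧ c' = ev7 (Int.castRingHom K) w hw (cj ℤ T) := by
  have hev : ∃ n : ℤ, S + m = 2 * n := by
    rcases Int.even_or_odd' S with ⟨k, hk | hk⟩ <;> rcases Int.even_or_odd' m with ⟨l, hl | hl⟩
    · exact ⟨k + l, by omega⟩
    · exfalso
      rw [hk, hl] at h3
      ring_nf at h3
      omega
    · exfalso
      rw [hk, hl] at h3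
      ring_nf at h3
      omega
    · exact ⟨k + l + 1, by omega⟩
  obtain ⟨n, hn⟩ := hev
  have hnK : (S : K) + m = 2 * n := by exact_mod_cast hn
  have h2 : (2 : K) ≠ 0 := two_ne_zero
  refine ⟨⟨n, m⟩, ?_, ?_⟩
  · apply mul_left_cancel₀ h2
    show 2 * c = 2 * (((n : ℤ) : K) + ((m : ℤ) : K) * w)
    linear_combination h + hnK
  · apply mul_left_cancel₀ h2
    show 2 * c' = 2 * (((n - m : ℤ) : K) + ((-m : ℤ) : K) * w)
    push_cast
    linear_combination 2 * h1 - h + hnK

/-- one value -/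
theorem p_d5 : S_d5 := by
  intro K _ _ w hw c c' S P m h1 h2 h3
  have h3K : (S : K) * S - 4 * P = -7 * (m * m) := by exact_mod_cast h3
  have hc' : c' = S - c := by rw [← h1]; ring
  have key : (2 * c - (S + m * (2 * w + 1))) * (2 * c - (S + (-m : ℤ) * (2 * w + 1))) = 0 := by
    rw [hc'] at h2
    push_cast
    linear_combination (-4) * h2 + h3K - 4 * (m * m : K) * hw
  rcases mul_eq_zero.1 key with h | h
  · exact d5_pos K w hw c c' S P m h1 h3 (sub_eq_zero.1 h)
  · exact d5_pos K w hw c c' S P (-m) h1 (by rw [h3]; ring) (sub_eq_zero.1 h)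

end Pool.Agent.F8.PIC7
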