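import Pool.Agent.Lib.MP_305fdd_al.F8.PIC7.StmT

/-!
# MP_305fdd_al, `PSL₂(O₇)`: proof of `S_d6`
-/

set_option autoImplicit false

namespace Pool.Agent.F8.PIC7

open Pool.Agent.MP_305fdd_al Pool.Agent.Lib.MP_305fdd_al Pool.Agent.F2X Pool.Agent.F8
  Pool.Agent.F8.HN Pool.Agent.F8.AB Pool.Agent.F8.D7
open scoped QuadraticAlgebra

private theorem d6_iz_inj (p : ℕ) [Fact p.Prime] : Function.Injective (iz p) := by
  intro x y h
  have h1 : (algebraMap ℚ_[p] (Fl p)) (PadicInt.Coe.ringHom x) =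
      (algebraMap ℚ_[p] (Fl p)) (PadicInt.Coe.ringHom y) := h
  have h2 := (algebraMap ℚ_[p] (Fl p)).injective h1
  exact Subtype.ext h2

private theorem d6_lift (K L : Type) [Field K] [Field L] [Algebra K L] [IsAlgClosed L] :
    Nonempty (AlgebraicClosure K →+* L) :=
  ⟨(IsAlgClosed.lift : AlgebraicClosure K →ₐ[K] L).toRingHom⟩

/-- among three representations two have the same character -/
private theorem d6_three {L : Type} [Group L] {P Q : Subgroup L} {K : Type} [Field K]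
    (h : ¬ GdP P Q K 3) (A B C : L →* SL2 K) (hA : Pt2 P Q A) (hB : Pt2 P Q B)
    (hC : Pt2 P Q C) (hBC : ∃ g, tr (B g) ≠ tr (C g)) :
    (∀ g, tr (A g) = tr (B g)) ∨ ∀ g, tr (A g) = tr (C g) := by
  by_contra hne
  push Not at hne
  obtain ⟨⟨g, hg⟩, g', hg'⟩ := hne
  obtain ⟨g'', hg''⟩ := hBC
  apply h
  refine ⟨![A, B, C], ?_, ?_⟩
  · intro i
    fin_cases i
    · exact hA
    · exact hB
    · exact hC
  · intro i j hij
    fin_cases i <;> fin_cases j
    · exact absurd rfl hij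
    · exact ⟨g, hg⟩
    · exact ⟨g', hg'⟩
    · exact ⟨g, hg.symm⟩
    · exact absurd rfl hij
    · exact ⟨g'', hg''⟩
    · exact ⟨g', hg'.symm⟩
    · exact ⟨g'', hg''.symm⟩
    · exact absurd rfl hij

/-- the difference of the two roots is not zero -/
private theorem d6_ne {K : Type} [Field K] [CharZero K] {w : K} (hw : w * w + w + 2 = 0) :
    2 * w + 1 ≠ 0 := by
  intro h2
  have h7 : (7 : K) = 0 := by linear_combination 4 * hw - (2 * w + 1) * h2
  have h8 : ((7 : ℕ) : K) = 0 := by exact_mod_cast h7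
  exact absurd (Nat.cast_eq_zero.mp h8) (by norm_num)

/-- the two evaluations are jointly injective -/
private theorem d6_zero {p : ℕ} [Fact p.Prime] (w : Fl p) (hw : w * w + w + 2 = 0)
    (hw' : (-1 - w) * (-1 - w) + (-1 - w) + 2 = 0) (x y : E7 ℤ_[p])
    (h1 : ev7 (iz p) w hw x = ev7 (iz p) w hw y)
    (h2 : ev7 (iz p) (-1 - w) hw' x = ev7 (iz p) (-1 - w) hw' y) : x = y := by
  rw [ev7_apply, ev7_apply] at h1 h2
  have hw0 := d6_ne hw
  have him : iz p x.im = iz p y.im := by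
    apply mul_left_cancel₀ hw0
    linear_combination h1 - h2
  apply QuadraticAlgebra.ext
  · apply d6_iz_inj p
    linear_combination h1 - w * him
  · exact d6_iz_inj p him

theorem p_d6 (hpf : S_pf) : S_d6 := by
  intro Λ _ _ Φ hG s₁ s₂ hP1 hP2 hne w hw T hT p _ r hD
  obtain ⟨ι⟩ := d6_lift ℚ (Fl p)
  set w' : Fl p := ι w with hw'def
  have hw1 : w' * w' + w' + 2 = 0 := by
    have h := congrArg ι hw
    rw [map_add, map_add, map_mul, map_ofNat, map_zero] at h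
    exact h
  have hw2 : (-1 - w') * (-1 - w') + (-1 - w') + 2 = 0 := by linear_combination hw1
  have hA1 : Pt2 (L1 Φ) (L2 Φ) ((SLm ι).comp s₁) := hpf.1 _ _ _ _ _ ι s₁ hP1
  have hA2 : Pt2 (L1 Φ) (L2 Φ) ((SLm ι).comp s₂) := hpf.1 _ _ _ _ _ ι s₂ hP2
  have hB1 := hD.good (Fl p) (ev7 (iz p) w' hw1)
  have hB2 := hD.good (Fl p) (ev7 (iz p) (-1 - w') hw2)
  have tA1 : ∀ g, tr (((SLm ι).comp s₁) g) = ι (tr (s₁ g)) := fun g => tr_map ι (s₁ g)
  have tA2 : ∀ g, tr (((SLm ι).comp s₂) g) = ι (tr (s₂ g)) := fun g => tr_map ι (s₂ g)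
  have tB1 : ∀ g, tr (((SLm (ev7 (iz p) w' hw1)).comp r) g) = ev7 (iz p) w' hw1 (tr (r g)) :=
    fun g => tr_map _ (r g)
  have tB2 : ∀ g, tr (((SLm (ev7 (iz p) (-1 - w') hw2)).comp r) g) =
      ev7 (iz p) (-1 - w') hw2 (tr (r g)) := fun g => tr_map _ (r g)
  have hneA : ∃ g, tr (((SLm ι).comp s₁) g) ≠ tr (((SLm ι).comp s₂) g) := by
    obtain ⟨g, hg⟩ := hne
    refine ⟨g, ?_⟩
    rw [tA1, tA2]
    exact fun h => hg (ι.injective h)
  have hneB : ∃ g, tr (((SLm (ev7 (iz p) w' hw1)).comp r) g) ≠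
      tr (((SLm (ev7 (iz p) (-1 - w') hw2)).comp r) g) := by
    obtain ⟨g, hg⟩ := hD.ne
    refine ⟨g, ?_⟩
    rw [tB1, tB2, ev7_apply, ev7_apply]
    intro h
    apply hg
    apply d6_iz_inj p
    rw [map_zero]
    have h3 : (2 * w' + 1) * iz p (tr (r g)).im = 0 := by linear_combination h
    exact (mul_eq_zero.1 h3).resolve_left (d6_ne hw1)
  have key := hG (Fl p)
  have hc1 := d6_three key _ _ _ hA1 hB1 hB2 hneB
  have hc2 := d6_three key _ _ _ hA2 hB1 hB2 hneB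
  -- the values
  have hv : ∀ x : O7, ι (ev7 (Int.castRingHom _) w hw x) =
      ev7 (iz p) w' hw1 (E7m (Int.castRingHom ℤ_[p]) x) := by
    intro x
    rw [ev7_apply, ev7_apply, map_add, map_mul]
    have e1 : (E7m (Int.castRingHom ℤ_[p]) x).re = Int.castRingHom ℤ_[p] x.re := rfl
    have e2 : (E7m (Int.castRingHom ℤ_[p]) x).im = Int.castRingHom ℤ_[p] x.im := rfl
    rw [e1, e2]
    simp [hw'def]
  have hcj : ∀ x : E7 ℤ_[p], ev7 (iz p) (-1 - w') hw2 x = ev7 (iz p) w' hw1 (cj ℤ_[p] x) := by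
    intro x
    rw [ev7_apply, ev7_apply, cj_apply]
    show iz p x.re + iz p x.im * (-1 - w') = iz p (x.re - x.im) + iz p (-x.im) * w'
    rw [map_sub, map_neg]
    ring
  have hcm : ∀ x : O7, E7m (Int.castRingHom ℤ_[p]) (cj ℤ x) =
      cj ℤ_[p] (E7m (Int.castRingHom ℤ_[p]) x) := by
    intro x
    apply QuadraticAlgebra.ext
    · show Int.castRingHom ℤ_[p] (x.re - x.im) =
        Int.castRingHom ℤ_[p] x.re - Int.castRingHom ℤ_[p] x.im
      rw [map_sub]
    · show Int.castRingHom ℤ_[p] (-x.im) = -(Int.castRingHom ℤ_[p] x.im)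
      rw [map_neg]
  rcases hc1 with hc1 | hc1
  · have hc2' : ∀ g, tr (((SLm ι).comp s₂) g) =
        tr (((SLm (ev7 (iz p) (-1 - w') hw2)).comp r) g) := by
      rcases hc2 with hc2 | hc2
      · exfalso
        obtain ⟨g, hg⟩ := hneA
        exact hg (by rw [hc1 g, hc2 g])
      · exact hc2
    left
    intro g
    apply d6_zero w' hw1 hw2
    · rw [← tB1, ← hc1, tA1, (hT g).1, hv]
    · rw [← tB2, ← hc2', tA2, (hT g).2, hv, hcj, hcm]
  · have hc2' : ∀ g, tr (((SLm ι).comp s₂) g) =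
        tr (((SLm (ev7 (iz p) w' hw1)).comp r) g) := by
      rcases hc2 with hc2 | hc2
      · exact hc2
      · exfalso
        obtain ⟨g, hg⟩ := hneA
        exact hg (by rw [hc1 g, hc2 g])
    right
    intro g
    apply d6_zero w' hw1 hw2
    · rw [← tB1, ← hc2', tA2, (hT g).2, hv]
    · rw [← tB2, ← hc1, tA1, (hT g).1, hv, hcj, ← hcm, cj_cj]

end Pool.Agent.F8.PIC7
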