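import Pool.Agent.Lib.MP_305fdd_al.F8.PIC7.StmU

/-!
# [PIC7 det] the determinant
-/

set_option autoImplicit false
set_option linter.unusedVariables false

namespace Pool.Agent.F8.PIC7

open Pool.Agent.MP_305fdd_al Pool.Agent.Lib.MP_305fdd_al Pool.Agent.F2X Pool.Agent.F8
  Pool.Agent.F8.HN Pool.Agent.F8.AB Pool.Agent.F8.D7

theorem det_congr {K : Type} {a b c d a' b' c' d' : K} (h1 : a = a') (h2 : b = b') (h3 : c = c')
    (h4 : d = d') : (!![a, b; c, d] : Matrix (Fin 2) (Fin 2) K) = !![a', b'; c', d'] := by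
  subst h1; subst h2; subst h3; subst h4; rfl

theorem det_add2 {K : Type} [CommRing K] (a b c d a' b' c' d' : K) :
    (!![a, b; c, d] + !![a', b'; c', d'] : Matrix (Fin 2) (Fin 2) K) =
      !![a + a', b + b'; c + c', d + d'] := by
  ext i j
  fin_cases i <;> fin_cases j <;> rfl

theorem det_sub2 {K : Type} [CommRing K] (a b c d a' b' c' d' : K) :
    (!![a, b; c, d] - !![a', b'; c', d'] : Matrix (Fin 2) (Fin 2) K) =
      !![a - a', b - b'; c - c', d - d'] := by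
  ext i j
  fin_cases i <;> fin_cases j <;> rfl

theorem det_inv {K : Type} [CommRing K] (M : SL2 K) (a b c d : K) (h : M.val = !![a, b; c, d]) :
    (M⁻¹).val = !![d, -b; -c, a] := by
  have h1 : (M⁻¹).val = M.val.adjugate := Matrix.SpecialLinearGroup.coe_inv M
  rw [h1, h, Matrix.adjugate_fin_two_of]

theorem det_s1 {K : Type} [CommRing K] (x p a b : K) (h1 : p * p = x ^ 2 - x + 1)
    (h2 : a * b * (2 * x - 1) ^ 2 = 2 * p) (h3 : b * b = 1 - a ^ 2 - 2 * p * a * b)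
    (h4 : a ^ 3 * (2 * x - 1) ^ 2 + 3 * a + 2 * p * b = 0) :
    (!![0, -1; 1, 0] * !![p, x; x - 1, p] : Matrix (Fin 2) (Fin 2) K) = !![-x + 1, -p; p, x] := by
  rw [Matrix.mul_fin_two]
  apply det_congr
  · ring
  · ring
  · ring
  · ring

theorem det_s2 {K : Type} [CommRing K] (x p a b : K) (h1 : p * p = x ^ 2 - x + 1)
    (h2 : a * b * (2 * x - 1) ^ 2 = 2 * p) (h3 : b * b = 1 - a ^ 2 - 2 * p * a * b)
    (h4 : a ^ 3 * (2 * x - 1) ^ 2 + 3 * a + 2 * p * b = 0) :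
    (!![-x + 1, -p; p, x] * !![p, x; x - 1, p] : Matrix (Fin 2) (Fin 2) K) = !![-2 * x * p + 2 * p, -2 * x ^ 2 +
        2 * x - 1; 2 * x ^ 2 - 2 * x + 1, 2 * x * p] := by
  rw [Matrix.mul_fin_two]
  apply det_congr
  · ring
  · linear_combination (-1) * h1
  · linear_combination (1) * h1
  · ring

theorem det_s3 {K : Type} [CommRing K] (x p a b : K) (h1 : p * p = x ^ 2 - x + 1)
    (h2 : a * b * (2 * x - 1) ^ 2 = 2 * p) (h3 : b * b = 1 - a ^ 2 - 2 * p * a * b)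
    (h4 : a ^ 3 * (2 * x - 1) ^ 2 + 3 * a + 2 * p * b = 0) :
    (!![-2 * x * p + 2 * p, -2 * x ^ 2 + 2 * x - 1; 2 * x ^ 2 - 2 * x + 1, 2 * x * p] * !![p * b + a, -x * b; -x
        * b + b, p * b + a] : Matrix (Fin 2) (Fin 2) K) = !![-2 * x * p * a - x * b + 2 * p * a + b, -2 * x ^ 2 * a
        + 2 * x * a - p * b - a; 2 * x ^ 2 * a - 2 * x * a + p * b + a, 2 * x * p * a + x * b] := by
  rw [Matrix.mul_fin_two]
  apply det_congr
  · linear_combination (-2 * x * b + 2 * b) * h1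
  · ring
  · ring
  · linear_combination (2 * x * b) * h1

theorem det_s4 {K : Type} [CommRing K] (x p a b : K) (h1 : p * p = x ^ 2 - x + 1)
    (h2 : a * b * (2 * x - 1) ^ 2 = 2 * p) (h3 : b * b = 1 - a ^ 2 - 2 * p * a * b)
    (h4 : a ^ 3 * (2 * x - 1) ^ 2 + 3 * a + 2 * p * b = 0) :
    (!![-2 * x * p * a - x * b + 2 * p * a + b, -2 * x ^ 2 * a + 2 * x * a - p * b - a; 2 * x ^ 2 * a - 2 * x *
        a + p * b + a, 2 * x * p * a + x * b] * !![0, 1; -1, 0] : Matrix (Fin 2) (Fin 2) K) = !![2 * x ^ 2 * a - 2 *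
        x * a + p * b + a, -2 * x * p * a - x * b + 2 * p * a + b; -2 * x * p * a - x * b, 2 * x ^ 2 * a - 2 * x * a
        + p * b + a] := by
  rw [Matrix.mul_fin_two]
  apply det_congr
  · ring
  · ring
  · ring
  · ring

theorem det_s5 {K : Type} [CommRing K] (x p a b : K) (h1 : p * p = x ^ 2 - x + 1)
    (h2 : a * b * (2 * x - 1) ^ 2 = 2 * p) (h3 : b * b = 1 - a ^ 2 - 2 * p * a * b)
    (h4 : a ^ 3 * (2 * x - 1) ^ 2 + 3 * a + 2 * p * b = 0) :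
    (!![p, x; x - 1, p] * !![2 * x ^ 2 * a - 2 * x * a + p * b + a, -2 * x * p * a - x * b + 2 * p * a + b; -2 *
        x * p * a - x * b, 2 * x ^ 2 * a - 2 * x * a + p * b + a] : Matrix (Fin 2) (Fin 2) K) = !![-2 * x * p * a -
        x * b + p * a + b, 2 * x ^ 2 * a - 3 * x * a + p * b + 2 * a; -2 * x ^ 2 * a + x * a - p * b - a, 2 * x * p
        * a + x * b - p * a] := by
  rw [Matrix.mul_fin_two]
  apply det_congr
  · linear_combination (b) * h1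
  · linear_combination (-2 * x * a + 2 * a) * h1
  · linear_combination (-2 * x * a) * h1
  · linear_combination (b) * h1

theorem det_s6 {K : Type} [CommRing K] (x p a b : K) (h1 : p * p = x ^ 2 - x + 1)
    (h2 : a * b * (2 * x - 1) ^ 2 = 2 * p) (h3 : b * b = 1 - a ^ 2 - 2 * p * a * b)
    (h4 : a ^ 3 * (2 * x - 1) ^ 2 + 3 * a + 2 * p * b = 0) :
    (!![-2 * x * p * a - x * b + p * a + b, 2 * x ^ 2 * a - 3 * x * a + p * b + 2 * a; -2 * x ^ 2 * a + x * a -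
        p * b - a, 2 * x * p * a + x * b - p * a] * !![p * b + a, x * b; x * b - b, p * b + a] : Matrix (Fin 2) (Fin
        2) K) = !![2 * x ^ 2 * a * b - 2 * x * p * a ^ 2 - 3 * x * a * b + p * a ^ 2 - 2 * p + a * b, 2 * x ^ 2 * a
        ^ 2 - 2 * x * p * a * b - 3 * x * a ^ 2 + p * a * b + a ^ 2 + 1; -2 * x ^ 2 * a ^ 2 - 2 * x * p * a * b + x
        * a ^ 2 + p * a * b - 1, -2 * x ^ 2 * a * b + 2 * x * p * a ^ 2 + 3 * x * a * b - p * a ^ 2 - a * b] := by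
  rw [Matrix.mul_fin_two]
  apply det_congr
  · linear_combination (-2 * x * a * b + a * b) * h1 + (-1) * h2
  · linear_combination (b ^ 2) * h1 + (1) * h3
  · linear_combination (-b ^ 2) * h1 + (-1) * h3
  · linear_combination (2 * x * a * b - a * b) * h1

theorem det_s7 {K : Type} [CommRing K] (x p a b : K) (h1 : p * p = x ^ 2 - x + 1)
    (h2 : a * b * (2 * x - 1) ^ 2 = 2 * p) (h3 : b * b = 1 - a ^ 2 - 2 * p * a * b)
    (h4 : a ^ 3 * (2 * x - 1) ^ 2 + 3 * a + 2 * p * b = 0) :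
    (!![2 * x ^ 2 * a * b - 2 * x * p * a ^ 2 - 3 * x * a * b + p * a ^ 2 - 2 * p + a * b, 2 * x ^ 2 * a ^ 2 - 2
        * x * p * a * b - 3 * x * a ^ 2 + p * a * b + a ^ 2 + 1; -2 * x ^ 2 * a ^ 2 - 2 * x * p * a * b + x * a ^ 2
        + p * a * b - 1, -2 * x ^ 2 * a * b + 2 * x * p * a ^ 2 + 3 * x * a * b - p * a ^ 2 - a * b] * !![2 * x ^ 2
        * a - 2 * x * a + p * b + a, -2 * x * p * a - x * b + 2 * p * a + b; -2 * x * p * a - x * b, 2 * x ^ 2 * a -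
        2 * x * a + p * b + a] : Matrix (Fin 2) (Fin 2) K) = !![4 * x ^ 3 * b - 6 * x ^ 2 * b + 2 * x * p * a + 5 *
        x * b - p * a - 2 * b, -4 * x ^ 2 * p * b - 2 * x ^ 2 * a + 6 * x * p * b + 3 * x * a - 3 * p * b - 2 * a; 4
        * x ^ 2 * p * b + 2 * x ^ 2 * a - 2 * x * p * b - x * a + p * b + a, -4 * x ^ 3 * b + 6 * x ^ 2 * b - 2 * x
        * p * a - 5 * x * b + p * a + b] := by
  rw [Matrix.mul_fin_two]
  apply det_congr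
  · linear_combination (-4 * x ^ 2 * a ^ 2 * b + 4 * x * a ^ 2 * b + 4 * x * b - a ^ 2 * b - 2 * b) * h1 + (-x *
      a) * h2 + (4 * x ^ 2 * p * a - 4 * x * p * a + p * a) * h3 + (-2 * x * p) * h4
  · linear_combination (4 * x ^ 2 * a ^ 3 - 6 * x * a ^ 3 - 2 * x * a * b ^ 2 + 4 * x * a + 2 * a ^ 3 + a * b ^
      2 - 2 * a) * h1 + (p * a) * h2 + (-4 * x ^ 3 * a + 8 * x ^ 2 * a - 7 * x * a + 2 * a) * h3 + (2 * x ^ 2 - 2 *
      x + 1) * h4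
  · linear_combination (-4 * x ^ 2 * a ^ 3 + 2 * x * a ^ 3 - 2 * x * a * b ^ 2 + a * b ^ 2 - 2 * a) * h1 + (-p *
      a) * h2 + (-2 * x * a + a) * h3 + (-2 * x ^ 2 + x - 1) * h4
  · linear_combination (4 * x ^ 2 * a ^ 2 * b - 4 * x * a ^ 2 * b - 4 * x * b + a ^ 2 * b + 2 * b) * h1 + (x *
      a) * h2 + (2 * x * p - p) * h4

theorem det_s8 {K : Type} [CommRing K] (x p a b : K) (h1 : p * p = x ^ 2 - x + 1)
    (h2 : a * b * (2 * x - 1) ^ 2 = 2 * p) (h3 : b * b = 1 - a ^ 2 - 2 * p * a * b)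
    (h4 : a ^ 3 * (2 * x - 1) ^ 2 + 3 * a + 2 * p * b = 0) :
    (!![4 * x ^ 3 * b - 6 * x ^ 2 * b + 2 * x * p * a + 5 * x * b - p * a - 2 * b, -4 * x ^ 2 * p * b - 2 * x ^
        2 * a + 6 * x * p * b + 3 * x * a - 3 * p * b - 2 * a; 4 * x ^ 2 * p * b + 2 * x ^ 2 * a - 2 * x * p * b - x
        * a + p * b + a, -4 * x ^ 3 * b + 6 * x ^ 2 * b - 2 * x * p * a - 5 * x * b + p * a + b] * !![p, x; x - 1,
        p] : Matrix (Fin 2) (Fin 2) K) = !![4 * x ^ 2 * p * b + 2 * x ^ 2 * a - 4 * x * p * b - 2 * x * a + p * b +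
        a, 4 * x ^ 3 * b - 8 * x ^ 2 * b + 2 * x * p * a + 7 * x * b - 2 * p * a - 3 * b; 4 * x ^ 3 * b - 4 * x ^ 2
        * b + 2 * x * p * a + 3 * x * b, 4 * x ^ 2 * p * b + 2 * x ^ 2 * a - 4 * x * p * b - 2 * x * a + p * b + a]
        := by
  rw [Matrix.mul_fin_two]
  apply det_congr
  · linear_combination (2 * x * a - a) * h1
  · linear_combination (-4 * x ^ 2 * b + 6 * x * b - 3 * b) * h1
  · linear_combination (4 * x ^ 2 * b - 2 * x * b + b) * h1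
  · linear_combination (-2 * x * a + a) * h1

theorem det_s9 {K : Type} [CommRing K] (x p a b : K) (h1 : p * p = x ^ 2 - x + 1)
    (h2 : a * b * (2 * x - 1) ^ 2 = 2 * p) (h3 : b * b = 1 - a ^ 2 - 2 * p * a * b)
    (h4 : a ^ 3 * (2 * x - 1) ^ 2 + 3 * a + 2 * p * b = 0) :
    (!![-2 * x ^ 2 * a + 2 * x * a - p * b - a + 1, 2 * x * p * a + x * b - 2 * p * a - b; 2 * x * p * a + x *
        b, -2 * x ^ 2 * a + 2 * x * a - p * b - a + 1] * !![2 * x ^ 2 * a * b - 2 * x * p * a ^ 2 - 3 * x * a * b +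
        p * a ^ 2 - p + a * b, 2 * x ^ 2 * a ^ 2 - 2 * x * p * a * b - 3 * x * a ^ 2 + x + p * a * b + a ^ 2 + 1; -2
        * x ^ 2 * a ^ 2 - 2 * x * p * a * b + x * a ^ 2 + x + p * a * b - 2, -2 * x ^ 2 * a * b + 2 * x * p * a ^ 2
        + 3 * x * a * b - p * a ^ 2 + p - a * b] : Matrix (Fin 2) (Fin 2) K) = !![2 * x ^ 2 * a ^ 2 * b + 2 * x ^ 2
        * a * b - 2 * x * p * a ^ 2 - 2 * x * p * a - x * a ^ 2 * b - 3 * x * a * b - 2 * x * b + p * a ^ 2 - p + a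
        * b + b, 2 * x ^ 2 * a ^ 2 - 2 * x ^ 2 * a - 2 * x * p * a ^ 2 * b - 2 * x * p * a * b - 2 * x * a ^ 3 - 3 *
        x * a ^ 2 + 4 * x * a + x + p * a ^ 2 * b + p * a * b - 2 * p * b + a ^ 3 + a ^ 2 - 3 * a + 1; -2 * x ^ 2 *
        a ^ 2 + 2 * x ^ 2 * a - 2 * x * p * a ^ 2 * b - 2 * x * p * a * b - 2 * x * a ^ 3 + x * a ^ 2 + x + p * a ^
        2 * b + p * a * b + 2 * p * b + a ^ 3 + a - 2, -2 * x ^ 2 * a ^ 2 * b - 2 * x ^ 2 * a * b + 2 * x * p * a ^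
        2 + 2 * x * p * a + x * a ^ 2 * b + 3 * x * a * b + 2 * x * b - p * a ^ 2 + p - a * b - b] := by
  rw [Matrix.mul_fin_two]
  apply det_congr
  · linear_combination (4 * x ^ 2 * a ^ 2 * b - 4 * x * a ^ 2 * b + a ^ 2 * b - b) * h1 + (-4 * x ^ 2 * p * a +
      6 * x * p * a - 2 * p * a) * h3 + (p) * h4
  · linear_combination (4 * x ^ 2 * a ^ 3 - 6 * x * a ^ 3 + 2 * x * a * b ^ 2 + 2 * x * a + 2 * a ^ 3 - a * b ^
      2 - 2 * a) * h1 + (2 * x ^ 2 * a - x * a) * h3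
  · linear_combination (-4 * x ^ 2 * a ^ 3 + 2 * x * a ^ 3 + 2 * x * a * b ^ 2 - 2 * x * a - a * b ^ 2) * h1 +
      (4 * x ^ 3 * a - 6 * x ^ 2 * a + 4 * x * a - a) * h3 + (-x) * h4
  · linear_combination (-4 * x ^ 2 * a ^ 2 * b + 4 * x * a ^ 2 * b - a ^ 2 * b - b) * h1 + (-2 * x * p * a + p *
      a) * h3

theorem det_s10 {K : Type} [CommRing K] (x p a b : K) :
    (!![p, x; x - 1, p] + !![2 * x ^ 2 * a * b - 2 * x * p * a ^ 2 - 3 * x * a * b + p * a ^ 2 - 2 * p + a * b,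
        2 * x ^ 2 * a ^ 2 - 2 * x * p * a * b - 3 * x * a ^ 2 + p * a * b + a ^ 2 + 1; -2 * x ^ 2 * a ^ 2 - 2 * x *
        p * a * b + x * a ^ 2 + p * a * b - 1, -2 * x ^ 2 * a * b + 2 * x * p * a ^ 2 + 3 * x * a * b - p * a ^ 2 -
        a * b] : Matrix (Fin 2) (Fin 2) K) = !![2 * x ^ 2 * a * b - 2 * x * p * a ^ 2 - 3 * x * a * b + p * a ^ 2 -
        p + a * b, 2 * x ^ 2 * a ^ 2 - 2 * x * p * a * b - 3 * x * a ^ 2 + x + p * a * b + a ^ 2 + 1; -2 * x ^ 2 * a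
        ^ 2 - 2 * x * p * a * b + x * a ^ 2 + x + p * a * b - 2, -2 * x ^ 2 * a * b + 2 * x * p * a ^ 2 + 3 * x * a
        * b - p * a ^ 2 + p - a * b] := by
  rw [det_add2]
  apply det_congr
  · ring
  · ring
  · ring
  · ring

theorem det_s11 {K : Type} [CommRing K] (x p a b : K) :
    (1 - !![2 * x ^ 2 * a - 2 * x * a + p * b + a, -2 * x * p * a - x * b + 2 * p * a + b; -2 * x * p * a - x *
        b, 2 * x ^ 2 * a - 2 * x * a + p * b + a] : Matrix (Fin 2) (Fin 2) K) = !![-2 * x ^ 2 * a + 2 * x * a - p *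
        b - a + 1, 2 * x * p * a + x * b - 2 * p * a - b; 2 * x * p * a + x * b, -2 * x ^ 2 * a + 2 * x * a - p * b
        - a + 1] := by
  rw [Matrix.one_fin_two, det_sub2]
  apply det_congr
  · ring
  · ring
  · ring
  · ring

theorem det_s12 {K : Type} [CommRing K] (x p a b : K) :
    (1 - !![4 * x ^ 2 * p * b + 2 * x ^ 2 * a - 4 * x * p * b - 2 * x * a + p * b + a, 4 * x ^ 3 * b - 8 * x ^ 2
        * b + 2 * x * p * a + 7 * x * b - 2 * p * a - 3 * b; 4 * x ^ 3 * b - 4 * x ^ 2 * b + 2 * x * p * a + 3 * x *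
        b, 4 * x ^ 2 * p * b + 2 * x ^ 2 * a - 4 * x * p * b - 2 * x * a + p * b + a] - !![2 * x ^ 2 * a ^ 2 * b + 2
        * x ^ 2 * a * b - 2 * x * p * a ^ 2 - 2 * x * p * a - x * a ^ 2 * b - 3 * x * a * b - 2 * x * b + p * a ^ 2
        - p + a * b + b, 2 * x ^ 2 * a ^ 2 - 2 * x ^ 2 * a - 2 * x * p * a ^ 2 * b - 2 * x * p * a * b - 2 * x * a ^
        3 - 3 * x * a ^ 2 + 4 * x * a + x + p * a ^ 2 * b + p * a * b - 2 * p * b + a ^ 3 + a ^ 2 - 3 * a + 1; -2 *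
        x ^ 2 * a ^ 2 + 2 * x ^ 2 * a - 2 * x * p * a ^ 2 * b - 2 * x * p * a * b - 2 * x * a ^ 3 + x * a ^ 2 + x +
        p * a ^ 2 * b + p * a * b + 2 * p * b + a ^ 3 + a - 2, -2 * x ^ 2 * a ^ 2 * b - 2 * x ^ 2 * a * b + 2 * x *
        p * a ^ 2 + 2 * x * p * a + x * a ^ 2 * b + 3 * x * a * b + 2 * x * b - p * a ^ 2 + p - a * b - b] : Matrix
        (Fin 2) (Fin 2) K) = !![-4 * x ^ 2 * p * b - 2 * x ^ 2 * a ^ 2 * b - 2 * x ^ 2 * a * b - 2 * x ^ 2 * a + 2 *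
        x * p * a ^ 2 + 2 * x * p * a + 4 * x * p * b + x * a ^ 2 * b + 3 * x * a * b + 2 * x * a + 2 * x * b - p *
        a ^ 2 - p * b + p - a * b - a - b + 1, -4 * x ^ 3 * b - 2 * x ^ 2 * a ^ 2 + 2 * x ^ 2 * a + 8 * x ^ 2 * b +
        2 * x * p * a ^ 2 * b + 2 * x * p * a * b - 2 * x * p * a + 2 * x * a ^ 3 + 3 * x * a ^ 2 - 4 * x * a - 7 *
        x * b - x - p * a ^ 2 * b - p * a * b + 2 * p * a + 2 * p * b - a ^ 3 - a ^ 2 + 3 * a + 3 * b - 1; -4 * x ^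
        3 * b + 2 * x ^ 2 * a ^ 2 - 2 * x ^ 2 * a + 4 * x ^ 2 * b + 2 * x * p * a ^ 2 * b + 2 * x * p * a * b - 2 *
        x * p * a + 2 * x * a ^ 3 - x * a ^ 2 - 3 * x * b - x - p * a ^ 2 * b - p * a * b - 2 * p * b - a ^ 3 - a +
        2, -4 * x ^ 2 * p * b + 2 * x ^ 2 * a ^ 2 * b + 2 * x ^ 2 * a * b - 2 * x ^ 2 * a - 2 * x * p * a ^ 2 - 2 *
        x * p * a + 4 * x * p * b - x * a ^ 2 * b - 3 * x * a * b + 2 * x * a - 2 * x * b + p * a ^ 2 - p * b - p +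
        a * b - a + b + 1] := by
  rw [Matrix.one_fin_two, det_sub2, det_sub2]
  apply det_congr
  · ring
  · ring
  · ring
  · ring

theorem det_s13 {K : Type} [CommRing K] (x p a b : K) (h1 : p * p = x ^ 2 - x + 1)
    (h2 : a * b * (2 * x - 1) ^ 2 = 2 * p) (h3 : b * b = 1 - a ^ 2 - 2 * p * a * b)
    (h4 : a ^ 3 * (2 * x - 1) ^ 2 + 3 * a + 2 * p * b = 0) :
    (!![-4 * x ^ 2 * p * b - 2 * x ^ 2 * a ^ 2 * b - 2 * x ^ 2 * a * b - 2 * x ^ 2 * a + 2 * x * p * a ^ 2 + 2 *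
        x * p * a + 4 * x * p * b + x * a ^ 2 * b + 3 * x * a * b + 2 * x * a + 2 * x * b - p * a ^ 2 - p * b + p -
        a * b - a - b + 1, -4 * x ^ 3 * b - 2 * x ^ 2 * a ^ 2 + 2 * x ^ 2 * a + 8 * x ^ 2 * b + 2 * x * p * a ^ 2 *
        b + 2 * x * p * a * b - 2 * x * p * a + 2 * x * a ^ 3 + 3 * x * a ^ 2 - 4 * x * a - 7 * x * b - x - p * a ^
        2 * b - p * a * b + 2 * p * a + 2 * p * b - a ^ 3 - a ^ 2 + 3 * a + 3 * b - 1; -4 * x ^ 3 * b + 2 * x ^ 2 *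
        a ^ 2 - 2 * x ^ 2 * a + 4 * x ^ 2 * b + 2 * x * p * a ^ 2 * b + 2 * x * p * a * b - 2 * x * p * a + 2 * x *
        a ^ 3 - x * a ^ 2 - 3 * x * b - x - p * a ^ 2 * b - p * a * b - 2 * p * b - a ^ 3 - a + 2, -4 * x ^ 2 * p *
        b + 2 * x ^ 2 * a ^ 2 * b + 2 * x ^ 2 * a * b - 2 * x ^ 2 * a - 2 * x * p * a ^ 2 - 2 * x * p * a + 4 * x *
        p * b - x * a ^ 2 * b - 3 * x * a * b + 2 * x * a - 2 * x * b + p * a ^ 2 - p * b - p + a * b - a + b + 1] :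
        Matrix (Fin 2) (Fin 2) K).det =
      8 - 4 * (a + p * b) - 2 * (2 * x - 1) ^ 2 * a + 2 * (2 * x - 1) ^ 2 * a ^ 2 := by
  rw [Matrix.det_fin_two_of]
  linear_combination (-32 * x ^ 4 * a ^ 3 * b - 32 * x ^ 4 * a ^ 2 * b + 16 * x ^ 4 * b ^ 2 + 64 * x ^ 3 * a ^ 3
      * b + 64 * x ^ 3 * a ^ 2 * b - 32 * x ^ 3 * b ^ 2 - 4 * x ^ 2 * a ^ 4 * b ^ 2 + 4 * x ^ 2 * a ^ 4 - 8 * x ^ 2
      * a ^ 3 * b ^ 2 - 56 * x ^ 2 * a ^ 3 * b + 8 * x ^ 2 * a ^ 3 - 4 * x ^ 2 * a ^ 2 * b ^ 2 - 56 * x ^ 2 * a ^ 2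
      * b - 8 * x ^ 2 * a * b + 24 * x ^ 2 * b ^ 2 + 8 * x ^ 2 * b + 4 * x * a ^ 4 * b ^ 2 + 8 * x * a ^ 3 * b ^ 2 +
      24 * x * a ^ 3 * b - 8 * x * a ^ 3 + 4 * x * a ^ 2 * b ^ 2 + 24 * x * a ^ 2 * b - 12 * x * a ^ 2 + 8 * x * a *
      b - 8 * x * a - 8 * x * b ^ 2 - 8 * x * b - a ^ 4 * b ^ 2 - a ^ 4 - 2 * a ^ 3 * b ^ 2 - 4 * a ^ 3 * b + 2 * a
      ^ 3 - a ^ 2 * b ^ 2 - 4 * a ^ 2 * b + 8 * a ^ 2 - 6 * a * b + 2 * a + 5 * b ^ 2 + 6 * b + 1) * h1 + (-8 * x ^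
      4 * a ^ 2 - 8 * x ^ 4 * a + 16 * x ^ 3 * a ^ 2 + 16 * x ^ 3 * a + 4 * x ^ 2 * p * a ^ 4 + 8 * x ^ 2 * p * a ^
      3 + 4 * x ^ 2 * p * a ^ 2 - 16 * x ^ 2 * a ^ 2 - 20 * x ^ 2 * a - 4 * x ^ 2 - 2 * x * p * a ^ 4 - 6 * x * p *
      a ^ 3 - 6 * x * p * a ^ 2 - 2 * x * p * a + 8 * x * a ^ 2 + 12 * x * a + 4 * x + p * a ^ 3 + 3 * p * a ^ 2 + p
      * a + p - a ^ 2 - 4 * a - 3) * h2 + (16 * x ^ 4 * p * a ^ 2 + 16 * x ^ 4 * p * a - 8 * x ^ 4 * a ^ 4 - 16 * x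
      ^ 4 * a ^ 3 - 8 * x ^ 4 * a ^ 2 - 32 * x ^ 3 * p * a ^ 2 - 32 * x ^ 3 * p * a + 12 * x ^ 3 * a ^ 4 + 32 * x ^
      3 * a ^ 3 + 28 * x ^ 3 * a ^ 2 + 8 * x ^ 3 * a + 32 * x ^ 2 * p * a ^ 2 + 32 * x ^ 2 * p * a + 8 * x ^ 2 * p -
      10 * x ^ 2 * a ^ 4 - 28 * x ^ 2 * a ^ 3 - 30 * x ^ 2 * a ^ 2 - 16 * x ^ 2 * a - 16 * x * p * a ^ 2 - 16 * x *
      p * a - 8 * x * p + 5 * x * a ^ 4 + 12 * x * a ^ 3 + 13 * x * a ^ 2 + 10 * x * a + 3 * p * a ^ 2 + 3 * p * a +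
      6 * p - a ^ 4 - 2 * a ^ 3 - 2 * a ^ 2 - 2 * a + 4) * h3 + (-4 * x ^ 2 * p * a - 4 * x ^ 2 * p + 2 * x ^ 2 * a
      ^ 3 + 4 * x ^ 2 * a ^ 2 + 2 * x ^ 2 * a - 4 * x ^ 2 + 4 * x * p * a + 4 * x * p - x * a ^ 3 - 4 * x * a ^ 2 -
      5 * x * a + 2 * x - p * a - 3 * p + a ^ 2 + 2 * a - 1) * h4

theorem det_four {K : Type} [Field K] (h2 : (2 : K) ≠ 0) {a b : K} (h : 4 * a = 4 * b) : a = b := by
  have h4 : (4 : K) ≠ 0 := by
    have : (4 : K) = 2 * 2 := by norm_num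
    rw [this]
    exact mul_ne_zero h2 h2
  exact mul_left_cancel₀ h4 h

theorem p_det : S_det := by
  intro K _ h2 s p a b hs e1 e2 e3 T V B Y hT hV hB hY
  obtain ⟨x, hx⟩ : ∃ x : K, x = (s + 1) / 2 := ⟨_, rfl⟩
  have hx2 : 2 * x = s + 1 := by rw [hx]; exact mul_div_cancel₀ _ h2
  have hs1 : s = 2 * x - 1 := by rw [hx2]; ring
  have hy : (s - 1) / 2 = x - 1 := by
    rw [hs1, div_eq_iff h2]; ring
  have k1 : p * p = x ^ 2 - x + 1 := by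
    apply det_four h2
    rw [hs1] at e1
    linear_combination e1
  have k2 : a * b * (2 * x - 1) ^ 2 = 2 * p := by
    rw [← hs1]; exact e2
  have k3 : b * b = 1 - a ^ 2 - 2 * p * a * b := by
    have h5 : s ^ 2 * (b * b) = s ^ 2 * (1 - a ^ 2 - 2 * p * a * b) := by
      linear_combination e3 + e1 + 2 * p * e2
    exact mul_left_cancel₀ (pow_ne_zero 2 hs) h5
  have k4 : a ^ 3 * (2 * x - 1) ^ 2 + 3 * a + 2 * p * b = 0 := by
    rw [← hs1]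
    linear_combination a * e3 - b * e2
  have hT' : T.val = !![p, x; x - 1, p] := by rw [hT, ← hx, hy]
  have hV' : V.val = !![p * b + a, x * b; x * b - b, p * b + a] := by
    rw [hV, ← hx, hy]
    apply det_congr <;> ring
  have hVi : (V⁻¹).val = !![p * b + a, -x * b; -x * b + b, p * b + a] := by
    rw [det_inv V _ _ _ _ hV']
    apply det_congr <;> ring
  have hBi : (B⁻¹).val = !![0, 1; -1, 0] := by
    rw [det_inv B _ _ _ _ hB]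
    apply det_congr
    · rfl
    · ring
    · rfl
    · rfl
  have hYv : Y.val = !![2 * x ^ 2 * a - 2 * x * a + p * b + a, -2 * x * p * a - x * b + 2 * p * a + b; -2 * x *
      p * a - x * b, 2 * x ^ 2 * a - 2 * x * a + p * b + a] := by
    rw [hY]
    show B.val * T.val * T.val * (V⁻¹).val * (B⁻¹).val = _
    rw [hBi, hB, hT', hVi, det_s1 x p a b k1 k2 k3 k4, det_s2 x p a b k1 k2 k3 k4,
      det_s3 x p a b k1 k2 k3 k4, det_s4 x p a b k1 k2 k3 k4]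
  have h5 : (T * Y * V).val = !![2 * x ^ 2 * a * b - 2 * x * p * a ^ 2 - 3 * x * a * b + p * a ^ 2 - 2 * p + a *
      b, 2 * x ^ 2 * a ^ 2 - 2 * x * p * a * b - 3 * x * a ^ 2 + p * a * b + a ^ 2 + 1; -2 * x ^ 2 * a ^ 2 - 2 * x *
      p * a * b + x * a ^ 2 + p * a * b - 1, -2 * x ^ 2 * a * b + 2 * x * p * a ^ 2 + 3 * x * a * b - p * a ^ 2 - a
      * b] := by
    show T.val * Y.val * V.val = _
    rw [hT', hYv, hV', det_s5 x p a b k1 k2 k3 k4, det_s6 x p a b k1 k2 k3 k4]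
  have h6 : (T * Y * V * Y * T).val = !![4 * x ^ 2 * p * b + 2 * x ^ 2 * a - 4 * x * p * b - 2 * x * a + p * b +
      a, 4 * x ^ 3 * b - 8 * x ^ 2 * b + 2 * x * p * a + 7 * x * b - 2 * p * a - 3 * b; 4 * x ^ 3 * b - 4 * x ^ 2 *
      b + 2 * x * p * a + 3 * x * b, 4 * x ^ 2 * p * b + 2 * x ^ 2 * a - 4 * x * p * b - 2 * x * a + p * b + a] :=
      by
    show (T * Y * V).val * Y.val * T.val = _
    rw [h5, hYv, hT', det_s7 x p a b k1 k2 k3 k4, det_s8 x p a b k1 k2 k3 k4]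
  rw [h6, h5, hYv, hT', det_s10 x p a b, det_s11 x p a b, det_s9 x p a b k1 k2 k3 k4,
    det_s12 x p a b, det_s13 x p a b k1 k2 k3 k4, hs1]

end Pool.Agent.F8.PIC7
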