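import Pool.Agent.Lib.MP_305fdd_al.F8.PIC7.StmG
import Pool.Agent.Lib.MP_305fdd_al.F8.PIC.P_fi

/-!
# MP_305fdd_al, project PIC7, piece fi: the index of `ρ(Λ)` is finite
-/

set_option autoImplicit false

namespace Pool.Agent.F8.PIC7

open Pool.Agent.MP_305fdd_al Pool.Agent.Lib.MP_305fdd_al Pool.Agent.F2X Pool.Agent.F8
  Pool.Agent.F8.HN Pool.Agent.F8.AB Pool.Agent.F8.D7
open scoped QuadraticAlgebra

theorem p_fi (h1 : S_eta) (h2 : S_h6) (h3 : S_m5) (h4 : S_fin) : S_fi := by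
  intro Λ _ _ Φ ρ hρ
  obtain ⟨η, hη⟩ := h1
  obtain ⟨hL, hfg, hev, hodd, hlab⟩ := h2 Λ Φ ρ hρ η hη
  have hyp : Hyp6 (H6 ρ η) := ⟨hfg, hev, hodd, hlab, h3 Λ Φ ρ hρ η hη hL⟩
  have hH : (H6 ρ η).FiniteIndex := h4 _ hyp
  have hc : ((H6 ρ η).comap η).FiniteIndex := by
    have : (H6 ρ η).IsFiniteRelIndex η.range := Subgroup.isFiniteRelIndex_of_finiteIndex
    refine ⟨?_⟩
    rw [Subgroup.index_comap]
    exact Subgroup.relIndex_ne_zero
  have hG6 : G6.FiniteIndex := by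
    have : Finite (SL2 (ZMod 4) × SL2 (ZMod 2)) := inferInstance
    have : A6.FiniteIndex := inferInstance
    have : A6.IsFiniteRelIndex r42.range := Subgroup.isFiniteRelIndex_of_finiteIndex
    refine ⟨?_⟩
    unfold G6
    rw [Subgroup.index_comap]
    exact Subgroup.relIndex_ne_zero
  have hB : (((H6 ρ η).comap η).map G6.subtype).FiniteIndex := by
    refine ⟨?_⟩
    rw [Subgroup.index_map_subtype]
    exact mul_ne_zero hc.index_ne_zero hG6.index_ne_zero
  refine PIC.fi_cover ρ.range (((H6 ρ η).comap η).map G6.subtype) (-1) ?_ ?_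
  · intro x
    rw [neg_mul, mul_neg, one_mul, mul_one]
  · rintro b ⟨x, hx, rfl⟩
    have hx' : η x ∈ H6 ρ η := hx
    obtain ⟨a, ha, hax⟩ := hx'
    have ha' : a.val ∈ ρ.range := ha
    have h5 : η (a⁻¹ * x) = 1 := by
      rw [map_mul, map_inv, hax, inv_mul_cancel]
    rcases (hη.ker _).1 h5 with h6 | h6
    · left
      have h7 : (x : GG) = a := by
        have h8 : (a : GG)⁻¹ * (x : GG) = 1 := h6
        exact (inv_mul_eq_one.1 h8).symm
      show (x : GG) ∈ ρ.range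
      rw [h7]
      exact ha'
    · right
      have h8 : (a : GG)⁻¹ * (x : GG) = -1 := h6
      have h7 : (x : GG) = -(a : GG) := by
        rw [inv_mul_eq_iff_eq_mul] at h8
        rw [h8, mul_neg, mul_one]
      show (-1 : GG) * (x : GG) ∈ ρ.range
      rw [h7, neg_mul_neg, one_mul]
      exact ha'

end Pool.Agent.F8.PIC7
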