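import Pool.Agent.Lib.MP_305fdd_al.F8.PIC7.StmG

/-!
# MP_305fdd_al, `PSL₂(O₇)`: piece fin
-/

set_option autoImplicit false

namespace Pool.Agent.F8.PIC7

open Pool.Agent.MP_305fdd_al Pool.Agent.Lib.MP_305fdd_al Pool.Agent.F2X Pool.Agent.F8
  Pool.Agent.F8.HN Pool.Agent.F8.AB Pool.Agent.F8.D7

/-- the automorphisms which preserve the parity of the length and, on the elements of even length, the parity of the
exponent of `gb` -/
def fin_B : Subgroup (MulAut F) where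
  carrier := {β | (∀ y, (2 : ℤ) ∣ (vec (β y) 0 + vec (β y) 1) - (vec y 0 + vec y 1)) ∧
    ∀ y, (2 : ℤ) ∣ vec y 0 + vec y 1 → (2 : ℤ) ∣ vec (β y) 1 - vec y 1}
  one_mem' := ⟨fun y => by simp, fun y _ => by simp⟩
  mul_mem' := by
    rintro β γ ⟨b1, b2⟩ ⟨c1, c2⟩
    refine ⟨fun y => ?_, fun y hy => ?_⟩
    · rw [MulAut.mul_apply]
      have h1 := b1 (γ y)
      have h2 := c1 y
      omega
    · rw [MulAut.mul_apply]
      have h3 := c1 y
      have h1 := b2 (γ y) (by omega)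
      have h2 := c2 y hy
      omega
  inv_mem' := by
    rintro β ⟨b1, b2⟩
    have h0 : ∀ y, β (β⁻¹ y) = y := fun y => MulAut.apply_inv_self F β y
    have hc : ∀ y, (2 : ℤ) ∣ (vec (β⁻¹ y) 0 + vec (β⁻¹ y) 1) - (vec y 0 + vec y 1) := by
      intro y
      have h1 := b1 (β⁻¹ y)
      rw [h0] at h1
      omega
    refine ⟨hc, fun y hy => ?_⟩
    have h2 := hc y
    have h1 := b2 (β⁻¹ y) (by omega)
    rw [h0] at h1
    omega

theorem fin_al7 (y : F) : vec (al7 y) 0 = 4 * vec y 0 + vec y 1 ∧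
    vec (al7 y) 1 = -vec y 0 := by
  have h := vec_hom al7.toMonoidHom y
  have h1 : vec (al7 y) = (amat al7.toMonoidHom).mulVec (vec y) := h
  have a0 : amat al7.toMonoidHom = !![4, 1; -1, 0] := by
    ext i j
    have e0 : vec ga = Pi.single 0 1 := vec_of 0
    have e1 : vec gb = Pi.single 1 1 := vec_of 1
    have g0 : (amat al7.toMonoidHom) i 0 = vec (al7 ga) i := rfl
    have g1 : (amat al7.toMonoidHom) i 1 = vec (al7 gb) i := rfl
    rw [al7_ga] at g0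
    rw [al7_gb] at g1
    simp only [vec_mul, vec_inv, e0, e1] at g0 g1
    fin_cases j
    · fin_cases i
      · simpa using g0
      · simpa using g0
    · fin_cases i
      · simpa using g1
      · simpa using g1
  rw [h1, a0]
  constructor
  · simp [Matrix.mulVec, dotProduct, Fin.sum_univ_two]
  · simp [Matrix.mulVec, dotProduct, Fin.sum_univ_two]

theorem fin_al7_mem : al7 ∈ fin_B := by
  refine ⟨fun y => ?_, fun y hy => ?_⟩
  · obtain ⟨h0, h1⟩ := fin_al7 y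
    omega
  · obtain ⟨h0, h1⟩ := fin_al7 y
    omega

theorem fin_zp (n : Multiplicative ℤ) : zpowersHom (MulAut F) al7 n ∈ fin_B := by
  rw [zpowersHom_apply]
  exact Subgroup.zpow_mem _ fin_al7_mem _

/-- the exponent of `t` -/
def fin_n (g : G7) : ℤ := Multiplicative.toAdd (nA al7 g)

theorem fin_n_mul (g g' : G7) : fin_n (g * g') = fin_n g + fin_n g' := by
  unfold fin_n
  rw [map_mul]; rfl

theorem fin_n_inv (g : G7) : fin_n g⁻¹ = -fin_n g := by
  unfold fin_n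
  rw [map_inv]; rfl

theorem fin_left_mul (g g' : G7) :
    (g * g').left = g.left * (zpowersHom (MulAut F) al7 g.right) g'.left := rfl

/-- elements of even length with second exponent `e n` modulo `2` -/
def fin_D (e : ℤ) : Subgroup G7 where
  carrier := {g | (2 : ℤ) ∣ vec g.left 0 + vec g.left 1 ∧ (2 : ℤ) ∣ vec g.left 1 - e * fin_n g}
  one_mem' := by
    refine ⟨?_, ?_⟩
    · show (2 : ℤ) ∣ vec (1 : F) 0 + vec (1 : F) 1
      simp
    · show (2 : ℤ) ∣ vec (1 : F) 1 - e * 0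
      simp
  mul_mem' := by
    rintro g g' ⟨a1, a2⟩ ⟨b1, b2⟩
    obtain ⟨c1, c2⟩ := fin_zp g.right
    have h1 := c1 g'.left
    have h2 := c2 g'.left b1
    refine ⟨?_, ?_⟩
    · rw [fin_left_mul, vec_mul]
      show (2 : ℤ) ∣ vec g.left 0 + vec ((zpowersHom (MulAut F) al7 g.right) g'.left) 0 +
        (vec g.left 1 + vec ((zpowersHom (MulAut F) al7 g.right) g'.left) 1)
      omega
    · rw [fin_left_mul, vec_mul, fin_n_mul]
      show (2 : ℤ) ∣ vec g.left 1 + vec ((zpowersHom (MulAut F) al7 g.right) g'.left) 1 -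
        e * (fin_n g + fin_n g')
      have h3 : vec g.left 1 + vec ((zpowersHom (MulAut F) al7 g.right) g'.left) 1 -
          e * (fin_n g + fin_n g') = (vec g.left 1 - e * fin_n g) +
          ((vec ((zpowersHom (MulAut F) al7 g.right) g'.left) 1 - vec g'.left 1) +
            (vec g'.left 1 - e * fin_n g')) := by ring
      rw [h3]
      exact dvd_add a2 (dvd_add h2 b2)
  inv_mem' := by
    rintro g ⟨a1, a2⟩
    obtain ⟨c1, c2⟩ := fin_zp g⁻¹.right
    have h0 : (g⁻¹).left * 1 = (zpowersHom (MulAut F) al7 g⁻¹.right) (g.left)⁻¹ := by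
      rw [mul_one]; rfl
    rw [mul_one] at h0
    have h1 := c1 (g.left)⁻¹
    rw [vec_inv] at h1
    have h1' : (2 : ℤ) ∣ (vec ((zpowersHom (MulAut F) al7 g⁻¹.right) (g.left)⁻¹) 0 +
      vec ((zpowersHom (MulAut F) al7 g⁻¹.right) (g.left)⁻¹) 1) -
      (-(vec g.left 0) + -(vec g.left 1)) := h1
    refine ⟨?_, ?_⟩
    · rw [h0]
      omega
    · rw [h0, fin_n_inv]
      have h2 := c2 (g.left)⁻¹ (by
        rw [vec_inv]
        show (2 : ℤ) ∣ -(vec g.left 0) + -(vec g.left 1)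
        omega)
      rw [vec_inv] at h2
      have h2' : (2 : ℤ) ∣ vec ((zpowersHom (MulAut F) al7 g⁻¹.right) (g.left)⁻¹) 1 -
        (-(vec g.left 1)) := h2
      have h3 : vec ((zpowersHom (MulAut F) al7 g⁻¹.right) (g.left)⁻¹) 1 - e * -fin_n g =
        (vec ((zpowersHom (MulAut F) al7 g⁻¹.right) (g.left)⁻¹) 1 - (-(vec g.left 1))) -
          (vec g.left 1 - e * fin_n g) := by ring
      rw [h3]
      exact dvd_sub h2' a2

/-- a positive element with minimal exponent -/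
theorem fin_k (H : Subgroup G7)
    (hodd' : ∃ (w : F) (n : ℤ), iA al7 w * tA al7 ^ n ∈ H ∧ Odd n) :
    ∃ (k : ℕ) (w : F), 1 ≤ k ∧ ¬ (2 : ℤ) ∣ k ∧ iA al7 w * tA al7 ^ k ∈ H ∧
      ∀ x ∈ H, (k : ℤ) ∣ fin_n x := by
  have hodd : ∃ x ∈ H, Odd (fin_n x) := by
    obtain ⟨w, n, h, hn⟩ := hodd'
    refine ⟨_, h, ?_⟩
    have e : fin_n (iA al7 w * tA al7 ^ n) = n := by
      unfold fin_n
      rw [map_mul, nA_iA, one_mul, map_zpow, nA_tA]
      simp
    rw [e]
    exact hn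
  let S : AddSubgroup ℤ :=
    { carrier := {n | ∃ x ∈ H, fin_n x = n}
      zero_mem' := ⟨1, H.one_mem, rfl⟩
      add_mem' := by
        rintro a b ⟨x, hx, rfl⟩ ⟨y, hy, rfl⟩
        exact ⟨x * y, H.mul_mem hx hy, fin_n_mul x y⟩
      neg_mem' := by
        rintro a ⟨x, hx, rfl⟩
        exact ⟨x⁻¹, H.inv_mem hx, fin_n_inv x⟩ }
  obtain ⟨a, ha⟩ := Int.subgroup_cyclic S
  have hS : ∀ n, n ∈ S ↔ a ∣ n := by
    intro n
    rw [ha, AddSubgroup.mem_closure_singleton]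
    constructor
    · rintro ⟨m, rfl⟩
      exact ⟨m, by rw [smul_eq_mul, mul_comm]⟩
    · rintro ⟨m, rfl⟩
      exact ⟨m, by rw [smul_eq_mul, mul_comm]⟩
  obtain ⟨x, hx, hxo⟩ := hodd
  have h1 : a ∣ fin_n x := (hS _).1 ⟨x, hx, rfl⟩
  have h2 : Odd (fin_n x) := hxo
  have h3 : ¬ (2 : ℤ) ∣ a := by
    intro h
    have h4 := dvd_trans h h1
    rw [← Int.not_even_iff_odd] at h2
    exact h2 (even_iff_two_dvd.2 h4)
  have hk : (a.natAbs : ℤ) ∈ S := (hS _).2 (Int.dvd_natAbs_self)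
  obtain ⟨g, hg, hgn⟩ := hk
  obtain ⟨w, n, hwn⟩ := GA_cases al7 g
  have hn : n = (a.natAbs : ℤ) := by
    rw [← hgn, hwn]
    unfold fin_n
    rw [map_mul, nA_iA, one_mul, map_zpow, nA_tA]
    simp
  refine ⟨a.natAbs, w, ?_, ?_, ?_, ?_⟩
  · rcases Nat.eq_zero_or_pos a.natAbs with h | h
    · exact absurd (by rw [Int.natAbs_eq_zero.1 h]; exact dvd_zero _) h3
    · exact h
  · intro h
    exact h3 (Int.dvd_natAbs.1 h)
  · rw [← zpow_natCast, ← hn, ← hwn]
    exact hg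
  · intro x hx
    exact Int.natAbs_dvd.2 ((hS _).1 ⟨x, hx, rfl⟩)

theorem fin_cases_n (g : G7) : ∃ w : F, g = iA al7 w * tA al7 ^ fin_n g := by
  obtain ⟨w, n, h⟩ := GA_cases al7 g
  refine ⟨w, ?_⟩
  have hn : fin_n g = n := by
    rw [h]
    unfold fin_n
    rw [map_mul, nA_iA, one_mul, map_zpow, nA_tA]
    simp
  rw [hn]
  exact h

theorem fin_left (w : F) (n : ℤ) : (iA al7 w * tA al7 ^ n).left = w := by
  have h : tA al7 ^ n = (SemidirectProduct.inr ((Multiplicative.ofAdd (1 : ℤ)) ^ n) : GA al7) :=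
    (map_zpow (SemidirectProduct.inr : Multiplicative ℤ →* GA al7) _ _).symm
  rw [h]
  show w * (zpowersHom (MulAut F) al7 1) 1 = w
  rw [map_one, mul_one]

theorem fin_n_zpow (g : G7) (m : ℤ) : fin_n (g ^ m) = m * fin_n g := by
  unfold fin_n
  rw [map_zpow, toAdd_zpow, smul_eq_mul]

theorem fin_n_it (w : F) (n : ℤ) : fin_n (iA al7 w * tA al7 ^ n) = n := by
  unfold fin_n
  rw [map_mul, nA_iA, one_mul, map_zpow, nA_tA]
  simp

/-- the intersection with `F` is not in the commutator subgroup -/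
theorem fin_vec (H : Subgroup G7)
    (hev : ∀ (w : F) (n : ℤ), iA al7 w * tA al7 ^ n ∈ H → Even (vec w 0 + vec w 1))
    (hlab : ∃ (w : F) (n : ℤ), iA al7 w * tA al7 ^ n ∈ H ∧ Even n ∧ Odd (vec w 1))
    (k : ℕ) (w : F) (hk : ¬ (2 : ℤ) ∣ k) (hh : iA al7 w * tA al7 ^ k ∈ H)
    (hdvd : ∀ x ∈ H, (k : ℤ) ∣ fin_n x) : ∃ x ∈ H.comap (iA al7), vec x ≠ 0 := by
  by_contra hno
  push Not at hno
  obtain ⟨w', n, hg, hn, h4⟩ := hlab
  have hh' : iA al7 w * tA al7 ^ (k : ℤ) ∈ H := by rw [zpow_natCast]; exact hh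
  have e0 := hev w k hh'
  rw [even_iff_two_dvd] at e0 hn
  have hD1 : iA al7 w * tA al7 ^ (k : ℤ) ∈ fin_D (vec w 1) := by
    refine ⟨?_, ?_⟩
    · rw [fin_left]
      exact e0
    · rw [fin_left, fin_n_it]
      obtain ⟨d, hd⟩ : ∃ d, (k : ℤ) = 2 * d + 1 := ⟨k / 2, by omega⟩
      rw [hd]
      exact ⟨-(vec w 1 * d), by ring⟩
  obtain ⟨m, hm⟩ := hdvd _ hg
  rw [fin_n_it] at hm
  have hx1 : iA al7 w' * tA al7 ^ n * (iA al7 w * tA al7 ^ (k : ℤ)) ^ (-m) ∈ H :=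
    H.mul_mem hg (H.zpow_mem hh' _)
  have hn0 : fin_n (iA al7 w' * tA al7 ^ n * (iA al7 w * tA al7 ^ (k : ℤ)) ^ (-m)) = 0 := by
    rw [fin_n_mul, fin_n_it, fin_n_zpow, fin_n_it, hm]
    ring
  obtain ⟨x, hx⟩ := fin_cases_n (iA al7 w' * tA al7 ^ n * (iA al7 w * tA al7 ^ (k : ℤ)) ^ (-m))
  rw [hn0, zpow_zero, mul_one] at hx
  rw [hx] at hx1
  have hv := hno x hx1
  have hD2 : iA al7 x ∈ fin_D (vec w 1) := by
    refine ⟨?_, ?_⟩
    · show (2 : ℤ) ∣ vec x 0 + vec x 1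
      rw [hv]
      simp
    · show (2 : ℤ) ∣ vec x 1 - vec w 1 * 0
      rw [hv]
      simp
  have hD3 : iA al7 w' * tA al7 ^ n ∈ fin_D (vec w 1) := by
    have h5 := (fin_D (vec w 1)).mul_mem hD2 ((fin_D (vec w 1)).zpow_mem hD1 m)
    rw [← hx, zpow_neg, inv_mul_cancel_right] at h5
    exact h5
  obtain ⟨_, h6⟩ := hD3
  rw [fin_left, fin_n_it] at h6
  have h7 : (2 : ℤ) ∣ vec w 1 * n := by
    obtain ⟨d, hd⟩ := hn
    rw [hd]
    exact ⟨vec w 1 * d, by ring⟩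
  obtain ⟨c, hc⟩ := h4
  omega

/-- the piece fin -/
theorem p_fin (hafg : S_afg) (hinf : S_inf) : S_fin := by
  intro H hH
  obtain ⟨k, w, hk1, hk2, hh, hdvd⟩ := fin_k H hH.odd
  have hP := hafg H hH
  have hv := fin_vec H hH.ev hH.lab k w hk2 hh hdvd
  have hnorm : ∀ x, x ∈ H.comap (iA al7) ↔ w * (al7 ^ k) x * w⁻¹ ∈ H.comap (iA al7) := by
    intro x
    have h1 : (iA al7 w * tA al7 ^ k) * iA al7 x * (iA al7 w * tA al7 ^ k)⁻¹ =
        iA al7 (w * (al7 ^ k) x * w⁻¹) := by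
      rw [map_mul, map_mul, map_inv, ← tA_pow_conj]
      group
    rw [Subgroup.mem_comap, Subgroup.mem_comap, ← h1]
    constructor
    · intro hx
      exact H.mul_mem (H.mul_mem hh hx) (H.inv_mem hh)
    · intro hx
      have h2 := H.mul_mem (H.mul_mem (H.inv_mem hh) hx) hh
      have h3 : (iA al7 w * tA al7 ^ k)⁻¹ * (iA al7 w * tA al7 ^ k * iA al7 x *
          (iA al7 w * tA al7 ^ k)⁻¹) * (iA al7 w * tA al7 ^ k) = iA al7 x := by group
      rwa [h3] at h2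
  have hfi := hinf (H.comap (iA al7)) hP hv w k hk1 hnorm
  have hfin : Finite (F ⧸ H.comap (iA al7)) := by
    have := hfi
    infer_instance
  let f : Fin k × (F ⧸ H.comap (iA al7)) → G7 ⧸ H := fun p =>
    QuotientGroup.mk (tA al7 ^ (p.1 : ℕ) * iA al7 p.2.out)
  have hf : Function.Surjective f := by
    intro q
    obtain ⟨g, rfl⟩ := QuotientGroup.mk_surjective q
    have hk0 : (0 : ℤ) < k := by exact_mod_cast hk1
    have hj0 : 0 ≤ fin_n g % k := Int.emod_nonneg _ hk0.ne'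
    have hj1 : fin_n g % k < k := Int.emod_lt_of_pos _ hk0
    obtain ⟨j, hj⟩ := Int.eq_ofNat_of_zero_le hj0
    have hjk : j < k := by rw [hj] at hj1; exact_mod_cast hj1
    have h1 : fin_n ((tA al7 ^ j)⁻¹ * g * (iA al7 w * tA al7 ^ (k : ℤ)) ^ (-(fin_n g / k))) = 0 := by
      rw [fin_n_mul, fin_n_mul, fin_n_inv]
      have e1 : fin_n (tA al7 ^ j) = j := by
        unfold fin_n
        rw [map_pow, nA_tA, ← ofAdd_nsmul, toAdd_ofAdd]
        simp
      have e2 : fin_n ((iA al7 w * tA al7 ^ (k : ℤ)) ^ (-(fin_n g / k))) =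
          -(k * (fin_n g / k)) := by
        rw [fin_n_zpow, fin_n_it]
        ring
      rw [e1, e2]
      have e3 := Int.emod_add_mul_ediv (fin_n g) k
      rw [hj] at e3
      linarith
    obtain ⟨y, hy⟩ := fin_cases_n
      ((tA al7 ^ j)⁻¹ * g * (iA al7 w * tA al7 ^ (k : ℤ)) ^ (-(fin_n g / k)))
    rw [h1, zpow_zero, mul_one] at hy
    refine ⟨(⟨j, hjk⟩, QuotientGroup.mk y), ?_⟩
    show QuotientGroup.mk (tA al7 ^ j * iA al7 (QuotientGroup.mk y : F ⧸ H.comap (iA al7)).out) = _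
    rw [QuotientGroup.eq]
    have h2 : ((QuotientGroup.mk y : F ⧸ H.comap (iA al7)).out)⁻¹ * y ∈ H.comap (iA al7) := by
      rw [← QuotientGroup.eq, QuotientGroup.out_eq']
    have h3 : (tA al7 ^ j * iA al7 (QuotientGroup.mk y : F ⧸ H.comap (iA al7)).out)⁻¹ * g =
        iA al7 (((QuotientGroup.mk y : F ⧸ H.comap (iA al7)).out)⁻¹ * y) *
          (iA al7 w * tA al7 ^ (k : ℤ)) ^ (fin_n g / k) := by
      rw [map_mul, ← hy, map_inv, zpow_neg]
      group
    rw [h3]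
    refine H.mul_mem h2 (H.zpow_mem ?_ _)
    rw [zpow_natCast]
    exact hh
  have hfin2 : Finite (G7 ⧸ H) := Finite.of_surjective f hf
  exact Subgroup.finiteIndex_of_finite_quotient

end Pool.Agent.F8.PIC7
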