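import Pool.Agent.Lib.MP_305fdd_al.F8.PIC7.StmG

/-!
# MP_305fdd_al, PIC7, piece frm: a finiteness criterion for modules over `ℤ[τ, 1/τ]`

`σ = τ + τ⁻¹`; the module is finitely generated over `ℤ[σ]`, because `τ ^ 2 = σ τ - 1`.
-/

set_option autoImplicit false

namespace Pool.Agent.F8.PIC7

open Polynomial

section

variable {M : Type} [AddCommGroup M]

/-- the module structure over `ℤ[X]` given by an endomorphism -/
@[reducible] private noncomputable def frm_mod (σ : Module.End ℤ M) : Module ℤ[X] M :=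
  Module.compHom M (aeval σ : ℤ[X] →ₐ[ℤ] Module.End ℤ M).toRingHom

private theorem frm_nak (σ : Module.End ℤ M) (S : Finset M)
    (hS : ∀ K : AddSubgroup M, (∀ x ∈ S, x ∈ K) → (∀ x ∈ K, σ x ∈ K) → K = ⊤)
    (hI : ∀ x : M, ∃ a b : M, x = (5 : ℤ) • a + (σ b + (2 : ℤ) • b)) :
    ∃ r : ℤ[X], r ≠ 0 ∧ ∀ x, aeval σ r x = 0 := by
  let _ := frm_mod σ
  have hsm : ∀ (p : ℤ[X]) (x : M), p • x = aeval σ p x := fun _ _ => rfl
  have htop : Submodule.span ℤ[X] (S : Set M) = ⊤ := by
    have h := hS (Submodule.span ℤ[X] (S : Set M)).toAddSubgroup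
      (fun x hx => Submodule.subset_span hx) (fun x hx => by
        have h1 : (X : ℤ[X]) • x ∈ Submodule.span ℤ[X] (S : Set M) :=
          Submodule.smul_mem _ _ hx
        rw [hsm, aeval_X] at h1
        exact h1)
    rw [eq_top_iff]
    intro x _
    have h1 : x ∈ (Submodule.span ℤ[X] (S : Set M)).toAddSubgroup := by rw [h]; trivial
    exact h1
  let I : Ideal ℤ[X] := Ideal.span {C 5, X + C 2}
  have h3 : (C 5 : ℤ[X]) ∈ I := Ideal.subset_span (by simp)
  have h2 : (X + C 2 : ℤ[X]) ∈ I := Ideal.subset_span (by simp)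
  obtain ⟨r, hr, hr0⟩ := Submodule.exists_sub_one_mem_and_smul_eq_zero_of_fg_of_le_smul I
    (⊤ : Submodule ℤ[X] M) ⟨S, htop⟩ (by
      intro x _
      obtain ⟨a, b, hab⟩ := hI x
      have h4 : x = (C 5 : ℤ[X]) • a + (X + C 2 : ℤ[X]) • b := by
        rw [hsm, hsm, map_add, aeval_C, aeval_C, aeval_X, LinearMap.add_apply,
          Module.algebraMap_end_apply, Module.algebraMap_end_apply]
        exact hab
      rw [h4]
      exact Submodule.add_mem _ (Submodule.smul_mem_smul h3 trivial)
        (Submodule.smul_mem_smul h2 trivial))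
  refine ⟨r, ?_, fun x => ?_⟩
  · rintro rfl
    obtain ⟨u, v, huv⟩ := Ideal.mem_span_pair.1 hr
    have h5 := congrArg (eval (-2)) huv
    simp only [eval_add, eval_mul, eval_C, eval_X, eval_sub, eval_zero, eval_one] at h5
    lia
  · exact hr0 x trivial

private theorem frm_fin (σ : Module.End ℤ M) (S : Finset M)
    (hS : ∀ K : AddSubgroup M, (∀ x ∈ S, x ∈ K) → (∀ x ∈ K, σ x ∈ K) → K = ⊤)
    (r : ℤ[X]) (hr : r ≠ 0) (h0 : ∀ x, aeval σ r x = 0) :
    ∃ G : Finset M, ∀ x : M, ∃ n : ℤ, n ≠ 0 ∧ n • x ∈ AddSubgroup.closure (G : Set M) := by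
  classical
  let G : Finset M := (Finset.range (r.natDegree + 1) ×ˢ S).image fun p => (σ ^ p.1) p.2
  have hG : ∀ i, i ≤ r.natDegree → ∀ y ∈ S, (σ ^ i) y ∈ AddSubgroup.closure (G : Set M) := by
    intro i hi y hy
    apply AddSubgroup.subset_closure
    exact Finset.mem_coe.2 (Finset.mem_image.2 ⟨(i, y), Finset.mem_product.2
      ⟨Finset.mem_range.2 (by lia), hy⟩, rfl⟩)
  have hc : r.leadingCoeff ≠ 0 := leadingCoeff_ne_zero.2 hr
  have hstep : ∀ w ∈ AddSubgroup.closure (G : Set M),
      r.leadingCoeff • σ w ∈ AddSubgroup.closure (G : Set M) := by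
    intro w hw
    induction hw using AddSubgroup.closure_induction with
    | mem w hw =>
      obtain ⟨⟨i, y⟩, hp, rfl⟩ := Finset.mem_image.1 (Finset.mem_coe.1 hw)
      rw [Finset.mem_product, Finset.mem_range] at hp
      change i < r.natDegree + 1 ∧ y ∈ S at hp
      change r.leadingCoeff • σ ((σ ^ i) y) ∈ _
      have h1 : σ ((σ ^ i) y) = (σ ^ (i + 1)) y := by
        rw [pow_succ']; rfl
      rcases lt_or_eq_of_le (Nat.lt_succ_iff.1 hp.1) with hi | hi
      · rw [h1]
        exact AddSubgroup.zsmul_mem _ (hG (i + 1) hi y hp.2) _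
      · subst hi
        have h2 := h0 y
        rw [aeval_eq_sum_range, Finset.sum_range_succ, LinearMap.add_apply,
          LinearMap.smul_apply, coeff_natDegree] at h2
        have h3 : r.leadingCoeff • (σ ^ r.natDegree) y =
            -((∑ i ∈ Finset.range r.natDegree, r.coeff i • σ ^ i) y) :=
          eq_neg_of_add_eq_zero_right h2
        rw [← map_zsmul, h3, map_neg, LinearMap.sum_apply, map_sum]
        refine AddSubgroup.neg_mem _ (AddSubgroup.sum_mem _ fun j hj => ?_)
        rw [LinearMap.smul_apply, map_zsmul]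
        refine AddSubgroup.zsmul_mem _ ?_ _
        have h4 : σ ((σ ^ j) y) = (σ ^ (j + 1)) y := by
          rw [pow_succ']; rfl
        rw [h4]
        exact hG (j + 1) (by have := Finset.mem_range.1 hj; lia) y hp.2
    | zero => rw [map_zero, smul_zero]; exact AddSubgroup.zero_mem _
    | add a b _ _ ha hb => rw [map_add, smul_add]; exact AddSubgroup.add_mem _ ha hb
    | neg a _ ha => rw [map_neg, smul_neg]; exact AddSubgroup.neg_mem _ ha
  let K : AddSubgroup M :=
    { carrier := {x | ∃ n : ℤ, n ≠ 0 ∧ n • x ∈ AddSubgroup.closure (G : Set M)}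
      zero_mem' := ⟨1, one_ne_zero, by rw [smul_zero]; exact AddSubgroup.zero_mem _⟩
      add_mem' := by
        rintro a b ⟨n, hn, ha⟩ ⟨m, hm, hb⟩
        refine ⟨n * m, mul_ne_zero hn hm, ?_⟩
        rw [smul_add]
        refine AddSubgroup.add_mem _ ?_ ?_
        · rw [mul_comm, mul_smul]
          exact AddSubgroup.zsmul_mem _ ha _
        · rw [mul_smul]
          exact AddSubgroup.zsmul_mem _ hb _
      neg_mem' := by
        rintro a ⟨n, hn, ha⟩
        refine ⟨n, hn, ?_⟩
        rw [smul_neg]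
        exact AddSubgroup.neg_mem _ ha }
  have hK : K = ⊤ := by
    apply hS
    · intro y hy
      refine ⟨1, one_ne_zero, ?_⟩
      rw [one_smul]
      have := hG 0 (Nat.zero_le _) y hy
      rwa [pow_zero] at this
    · rintro x ⟨n, hn, hx⟩
      refine ⟨r.leadingCoeff * n, mul_ne_zero hc hn, ?_⟩
      rw [mul_smul, ← map_zsmul]
      exact hstep _ hx
  refine ⟨G, fun x => ?_⟩
  have hx : x ∈ K := by rw [hK]; trivial
  exact hx

private theorem frm_M (τ : M ≃+ M) (S : Finset M)
    (h1 : ∀ K : AddSubgroup M, (∀ x ∈ S, x ∈ K) → (∀ x ∈ K, τ x ∈ K ∧ τ.symm x ∈ K) → K = ⊤)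
    (h2 : ∀ f : M →+ ZMod 5, (∀ x, f (τ x) = -f x) → f = 0) :
    ∃ G : Finset M, ∀ x : M, ∃ n : ℤ, n ≠ 0 ∧ n • x ∈ AddSubgroup.closure (G : Set M) := by
  classical
  let σ : Module.End ℤ M := τ.toAddMonoidHom.toIntLinearMap + τ.symm.toAddMonoidHom.toIntLinearMap
  have hσ : ∀ x, σ x = τ x + τ.symm x := fun x => rfl
  have hS : ∀ K : AddSubgroup M, (∀ x ∈ S ∪ S.image τ, x ∈ K) → (∀ x ∈ K, σ x ∈ K) →
      K = ⊤ := by
    intro K hK1 hK2
    have h3 : K ⊓ K.comap τ.toAddMonoidHom = ⊤ := by
      apply h1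
      · intro x hx
        refine ⟨hK1 x (Finset.mem_union_left _ hx), ?_⟩
        exact hK1 (τ x) (Finset.mem_union_right _ (Finset.mem_image_of_mem _ hx))
      · rintro x ⟨hx1, hx2⟩
        change x ∈ K at hx1
        change τ x ∈ K at hx2
        refine ⟨⟨hx2, ?_⟩, ⟨?_, ?_⟩⟩
        · change τ (τ x) ∈ K
          have h4 := hK2 _ hx2
          rw [hσ, AddEquiv.symm_apply_apply] at h4
          have h5 := AddSubgroup.sub_mem _ h4 hx1
          rwa [add_sub_cancel_right] at h5
        · change τ.symm x ∈ K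
          have h4 := hK2 _ hx1
          rw [hσ] at h4
          have h5 := AddSubgroup.sub_mem _ h4 hx2
          rwa [add_sub_cancel_left] at h5
        · change τ (τ.symm x) ∈ K
          rwa [AddEquiv.apply_symm_apply]
    rw [eq_top_iff, ← h3]
    exact inf_le_left
  have hJ : ∀ x : M, ∃ a b : M, x = (5 : ℤ) • a + (τ b + b) := by
    let g : M × M →+ M :=
      { toFun := fun p => (5 : ℤ) • p.1 + (τ p.2 + p.2)
        map_zero' := by simp
        map_add' := by
          intro p q
          simp only [Prod.fst_add, Prod.snd_add, smul_add, map_add]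
          abel }
    have hg : g.range = ⊤ := by
      by_contra hne
      obtain ⟨x, hx⟩ : ∃ x : M, x ∉ g.range := by
        by_contra hcon
        push Not at hcon
        exact hne (eq_top_iff.2 fun x _ => hcon x)
      have _ : Fact (Nat.Prime 5) := ⟨by decide⟩
      let _ : Module (ZMod 5) (M ⧸ g.range) := AddCommGroup.zmodModule (by
        intro y
        induction y using QuotientAddGroup.induction_on with
        | H y =>
          rw [← QuotientAddGroup.mk_nsmul, QuotientAddGroup.eq_zero_iff]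
          refine ⟨(y, 0), ?_⟩
          change (5 : ℤ) • y + (τ 0 + 0) = 5 • y
          rw [map_zero, add_zero, add_zero]
          exact ofNat_zsmul y 5)
      have hx' : (QuotientAddGroup.mk x : M ⧸ g.range) ≠ 0 := by
        rwa [Ne, QuotientAddGroup.eq_zero_iff]
      obtain ⟨φ, hφ⟩ : ∃ φ : Module.Dual (ZMod 5) (M ⧸ g.range),
          φ (QuotientAddGroup.mk x) ≠ 0 := by
        by_contra hcon
        push Not at hcon
        exact hx' ((Module.forall_dual_apply_eq_zero_iff (ZMod 5) _).1 hcon)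
      apply hφ
      have h5 := h2 (φ.toAddMonoidHom.comp (QuotientAddGroup.mk' g.range)) (by
        intro y
        change φ (QuotientAddGroup.mk (τ y)) = -φ (QuotientAddGroup.mk y)
        rw [eq_neg_iff_add_eq_zero, ← map_add, ← QuotientAddGroup.mk_add,
          (QuotientAddGroup.eq_zero_iff _).2, map_zero]
        refine ⟨(0, y), ?_⟩
        change (5 : ℤ) • (0 : M) + (τ y + y) = τ y + y
        rw [smul_zero, zero_add])
      exact congrArg (fun f => f x) h5
    intro x
    have hx : x ∈ g.range := by rw [hg]; trivial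
    obtain ⟨⟨a, b⟩, hab⟩ := hx
    exact ⟨a, b, hab.symm⟩
  have hI : ∀ x : M, ∃ a b : M, x = (5 : ℤ) • a + (σ b + (2 : ℤ) • b) := by
    intro x
    obtain ⟨a, b, hab⟩ := hJ x
    obtain ⟨a', b', hab'⟩ := hJ b
    refine ⟨a + (τ a' + a'), τ b', ?_⟩
    rw [hσ, AddEquiv.symm_apply_apply, hab, hab']
    simp only [map_add, map_zsmul, smul_add, two_smul]
    abel
  obtain ⟨r, hr, h0⟩ := frm_nak σ (S ∪ S.image τ) hS hI
  exact frm_fin σ (S ∪ S.image τ) hS r hr h0

end

theorem p_frm : S_frm := by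
  classical
  intro B τ S h1 h2
  obtain ⟨G, hG⟩ := frm_M τ S h1 h2
  have h3 : ∀ x ∈ AddSubgroup.closure (G : Set (B →₀ ℤ)), x.support ⊆ G.biUnion Finsupp.support := by
    intro x hx
    induction hx using AddSubgroup.closure_induction with
    | mem x hx => exact Finset.subset_biUnion_of_mem _ (Finset.mem_coe.1 hx)
    | zero => simp
    | add a b _ _ ha hb => exact Finsupp.support_add.trans (Finset.union_subset ha hb)
    | neg a _ ha => rwa [Finsupp.support_neg]
  have h4 : ∀ b : B, b ∈ G.biUnion Finsupp.support := by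
    intro b
    obtain ⟨n, hn, hb⟩ := hG (Finsupp.single b 1)
    apply h3 _ hb
    rw [Finsupp.mem_support_iff, Finsupp.smul_single, Finsupp.single_eq_same]
    simpa using hn
  exact Finite.of_injective (fun b : B => (⟨b, h4 b⟩ : {x // x ∈ G.biUnion Finsupp.support}))
    (fun a b hab => congrArg Subtype.val hab)

end Pool.Agent.F8.PIC7
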