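import Pool.Agent.Lib.MP_305fdd_al.F8.PIC7.StmU

/-!
# MP_305fdd_al, PIC7, piece g3: at most two characters
-/

set_option autoImplicit false

namespace Pool.Agent.F8.PIC7

open Pool.Agent.MP_305fdd_al Pool.Agent.Lib.MP_305fdd_al Pool.Agent.F2X Pool.Agent.F8
  Pool.Agent.F8.HN Pool.Agent.F8.AB Pool.Agent.F8.D7
open scoped QuadraticAlgebra

noncomputable section

theorem g3_tr_conj {K : Type} [CommRing K] (C g : SL2 K) : tr (C * g * C⁻¹) = tr g := by
  have h : (C * g * C⁻¹).val = C.val * g.val * C⁻¹.val := rfl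
  have h2 : C⁻¹.val * C.val = 1 := by
    have := congrArg Subtype.val (inv_mul_cancel C)
    exact this
  show (C * g * C⁻¹).val.trace = g.val.trace
  rw [h, Matrix.trace_mul_comm, ← mul_assoc, h2, one_mul]

theorem g3_tr_mul_inv {K : Type} [CommRing K] (A B : SL2 K) : tr (A * B⁻¹) =
    A.val 0 0 * B.val 1 1 - A.val 0 1 * B.val 1 0 - A.val 1 0 * B.val 0 1 +
      A.val 1 1 * B.val 0 0 := by
  have h : (A * B⁻¹).val = A.val * B.val.adjugate := rfl
  show (A * B⁻¹).val.trace = _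
  rw [h, Matrix.adjugate_fin_two, Matrix.trace_fin_two, Matrix.mul_apply, Matrix.mul_apply,
    Fin.sum_univ_two, Fin.sum_univ_two]
  simp only [Matrix.of_apply, Matrix.cons_val_zero, Matrix.cons_val_one, Matrix.cons_val_fin_one]
  ring

theorem g3_cG : cG uu⁻¹ = tt * uu := by decide

/-- the normal form of a representation with property P for the first subgroup -/
theorem g3_nf (hnf : S_nf) (hcoc : S_coc) (hpf : S_pf) {K : Type} [Field K]
    [IsAlgClosed K] (h2 : (2 : K) ≠ 0) (ρ : GG →* SL2 K) (hP : PIC.Pt P1 ρ) :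
    ∃ (C : SL2 K) (s p a b : K), NF ((MulAut.conj C).toMonoidHom.comp ρ) s p a b ∧
      p ^ 2 = 1 ∧ a + p * b = 1 := by
  have hirr : Irr ρ := by
    obtain ⟨g, h, e⟩ := hP.1
    exact ⟨g, h, e⟩
  obtain ⟨C, s, p, a, b, hN⟩ := hnf K h2 ρ hirr
  have hP' : Pt2 P1 P1 ((MulAut.conj C).toMonoidHom.comp ρ) :=
    hpf.2.2 GG P1 P1 K C ρ ⟨hP, hP⟩
  exact ⟨C, s, p, a, b, hN, hcoc K h2 _ s p a b hN hP'.1⟩

/-- each character with property P is one of the standard ones -/
theorem p_g3w (hnf : S_nf) (hstd : S_std) (hcoc : S_coc) (hcg : S_cg) (hpf : S_pf) : S_g3w := by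
  intro K _ _ h2 ρ hP
  obtain ⟨C, s, p, a, b, hN, hp, hab⟩ := g3_nf hnf hcoc hpf h2 ρ hP.1
  obtain ⟨C', s', p', a', b', hN', hp', hab'⟩ := g3_nf hnf hcoc hpf h2 (ρ.comp cG)
    (hcg K ρ hP.2)
  -- the trace of the image of `tt * uu`
  have h1 : tr (ρ (tt * uu)) = 2 := by
    have e1 : tr (((MulAut.conj C').toMonoidHom.comp (ρ.comp cG)) uu⁻¹) = tr (ρ (tt * uu)) := by
      show tr (C' * ρ (cG uu⁻¹) * C'⁻¹) = _
      rw [g3_tr_conj, g3_cG]
    rw [← e1]
    show (((MulAut.conj C').toMonoidHom.comp (ρ.comp cG)) uu⁻¹).val.trace = 2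
    rw [hN'.U, Matrix.trace_fin_two]
    simp only [Matrix.of_apply, Matrix.cons_val_zero, Matrix.cons_val_one,
      Matrix.cons_val_fin_one]
    linear_combination 2 * hab'
  have h3 : tr (((MulAut.conj C).toMonoidHom.comp ρ) (tt * uu)) = 2 := by
    show tr (C * ρ (tt * uu) * C⁻¹) = 2
    rw [g3_tr_conj, h1]
  have h4 : ((MulAut.conj C).toMonoidHom.comp ρ) (tt * uu) =
      ((MulAut.conj C).toMonoidHom.comp ρ) tt * (((MulAut.conj C).toMonoidHom.comp ρ) uu⁻¹)⁻¹ := by
    rw [map_mul, map_inv, inv_inv]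
  rw [h4, g3_tr_mul_inv, hN.T, hN.U] at h3
  simp only [Matrix.of_apply, Matrix.cons_val_zero, Matrix.cons_val_one,
    Matrix.cons_val_fin_one] at h3
  have hs : s ^ 2 = 1 := by linear_combination 4 * hp - hN.e1
  have hp1 : p = 1 := by
    have h5 : 2 ^ 3 * p = 2 ^ 3 * 1 := by
      field_simp at h3
      linear_combination h3 + 2 * b * hs - 8 * p * hab
    exact mul_left_cancel₀ (pow_ne_zero 3 h2) h5
  subst hp1
  obtain ⟨w, hw, H⟩ := hstd K h2 _ s a b hN (by linear_combination hab)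
  refine ⟨w, hw, fun g => ?_⟩
  rw [← H g]
  exact (g3_tr_conj C (ρ g)).symm

/-- **PIC7 g3**: at most two characters -/
theorem p_g3 (hnf : S_nf) (hstd : S_std) (hcoc : S_coc) (hcg : S_cg) (hpf : S_pf) : S_g3 := by
  intro k _ h2 hG
  have h2' : (2 : AlgebraicClosure k) ≠ 0 := by
    have h := (map_ne_zero (algebraMap k (AlgebraicClosure k))).mpr h2
    rwa [map_ofNat] at h
  obtain ⟨ρ, hP, hne⟩ := hpf.2.1 GG P1 P2 k (AlgebraicClosure k)
    (algebraMap k (AlgebraicClosure k)) 3 hG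
  have hc := fun i => p_g3w hnf hstd hcoc hcg hpf (AlgebraicClosure k) h2' (ρ i) (hP i)
  choose w hw H using hc
  have key : ∀ i j, i ≠ j → w i ≠ w j := by
    intro i j hij e
    obtain ⟨g, hg⟩ := hne i j hij
    apply hg
    rw [H i g, H j g, ev7_apply, ev7_apply, e]
  have hs : ∀ i j, w i = w j ∨ w i = -1 - w j := by
    intro i j
    have h : (w i - w j) * (w i + 1 + w j) = 0 := by
      linear_combination hw i - hw j
    rcases mul_eq_zero.mp h with h | h
    · exact Or.inl (by linear_combination h)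
    · exact Or.inr (by linear_combination h)
  have h01 : w 0 = -1 - w 1 := (hs 0 1).resolve_left (key 0 1 (by decide))
  have h21 : w 2 = -1 - w 1 := (hs 2 1).resolve_left (key 2 1 (by decide))
  exact key 0 2 (by decide) (h01.trans h21.symm)

end

end Pool.Agent.F8.PIC7
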