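import Pool.Agent.Lib.MP_305fdd_al.F8.PIC7.StmG

/-!
# MP_305fdd_al, PIC7, piece h6: the subgroup `H6`, first properties
-/

set_option autoImplicit false

namespace Pool.Agent.F8.PIC7

open Pool.Agent.MP_305fdd_al Pool.Agent.Lib.MP_305fdd_al Pool.Agent.F2X Pool.Agent.F8
  Pool.Agent.F8.HN Pool.Agent.F8.AB Pool.Agent.F8.D7
open scoped QuadraticAlgebra

noncomputable section

theorem h6_iff (Λ : Type) [Group Λ] (Φ : NatBij GG Λ) (ρ : Λ →* GG)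
    (hR : Rho Φ ρ) (l : Λ) : l ∈ L6 Φ ↔ ρ l ∈ G6 := by
  show Φ.toFun _ r42 l ∈ A6 ↔ r42 (ρ l) ∈ A6
  rw [hR.four]

/-- the homomorphism `L6 → G6` -/
def h6_f {Λ : Type} [Group Λ] (Φ : NatBij GG Λ) (ρ : Λ →* GG)
    (hR : Rho Φ ρ) : L6 Φ →* G6 :=
  (ρ.comp (L6 Φ).subtype).codRestrict G6 (fun l => (h6_iff Λ Φ ρ hR l.1).1 l.2)

theorem h6_range {Λ : Type} [Group Λ] (Φ : NatBij GG Λ) (ρ : Λ →* GG)
    (hR : Rho Φ ρ) (η : G6 →* G7) : H6 ρ η = (η.comp (h6_f Φ ρ hR)).range := by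
  ext x
  constructor
  · rintro ⟨y, ⟨l, hl⟩, rfl⟩
    have hl' : ρ l = y.1 := hl
    refine ⟨⟨l, (h6_iff Λ Φ ρ hR l).2 (by rw [hl']; exact y.2)⟩, ?_⟩
    show η _ = η y
    congr 1
    exact Subtype.ext hl'
  · rintro ⟨l, rfl⟩
    exact ⟨h6_f Φ ρ hR l, ⟨l.1, rfl⟩, rfl⟩

theorem h6_cast (x y : ℤ) (h : (x : ZMod 4) = (y : ZMod 4)) : (x : ZMod 2) = (y : ZMod 2) := by
  have h1 : ((4 : ℕ) : ℤ) ∣ y - x := (ZMod.intCast_eq_intCast_iff_dvd_sub _ _ 4).1 h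
  apply (ZMod.intCast_eq_intCast_iff_dvd_sub _ _ 2).2
  omega

/-- `r42` depends only on the reduction modulo four -/
theorem h6_r42 (x y : GG) (hxy : rd 4 x = rd 4 y) : r42 x = r42 y := by
  have e : ∀ i k, E7m (Int.castRingHom (ZMod 4)) (x.val i k) =
      E7m (Int.castRingHom (ZMod 4)) (y.val i k) := by
    intro i k
    have := congrArg (fun g : SL2 (E7 (ZMod 4)) => g.val i k) hxy
    exact this
  have er : ∀ i k, (((x.val i k).re : ℤ) : ZMod 4) = (((y.val i k).re : ℤ) : ZMod 4) :=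
    fun i k => congrArg QuadraticAlgebra.re (e i k)
  have ei : ∀ i k, (((x.val i k).im : ℤ) : ZMod 4) = (((y.val i k).im : ℤ) : ZMod 4) :=
    fun i k => congrArg QuadraticAlgebra.im (e i k)
  have h4 : ∀ i k, ev7 (Int.castRingHom (ZMod 4)) 2 (by decide) (x.val i k) =
      ev7 (Int.castRingHom (ZMod 4)) 2 (by decide) (y.val i k) := by
    intro i k
    rw [ev7_apply, ev7_apply]
    show (((x.val i k).re : ℤ) : ZMod 4) + (((x.val i k).im : ℤ) : ZMod 4) * 2 =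
      (((y.val i k).re : ℤ) : ZMod 4) + (((y.val i k).im : ℤ) : ZMod 4) * 2
    rw [er, ei]
  have h2 : ∀ i k, ev7 (Int.castRingHom (ZMod 2)) 1 (by decide) (x.val i k) =
      ev7 (Int.castRingHom (ZMod 2)) 1 (by decide) (y.val i k) := by
    intro i k
    rw [ev7_apply, ev7_apply]
    show (((x.val i k).re : ℤ) : ZMod 2) + (((x.val i k).im : ℤ) : ZMod 2) * 1 =
      (((y.val i k).re : ℤ) : ZMod 2) + (((y.val i k).im : ℤ) : ZMod 2) * 1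
    rw [h6_cast _ _ (er i k), h6_cast _ _ (ei i k)]
  rw [r42_apply, r42_apply]
  refine Prod.ext ?_ ?_
  · apply G.SL_ext
    · exact h4 0 0
    · exact h4 0 1
    · exact h4 1 0
    · exact h4 1 1
  · apply G.SL_ext
    · exact h2 0 0
    · exact h2 0 1
    · exact h2 1 0
    · exact h2 1 1

/-- the labels depend only on the reduction modulo four -/
theorem h6_lab {η : G6 →* G7} (hη : Eta η) (x y : G6) (hxy : rd 4 x.1 = rd 4 y.1)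
    (w : F) (n : ℤ) (hx : η x = iA al7 w * tA al7 ^ n)
    (w' : F) (n' : ℤ) (hy : η y = iA al7 w' * tA al7 ^ n') :
    ((2 * vec w 1 : ℤ) : ZMod 4) = ((2 * vec w' 1 : ℤ) : ZMod 4) ∧
    ((2 * n : ℤ) : ZMod 4) = ((2 * n' : ℤ) : ZMod 4) := by
  have h1 := hη.lab x w n hx
  have h2 := hη.lab y w' n' hy
  have h3 : r4 x.1 = r4 y.1 := congrArg Prod.fst (h6_r42 _ _ hxy)
  rw [h3] at h1
  exact ⟨h1.1.trans h2.1.symm, h1.2.trans h2.2.symm⟩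

theorem h6_lift {Λ : Type} [Group Λ] (Φ : NatBij GG Λ) (ρ : Λ →* GG) (hR : Rho Φ ρ)
    {η : G6 →* G7} (hη : Eta η) (w₀ : F) (n₀ : ℤ) (he : Even (vec w₀ 0 + vec w₀ 1)) :
    ∃ (w : F) (n : ℤ), iA al7 w * tA al7 ^ n ∈ H6 ρ η ∧
    ((2 * vec w 1 : ℤ) : ZMod 4) = ((2 * vec w₀ 1 : ℤ) : ZMod 4) ∧
    ((2 * n : ℤ) : ZMod 4) = ((2 * n₀ : ℤ) : ZMod 4) := by
  obtain ⟨x, hx⟩ := hη.sur w₀ n₀ he
  obtain ⟨l, hl⟩ := hR.img 4 x.1
  have hm : ρ l ∈ G6 := by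
    show r42 (ρ l) ∈ A6
    rw [h6_r42 _ _ hl]; exact x.2
  obtain ⟨w, n, hwn⟩ := GA_cases al7 (η ⟨ρ l, hm⟩)
  refine ⟨w, n, ⟨⟨ρ l, hm⟩, ⟨l, rfl⟩, hwn⟩, ?_⟩
  exact h6_lab hη ⟨ρ l, hm⟩ x hl w n hwn w₀ n₀ hx

theorem p_h6 : S_h6 := by
  intro Λ _ _ Φ ρ hR η hη
  have hiff := h6_iff Λ Φ ρ hR
  refine ⟨hiff, ?_, ?_, ?_, ?_⟩
  · rw [h6_range Φ ρ hR η]
    have hfi : (L6 Φ).FiniteIndex := by
      refine ⟨?_⟩
      unfold L6
      rw [Subgroup.index_comap]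
      intro h0
      have hd := Subgroup.relIndex_dvd_card A6 (Φ.toFun _ r42).range
      rw [h0, Nat.zero_dvd] at hd
      exact Nat.card_pos.ne' hd
    have hfg : Group.FG (L6 Φ) := inferInstance
    rw [← Group.fg_iff_subgroup_fg]
    infer_instance
  · rintro w n ⟨x, _, hx⟩
    exact hη.ev x w n hx
  · obtain ⟨w, n, h1, _, h2⟩ := h6_lift Φ ρ hR hη 1 1 (by simp)
    have h4 : ((4 : ℕ) : ℤ) ∣ 2 * 1 - 2 * n := (ZMod.intCast_eq_intCast_iff_dvd_sub _ _ 4).1 h2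
    refine ⟨w, n, h1, ?_⟩
    rw [Int.odd_iff]
    omega
  · have hv0 : vec (ga * gb) 0 = 1 := by
      rw [vec_mul, vec_of, vec_of]; rfl
    have hv1 : vec (ga * gb) 1 = 1 := by
      rw [vec_mul, vec_of, vec_of]; rfl
    obtain ⟨w, n, h1, h2, h3⟩ := h6_lift Φ ρ hR hη (ga * gb) 0 (by rw [hv0, hv1]; decide)
    rw [hv1] at h2
    have h4 : ((4 : ℕ) : ℤ) ∣ 2 * 0 - 2 * n := (ZMod.intCast_eq_intCast_iff_dvd_sub _ _ 4).1 h3
    have h5 : ((4 : ℕ) : ℤ) ∣ 2 * 1 - 2 * vec w 1 :=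
      (ZMod.intCast_eq_intCast_iff_dvd_sub _ _ 4).1 h2
    refine ⟨w, n, h1, ?_, ?_⟩
    · rw [Int.even_iff]; omega
    · rw [Int.odd_iff]; omega

end

end Pool.Agent.F8.PIC7
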