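import Pool.Agent.Lib.MP_305fdd_al.F8.PIC7.StmG

/-!
# PIC7, piece i2: an eigenvector on the cycles of the Schreier graph
-/

set_option autoImplicit false

namespace Pool.Agent.F8.PIC7

open Pool.Agent.MP_305fdd_al Pool.Agent.Lib.MP_305fdd_al Pool.Agent.F2X Pool.Agent.F8
  Pool.Agent.F8.HN Pool.Agent.F8.AB Pool.Agent.F8.D7
open Pool.Agent.F8.PIC (IsD)

noncomputable section

private theorem i2_inv {V : Type} [MulAction F V] {D : V → F → (V × Bool →₀ ℝ)} (hD : IsD D) (v : V)
    (g : F) : D v g⁻¹ = -D (g • v) g := by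
  have h := hD.mul v g⁻¹ g
  rw [inv_mul_cancel, hD.one, inv_inv] at h
  exact eq_neg_of_add_eq_zero_left h.symm

/-- a subgroup with `x0`, `ga` is everything -/
private theorem i2_top (S : Subgroup F) (hx : x0 ∈ S) (hu : ga ∈ S) (g : F) : g ∈ S := by
  have hb : gb ∈ S := by
    have : gb = ga * x0⁻¹ := by unfold x0; group
    rw [this]
    exact S.mul_mem hu (S.inv_mem hx)
  induction g using FreeGroup.induction_on with
  | C1 => exact one_mem _
  | of i =>
    fin_cases i
    · exact hu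
    · exact hb
  | inv_of i h => exact inv_mem h
  | mul x y hx hy => exact mul_mem hx hy

/-- the length of an element: `x0` has length `1`, `ga` has length `(1 + √3) / 2` -/
def i2_len (g : F) : ℝ := (cx g : ℝ) + (1 + Real.sqrt 3) / 2 * (cu g : ℝ)

private theorem i2_len_mul (g h : F) : i2_len (g * h) = i2_len g + i2_len h := by
  unfold i2_len
  rw [cx_mul, cu_mul]
  push_cast
  ring

private theorem i2_len_one : i2_len 1 = 0 := by
  unfold i2_len
  rw [cx_one, cu_one]
  simp

private theorem i2_len_inv (g : F) : i2_len g⁻¹ = -i2_len g := by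
  unfold i2_len
  rw [cx_inv, cu_inv]
  push_cast
  ring

private theorem i2_len_x : i2_len x0 = 1 := by
  unfold i2_len
  rw [cx_x0, cu_x0]
  simp

private theorem i2_len_u : i2_len ga = (1 + Real.sqrt 3) / 2 := by
  unfold i2_len
  rw [cx_ga, cu_ga]
  simp

private theorem i2_len_al (g : F) : i2_len (al7 g) = (2 + Real.sqrt 3) * i2_len g := by
  have h2 : Real.sqrt 3 * Real.sqrt 3 = 3 := Real.mul_self_sqrt (by norm_num)
  let S : Subgroup F :=
    { carrier := {g | i2_len (al7 g) = (2 + Real.sqrt 3) * i2_len g}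
      one_mem' := by
        show i2_len (al7 1) = (2 + Real.sqrt 3) * i2_len 1
        rw [map_one, i2_len_one, mul_zero]
      mul_mem' := by
        intro g h hg hh
        show i2_len (al7 (g * h)) = (2 + Real.sqrt 3) * i2_len (g * h)
        rw [map_mul, i2_len_mul, i2_len_mul, hg, hh]
        ring
      inv_mem' := by
        intro g hg
        show i2_len (al7 g⁻¹) = (2 + Real.sqrt 3) * i2_len g⁻¹
        rw [map_inv, i2_len_inv, i2_len_inv, hg]
        ring }
  refine i2_top S ?_ ?_ g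
  · show i2_len (al7 x0) = (2 + Real.sqrt 3) * i2_len x0
    rw [al7_x]
    simp only [i2_len_mul, i2_len_x, i2_len_u]
    ring
  · show i2_len (al7 ga) = (2 + Real.sqrt 3) * i2_len ga
    rw [al7_u]
    simp only [i2_len_mul, i2_len_x, i2_len_u]
    linear_combination (-1 / 2) * h2

private theorem i2_len_pow (k : ℕ) (g : F) :
    i2_len ((al7 ^ k) g) = (2 + Real.sqrt 3) ^ k * i2_len g := by
  induction k generalizing g with
  | zero => simp
  | succ k ih =>
    rw [pow_succ, MulAut.mul_apply, ih, i2_len_al, pow_succ]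
    ring

/-- the length is not zero if the class in the abelianisation is not zero -/
private theorem i2_len_ne (g : F) (hg : vec g ≠ 0) : i2_len g ≠ 0 := by
  intro h
  apply hg
  unfold i2_len at h
  have h1 : ((2 * cx g + cu g : ℤ) : ℝ) + Real.sqrt 3 * (cu g : ℝ) = 0 := by
    push_cast
    linear_combination 2 * h
  have h3 : cu g = 0 := by
    by_contra hc
    have hc' : ((cu g : ℤ) : ℝ) ≠ 0 := by exact_mod_cast hc
    have : Real.sqrt 3 = ((-(2 * cx g + cu g : ℤ) / (cu g : ℤ) : ℚ) : ℝ) := by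
      push_cast
      field_simp
      push_cast at h1
      linear_combination h1
    have hir : Irrational (Real.sqrt 3) := by
      have := Nat.Prime.irrational_sqrt (p := 3) (by norm_num)
      exact_mod_cast this
    exact hir ⟨_, this.symm⟩
  have h4 : cx g = 0 := by
    rw [h3] at h1
    simp only [Int.cast_zero, mul_zero, add_zero] at h1
    have h5 : 2 * cx g = 0 := by exact_mod_cast h1
    omega
  unfold cx at h4
  unfold cu at h3
  ext i
  fin_cases i
  · show vec g 0 = 0
    linarith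
  · show vec g 1 = 0
    linarith

/-- the length of a chain -/
def i2_L (V : Type) : (V × Bool →₀ ℝ) →ₗ[ℝ] ℝ :=
  Finsupp.linearCombination ℝ (fun e : V × Bool => i2_len (lt e.2))

private theorem i2_L_D {V : Type} [MulAction F V] {D : V → F → (V × Bool →₀ ℝ)} (hD : IsD D) (v : V)
    (g : F) : i2_L V (D v g) = i2_len g := by
  let S : Subgroup F :=
    { carrier := {g | ∀ v, i2_L V (D v g) = i2_len g}
      one_mem' := by
        intro v
        rw [hD.one, map_zero, i2_len_one]
      mul_mem' := by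
        intro g h hg hh v
        rw [hD.mul, map_add, hg, hh, i2_len_mul]
      inv_mem' := by
        intro g hg v
        rw [i2_inv hD, map_neg, hg, i2_len_inv] }
  refine i2_top S ?_ ?_ g v
  · intro v
    rw [hD.x]
    show Finsupp.linearCombination ℝ _ _ = _
    rw [Finsupp.linearCombination_single, one_smul]; rfl
  · intro v
    rw [hD.u]
    show Finsupp.linearCombination ℝ _ _ = _
    rw [Finsupp.linearCombination_single, one_smul]; rfl

theorem p_i2 (h1 : PIC.S_i1) : S_i2 := by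
  intro P hfg hne w k hk hP D hD
  have hwd : ∀ g h : F, (QuotientGroup.mk g : F ⧸ P) = QuotientGroup.mk h ↔
      (QuotientGroup.mk ((al7 ^ k) g * w⁻¹) : F ⧸ P) = QuotientGroup.mk ((al7 ^ k) h * w⁻¹) := by
    intro g h
    rw [QuotientGroup.eq, QuotientGroup.eq, hP]
    have : ((al7 ^ k) g * w⁻¹)⁻¹ * ((al7 ^ k) h * w⁻¹) = w * (al7 ^ k) (g⁻¹ * h) * w⁻¹ := by
      rw [map_mul, map_inv]; group
    rw [this]
  let ψ : F ⧸ P → F ⧸ P := Quotient.lift
    (fun g : F => (QuotientGroup.mk ((al7 ^ k) g * w⁻¹) : F ⧸ P))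
    (fun g h hgh => (hwd g h).1 (Quotient.sound hgh))
  have hψ : ∀ g : F, ψ (QuotientGroup.mk g) = QuotientGroup.mk ((al7 ^ k) g * w⁻¹) := fun g => rfl
  have hinj : Function.Injective ψ := by
    intro a b hab
    obtain ⟨g, rfl⟩ := QuotientGroup.mk_surjective a
    obtain ⟨h, rfl⟩ := QuotientGroup.mk_surjective b
    rw [hψ, hψ] at hab
    exact (hwd g h).2 hab
  have heq : ∀ (g : F) (v : F ⧸ P), ψ (g • v) = (al7 ^ k) g • ψ v := by
    intro g v
    obtain ⟨h, rfl⟩ := QuotientGroup.mk_surjective v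
    show ψ (QuotientGroup.mk (g * h)) = QuotientGroup.mk ((al7 ^ k) g * ((al7 ^ k) h * w⁻¹))
    rw [hψ, map_mul, mul_assoc]
  obtain ⟨A, hA⟩ := h1 (F ⧸ P) D hD (al7 ^ k : MulAut F).toMonoidHom ψ heq
  have hA' : ∀ v g, A (D v g) = D (ψ v) ((al7 ^ k) g) := hA
  refine ⟨ψ, hinj, heq, A, hA', ?_⟩
  -- the cycles
  set o : F ⧸ P := QuotientGroup.mk 1 with ho
  have hfix : ∀ p ∈ P, p • o = o := by
    intro p hp
    show (QuotientGroup.mk (p * 1) : F ⧸ P) = QuotientGroup.mk 1
    rw [mul_one, QuotientGroup.eq, mul_one]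
    exact P.inv_mem hp
  have hfix' : ∀ p ∈ P, p⁻¹ • o = o := fun p hp => hfix _ (P.inv_mem hp)
  let Z : Submodule ℝ ((F ⧸ P) × Bool →₀ ℝ) := Submodule.span ℝ {c | ∃ p ∈ P, c = D o p}
  have hZfin : FiniteDimensional ℝ Z := by
    obtain ⟨S, hS⟩ := hfg
    have hle : Z ≤ Submodule.span ℝ (((fun p => D o p) '' (S : Set F))) := by
      apply Submodule.span_le.2
      rintro c ⟨p, hp, rfl⟩
      rw [← hS] at hp
      have : p ∈ P ∧ D o p ∈ Submodule.span ℝ (((fun p => D o p) '' (S : Set F))) := by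
        induction hp using Subgroup.closure_induction with
        | mem x hx => exact ⟨hS ▸ Subgroup.subset_closure hx, Submodule.subset_span ⟨x, hx, rfl⟩⟩
        | one => exact ⟨P.one_mem, by rw [hD.one]; exact Submodule.zero_mem _⟩
        | mul x y _ _ hx hy =>
          refine ⟨P.mul_mem hx.1 hy.1, ?_⟩
          rw [hD.mul, hfix' x hx.1]
          exact Submodule.add_mem _ hx.2 hy.2
        | inv x _ hx =>
          refine ⟨P.inv_mem hx.1, ?_⟩
          rw [i2_inv hD, hfix x hx.1]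
          exact Submodule.neg_mem _ hx.2
      exact this.2
    have hfin : FiniteDimensional ℝ (Submodule.span ℝ (((fun p => D o p) '' (S : Set F)))) :=
      FiniteDimensional.span_of_finite ℝ (S.finite_toSet.image _)
    exact Submodule.finiteDimensional_of_le hle
  have hAZ : ∀ c ∈ Z, A c ∈ Z := by
    intro c hc
    have : Z ≤ Z.comap A := by
      apply Submodule.span_le.2
      rintro c ⟨p, hp, rfl⟩
      show A (D o p) ∈ Z
      have hψo : ψ o = w⁻¹ • o := by
        rw [ho, hψ, map_one, one_mul]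
        show _ = (QuotientGroup.mk (w⁻¹ * 1) : F ⧸ P)
        rw [mul_one]
      rw [hA', hψo]
      have hq : w * (al7 ^ k) p * w⁻¹ ∈ P := (hP p).1 hp
      have hD3 : D o (w * (al7 ^ k) p * w⁻¹) = D (w⁻¹ • o) ((al7 ^ k) p) := by
        rw [hD.mul, hD.mul, i2_inv hD]
        have e1 : (w * (al7 ^ k) p)⁻¹ • o = w⁻¹ • o := by
          have : (w * (al7 ^ k) p)⁻¹ = w⁻¹ * (w * (al7 ^ k) p * w⁻¹)⁻¹ := by group
          rw [this, mul_smul, hfix' _ hq]
        rw [e1, smul_inv_smul]
        abel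
      rw [← hD3]
      exact Submodule.subset_span ⟨_, hq, rfl⟩
    exact this hc
  -- the eigenvector
  set c₀ : ℝ := (2 + Real.sqrt 3) ^ k with hc₀
  have hTZ : ∀ c ∈ Z, (A - c₀ • (LinearMap.id : ((F ⧸ P) × Bool →₀ ℝ) →ₗ[ℝ] ((F ⧸ P) × Bool →₀ ℝ))) c ∈ Z := by
    intro c hc
    exact Z.sub_mem (hAZ c hc) (Z.smul_mem c₀ hc)
  let T : Z →ₗ[ℝ] Z := LinearMap.restrict _ hTZ
  have hT : ∀ z : Z, ((T z).1 : (F ⧸ P) × Bool →₀ ℝ) = A z.1 - c₀ • (z : (F ⧸ P) × Bool →₀ ℝ) := by
    intro z
    rfl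
  have hLA : ∀ c ∈ Z, i2_L _ (A c) = c₀ * i2_L _ c := by
    intro c hc
    have : Z ≤ LinearMap.ker ((i2_L (F ⧸ P)).comp A - c₀ • i2_L (F ⧸ P)) := by
      apply Submodule.span_le.2
      rintro c ⟨p, hp, rfl⟩
      show i2_L _ (A (D o p)) - c₀ • i2_L _ (D o p) = 0
      rw [hA', i2_L_D hD, i2_L_D hD, i2_len_pow, smul_eq_mul, sub_self]
    have h := this hc
    have h' : i2_L _ (A c) - c₀ • i2_L _ c = 0 := h
    rw [smul_eq_mul] at h'
    linarith
  have hns : ¬ Function.Surjective T := by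
    intro hs
    obtain ⟨p, hp, hvp⟩ := hne
    obtain ⟨z, hz⟩ := hs ⟨D o p, Submodule.subset_span ⟨p, hp, rfl⟩⟩
    have h := congrArg (fun z : Z => i2_L (F ⧸ P) z.1) hz
    have h' : i2_L (F ⧸ P) (A z - c₀ • (z : (F ⧸ P) × Bool →₀ ℝ)) = i2_L (F ⧸ P) (D o p) := h
    rw [map_sub, map_smul, hLA _ z.2, smul_eq_mul, sub_self, i2_L_D hD] at h'
    exact i2_len_ne p hvp h'.symm
  have hni : ¬ Function.Injective T := fun h =>
    hns ((LinearMap.injective_iff_surjective (K := ℝ) (V := Z) (f := T)).1 h)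
  unfold Function.Injective at hni
  push Not at hni
  obtain ⟨a, b, hab, hne2⟩ := hni
  refine ⟨a.1 - b.1, ?_, ?_⟩
  · intro h
    exact hne2 (Subtype.ext (sub_eq_zero.1 h))
  · have h := congrArg (fun z : Z => z.1) hab
    have h' : A a.1 - c₀ • a.1 = A b.1 - c₀ • b.1 := h
    rw [map_sub, smul_sub]
    have h2 : A a.1 - A b.1 = c₀ • a.1 - c₀ • b.1 := by
      rw [sub_eq_sub_iff_sub_eq_sub] at h'
      exact h'
    exact h2

end

end Pool.Agent.F8.PIC7
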