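import Pool.Agent.Lib.MP_305fdd_al.F8.PIC7.StmG

/-!
# PIC7, piece i3: the absolute value of the eigenvector, the flow condition
-/

set_option autoImplicit false

namespace Pool.Agent.F8.PIC7

open Pool.Agent.MP_305fdd_al Pool.Agent.Lib.MP_305fdd_al Pool.Agent.F2X Pool.Agent.F8
  Pool.Agent.F8.HN Pool.Agent.F8.AB Pool.Agent.F8.D7

noncomputable section

theorem i3_inv {V : Type} [MulAction F V] {D : V → F → (V × Bool →₀ ℝ)} (hD : PIC.IsD D) (v : V)
    (g : F) : D v g⁻¹ = -D (g • v) g := by
  have h := hD.mul v g⁻¹ g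
  rw [inv_mul_cancel, hD.one, inv_inv] at h
  exact eq_neg_of_add_eq_zero_left h.symm

/-- a subgroup with `x0`, `ga` is everything -/
theorem i3_top (S : Subgroup F) (hx : x0 ∈ S) (hu : ga ∈ S) (g : F) : g ∈ S := by
  have hb : gb ∈ S := by
    have : gb = ga * x0⁻¹ := by unfold x0; group
    rw [this]
    exact S.mul_mem hu (S.inv_mem hx)
  induction g using FreeGroup.induction_on with
  | C1 => exact one_mem _
  | of i =>
    fin_cases i
    · exact hu
    · exact hb
  | inv_of i h => exact inv_mem h
  | mul x y hx hy => exact mul_mem hx hy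

/-- the length of an element: `x0` has length `1`, `ga` has length `(1 + √3) / 2` -/
def i3_len (g : F) : ℝ := (cx g : ℝ) + ((1 + Real.sqrt 3) / 2) * (cu g : ℝ)

theorem i3_len_mul (g h : F) : i3_len (g * h) = i3_len g + i3_len h := by
  unfold i3_len
  rw [cx_mul, cu_mul]
  push_cast
  ring

theorem i3_len_one : i3_len 1 = 0 := by
  unfold i3_len
  rw [cx_one, cu_one]
  simp

theorem i3_len_inv (g : F) : i3_len g⁻¹ = -i3_len g := by
  unfold i3_len
  rw [cx_inv, cu_inv]
  push_cast
  ring

theorem i3_len_x : i3_len x0 = 1 := by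
  unfold i3_len
  rw [cx_x0, cu_x0]
  simp

theorem i3_len_u : i3_len ga = (1 + Real.sqrt 3) / 2 := by
  unfold i3_len
  rw [cx_ga, cu_ga]
  simp

theorem i3_len_al (g : F) : i3_len (al7 g) = (2 + Real.sqrt 3) * i3_len g := by
  have h2 : Real.sqrt 3 * Real.sqrt 3 = 3 := Real.mul_self_sqrt (by norm_num)
  let S : Subgroup F :=
    { carrier := {g | i3_len (al7 g) = (2 + Real.sqrt 3) * i3_len g}
      one_mem' := by
        show i3_len (al7 1) = (2 + Real.sqrt 3) * i3_len 1
        rw [map_one, i3_len_one, mul_zero]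
      mul_mem' := by
        intro g h hg hh
        show i3_len (al7 (g * h)) = (2 + Real.sqrt 3) * i3_len (g * h)
        rw [map_mul, i3_len_mul, i3_len_mul, hg, hh]
        ring
      inv_mem' := by
        intro g hg
        show i3_len (al7 g⁻¹) = (2 + Real.sqrt 3) * i3_len g⁻¹
        rw [map_inv, i3_len_inv, i3_len_inv, hg]
        ring }
  refine i3_top S ?_ ?_ g
  · show i3_len (al7 x0) = (2 + Real.sqrt 3) * i3_len x0
    rw [al7_x]
    simp only [i3_len_mul, i3_len_x, i3_len_u]
    ring
  · show i3_len (al7 ga) = (2 + Real.sqrt 3) * i3_len ga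
    rw [al7_u]
    simp only [i3_len_mul, i3_len_x, i3_len_u]
    linear_combination (-(1 / 2 : ℝ)) * h2

theorem i3_len_pow (k : ℕ) (g : F) :
    i3_len ((al7 ^ k) g) = (2 + Real.sqrt 3) ^ k * i3_len g := by
  induction k generalizing g with
  | zero => simp
  | succ k ih =>
    rw [pow_succ, MulAut.mul_apply, ih, i3_len_al, pow_succ]
    ring

/-- the length of a chain -/
def i3_L (V : Type) : (V × Bool →₀ ℝ) →ₗ[ℝ] ℝ :=
  Finsupp.linearCombination ℝ (fun e : V × Bool => i3_len (lt e.2))

theorem i3_L_single {V : Type} (e : V × Bool) (t : ℝ) :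
    i3_L V (Finsupp.single e t) = t * i3_len (lt e.2) := by
  show Finsupp.linearCombination ℝ _ _ = _
  rw [Finsupp.linearCombination_single, smul_eq_mul]

theorem i3_L_D {V : Type} [MulAction F V] {D : V → F → (V × Bool →₀ ℝ)} (hD : PIC.IsD D) (v : V)
    (g : F) : i3_L V (D v g) = i3_len g := by
  let S : Subgroup F :=
    { carrier := {g | ∀ v, i3_L V (D v g) = i3_len g}
      one_mem' := by
        intro v
        rw [hD.one, map_zero, i3_len_one]
      mul_mem' := by
        intro g h hg hh v
        rw [hD.mul, map_add, hg, hh, i3_len_mul]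
      inv_mem' := by
        intro g hg v
        rw [i3_inv hD, map_neg, hg, i3_len_inv] }
  refine i3_top S ?_ ?_ g v
  · intro v
    rw [hD.x, i3_L_single, one_mul]; rfl
  · intro v
    rw [hD.u, i3_L_single, one_mul]; rfl

theorem i3_len_lt_pos (i : Bool) : 0 < i3_len (lt i) := by
  cases i
  · show 0 < i3_len x0
    rw [i3_len_x]; norm_num
  · show 0 < i3_len ga
    rw [i3_len_u]; positivity

/-- a nonnegative chain of length zero is zero -/
theorem i3_L_zero {V : Type} (x : V × Bool →₀ ℝ) (hx : ∀ e, 0 ≤ x e) (h : i3_L V x = 0) :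
    x = 0 := by
  have h1 : i3_L V x = ∑ e ∈ x.support, x e * i3_len (lt e.2) := by
    show Finsupp.linearCombination ℝ _ _ = _
    rw [Finsupp.linearCombination_apply, Finsupp.sum]
    rfl
  rw [h1, Finset.sum_eq_zero_iff_of_nonneg
    (fun e _ => mul_nonneg (hx e) (i3_len_lt_pos e.2).le)] at h
  ext e
  by_contra hne
  have := h e (Finsupp.mem_support_iff.2 hne)
  rcases mul_eq_zero.1 this with h' | h'
  · exact hne h'
  · exact (i3_len_lt_pos e.2).ne' h'

/-- the positive words -/
def i3_M : Submonoid F := Submonoid.closure {x0, ga}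

theorem i3_mx : x0 ∈ i3_M := Submonoid.subset_closure (Or.inl rfl)
theorem i3_mu : ga ∈ i3_M := Submonoid.subset_closure (Or.inr rfl)

theorem i3_M_al (g : F) (hg : g ∈ i3_M) : al7 g ∈ i3_M := by
  induction hg using Submonoid.closure_induction with
  | mem x hx =>
    rcases hx with rfl | hx
    · rw [al7_x]
      exact mul_mem (mul_mem i3_mx i3_mu) i3_mu
    · rw [Set.mem_singleton_iff.1 hx, al7_u]
      exact mul_mem (mul_mem (mul_mem i3_mu i3_mx) i3_mu) i3_mu
  | one => rw [map_one]; exact one_mem _
  | mul x y _ _ hx hy => rw [map_mul]; exact mul_mem hx hy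

theorem i3_M_pow (k : ℕ) (g : F) (hg : g ∈ i3_M) : (al7 ^ k) g ∈ i3_M := by
  induction k generalizing g with
  | zero => simpa using hg
  | succ k ih =>
    rw [pow_succ, MulAut.mul_apply]
    exact ih _ (i3_M_al g hg)

theorem i3_D_nonneg {V : Type} [MulAction F V] {D : V → F → (V × Bool →₀ ℝ)} (hD : PIC.IsD D)
    (g : F) (hg : g ∈ i3_M) : ∀ v e, 0 ≤ D v g e := by
  induction hg using Submonoid.closure_induction with
  | mem x hx =>
    intro v e
    rcases hx with rfl | hx
    · rw [hD.x]
      by_cases he : (v, false) = e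
      · rw [he, Finsupp.single_eq_same]; norm_num
      · rw [Finsupp.single_eq_of_ne (Ne.symm he)]
    · rw [Set.mem_singleton_iff.1 hx, hD.u]
      by_cases he : (v, true) = e
      · rw [he, Finsupp.single_eq_same]; norm_num
      · rw [Finsupp.single_eq_of_ne (Ne.symm he)]
  | one =>
    intro v e
    rw [hD.one]; exact le_refl _
  | mul x y _ _ hx hy =>
    intro v e
    rw [hD.mul, Finsupp.add_apply]
    exact add_nonneg (hx v e) (hy _ e)

theorem i3_D_lt {V : Type} [MulAction F V] {D : V → F → (V × Bool →₀ ℝ)} (hD : PIC.IsD D)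
    (v : V) (i : Bool) : D v (lt i) = Finsupp.single (v, i) 1 := by
  cases i
  · exact hD.x v
  · exact hD.u v

theorem i3_M_lt (i : Bool) : lt i ∈ i3_M := by
  cases i
  · exact i3_mx
  · exact i3_mu

/-- the boundary -/
def i3_del (V : Type) [MulAction F V] : (V × Bool →₀ ℝ) →ₗ[ℝ] (V →₀ ℝ) :=
  Finsupp.linearCombination ℝ (fun e : V × Bool =>
    Finsupp.single ((lt e.2)⁻¹ • e.1) (1 : ℝ) - Finsupp.single e.1 1)

theorem i3_del_single {V : Type} [MulAction F V] (e : V × Bool) (t : ℝ) :
    i3_del V (Finsupp.single e t) =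
      t • (Finsupp.single ((lt e.2)⁻¹ • e.1) (1 : ℝ) - Finsupp.single e.1 1) := by
  show Finsupp.linearCombination ℝ _ _ = _
  rw [Finsupp.linearCombination_single]

theorem i3_del_D {V : Type} [MulAction F V] {D : V → F → (V × Bool →₀ ℝ)} (hD : PIC.IsD D)
    (v : V) (g : F) :
    i3_del V (D v g) = Finsupp.single (g⁻¹ • v) (1 : ℝ) - Finsupp.single v 1 := by
  let S : Subgroup F :=
    { carrier := {g | ∀ v, i3_del V (D v g) =
        Finsupp.single (g⁻¹ • v) (1 : ℝ) - Finsupp.single v 1}
      one_mem' := by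
        intro v
        rw [hD.one, map_zero, inv_one, one_smul, sub_self]
      mul_mem' := by
        intro g h hg hh v
        rw [hD.mul, map_add, hg, hh, mul_inv_rev, mul_smul]
        abel
      inv_mem' := by
        intro g hg v
        rw [i3_inv hD, map_neg, hg, inv_smul_smul, inv_inv]
        abel }
  refine i3_top S ?_ ?_ g v
  · intro v
    rw [hD.x, i3_del_single, one_smul]; rfl
  · intro v
    rw [hD.u, i3_del_single, one_smul]; rfl

/-- the coefficients of the boundary -/
theorem i3_del_apply {V : Type} [MulAction F V] (y : V × Bool →₀ ℝ) (v : V) :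
    i3_del V y v = y (x0 • v, false) + y (ga • v, true) - y (v, false) - y (v, true) := by
  classical
  induction y using Finsupp.induction_linear with
  | zero => simp
  | add f g hf hg =>
    rw [map_add, Finsupp.add_apply, hf, hg]
    simp only [Finsupp.add_apply]
    ring
  | single e t =>
    obtain ⟨w, i⟩ := e
    rw [i3_del_single, Finsupp.smul_apply, Finsupp.sub_apply, smul_eq_mul]
    have hx : (x0⁻¹ • w = v) ↔ (w = x0 • v) := inv_smul_eq_iff
    have hu : (ga⁻¹ • w = v) ↔ (w = ga • v) := inv_smul_eq_iff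
    cases i
    · simp only [Finsupp.single_apply, Prod.mk.injEq, lt, hx]
      simp [mul_sub]
    · simp only [Finsupp.single_apply, Prod.mk.injEq, lt, hu]
      simp [mul_sub]

theorem p_i3 : S_i3 := by
  intro V _ D hD k hk ψ hψ heq A hA z hz hAz
  set c : ℝ := (2 + Real.sqrt 3) ^ k with hc
  have hc1 : 1 < c := by
    rw [hc]
    apply one_lt_pow₀
    · have : 0 ≤ Real.sqrt 3 := Real.sqrt_nonneg 3
      linarith
    · omega
  have hc0 : 0 < c := by linarith
  have hAs : ∀ e : V × Bool, A (Finsupp.single e 1) = D (ψ e.1) ((al7 ^ k) (lt e.2)) := by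
    rintro ⟨v, i⟩
    rw [← i3_D_lt hD, hA]
  have hAe : ∀ e e' : V × Bool, 0 ≤ A (Finsupp.single e 1) e' := by
    intro e e'
    rw [hAs]
    exact i3_D_nonneg hD _ (i3_M_pow k _ (i3_M_lt _)) _ _
  have hAsum : ∀ (x : V × Bool →₀ ℝ) (e' : V × Bool),
      A x e' = ∑ e ∈ x.support, x e * A (Finsupp.single e 1) e' := by
    intro x e'
    have h1 : x = ∑ e ∈ x.support, x e • Finsupp.single e (1 : ℝ) := by
      conv_lhs => rw [← Finsupp.sum_single x]
      rw [Finsupp.sum]
      refine Finset.sum_congr rfl fun e _ => ?_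
      rw [Finsupp.smul_single, smul_eq_mul, mul_one]
    conv_lhs => rw [h1, map_sum, Finsupp.finsetSum_apply]
    refine Finset.sum_congr rfl fun e _ => ?_
    rw [map_smul, Finsupp.smul_apply, smul_eq_mul]
  let y : V × Bool →₀ ℝ := Finsupp.mapRange (fun t : ℝ => |t|) abs_zero z
  have hy : ∀ e, y e = |z e| := fun e => Finsupp.mapRange_apply ..
  have hy0 : ∀ e, 0 ≤ y e := fun e => by rw [hy]; exact abs_nonneg _
  have hsup : y.support = z.support := by
    ext e
    rw [Finsupp.mem_support_iff, Finsupp.mem_support_iff, hy]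
    exact abs_ne_zero
  have hle : ∀ e, c * y e ≤ A y e := by
    intro e'
    have h1 : A z e' = c * z e' := by rw [hAz]; rfl
    have h2 : c * y e' = |A z e'| := by
      rw [h1, abs_mul, abs_of_pos hc0, hy]
    rw [h2, hAsum z, hAsum y, hsup]
    refine (Finset.abs_sum_le_sum_abs _ _).trans ?_
    refine Finset.sum_le_sum fun e _ => ?_
    rw [abs_mul, abs_of_nonneg (hAe e e'), hy]
  have hLA : ∀ x, i3_L V (A x) = c * i3_L V x := by
    intro x
    induction x using Finsupp.induction_linear with
    | zero => simp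
    | add f g hf hg => rw [map_add, map_add, map_add, hf, hg]; ring
    | single e t =>
      have : Finsupp.single e t = t • Finsupp.single e (1 : ℝ) := by
        rw [Finsupp.smul_single, smul_eq_mul, mul_one]
      rw [this, map_smul, map_smul, map_smul, hAs, i3_L_D hD, i3_len_pow, i3_L_single]
      simp only [smul_eq_mul]
      ring
  have hAy : A y = c • y := by
    have h1 : A y - c • y = 0 := by
      apply i3_L_zero
      · intro e
        rw [Finsupp.sub_apply, Finsupp.smul_apply, smul_eq_mul]
        linarith [hle e]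
      · rw [map_sub, map_smul, hLA, smul_eq_mul, sub_self]
    exact sub_eq_zero.1 h1
  have hy_ne : y ≠ 0 := by
    intro h
    apply hz
    ext e
    have := hy e
    rw [h] at this
    exact abs_eq_zero.1 this.symm
  -- the boundary
  have hdel : ∀ x, i3_del V (A x) = Finsupp.mapDomain ψ (i3_del V x) := by
    intro x
    induction x using Finsupp.induction_linear with
    | zero => simp
    | add f g hf hg => rw [map_add, map_add, map_add, hf, hg, Finsupp.mapDomain_add]
    | single e t =>
      have : Finsupp.single e t = t • Finsupp.single e (1 : ℝ) := by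
        rw [Finsupp.smul_single, smul_eq_mul, mul_one]
      rw [this, map_smul, map_smul, map_smul, Finsupp.mapDomain_smul, hAs, i3_del_D hD,
        i3_del_single, one_smul]
      have h1 : Finsupp.mapDomain ψ (Finsupp.single ((lt e.2)⁻¹ • e.1) (1 : ℝ) -
          Finsupp.single e.1 1) = Finsupp.single (ψ ((lt e.2)⁻¹ • e.1)) (1 : ℝ) -
          Finsupp.single (ψ e.1) 1 := by
        rw [sub_eq_add_neg, Finsupp.mapDomain_add, Finsupp.mapDomain_single,
          ← Finsupp.single_neg, Finsupp.mapDomain_single, Finsupp.single_neg, ← sub_eq_add_neg]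
      rw [h1, heq, map_inv]
  set d : V →₀ ℝ := i3_del V y with hd
  have hdd : Finsupp.mapDomain ψ d = c • d := by
    rw [hd, ← hdel, hAy, map_smul]
  have hdz : d = 0 := by
    have hval : ∀ v, c * |d (ψ v)| = |d v| := by
      intro v
      have h1 : Finsupp.mapDomain ψ d (ψ v) = d v := Finsupp.mapDomain_apply hψ d v
      rw [hdd, Finsupp.smul_apply, smul_eq_mul] at h1
      rw [← h1, abs_mul, abs_of_pos hc0]
    have hsupp : (Finsupp.mapDomain ψ d).support = d.support.map ⟨ψ, hψ⟩ := by
      classical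
      rw [Finsupp.mapDomain_support_of_injective hψ, Finset.map_eq_image]
      rfl
    have hsupp2 : d.support.map ⟨ψ, hψ⟩ = d.support := by
      rw [← hsupp, hdd]
      exact Finsupp.support_smul_eq hc0.ne'
    have h1 : ∑ v ∈ d.support, |d v| = c * ∑ v ∈ d.support, |d v| := by
      conv_rhs => rw [← hsupp2, Finset.sum_map, Finset.mul_sum]
      refine Finset.sum_congr rfl fun v _ => ?_
      exact (hval v).symm
    have h2 : ∑ v ∈ d.support, |d v| = 0 := by
      have h3 : (c - 1) * ∑ v ∈ d.support, |d v| = 0 := by linarith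
      rcases mul_eq_zero.1 h3 with h4 | h4
      · linarith
      · exact h4
    rw [Finset.sum_eq_zero_iff_of_nonneg (fun v _ => abs_nonneg _)] at h2
    ext v
    by_contra hne
    exact hne (abs_eq_zero.1 (h2 v (Finsupp.mem_support_iff.2 hne)))
  refine ⟨y, hy_ne, hy0, hAy, fun v => ?_⟩
  have h1 := i3_del_apply y v
  rw [← hd, hdz, Finsupp.zero_apply] at h1
  linarith

end

end Pool.Agent.F8.PIC7
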