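import Pool.Agent.Lib.MP_305fdd_al.F8.PIC7.StmG
import Pool.Agent.Lib.MP_305fdd_al.F8.PIC.P_i4

/-!
# PIC7, piece i4: finiteness from the eigenvector
-/

set_option autoImplicit false

namespace Pool.Agent.F8.PIC7

open Pool.Agent.MP_305fdd_al Pool.Agent.Lib.MP_305fdd_al Pool.Agent.F2X Pool.Agent.F8
  Pool.Agent.F8.HN Pool.Agent.F8.AB Pool.Agent.F8.D7
open Pool.Agent.F8.PIC (i4_top i4_M i4_mx i4_mu i4_M_lt i4_D_nonneg i4_D_lt i4_surj)

noncomputable section

theorem i4_M_al (g : F) (hg : g ∈ i4_M) : al7 g ∈ i4_M := by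
  induction hg using Submonoid.closure_induction with
  | mem x hx =>
    rcases hx with rfl | hx
    · rw [al7_x]
      exact mul_mem (mul_mem i4_mx i4_mu) i4_mu
    · rw [Set.mem_singleton_iff.1 hx, al7_u]
      exact mul_mem (mul_mem (mul_mem i4_mu i4_mx) i4_mu) i4_mu
  | one => rw [map_one]; exact one_mem _
  | mul x y _ _ hx hy => rw [map_mul]; exact mul_mem hx hy

theorem i4_M_pow (k : ℕ) (g : F) (hg : g ∈ i4_M) : (al7 ^ k) g ∈ i4_M := by
  induction k generalizing g with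
  | zero => simpa using hg
  | succ k ih =>
    rw [pow_succ, MulAut.mul_apply]
    exact ih _ (i4_M_al g hg)

/-- the first letter of `al7 ^ k (lt i)` -/
theorem i4_first (k : ℕ) (i : Bool) : ∃ g ∈ i4_M, (al7 ^ k) (lt i) = lt i * g := by
  induction k generalizing i with
  | zero => exact ⟨1, one_mem _, by simp⟩
  | succ k ih =>
    obtain ⟨g, hg, h⟩ := ih i
    rw [pow_succ, MulAut.mul_apply]
    cases i
    · refine ⟨g * ((al7 ^ k) ga * (al7 ^ k) ga), mul_mem hg (mul_mem (i4_M_pow k _ i4_mu)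
        (i4_M_pow k _ i4_mu)), ?_⟩
      have h' : (al7 ^ k) x0 = x0 * g := h
      show (al7 ^ k) (al7 x0) = x0 * _
      rw [al7_x, map_mul, map_mul, h']
      group
    · refine ⟨g * (al7 ^ k) (x0 * ga * ga), mul_mem hg (i4_M_pow k _
        (mul_mem (mul_mem i4_mx i4_mu) i4_mu)), ?_⟩
      have h' : (al7 ^ k) ga = ga * g := h
      show (al7 ^ k) (al7 ga) = ga * _
      have e : al7 ga = ga * (x0 * ga * ga) := by rw [al7_u]; group
      rw [e, map_mul, h']
      group

theorem i4_last0 (k : ℕ) : ∃ g ∈ i4_M, (al7 ^ k) ga = g * ga := by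
  induction k with
  | zero => exact ⟨1, one_mem _, by simp⟩
  | succ k ih =>
    obtain ⟨g, hg, h⟩ := ih
    rw [pow_succ, MulAut.mul_apply]
    refine ⟨(al7 ^ k) (ga * x0 * ga) * g, mul_mem (i4_M_pow k _
        (mul_mem (mul_mem i4_mu i4_mx) i4_mu)) hg, ?_⟩
    have e : al7 ga = (ga * x0 * ga) * ga := by rw [al7_u]
    rw [e, map_mul, h]
    group

/-- the last letter of `al7 ^ k (lt i)` -/
theorem i4_last (k : ℕ) (hk : 1 ≤ k) (i : Bool) : ∃ g ∈ i4_M, (al7 ^ k) (lt i) = g * ga := by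
  obtain ⟨k, rfl⟩ : ∃ k', k = k' + 1 := ⟨k - 1, by omega⟩
  cases i
  · obtain ⟨g, hg, h⟩ := i4_last0 k
    refine ⟨(al7 ^ k) (x0 * ga) * g, mul_mem (i4_M_pow k _ (mul_mem i4_mx i4_mu)) hg, ?_⟩
    rw [pow_succ, MulAut.mul_apply]
    show (al7 ^ k) (al7 x0) = _
    rw [al7_x, map_mul, h]
    group
  · exact i4_last0 _

/-- the first two letters of `al7 ^ k ga` -/
theorem i4_two (k : ℕ) (hk : 1 ≤ k) : ∃ g ∈ i4_M, (al7 ^ k) ga = ga * (x0 * g) := by
  obtain ⟨k, rfl⟩ : ∃ k', k = k' + 1 := ⟨k - 1, by omega⟩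
  obtain ⟨g, hg, h⟩ := i4_first k true
  have h' : (al7 ^ k) ga = ga * g := h
  refine ⟨ga * ga * al7 g, mul_mem (mul_mem i4_mu i4_mu) (i4_M_al g hg), ?_⟩
  rw [pow_succ', MulAut.mul_apply, h', map_mul, al7_u]
  group

theorem p_i4 : S_i4 := by
  classical
  intro V _ htr D hD k hk ψ hψ heq A hA c y hc hy0 hy hAy hflow
  have hAs : ∀ e : V × Bool, A (Finsupp.single e 1) = D (ψ e.1) ((al7 ^ k) (lt e.2)) := by
    rintro ⟨v, i⟩
    rw [← i4_D_lt hD, hA]
  have hAe : ∀ e e' : V × Bool, 0 ≤ A (Finsupp.single e 1) e' := by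
    intro e e'
    rw [hAs]
    exact i4_D_nonneg hD _ (i4_M_pow k _ (i4_M_lt _)) _ _
  have hAsum : ∀ (x : V × Bool →₀ ℝ) (e' : V × Bool),
      A x e' = ∑ e ∈ x.support, x e * A (Finsupp.single e 1) e' := by
    intro x e'
    have h1 : x = ∑ e ∈ x.support, x e • Finsupp.single e (1 : ℝ) := by
      conv_lhs => rw [← Finsupp.sum_single x]
      rw [Finsupp.sum]
      refine Finset.sum_congr rfl fun e _ => ?_
      rw [Finsupp.smul_single, smul_eq_mul, mul_one]
    conv_lhs => rw [h1, map_sum, Finsupp.finsetSum_apply]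
    refine Finset.sum_congr rfl fun e _ => ?_
    rw [map_smul, Finsupp.smul_apply, smul_eq_mul]
  -- edges of the image are in the support
  have hedge : ∀ e e' : V × Bool, e ∈ y.support → 0 < D (ψ e.1) ((al7 ^ k) (lt e.2)) e' →
      e' ∈ y.support := by
    intro e e' he hpos
    rw [← hAs] at hpos
    have h1 : c * y e' = ∑ e ∈ y.support, y e * A (Finsupp.single e 1) e' := by
      rw [← hAsum, hAy]; rfl
    have h2 : 0 < ∑ e ∈ y.support, y e * A (Finsupp.single e 1) e' := by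
      apply Finset.sum_pos'
      · intro e'' _
        exact mul_nonneg (hy _) (hAe _ _)
      · exact ⟨e, he, mul_pos (lt_of_le_of_ne (hy e) (Ne.symm (Finsupp.mem_support_iff.1 he))) hpos⟩
    rw [Finsupp.mem_support_iff]
    intro h3
    rw [h3, mul_zero] at h1
    linarith
  let Vs : Finset V := y.support.image Prod.fst
  have hmem : ∀ v, v ∈ Vs ↔ ∃ i, (v, i) ∈ y.support := by
    intro v
    constructor
    · intro h
      obtain ⟨e, he, rfl⟩ := Finset.mem_image.1 h
      exact ⟨e.2, he⟩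
    · rintro ⟨i, hi⟩
      exact Finset.mem_image.2 ⟨(v, i), hi, rfl⟩
  have hfl : ∀ v, v ∈ Vs ↔ (x0 • v, false) ∈ y.support ∨ (ga • v, true) ∈ y.support := by
    intro v
    have h := hflow v
    have p1 := hy (v, false)
    have p2 := hy (v, true)
    have p3 := hy (x0 • v, false)
    have p4 := hy (ga • v, true)
    rw [hmem]
    constructor
    · rintro ⟨i, hi⟩
      rw [Finsupp.mem_support_iff] at hi
      by_contra hcon
      push Not at hcon
      rw [Finsupp.notMem_support_iff, Finsupp.notMem_support_iff] at hcon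
      rw [hcon.1, hcon.2] at h
      cases i
      · apply hi; linarith
      · apply hi; linarith
    · intro h'
      by_contra hcon
      push Not at hcon
      have q1 := Finsupp.notMem_support_iff.1 (hcon false)
      have q2 := Finsupp.notMem_support_iff.1 (hcon true)
      rw [q1, q2] at h
      rcases h' with h' | h'
      · apply Finsupp.mem_support_iff.1 h'; linarith
      · apply Finsupp.mem_support_iff.1 h'; linarith
  -- the first edge
  have hfirst : ∀ v i, (v, i) ∈ y.support → (ψ v, i) ∈ y.support := by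
    intro v i hv
    apply hedge (v, i) _ hv
    obtain ⟨g, hg, h⟩ := i4_first k i
    show 0 < D (ψ v) ((al7 ^ k) (lt i)) (ψ v, i)
    rw [h, hD.mul, Finsupp.add_apply, i4_D_lt hD, Finsupp.single_eq_same]
    have := i4_D_nonneg hD g hg ((lt i)⁻¹ • ψ v) (ψ v, i)
    linarith
  have hψs : ∀ v ∈ Vs, ψ v ∈ Vs := by
    intro v hv
    obtain ⟨i, hi⟩ := (hmem v).1 hv
    exact (hmem _).2 ⟨i, hfirst v i hi⟩
  have hψo := i4_surj Vs ψ hψ hψs
  -- the last edge
  have hlast : ∀ v ∈ Vs, (ga • ψ v, true) ∈ y.support := by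
    intro v hv
    have hex : ∃ i, (lt i • v, i) ∈ y.support := by
      rcases (hfl v).1 hv with h | h
      · exact ⟨false, h⟩
      · exact ⟨true, h⟩
    obtain ⟨i, hi⟩ := hex
    apply hedge (lt i • v, i) _ hi
    obtain ⟨g, hg, h⟩ := i4_last k hk i
    show 0 < D (ψ (lt i • v)) ((al7 ^ k) (lt i)) (ga • ψ v, true)
    have h1 : g⁻¹ • ψ (lt i • v) = ga • ψ v := by
      rw [heq, h, mul_smul, inv_smul_smul]
    rw [h, hD.mul, h1, Finsupp.add_apply, hD.u, Finsupp.single_eq_same]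
    have := i4_D_nonneg hD g hg (ψ (lt i • v)) (ga • ψ v, true)
    linarith
  have hgu : ∀ v ∈ Vs, (ga • v, true) ∈ y.support := by
    intro v hv
    obtain ⟨w, hw, rfl⟩ := hψo v hv
    exact hlast w hw
  have hgas : ∀ v ∈ Vs, ga • v ∈ Vs := fun v hv => (hmem _).2 ⟨true, hgu v hv⟩
  have hgao := i4_surj Vs (fun v => ga • v) (MulAction.injective ga) hgas
  have htrue : ∀ v ∈ Vs, (v, true) ∈ y.support := by
    intro v hv
    obtain ⟨w, hw, rfl⟩ := hgao v hv
    exact hgu w hw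
  -- the second edge
  have hsec : ∀ v ∈ Vs, (ga⁻¹ • ψ v, false) ∈ y.support := by
    intro v hv
    apply hedge (v, true) _ (htrue v hv)
    obtain ⟨g, hg, h⟩ := i4_two k hk
    show 0 < D (ψ v) ((al7 ^ k) ga) (ga⁻¹ • ψ v, false)
    rw [h, hD.mul, hD.mul, Finsupp.add_apply, Finsupp.add_apply, hD.x, Finsupp.single_eq_same]
    have h1 := i4_D_nonneg hD ga i4_mu (ψ v) (ga⁻¹ • ψ v, false)
    have h2 := i4_D_nonneg hD g hg (x0⁻¹ • ga⁻¹ • ψ v) (ga⁻¹ • ψ v, false)
    linarith
  have hfalse : ∀ v ∈ Vs, (v, false) ∈ y.support := by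
    intro v hv
    obtain ⟨w, hw, hwv⟩ := hψo _ (hgas v hv)
    have := hsec w hw
    rwa [hwv, inv_smul_smul] at this
  -- closed under the inverses
  have hx' : ∀ v ∈ Vs, x0⁻¹ • v ∈ Vs := by
    intro v hv
    rw [hfl]
    left
    rw [smul_inv_smul]
    exact hfalse v hv
  have hstab : ∀ g : F, (∀ v ∈ Vs, g • v ∈ Vs) → ∀ v ∈ Vs, g⁻¹ • v ∈ Vs := by
    intro g hg v hv
    obtain ⟨w, hw, rfl⟩ := i4_surj Vs (fun v => g • v) (MulAction.injective g) hg v hv
    show g⁻¹ • g • w ∈ Vs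
    rw [inv_smul_smul]; exact hw
  have hx : ∀ v ∈ Vs, x0 • v ∈ Vs := by
    have := hstab x0⁻¹ hx'
    rwa [inv_inv] at this
  let St : Subgroup F :=
    { carrier := {g | ∀ v ∈ Vs, g • v ∈ Vs}
      one_mem' := by
        intro v hv
        rw [one_smul]; exact hv
      mul_mem' := by
        intro g h hg hh v hv
        rw [mul_smul]
        exact hg _ (hh v hv)
      inv_mem' := by
        intro g hg
        exact hstab g hg }
  have hall : ∀ (g : F) v, v ∈ Vs → g • v ∈ Vs := by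
    intro g v hv
    exact i4_top St hx hgas g v hv
  obtain ⟨e, he⟩ : ∃ e, e ∈ y.support := by
    by_contra hcon
    push Not at hcon
    apply hy0
    ext e
    exact Finsupp.notMem_support_iff.1 (hcon e)
  have hv0 : e.1 ∈ Vs := (hmem _).2 ⟨e.2, he⟩
  have huniv : ∀ v, v ∈ Vs := by
    intro v
    obtain ⟨g, rfl⟩ := htr e.1 v
    exact hall g _ hv0
  exact Set.finite_univ_iff.1 (Vs.finite_toSet.subset fun v _ => huniv v)

end

end Pool.Agent.F8.PIC7
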