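import Pool.Agent.Lib.MP_305fdd_al.F8.PIC7.StmG

/-!
# MP_305fdd_al, PIC7, piece m5: no cocycle modulo 5 on the subgroup
-/

set_option autoImplicit false

namespace Pool.Agent.F8.PIC7

open Pool.Agent.MP_305fdd_al Pool.Agent.Lib.MP_305fdd_al Pool.Agent.F2X Pool.Agent.F8
  Pool.Agent.F8.HN Pool.Agent.F8.AB Pool.Agent.F8.D7

/-- the sign of a residue class -/
private def m5_s (a : ZMod 4) : (ZMod 5)ˣ := if a = 0 then 1 else -1

private theorem m5_s_add : ∀ a b : ZMod 4, 2 * a = 0 → 2 * b = 0 →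
    m5_s (a + b) = m5_s a * m5_s b := by
  unfold m5_s
  decide

/-- the sign character on `A6` -/
private def m5_lam : A6 →* (ZMod 5)ˣ where
  toFun g := m5_s (sx g.1.2)
  map_one' := by
    show m5_s (sx 1) = 1
    rw [sx_one]
    exact if_pos rfl
  map_mul' g h := by
    show m5_s (sx (g.1.2 * h.1.2)) = m5_s (sx g.1.2) * m5_s (sx h.1.2)
    rw [sx_mul]
    exact m5_s_add _ _ (sx_two _) (sx_two _)

private theorem m5_lam_apply (g : A6) : m5_lam g = m5_s (sx g.1.2) := rfl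

private theorem m5_sn_mul (x y : G7) : sn (x * y) = sn x * sn y := by
  unfold sn
  rw [map_mul, toAdd_mul, zpow_add]

private theorem m5_s_two (n : ℤ) : m5_s ((2 * n : ℤ) : ZMod 4) = (-1) ^ n := by
  rcases Int.even_or_odd n with hn | hn
  · obtain ⟨m, rfl⟩ := hn
    rw [Even.neg_one_zpow ⟨m, rfl⟩]
    apply if_pos
    rw [ZMod.intCast_zmod_eq_zero_iff_dvd]
    exact ⟨m, by push_cast; ring⟩
  · obtain ⟨m, rfl⟩ := hn
    rw [Odd.neg_one_zpow ⟨m, rfl⟩]
    apply if_neg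
    intro h
    have h2 : ((2 * (2 * m + 1) : ℤ) : ZMod 4) = 2 := by
      have h4 : (4 : ZMod 4) = 0 := by decide
      push_cast
      linear_combination (m : ZMod 4) * h4
    rw [h2] at h
    exact absurd h (by decide)

private theorem m5_sn_eq (η : G6 →* G7) (hη : Eta η) (x : G6) :
    sn (η x) = m5_s (sx (r42 x.1).2) := by
  obtain ⟨w, n, hwn⟩ := GA_cases al7 (η x)
  have h1 := (hη.lab x w n hwn).2
  have h2 : 2 * (r4 x.1).val 0 1 + (r4 x.1).val 1 0 = sx (r2 x.1) := x.2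
  rw [r42_apply, ← h2, ← h1, m5_s_two]
  unfold sn
  rw [hwn, map_mul, nA_iA, one_mul, map_zpow, nA_tA, ← ofAdd_zsmul]
  simp

theorem p_m5 (hn5 : S_n5) : S_m5 := by
  intro Λ _ Φ ρ hρ η hη hL f hf x hx
  -- the homomorphisms
  let φ : L6 Φ →* G6 := (ρ.comp (L6 Φ).subtype).codRestrict G6 fun l => (hL l).1 l.2
  have hφ : ∀ l : L6 Φ, (φ l : GG) = ρ l := fun l => rfl
  let h : L6 Φ →* H6 ρ η := (η.comp φ).codRestrict (H6 ρ η) fun l => ⟨φ l, ⟨l, rfl⟩, rfl⟩
  have hh : ∀ l : L6 Φ, (h l : G7) = η (φ l) := fun l => rfl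
  have hf1 : f 1 = 0 := by
    have h1 := hf 1 1
    have h2 : sn ((1 : H6 ρ η) : G7) = 1 := by
      have h3 := m5_sn_mul 1 1
      rw [mul_one] at h3
      exact left_eq_mul.1 h3
    rw [h2, mul_one, Units.val_one, one_mul] at h1
    exact left_eq_add.1 h1
  let κ : L6 Φ →* Q2 (ZMod 5) :=
    { toFun := fun l => ⟨sn (h l), 1, ![f (h l), 0]⟩
      map_one' := by
        apply Q2.ext
        · show sn ((h 1 : H6 ρ η) : G7) = 1
          rw [map_one]
          have h3 := m5_sn_mul 1 1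
          rw [mul_one] at h3
          exact left_eq_mul.1 h3
        · rfl
        · show ![f (h 1), 0] = 0
          rw [map_one, hf1]
          ext i
          fin_cases i <;> rfl
      map_mul' := by
        intro a b
        apply Q2.ext
        · show sn ((h (a * b) : H6 ρ η) : G7) = sn (h a) * sn (h b)
          rw [map_mul, Subgroup.coe_mul, m5_sn_mul]
        · exact (one_mul _).symm
        · rw [Q2.mul_v]
          show ![f (h (a * b)), 0] = ![f (h a), 0] +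
            (sn (h a)).val • (1 : SL2 (ZMod 5)).val.mulVec ![f (h b), 0]
          rw [map_mul, hf]
          ext i
          fin_cases i
          · simp
          · simp }
  obtain ⟨Ψ, hΨ⟩ := natBij_comap Φ (rfl : Φ.toFun _ r42 = Φ.toFun _ r42) A6
  change NatBij G6 (L6 Φ) at Ψ
  let κ' : G6 →* Q2 (ZMod 5) := Ψ.invFun _ κ
  have hκ' : Ψ.toFun _ κ' = κ := Ψ.right_inv _ κ
  -- the matrix part
  have hm : Q2.mH.comp κ' = 1 := by
    apply Ψ.injective
    rw [Ψ.nat, hκ', Ψ.one]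
    rfl
  -- the scalar part
  let rG : G6 →* A6 := (r42.comp G6.subtype).codRestrict A6 fun y => y.2
  have hrG : A6.subtype.comp rG = r42.comp G6.subtype := rfl
  have hrL : ∀ l : L6 Φ, ((Ψ.toFun _ rG l : A6) : SL2 (ZMod 4) × SL2 (ZMod 2)) =
      Φ.toFun _ r42 l := by
    intro l
    have h1 := Ψ.nat A6.subtype rG
    rw [hrG] at h1
    have h2 := hΨ _ r42
    have h3 : A6.subtype.comp (Ψ.toFun _ rG) = (Φ.toFun _ r42).comp (L6 Φ).subtype := by
      rw [← h1]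
      exact h2
    exact DFunLike.congr_fun h3 l
  have ht : Q2.tH.comp κ' = m5_lam.comp rG := by
    apply Ψ.injective
    rw [Ψ.nat, hκ', Ψ.nat]
    refine DFunLike.ext _ _ fun l => ?_
    show sn (η (φ l)) = m5_lam (Ψ.toFun _ rG l)
    rw [m5_sn_eq η hη, m5_lam_apply, hrL, hφ, hρ.four]
  have ht' : ∀ y, (κ' y).t = sn (η y) := by
    intro y
    have h1 := DFunLike.congr_fun ht y
    rw [m5_sn_eq η hη]
    exact h1
  have hfin := hn5 η hη κ' hm ht'
  -- the conclusion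
  obtain ⟨x, y, ⟨l, hl⟩, rfl⟩ := x
  have hl' : ρ l = (y : GG) := hl
  have hlm : l ∈ L6 Φ := (hL l).2 (by rw [hl']; exact y.2)
  have hφl : φ ⟨l, hlm⟩ = y := Subtype.ext hl'
  have hmem : κ ⟨l, hlm⟩ ∈ κ'.range := by
    rw [← Ψ.range_eq κ', hκ']
    exact ⟨_, rfl⟩
  obtain ⟨z, hz⟩ := hmem
  have h1 : (κ ⟨l, hlm⟩).t = 1 := by
    show sn (η (φ ⟨l, hlm⟩)) = 1
    rw [hφl]
    unfold sn
    rw [show nA al7 (η y) = 1 from hx]
    rfl
  have h2 : κ ⟨l, hlm⟩ = 1 := by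
    rw [← hz]
    apply hfin
    rw [hz]
    exact h1
  have h3 : f (h ⟨l, hlm⟩) = 0 := congrFun (congrArg Q2.v h2) 0
  have h4 : h ⟨l, hlm⟩ = ⟨η y, ⟨y, ⟨l, hl⟩, rfl⟩⟩ := Subtype.ext (by rw [hh, hφl])
  rw [h4] at h3
  exact h3

end Pool.Agent.F8.PIC7
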