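import Pool.Agent.Lib.MP_305fdd_al.F8.PIC7.StmG

/-!
# MP_305fdd_al, PIC7, piece n5: no cocycle modulo `5` on `G6`
-/

set_option autoImplicit false

namespace Pool.Agent.F8.PIC7

open Pool.Agent.MP_305fdd_al Pool.Agent.Lib.MP_305fdd_al Pool.Agent.F2X Pool.Agent.F8
  Pool.Agent.F8.HN Pool.Agent.F8.AB Pool.Agent.F8.D7
open scoped QuadraticAlgebra

noncomputable section

/-- the three generators -/
def n5_y1 : F := x0
def n5_y2 : F := ga * ga
def n5_y3 : F := ga * x0 * ga⁻¹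

theorem n5_a1 : al7 n5_y1 = n5_y1 * n5_y2 := by
  unfold n5_y1 n5_y2
  rw [al7_x, mul_assoc]

theorem n5_a2 : al7 n5_y2 = n5_y3 * n5_y2 * n5_y2 * n5_y1 * n5_y2 := by
  unfold n5_y1 n5_y2 n5_y3
  rw [map_mul, al7_u]
  group

theorem n5_a3 : al7 n5_y3 = n5_y3 * n5_y2 := by
  unfold n5_y2 n5_y3
  rw [map_mul, map_mul, map_inv, al7_x, al7_u]
  group

theorem n5_vec : Even (vec n5_y1 0 + vec n5_y1 1) ∧ Even (vec n5_y2 0 + vec n5_y2 1) ∧
    Even (vec n5_y3 0 + vec n5_y3 1) := by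
  unfold n5_y1 n5_y2 n5_y3 x0
  refine ⟨?_, ?_, ?_⟩ <;>
    simp only [vec_mul, vec_inv, vec_of, Pi.add_apply, Pi.neg_apply] <;> decide

/-- translations -/
def n5_T : Subgroup (Q2 (ZMod 5)) where
  carrier := {x | x.t = 1 ∧ x.m = 1}
  one_mem' := ⟨rfl, rfl⟩
  mul_mem' := by
    rintro x y ⟨a, b⟩ ⟨c, d⟩
    exact ⟨by rw [Q2.mul_t, a, c, one_mul], by rw [Q2.mul_m, b, d, one_mul]⟩
  inv_mem' := by
    rintro x ⟨a, b⟩
    exact ⟨by rw [Q2.inv_t, a, inv_one], by rw [Q2.inv_m, b, inv_one]⟩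

theorem n5_mul {x y : Q2 (ZMod 5)} (hx : x ∈ n5_T) : (x * y).v = x.v + y.v := by
  rw [Q2.mul_v, hx.1, hx.2]
  simp

theorem n5_inv {x : Q2 (ZMod 5)} (hx : x ∈ n5_T) : (x⁻¹).v = -x.v := by
  rw [Q2.inv_v, hx.1, hx.2]
  simp

theorem n5_ext {x y : Q2 (ZMod 5)} (hx : x ∈ n5_T) (hy : y ∈ n5_T) (h : x.v = y.v) : x = y :=
  Q2.ext (hx.1.trans hy.1.symm) (hx.2.trans hy.2.symm) h

theorem n5_conj {b x : Q2 (ZMod 5)} (hb : b.t = -1) (hb2 : b.m = 1) (hx : x ∈ n5_T) :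
    (b * x * b⁻¹).v = -x.v := by
  rw [Q2.mul_v, Q2.mul_v, Q2.inv_v, Q2.mul_t, Q2.mul_m, hx.1, hx.2, hb, hb2]
  simp

theorem n5_lin : ∀ f1 f2 f3 : ZMod 5, -f1 = f1 + f2 → -f2 = f3 + f2 + f2 + f1 + f2 →
    -f3 = f3 + f2 → f1 = 0 ∧ f2 = 0 ∧ f3 = 0 := by
  decide +kernel

theorem n5_nA (w : F) (n : ℤ) : nA al7 (iA al7 w * tA al7 ^ n) = Multiplicative.ofAdd n := by
  rw [map_mul, map_zpow, nA_iA, nA_tA, one_mul, ← ofAdd_zsmul]
  simp

theorem n5_neg_one : ((-1 : (ZMod 5)ˣ)) ≠ 1 := by decide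

theorem n5_even {n : ℤ} (h : ((-1 : (ZMod 5)ˣ)) ^ n = 1) : Even n := by
  by_contra hn
  rw [Int.not_even_iff_odd] at hn
  rw [hn.neg_one_zpow] at h
  exact n5_neg_one h

section main

variable {η : G6 →* G7} (hη : Eta η) {κ : G6 →* Q2 (ZMod 5)} (hm : Q2.mH.comp κ = 1)
  (ht : ∀ x, (κ x).t = sn (η x))

include hm in
theorem n5_m (x : G6) : (κ x).m = 1 := by
  have := DFunLike.congr_fun hm x
  exact this

include hm ht in
theorem n5_T_mem {x : G6} {w : F} (h : η x = iA al7 w) : κ x ∈ n5_T := by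
  refine ⟨?_, n5_m hm x⟩
  rw [ht, h]
  unfold sn
  rw [nA_iA]
  simp

include ht in
theorem n5_t0 {x : G6} (h : η x = tA al7) : (κ x).t = -1 := by
  rw [ht, h]
  unfold sn
  rw [nA_tA]
  simp

include hη in
theorem n5_ex0 : ∃ x, η x = tA al7 := by
  obtain ⟨x, hx⟩ := hη.sur 1 1 (by simp)
  exact ⟨x, by rw [hx, map_one, one_mul, zpow_one]⟩

include hη in
theorem n5_exi {y : F} (h : Even (vec y 0 + vec y 1)) : ∃ x, η x = iA al7 y := by
  obtain ⟨x, hx⟩ := hη.sur y 0 h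
  exact ⟨x, by rw [hx, zpow_zero, mul_one]⟩

include hη hm ht in
theorem n5_ker {x : G6} (h : η x = 1) : κ x = 1 := by
  rcases (hη.ker x).mp h with h1 | h1
  · have : x = 1 := Subtype.ext h1
    rw [this, map_one]
  · obtain ⟨x0', h0⟩ := n5_ex0 hη
    have hc : x * x0' = x0' * x := by
      apply Subtype.ext
      show x.val * x0'.val = x0'.val * x.val
      rw [h1]
      simp
    have hT : κ x ∈ n5_T := n5_T_mem hm ht (w := 1) (by rw [h, map_one])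
    have e : κ x0' * κ x * (κ x0')⁻¹ = κ x := by
      rw [← map_mul, ← hc, map_mul, mul_inv_cancel_right]
    have e2 := n5_conj (n5_t0 ht h0) (n5_m hm x0') hT
    rw [e] at e2
    apply n5_ext hT (one_mem _)
    have h3 : ∀ a : ZMod 5, a = -a → a = 0 := by decide
    funext i
    exact h3 _ (congrFun e2 i)

include hη hm ht in
theorem n5_eq {x y : G6} (h : η x = η y) : κ x = κ y := by
  have : κ (x * y⁻¹) = 1 := n5_ker hη hm ht (by rw [map_mul, map_inv, h, mul_inv_cancel])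
  rw [map_mul, map_inv] at this
  exact mul_inv_eq_one.mp this

include hη hm ht in
theorem n5_main (hf6 : S_f6) (w : F) (h0 : Even (vec w 0 + vec w 1)) :
    ∃ x, η x = iA al7 w ∧ κ x = 1 := by
  obtain ⟨v1, v2, v3⟩ := n5_vec
  obtain ⟨x0', e0⟩ := n5_ex0 hη
  obtain ⟨x1, e1⟩ := n5_exi hη v1
  obtain ⟨x2, e2⟩ := n5_exi hη v2
  obtain ⟨x3, e3⟩ := n5_exi hη v3
  have t1 := n5_T_mem hm ht e1
  have t2 := n5_T_mem hm ht e2
  have t3 := n5_T_mem hm ht e3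
  have cj : ∀ (x z : G6) (y : F), η x = iA al7 y → κ x ∈ n5_T → η z = iA al7 (al7 y) →
      -(κ x).v = (κ z).v := by
    intro x z y hx hT hz
    rw [← n5_conj (n5_t0 ht e0) (n5_m hm x0') hT, ← map_mul, ← map_inv, ← map_mul]
    congr 1
    apply n5_eq hη hm ht
    rw [map_mul, map_mul, map_inv, hx, e0, hz, tA_conj]
  have c1 := cj x1 (x1 * x2) _ e1 t1 (by rw [n5_a1]; simp only [map_mul, e1, e2])
  have c2 := cj x2 (x3 * x2 * x2 * x1 * x2) _ e2 t2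
    (by rw [n5_a2]; simp only [map_mul, e1, e2, e3])
  have c3 := cj x3 (x3 * x2) _ e3 t3 (by rw [n5_a3]; simp only [map_mul, e2, e3])
  simp only [map_mul] at c1 c2 c3
  have p1 := mul_mem t3 t2
  have p2 := mul_mem p1 t2
  have p3 := mul_mem p2 t1
  rw [n5_mul t1] at c1
  rw [n5_mul p3, n5_mul p2, n5_mul p1, n5_mul t3] at c2
  rw [n5_mul t3] at c3
  have hl := fun i => n5_lin ((κ x1).v i) ((κ x2).v i) ((κ x3).v i)
    (congrFun c1 i) (congrFun c2 i) (congrFun c3 i)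
  have k1 : κ x1 = 1 := n5_ext t1 (one_mem _) (funext fun i => (hl i).1)
  have k2 : κ x2 = 1 := n5_ext t2 (one_mem _) (funext fun i => (hl i).2.1)
  have k3 : κ x3 = 1 := n5_ext t3 (one_mem _) (funext fun i => (hl i).2.2)
  have hK := hf6 ((κ.ker.map η).comap (iA al7)) ⟨x1, k1, e1⟩ ⟨x2, k2, e2⟩ ⟨x3, k3, e3⟩ w h0
  obtain ⟨x, hx, hx2⟩ := hK
  exact ⟨x, hx2, hx⟩

end main

theorem p_n5 (hf6 : S_f6) : S_n5 := by
  intro η hη κ hm ht x hx
  obtain ⟨w, n, hw⟩ := GA_cases al7 (η x)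
  have hn : Even n := by
    rw [ht, hw] at hx
    unfold sn at hx
    rw [n5_nA] at hx
    exact n5_even hx
  obtain ⟨x1, e1, k1⟩ := n5_main hη hm ht hf6 w (hη.ev x w n hw)
  obtain ⟨x0', e0⟩ := n5_ex0 hη
  obtain ⟨m, rfl⟩ := hn
  have h2 : κ x0' * κ x0' = 1 := by
    have hb := n5_t0 ht e0
    have hb2 := n5_m hm x0'
    apply Q2.ext
    · rw [Q2.mul_t, hb]; simp
    · rw [Q2.mul_m, hb2, one_mul]; rfl
    · rw [Q2.mul_v, hb, hb2]; simp
  have e : η x = η (x1 * x0' ^ (m + m)) := by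
    rw [map_mul, map_zpow, e1, e0, hw]
  rw [n5_eq hη hm ht e, map_mul, k1, one_mul, map_zpow, zpow_add,
    ← (Commute.refl (κ x0')).mul_zpow m, h2, one_zpow]

end

end Pool.Agent.F8.PIC7
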