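import Pool.Agent.Lib.MP_305fdd_al.F8.PIC7.StmU
import Pool.Agent.Lib.MP_305fdd_al.F8.PIC.P_nf

/-!
# [PIC7 nf] the normal form of an irreducible representation of `SL₂(O7)`
-/

set_option autoImplicit false
set_option linter.unusedVariables false

namespace Pool.Agent.F8.PIC7

open Pool.Agent.MP_305fdd_al Pool.Agent.Lib.MP_305fdd_al Pool.Agent.F2X Pool.Agent.F8
  Pool.Agent.F8.HN Pool.Agent.F8.AB Pool.Agent.F8.D7
open scoped QuadraticAlgebra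

theorem nf_r1 : mB O7 * mB O7 = (-1 : GG) := by decide
theorem nf_r2 : tt * mB O7 * (tt * mB O7) * (tt * mB O7) = (-1 : GG) := by decide
theorem nf_r3 : tt * uu = uu * tt := by decide
theorem nf_r4 : uu⁻¹ * tt⁻¹ * mB O7 * uu * mB O7 * (uu⁻¹ * tt⁻¹ * mB O7 * uu * mB O7) =
    (-1 : GG) := by decide
theorem nf_r5 : (-1 : GG) * (-1) = 1 := by decide

section
variable {K : Type} [Field K]

theorem nf_inv (g : SL2 K) : g⁻¹ = mx (g.val 1 1) (-g.val 0 1) (-g.val 1 0) (g.val 0 0)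
    (by linear_combination G.SL_det g) := by
  have hd := G.SL_det g
  apply inv_eq_of_mul_eq_one_left
  rw [mx_one]
  apply G.SL_ext
  · rw [G.SL_mul]; simp only [mx_00, mx_01]; linear_combination hd
  · rw [G.SL_mul]; simp only [mx_00, mx_01]; ring
  · rw [G.SL_mul]; simp only [mx_10, mx_11]; ring
  · rw [G.SL_mul]; simp only [mx_10, mx_11]; linear_combination hd

theorem nf_i00 (g : SL2 K) : (g⁻¹).val 0 0 = g.val 1 1 := by rw [nf_inv, mx_00]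
theorem nf_i01 (g : SL2 K) : (g⁻¹).val 0 1 = -g.val 0 1 := by rw [nf_inv, mx_01]
theorem nf_i10 (g : SL2 K) : (g⁻¹).val 1 0 = -g.val 1 0 := by rw [nf_inv, mx_10]
theorem nf_i11 (g : SL2 K) : (g⁻¹).val 1 1 = g.val 0 0 := by rw [nf_inv, mx_11]

/-- commuting generators -/
theorem nf_ab (ρ : GG →* SL2 K) (hI : Irr ρ)
    (h1 : ρ tt * ρ (mB O7) = ρ (mB O7) * ρ tt) (h2 : ρ uu * ρ (mB O7) = ρ (mB O7) * ρ uu) :
    False := by
  have h3 : ρ tt * ρ uu = ρ uu * ρ tt := by rw [← map_mul, nf_r3, map_mul]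
  have hS : ∀ x : SL2 K, x * ρ tt = ρ tt * x → x * ρ uu = ρ uu * x →
      x * ρ (mB O7) = ρ (mB O7) * x → ∀ g, x * ρ g = ρ g * x := by
    intro x a1 a2 a3 g
    have := PG.SL_sub ((Subgroup.centralizer {x}).comap ρ)
      (by
        rw [Subgroup.mem_comap, Subgroup.mem_centralizer_singleton_iff]
        exact a1.symm)
      (by
        rw [Subgroup.mem_comap, Subgroup.mem_centralizer_singleton_iff]
        exact a2.symm)
      (by
        rw [Subgroup.mem_comap, Subgroup.mem_centralizer_singleton_iff]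
        exact a3.symm) g
    rw [Subgroup.mem_comap, Subgroup.mem_centralizer_singleton_iff] at this
    exact this.symm
  have hT := hS (ρ tt) rfl h3 h1
  have hU := hS (ρ uu) h3.symm rfl h2
  have hB := hS (ρ (mB O7)) h1.symm h2.symm rfl
  obtain ⟨g, h, hgh⟩ := hI
  apply hgh
  have h5 := hS (ρ g) (hT g).symm (hU g).symm (hB g).symm h
  have h4 : ρ (g * h * g⁻¹ * h⁻¹) = 1 := by
    rw [map_mul, map_mul, map_mul, map_inv, map_inv, h5, mul_inv_cancel_right, mul_inv_cancel]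
  rw [h4, tr_eq, G.one00, G.one11]
  norm_num

/-- a common eigenvector of the generators -/
theorem nf_tri (ρ : GG →* SL2 K) (hI : Irr ρ) (h1 : (ρ tt).val 1 0 = 0)
    (h2 : (ρ uu).val 1 0 = 0) (h3 : (ρ (mB O7)).val 1 0 = 0) : False := by
  let S : Subgroup (SL2 K) :=
    { carrier := {g | g.val 1 0 = 0}
      one_mem' := G.one10
      mul_mem' := by
        intro g h hg hh
        show (g * h).val 1 0 = 0
        replace hg : g.val 1 0 = 0 := hg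
        replace hh : h.val 1 0 = 0 := hh
        rw [G.SL_mul, hg, hh]; ring
      inv_mem' := by
        intro g hg
        show (g⁻¹).val 1 0 = 0
        replace hg : g.val 1 0 = 0 := hg
        rw [nf_i10, hg, neg_zero] }
  have hall : ∀ g : GG, (ρ g).val 1 0 = 0 := fun g => PG.SL_sub (S.comap ρ) h1 h2 h3 g
  obtain ⟨g, h, hgh⟩ := hI
  apply hgh
  have hg := hall g
  have hh := hall h
  have dg := G.SL_det (ρ g)
  have dh := G.SL_det (ρ h)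
  rw [hg] at dg
  rw [hh] at dh
  rw [map_mul, map_mul, map_mul, map_inv, map_inv, tr_eq]
  simp only [G.SL_mul, nf_i00, nf_i01, nf_i10, nf_i11, hg, hh]
  linear_combination (2 * (ρ h).val 0 0 * (ρ h).val 1 1) * dg + 2 * dh

end

/-- the case `ρ (-1) = 1` does not occur -/
theorem nf_neg {K : Type} [Field K] (h2 : (2 : K) ≠ 0) (ρ : GG →* SL2 K) (hI : Irr ρ) :
    ρ (-1) = -1 := by
  have h1 : ρ (-1) * ρ (-1) = 1 := by rw [← map_mul, nf_r5, map_one]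
  rcases PIC.nf_sq_one h2 _ h1 with h3 | h3
  · exfalso
    have hB : ∀ x : SL2 K, x * ρ (mB O7) = ρ (mB O7) * x := by
      intro x
      rcases PIC.nf_sq_one h2 (ρ (mB O7)) (by rw [← map_mul, nf_r1, h3]) with h | h
      · rw [h, one_mul, mul_one]
      · rw [h, mul_neg, neg_mul, one_mul, mul_one]
    exact nf_ab ρ hI (hB _) (hB _)
  · exact h3

/-- the first step: the normal form of `mB` -/
theorem nf_B {K : Type} [Field K] [IsAlgClosed K] (h2 : (2 : K) ≠ 0) (B : SL2 K)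
    (hB : tr B = 0) : ∃ C : SL2 K, C * B * C⁻¹ = mB K := by
  obtain ⟨w, hw⟩ := IsAlgClosed.exists_pow_nat_eq (-1 : K) (n := 2) (by norm_num)
  have hw' : w * w = -1 := by rw [← hw]; ring
  have hw0 : w ≠ 0 := by
    rintro rfl
    rw [mul_zero] at hw'
    exact one_ne_zero (neg_eq_zero.1 hw'.symm)
  let ψ : Kˣ := ⟨w, -w, by rw [mul_neg, hw', neg_neg], by rw [neg_mul, hw', neg_neg]⟩
  have hψ1 : (ψ : K) = w := rfl
  have hψ2 : ((ψ⁻¹ : Kˣ) : K) = -w := rfl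
  have hne : (ψ : K) ≠ ((ψ⁻¹ : Kˣ) : K) := by
    rw [hψ1, hψ2]
    intro h
    apply mul_ne_zero h2 hw0
    linear_combination h
  obtain ⟨q, hq⟩ := FrL.exists_diag B ψ hne (by rw [hψ1, hψ2, add_neg_cancel]; exact hB)
  obtain ⟨r, hr⟩ := FrL.exists_diag (mB K) ψ hne (by
    rw [hψ1, hψ2, add_neg_cancel]
    show tr (mB K) = 0
    rw [tr_eq, G.mB00, G.mB11, add_zero])
  refine ⟨r * q⁻¹, ?_⟩
  have h3 : B = q * FrL.dg ψ * q⁻¹ := by rw [← hq]; group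
  have h4 : mB K = r * FrL.dg ψ * r⁻¹ := by rw [← hr]; group
  rw [h4, h3]
  group

/-- the second step: the matrix of `tt` -/
theorem nf_T {K : Type} [Field K] [IsAlgClosed K] (h2 : (2 : K) ≠ 0) (T : SL2 K)
    (hxy : T.val 0 1 - T.val 1 0 = 1)
    (hs : (T.val 0 0 - T.val 1 1) ^ 2 + (T.val 0 1 + T.val 1 0) ^ 2 ≠ 0) :
    ∃ (C : SL2 K) (s : K), s ≠ 0 ∧ C * mB K * C⁻¹ = mB K ∧
      (C * T * C⁻¹).val 0 0 = (C * T * C⁻¹).val 1 1 ∧
      (C * T * C⁻¹).val 0 1 + (C * T * C⁻¹).val 1 0 = s := by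
  obtain ⟨al, hal⟩ : ∃ x, x = T.val 0 0 - T.val 1 1 := ⟨_, rfl⟩
  obtain ⟨be, hbe⟩ : ∃ x, x = T.val 0 1 + T.val 1 0 := ⟨_, rfl⟩
  rw [← hal, ← hbe] at hs
  obtain ⟨s, hs1, hs2⟩ : ∃ s : K, s ^ 2 = al ^ 2 + be ^ 2 ∧ s + be ≠ 0 := by
    obtain ⟨s, hs1⟩ := IsAlgClosed.exists_pow_nat_eq (al ^ 2 + be ^ 2) (n := 2) (by norm_num)
    by_cases h : s + be = 0
    · refine ⟨-s, by rw [neg_sq, hs1], ?_⟩
      intro h'
      have h3 : 2 * s = 0 := by linear_combination h - h'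
      rcases mul_eq_zero.1 h3 with h4 | h4
      · exact h2 h4
      · apply hs
        rw [← hs1, h4]
        ring
    · exact ⟨s, hs1, h⟩
  have hs0 : s ≠ 0 := by
    rintro rfl
    apply hs
    rw [← hs1]
    ring
  have h2s : 2 * s ≠ 0 := mul_ne_zero h2 hs0
  obtain ⟨v, hv⟩ := IsAlgClosed.exists_pow_nat_eq ((s + be) / (2 * s)) (n := 2) (by norm_num)
  have hv0 : v ≠ 0 := by
    rintro rfl
    rw [zero_pow (by norm_num)] at hv
    exact div_ne_zero hs2 h2s hv.symm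
  have hv' : 2 * s * v ^ 2 = s + be := by rw [hv]; field_simp
  obtain ⟨u, hu⟩ : ∃ u, u = -al / (2 * s * v) := ⟨_, rfl⟩
  have hu1 : 2 * s * (v * u) = -al := by rw [hu]; field_simp
  have hu2 : 2 * s * u ^ 2 = s - be := by
    apply mul_left_cancel₀ hs2
    linear_combination (-(2 * s * u ^ 2)) * hv' + (2 * s * v * u - al) * hu1 - hs1
  have hdet : v * v - (-u) * u = 1 := by
    apply mul_left_cancel₀ h2s
    linear_combination hv' + hu2
  -- the matrix `[[v, -u], [u, v]]`, a rotation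
  refine ⟨mx v u (-u) v (by linear_combination hdet), s, hs0, ?_, ?_, ?_⟩
  · rw [mul_inv_eq_iff_eq_mul]
    apply G.SL_ext
    · rw [G.SL_mul, G.SL_mul]; simp only [mx_00, mx_01, mx_10, G.mB00, G.mB10, G.mB01]; ring
    · rw [G.SL_mul, G.SL_mul]; simp only [mx_00, mx_01, mx_11, G.mB00, G.mB01, G.mB11]; ring
    · rw [G.SL_mul, G.SL_mul]; simp only [mx_00, mx_10, mx_11, G.mB00, G.mB10, G.mB11]; ring
    · rw [G.SL_mul, G.SL_mul]; simp only [mx_01, mx_10, mx_11, G.mB01, G.mB10, G.mB11]; ring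
  · simp only [G.SL_mul, nf_i00, nf_i01, nf_i10, nf_i11, mx_00, mx_01, mx_10, mx_11]
    apply mul_left_cancel₀ h2s
    rw [hal] at hu1
    rw [hbe] at hv' hu2
    linear_combination (T.val 0 0 - T.val 1 1) * (hv' - hu2) +
      (2 * (T.val 0 1 + T.val 1 0)) * hu1
  · simp only [G.SL_mul, nf_i00, nf_i01, nf_i10, nf_i11, mx_00, mx_01, mx_10, mx_11]
    apply mul_left_cancel₀ h2s
    rw [hal, hbe] at hs1
    rw [hal] at hu1
    rw [hbe] at hv' hu2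
    linear_combination (-2 * (T.val 0 0 - T.val 1 1)) * hu1 +
      (T.val 0 1 + T.val 1 0) * (hv' - hu2) - 2 * hs1

theorem nf_trc {K : Type} [Field K] (C g : SL2 K) : tr (C * g * C⁻¹) = tr g := by
  rw [tr_eq, tr_eq]
  simp only [G.SL_mul, nf_i00, nf_i01, nf_i10, nf_i11]
  linear_combination (g.val 0 0 + g.val 1 1) * G.SL_det C

theorem nf_irr {K : Type} [Field K] {ρ : GG →* SL2 K} (hI : Irr ρ) (C : SL2 K) :
    Irr ((MulAut.conj C).toMonoidHom.comp ρ) := by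
  obtain ⟨g, h, hgh⟩ := hI
  refine ⟨g, h, ?_⟩
  show tr (C * ρ (g * h * g⁻¹ * h⁻¹) * C⁻¹) ≠ 2
  rwa [nf_trc]

/-- `V` is a combination of `1` and `T` -/
theorem nf_V {K : Type} [Field K] (τ : GG →* SL2 K)
    (hτ : (τ tt).val 0 1 - (τ tt).val 1 0 = 1) :
    (τ uu⁻¹).val 0 1 = ((τ uu⁻¹).val 0 1 - (τ uu⁻¹).val 1 0) * (τ tt).val 0 1 ∧
    (τ uu⁻¹).val 1 0 = ((τ uu⁻¹).val 0 1 - (τ uu⁻¹).val 1 0) * (τ tt).val 1 0 ∧
    (τ uu⁻¹).val 1 1 - (τ uu⁻¹).val 0 0 =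
      ((τ uu⁻¹).val 0 1 - (τ uu⁻¹).val 1 0) * ((τ tt).val 1 1 - (τ tt).val 0 0) := by
  have h3 : τ tt * τ uu⁻¹ = τ uu⁻¹ * τ tt := by
    rw [← map_mul, ← map_mul]
    congr 1
    rw [eq_inv_mul_iff_mul_eq, ← mul_assoc, ← nf_r3, mul_inv_cancel_right]
  have c00 : (τ tt * τ uu⁻¹).val 0 0 = (τ uu⁻¹ * τ tt).val 0 0 := by rw [h3]
  have c01 : (τ tt * τ uu⁻¹).val 0 1 = (τ uu⁻¹ * τ tt).val 0 1 := by rw [h3]
  have c10 : (τ tt * τ uu⁻¹).val 1 0 = (τ uu⁻¹ * τ tt).val 1 0 := by rw [h3]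
  rw [G.SL_mul, G.SL_mul] at c00 c01 c10
  refine ⟨?_, ?_, ?_⟩
  · linear_combination (-(τ uu⁻¹).val 0 1) * hτ + c00
  · linear_combination (-(τ uu⁻¹).val 1 0) * hτ + c00
  · linear_combination (-((τ uu⁻¹).val 1 1 - (τ uu⁻¹).val 0 0)) * hτ + c01 + c10

/-- the degenerate case does not occur -/
theorem nf_ne {K : Type} [Field K] [IsAlgClosed K] (ρ : GG →* SL2 K) (hI : Irr ρ)
    (hB : ρ (mB O7) = mB K) (hxy : (ρ tt).val 0 1 - (ρ tt).val 1 0 = 1) :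
    ((ρ tt).val 0 0 - (ρ tt).val 1 1) ^ 2 + ((ρ tt).val 0 1 + (ρ tt).val 1 0) ^ 2 ≠ 0 := by
  intro h0
  obtain ⟨w, hw⟩ := IsAlgClosed.exists_pow_nat_eq (-1 : K) (n := 2) (by norm_num)
  obtain ⟨j, hj, hjT⟩ : ∃ j : K, j ^ 2 = -1 ∧
      (ρ tt).val 0 1 + (ρ tt).val 1 0 - j * ((ρ tt).val 0 0 - (ρ tt).val 1 1) = 0 := by
    have h1 : ((ρ tt).val 0 1 + (ρ tt).val 1 0 - w * ((ρ tt).val 0 0 - (ρ tt).val 1 1)) *
        ((ρ tt).val 0 1 + (ρ tt).val 1 0 - (-w) * ((ρ tt).val 0 0 - (ρ tt).val 1 1)) = 0 := by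
      linear_combination h0 - ((ρ tt).val 0 0 - (ρ tt).val 1 1) ^ 2 * hw
    rcases mul_eq_zero.1 h1 with h2 | h2
    · exact ⟨w, hw, h2⟩
    · exact ⟨-w, by rw [neg_sq, hw], h2⟩
  obtain ⟨D, hD⟩ : ∃ D : SL2 K, D = mx 1 0 (-j) 1 (by ring) := ⟨_, rfl⟩
  have hD10 : ∀ g : SL2 K, (D * g * D⁻¹).val 1 0 =
      g.val 0 1 + g.val 1 0 - j * (g.val 0 0 - g.val 1 1) := by
    intro g
    rw [hD]
    simp only [G.SL_mul, nf_i00, nf_i10, mx_10, mx_11]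
    linear_combination (-g.val 0 1) * hj
  obtain ⟨v1, v2, v3⟩ := nf_V ρ hxy
  refine nf_tri ((MulAut.conj D).toMonoidHom.comp ρ) (nf_irr hI D) ?_ ?_ ?_
  · show (D * ρ tt * D⁻¹).val 1 0 = 0
    rw [hD10, hjT]
  · show (D * ρ uu * D⁻¹).val 1 0 = 0
    have h4 : ρ uu = (ρ uu⁻¹)⁻¹ := by rw [map_inv, inv_inv]
    rw [h4, hD10, nf_i00, nf_i01, nf_i10, nf_i11]
    linear_combination (-1) * v1 - v2 - j * v3 -
      ((ρ uu⁻¹).val 0 1 - (ρ uu⁻¹).val 1 0) * hjT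
  · show (D * ρ (mB O7) * D⁻¹).val 1 0 = 0
    rw [hD10, hB, G.mB00, G.mB01, G.mB10, G.mB11]
    ring

theorem p_nf : S_nf := by
  intro K _ _ h2 ρ hI
  have hE := nf_neg h2 ρ hI
  obtain ⟨C₁, hC₁⟩ := nf_B h2 (ρ (mB O7)) (PIC.nf_sq_neg h2 _ (by rw [← map_mul, nf_r1, hE]))
  obtain ⟨σ, hσ⟩ : ∃ σ : GG →* SL2 K, σ = (MulAut.conj C₁).toMonoidHom.comp ρ := ⟨_, rfl⟩
  have hσ' : ∀ g, σ g = C₁ * ρ g * C₁⁻¹ := by
    intro g; rw [hσ]; rfl
  have hσE : σ (-1) = -1 := by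
    rw [hσ', hE, mul_neg, neg_mul, mul_one, mul_inv_cancel]
  have hσI : Irr σ := by
    rw [hσ]
    exact nf_irr hI C₁
  have hσB : σ (mB O7) = mB K := by rw [hσ', hC₁]
  have hT1 : tr (σ tt * σ (mB O7)) = 1 := by
    rcases PIC.nf_cu_neg h2 (σ tt * σ (mB O7)) (by
      rw [← map_mul, ← map_mul, ← map_mul, nf_r2, hσE]) with h3 | h3
    · exact h3
    · exfalso
      have h4 : σ tt = σ (mB O7) := by
        have h5 : σ (mB O7) * σ (mB O7) = -1 := by rw [← map_mul, nf_r1, hσE]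
        have h6 : σ tt * σ (mB O7) * σ (mB O7) = -σ (mB O7) := by rw [h3, neg_one_mul]
        rw [mul_assoc, h5, mul_neg, mul_one] at h6
        exact neg_injective h6
      refine nf_ab σ hσI (by rw [h4]) ?_
      rw [← h4, ← map_mul, ← nf_r3, map_mul]
  have hxy : (σ tt).val 0 1 - (σ tt).val 1 0 = 1 := by
    rw [hσB, tr_eq, G.SL_mul, G.SL_mul, G.mB00, G.mB10, G.mB01, G.mB11] at hT1
    linear_combination hT1
  obtain ⟨C₂, s, hs0, hC₂, hTd, hTs⟩ := nf_T h2 (σ tt) hxy (nf_ne σ hσI hσB hxy)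
  obtain ⟨τ, hτ⟩ : ∃ τ : GG →* SL2 K, τ = (MulAut.conj C₂).toMonoidHom.comp σ := ⟨_, rfl⟩
  have hτ' : ∀ g, τ g = C₂ * σ g * C₂⁻¹ := by
    intro g; rw [hτ]; rfl
  have hτB : τ (mB O7) = mB K := by rw [hτ', hσB, hC₂]
  have hτE : τ (-1) = -1 := by
    rw [hτ', hσE, mul_neg, neg_mul, mul_one, mul_inv_cancel]
  have hT2 : tr (τ tt * τ (mB O7)) = 1 := by
    rw [hτ', hτ', ← hT1, ← nf_trc C₂ (σ tt * σ (mB O7))]
    congr 1
    group
  rw [← hτ'] at hTd hTs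
  have hxy2 : (τ tt).val 0 1 - (τ tt).val 1 0 = 1 := by
    rw [hτB, tr_eq, G.SL_mul, G.SL_mul, G.mB00, G.mB10, G.mB01, G.mB11] at hT2
    linear_combination hT2
  obtain ⟨v1, v2, v3⟩ := nf_V τ hxy2
  have hdT := G.SL_det (τ tt)
  have hdV := G.SL_det (τ uu⁻¹)
  have hW := PIC.nf_sq_neg h2 (τ (uu⁻¹ * tt⁻¹ * mB O7 * uu * mB O7)) (by
    rw [← map_mul, nf_r4, hτE])
  have h4 : τ uu = (τ uu⁻¹)⁻¹ := by rw [map_inv, inv_inv]
  rw [map_mul, map_mul, map_mul, map_mul, map_inv τ tt, hτB, h4, tr_eq] at hW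
  simp only [G.SL_mul, nf_i00, nf_i01, nf_i10, nf_i11, G.mB00, G.mB10, G.mB01, G.mB11] at hW
  obtain ⟨p, hp⟩ : ∃ p, p = (τ tt).val 0 0 := ⟨_, rfl⟩
  obtain ⟨x, hx⟩ : ∃ x, x = (τ tt).val 0 1 := ⟨_, rfl⟩
  obtain ⟨y, hy⟩ : ∃ y, y = (τ tt).val 1 0 := ⟨_, rfl⟩
  obtain ⟨b, hb⟩ : ∃ b, b = (τ uu⁻¹).val 0 1 - (τ uu⁻¹).val 1 0 := ⟨_, rfl⟩
  obtain ⟨a, ha⟩ : ∃ a, a = (τ uu⁻¹).val 0 0 - b * p := ⟨_, rfl⟩
  have w0 : (τ uu⁻¹).val 0 0 = a + b * p := by rw [ha]; ring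
  rw [← hb, ← hx] at v1
  rw [← hb, ← hy] at v2
  rw [← hTd, sub_self, mul_zero, w0] at v3
  replace v3 : (τ uu⁻¹).val 1 1 = a + b * p := by linear_combination v3
  rw [← hTd, ← hp, ← hx, ← hy] at hdT
  rw [w0, v3, v1, v2] at hdV
  rw [← hTd, ← hp, ← hx, ← hy, w0, v3, v1, v2] at hW
  rw [← hx, ← hy] at hxy2 hTs
  have H1 : 2 * p * (a ^ 2 + b ^ 2) + 3 * (a * b) = 0 := by
    linear_combination (-1) * hW - 2 * (a + b * p) * b * hdT +
      a * b * ((x - y + 1) * hxy2 - 2 * hdT)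
  have H2 : a ^ 2 + 2 * p * (a * b) + b ^ 2 = 1 := by
    linear_combination hdV - b ^ 2 * hdT
  have h2x : 2 * x = s + 1 := by linear_combination hTs + hxy2
  have h2y : 2 * y = s - 1 := by linear_combination hTs - hxy2
  have hx1 : x = (s + 1) / 2 := by rw [eq_div_iff h2]; linear_combination h2x
  have hy1 : y = (s - 1) / 2 := by rw [eq_div_iff h2]; linear_combination h2y
  have e1 : 4 * p ^ 2 = s ^ 2 + 3 := by
    linear_combination 4 * hdT + 2 * y * h2x + (s + 1) * h2y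
  refine ⟨C₂ * C₁, s, p, a, b, ?_⟩
  have hcomp : (MulAut.conj (C₂ * C₁)).toMonoidHom.comp ρ = τ := by
    ext1 g
    rw [hτ', hσ']
    show C₂ * C₁ * ρ g * (C₂ * C₁)⁻¹ = _
    group
  rw [hcomp]
  refine ⟨hs0, e1, ?_, ?_, ?_, ?_, ?_⟩
  · linear_combination (-(a * b)) * e1 + 2 * p * H2 - H1
  · linear_combination (-(a ^ 2 + b ^ 2)) * e1 + 2 * p * H1 - 3 * H2
  · rw [hτB]
    rfl
  · apply Matrix.ext
    intro i j
    fin_cases i <;> fin_cases j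
    · exact hp.symm
    · show (τ tt).val 0 1 = (s + 1) / 2
      rw [← hx, hx1]
    · show (τ tt).val 1 0 = (s - 1) / 2
      rw [← hy, hy1]
    · show (τ tt).val 1 1 = p
      rw [← hTd, hp]
  · apply Matrix.ext
    intro i j
    fin_cases i <;> fin_cases j
    · exact w0
    · show (τ uu⁻¹).val 0 1 = b * ((s + 1) / 2)
      rw [v1, hx1]
    · show (τ uu⁻¹).val 1 0 = b * ((s - 1) / 2)
      rw [v2, hy1]
    · exact v3

end Pool.Agent.F8.PIC7
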