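import Pool.Agent.Lib.MP_305fdd_al.F8.PIC7.StmT

/-!
# MP_305fdd_al, `PSL₂(O₇)`: piece `pf`, functoriality of property P
-/

set_option autoImplicit false

namespace Pool.Agent.F8.PIC7

open Pool.Agent.MP_305fdd_al Pool.Agent.Lib.MP_305fdd_al Pool.Agent.F2X Pool.Agent.F8
  Pool.Agent.F8.HN Pool.Agent.F8.AB Pool.Agent.F8.D7

theorem p_pf (hpf : PIC.S_pf) : S_pf := by
  obtain ⟨h1, -, h3⟩ := hpf
  refine ⟨fun L _ P Q K K' _ _ f ρ h => ⟨h1 L P K K' f ρ h.1, h1 L Q K K' f ρ h.2⟩, ?_,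
    fun L _ P Q K _ C ρ h => ⟨h3 L P K C ρ h.1, h3 L Q K C ρ h.2⟩⟩
  intro L _ P Q K K' _ _ f N h
  obtain ⟨ρ, hρ, hne⟩ := h
  refine ⟨fun i => (SLm f).comp (ρ i), fun i => ⟨h1 L P K K' f _ (hρ i).1,
    h1 L Q K K' f _ (hρ i).2⟩, fun i j hij => ?_⟩
  obtain ⟨g, hg⟩ := hne i j hij
  refine ⟨g, fun h4 => hg ?_⟩
  apply f.injective
  rw [← tr_map, ← tr_map]
  exact h4

end Pool.Agent.F8.PIC7
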