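import Pool.Agent.Lib.MP_305fdd_al.F8.PIC7.StmT

/-!
# MP_305fdd_al, `PSL₂(O₇)` is profinitely rigid: piece PSL, from `SL₂` to `PSL₂`
-/

set_option autoImplicit false

namespace Pool.Agent.F8.PIC7

open Pool.Agent.MP_305fdd_al Pool.Agent.Lib.MP_305fdd_al Pool.Agent.F2X Pool.Agent.F8
  Pool.Agent.F8.HN Pool.Agent.F8.AB Pool.Agent.F8.D7
open scoped QuadraticAlgebra

noncomputable section

/-- `SL₂(O₇)` is finitely generated -/
theorem psl_fg : Group.FG GG := by
  rw [Group.fg_iff]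
  refine ⟨{mU 1, mU (dl ℤ), mB O7}, ?_, Set.toFinite _⟩
  rw [eq_top_iff]
  intro g _
  exact PG.SL_sub _ (Subgroup.subset_closure (by simp)) (Subgroup.subset_closure (by simp))
    (Subgroup.subset_closure (by simp)) g

/-- natural bijections give the same finite quotients -/
theorem psl_same {G H : Type} [Group G] [Group H] (Φ : NatBij G H) :
    SameFiniteQuotients G H := by
  intro Q _ _
  constructor
  · rintro ⟨φ, hφ⟩
    refine ⟨Φ.toFun Q φ, ?_⟩
    rw [← MonoidHom.range_eq_top, Φ.range_eq, MonoidHom.range_eq_top]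
    exact hφ
  · rintro ⟨φ, hφ⟩
    refine ⟨Φ.symm.toFun Q φ, ?_⟩
    rw [← MonoidHom.range_eq_top, Φ.symm.range_eq, MonoidHom.range_eq_top]
    exact hφ

/-- `O₇` has no zero divisors -/
theorem psl_zd {a b : O7} (h : a * b = 0) : a = 0 ∨ b = 0 := by
  have h3 : PG.nm a * PG.nm b = 0 := by rw [← PG.nm_mul, h, PG.nm_zero]
  rcases mul_eq_zero.1 h3 with h4 | h4
  · exact Or.inl (PG.nm_eq_zero h4)
  · exact Or.inr (PG.nm_eq_zero h4)

/-- the only involution of `SL₂(O₇)` is `-1` -/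
theorem psl_inv {x : GG} (h : x * x = 1) (h1 : x ≠ 1) : x = -1 := by
  have e00 := congrArg (fun g : GG => g.val 0 0) h
  have e01 := congrArg (fun g : GG => g.val 0 1) h
  have e10 := congrArg (fun g : GG => g.val 1 0) h
  have e11 := congrArg (fun g : GG => g.val 1 1) h
  simp only [G.SL_mul, G.one00, G.one01, G.one10, G.one11] at e00 e01 e10 e11
  have hd := G.SL_det x
  have h2 : x.val 0 0 * (x.val 0 0 + x.val 1 1) = 2 := by linear_combination e00 + hd
  have hne : x.val 0 0 + x.val 1 1 ≠ 0 := by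
    intro h0
    rw [h0, mul_zero] at h2
    have := congrArg QuadraticAlgebra.re h2
    exact absurd this (by decide)
  have hb : x.val 0 1 = 0 := by
    rcases psl_zd (a := x.val 0 1) (b := x.val 0 0 + x.val 1 1)
      (by linear_combination e01) with h3 | h3
    · exact h3
    · exact absurd h3 hne
  have hc : x.val 1 0 = 0 := by
    rcases psl_zd (a := x.val 1 0) (b := x.val 0 0 + x.val 1 1)
      (by linear_combination e10) with h3 | h3
    · exact h3
    · exact absurd h3 hne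
  rw [hb] at e00 hd
  have h4 : (x.val 0 0 - 1) * (x.val 0 0 + 1) = 0 := by linear_combination e00
  rcases psl_zd h4 with h5 | h5
  · exfalso
    apply h1
    have ha : x.val 0 0 = 1 := by linear_combination h5
    apply G.SL_ext
    · rw [G.one00, ha]
    · rw [G.one01, hb]
    · rw [G.one10, hc]
    · rw [G.one11]
      rw [ha] at hd
      linear_combination hd
  · have ha : x.val 0 0 = -1 := by linear_combination h5
    apply G.SL_ext
    · rw [G.SL_neg, G.one00, ha]
    · rw [G.SL_neg, G.one01, hb, neg_zero]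
    · rw [G.SL_neg, G.one10, hc, neg_zero]
    · rw [G.SL_neg, G.one11]
      rw [ha] at hd
      linear_combination -hd

/-- the homomorphism `PSL₂(O₇) → PSL₂(7)` -/
def psl_q : (SL2 O7 ⧸ pm O7) →* (SL2 (ZMod 7) ⧸ pm (ZMod 7)) :=
  QuotientGroup.lift (pm O7) ((pj (ZMod 7)).comp r7p) (by
    rintro g (rfl | rfl)
    · exact map_one _
    · show pj (ZMod 7) (r7p (-1 : GG)) = 1
      have h : r7p (-1 : GG) = -1 := by
        have := PG.SLm_neg (ev7 (Int.castRingHom (ZMod 7)) 3 (by decide)) (1 : GG)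
        rw [map_one] at this
        exact this
      rw [h, pj_neg, map_one])

theorem psl_q_pj (g : GG) : psl_q (pj O7 g) = pj (ZMod 7) (r7p g) := rfl

theorem psl_r_neg (g : GG) : r7p (-g) = -r7p g :=
  PG.SLm_neg (ev7 (Int.castRingHom (ZMod 7)) 3 (by decide)) g

theorem psl_ne : (-1 : SL2 (ZMod 7)) ≠ 1 := by
  intro h
  have h1 := congrArg (fun g : SL2 (ZMod 7) => g.val 0 0) h
  simp only [G.SL_neg, G.one00] at h1
  exact absurd h1 (by decide)

/-- the fibre product -/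
def psl_N {L : Type} [Group L] (q : L →* SL2 (ZMod 7) ⧸ pm (ZMod 7)) :
    Subgroup (L × SL2 (ZMod 7)) :=
  ((MonoidHom.fst (SL2 (ZMod 7) ⧸ pm (ZMod 7)) (SL2 (ZMod 7) ⧸ pm (ZMod 7))).eqLocus
    (MonoidHom.snd _ _)).comap
    ((q.comp (MonoidHom.fst L (SL2 (ZMod 7)))).prod
      ((pj (ZMod 7)).comp (MonoidHom.snd L (SL2 (ZMod 7)))))

theorem psl_mem {L : Type} [Group L] (q : L →* SL2 (ZMod 7) ⧸ pm (ZMod 7))
    (x : L × SL2 (ZMod 7)) : x ∈ psl_N q ↔ q x.1 = pj (ZMod 7) x.2 := Iff.rfl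

/-- `SL₂(O₇)` is the fibre product -/
def psl_iota : GG →* psl_N psl_q :=
  ((pj O7).prod r7p).codRestrict _ fun _ => rfl

theorem psl_iota_bij : Function.Bijective psl_iota := by
  constructor
  · rw [injective_iff_map_eq_one]
    intro g hg
    have h0 : ((psl_iota g : psl_N psl_q) : (SL2 O7 ⧸ pm O7) × SL2 (ZMod 7)) = 1 := by
      rw [hg]; rfl
    have h1 : pj O7 g = 1 := congrArg Prod.fst h0
    have h2 : r7p g = 1 := congrArg Prod.snd h0
    rcases pj_eq_one h1 with h3 | h3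
    · exact h3
    · exfalso
      rw [h3, psl_r_neg, map_one] at h2
      exact psl_ne h2
  · rintro ⟨⟨y, b⟩, hy⟩
    obtain ⟨g, rfl⟩ := QuotientGroup.mk'_surjective (pm O7) y
    have h1 : pj (ZMod 7) (r7p g) = pj (ZMod 7) b := hy
    rcases pj_eq h1 with h2 | h2
    · refine ⟨g, Subtype.ext (Prod.ext rfl h2)⟩
    · refine ⟨-g, Subtype.ext (Prod.ext (pj_neg g) ?_)⟩
      show r7p (-g) = b
      rw [psl_r_neg, h2, neg_neg]

/-- the central involution of the fibre product -/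
def psl_k {L : Type} [Group L] (q : L →* SL2 (ZMod 7) ⧸ pm (ZMod 7)) : psl_N q :=
  ⟨(1, -1), by
    rw [psl_mem]
    show q 1 = pj (ZMod 7) (-1)
    rw [map_one, pj_neg, map_one]⟩

/-- the projection of the fibre product -/
def psl_pr {L : Type} [Group L] (q : L →* SL2 (ZMod 7) ⧸ pm (ZMod 7)) : psl_N q →* L :=
  (MonoidHom.fst L (SL2 (ZMod 7))).comp (psl_N q).subtype

theorem psl_pr_sur {L : Type} [Group L] (q : L →* SL2 (ZMod 7) ⧸ pm (ZMod 7)) :
    Function.Surjective (psl_pr q) := by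
  intro l
  obtain ⟨b, hb⟩ := QuotientGroup.mk'_surjective (pm (ZMod 7)) (q l)
  exact ⟨⟨(l, b), hb.symm⟩, rfl⟩

theorem psl_pr_ker {L : Type} [Group L] (q : L →* SL2 (ZMod 7) ⧸ pm (ZMod 7)) (x : psl_N q) :
    psl_pr q x = 1 ↔ x = 1 ∨ x = psl_k q := by
  constructor
  · intro h
    obtain ⟨⟨l, b⟩, hx⟩ := x
    have hl : l = 1 := h
    subst hl
    have h1 : q 1 = pj (ZMod 7) b := hx
    rw [map_one] at h1
    rcases pj_eq_one h1.symm with h2 | h2
    · left; subst h2; rfl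
    · right; subst h2; rfl
  · rintro (rfl | rfl)
    · exact map_one _
    · rfl

theorem psl_k_ne {L : Type} [Group L] (q : L →* SL2 (ZMod 7) ⧸ pm (ZMod 7)) : psl_k q ≠ 1 := by
  intro h
  have h1 : (-1 : SL2 (ZMod 7)) = 1 := congrArg (fun x : psl_N q => x.1.2) h
  exact psl_ne h1

theorem psl_k_sq {L : Type} [Group L] (q : L →* SL2 (ZMod 7) ⧸ pm (ZMod 7)) :
    psl_k q * psl_k q = 1 := by
  apply Subtype.ext
  show ((1 : L) * 1, (-1 : SL2 (ZMod 7)) * -1) = (1, 1)
  rw [one_mul, neg_mul_neg, one_mul]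

/-- [PIC7 psl] from `SL₂` to `PSL₂` -/
theorem p_psl (hprd : PIC.S_prd) : S_psl := by
  intro hR Λ _ h
  obtain ⟨hΛ, hrf, hs⟩ := h
  have hfg : Group.FG GG := psl_fg
  have hP : Group.FG (SL2 O7 ⧸ pm O7) :=
    Group.fg_of_surjective (f := pj O7) (QuotientGroup.mk'_surjective _)
  obtain ⟨Φ⟩ := exists_natBij hs.symm
  obtain ⟨Ψ, hΨ⟩ := hprd (SL2 O7 ⧸ pm O7) Λ (SL2 (ZMod 7)) Φ
  let q' : Λ →* SL2 (ZMod 7) ⧸ pm (ZMod 7) := Φ.toFun _ psl_q
  have h1 : Ψ.toFun _ ((psl_q.comp (MonoidHom.fst _ (SL2 (ZMod 7)))).prod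
      ((pj (ZMod 7)).comp (MonoidHom.snd (SL2 O7 ⧸ pm O7) (SL2 (ZMod 7))))) =
      (q'.comp (MonoidHom.fst Λ (SL2 (ZMod 7)))).prod
      ((pj (ZMod 7)).comp (MonoidHom.snd Λ (SL2 (ZMod 7)))) := by
    rw [pair_prod, (hΨ _).1, (hΨ _).2]
  obtain ⟨Ξ, -⟩ := natBij_comap Ψ h1
    ((MonoidHom.fst (SL2 (ZMod 7) ⧸ pm (ZMod 7)) (SL2 (ZMod 7) ⧸ pm (ZMod 7))).eqLocus
      (MonoidHom.snd _ _))
  have Ξ' : NatBij (psl_N psl_q) (psl_N q') := Ξ
  let e : GG ≃* psl_N psl_q := MulEquiv.ofBijective psl_iota psl_iota_bij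
  have hsame : SameFiniteQuotients (psl_N q') GG := (psl_same (natBij_equiv e Ξ')).symm
  have hBfg : Group.FG (SL2 (ZMod 7)) := inferInstance
  have hprodfg : Group.FG (Λ × SL2 (ZMod 7)) := inferInstance
  have hfi : (psl_N q').FiniteIndex := by
    have hle : ((q'.comp (MonoidHom.fst Λ (SL2 (ZMod 7)))).prod
      ((pj (ZMod 7)).comp (MonoidHom.snd Λ (SL2 (ZMod 7))))).ker ≤ psl_N q' := by
      intro x hx
      rw [MonoidHom.mem_ker] at hx
      rw [psl_mem]
      have h2 : q' x.1 = 1 := congrArg Prod.fst hx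
      have h3 : pj (ZMod 7) x.2 = 1 := congrArg Prod.snd hx
      rw [h2, h3]
    have h4 : ((q'.comp (MonoidHom.fst Λ (SL2 (ZMod 7)))).prod
      ((pj (ZMod 7)).comp (MonoidHom.snd Λ (SL2 (ZMod 7))))).ker.FiniteIndex :=
      Subgroup.finiteIndex_ker _
    exact Subgroup.finiteIndex_of_le hle
  have hNfg : Group.FG (psl_N q') := Subgroup.fg_of_index_ne_zero _
  have hNrf : Group.ResiduallyFinite (psl_N q') := inferInstance
  obtain ⟨f⟩ := hR (psl_N q') ⟨hNfg, hNrf, hsame⟩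
  have hfk : f (psl_k q') = -1 := by
    apply psl_inv
    · rw [← map_mul, psl_k_sq, map_one]
    · intro h2
      exact psl_k_ne q' (f.injective (by rw [h2, map_one]))
  let g : psl_N q' →* SL2 O7 ⧸ pm O7 := (pj O7).comp f.toMonoidHom
  have hg : Function.Surjective g :=
    (QuotientGroup.mk'_surjective (pm O7)).comp f.surjective
  have hker : (psl_pr q').ker = g.ker := by
    ext x
    rw [MonoidHom.mem_ker, MonoidHom.mem_ker, psl_pr_ker]
    constructor
    · rintro (rfl | rfl)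
      · exact map_one _
      · show pj O7 (f (psl_k q')) = 1
        rw [hfk, pj_neg, map_one]
    · intro hx
      have hx' : pj O7 (f x) = 1 := hx
      rcases pj_eq_one hx' with h2 | h2
      · left
        exact f.injective (by rw [h2, map_one])
      · right
        exact f.injective (by rw [h2, hfk])
  exact ⟨(QuotientGroup.quotientKerEquivOfSurjective (psl_pr q') (psl_pr_sur q')).symm.trans
    ((QuotientGroup.quotientMulEquivOfEq hker).trans
      (QuotientGroup.quotientKerEquivOfSurjective g hg))⟩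

end

end Pool.Agent.F8.PIC7
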