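import Pool.Agent.Lib.MP_305fdd_al.F8.PIC7.StmT
import Pool.Agent.Lib.MP_305fdd_al.F8.PIC.P_sp

/-!
# MP_305fdd_al, `PSL₂(O₇)`: piece sp
-/

set_option autoImplicit false

namespace Pool.Agent.F8.PIC7

open Pool.Agent.MP_305fdd_al Pool.Agent.Lib.MP_305fdd_al Pool.Agent.F2X Pool.Agent.F8
  Pool.Agent.F8.HN Pool.Agent.F8.AB Pool.Agent.F8.D7

/-- the specialisation of property P for one subgroup: two nonzero elements must stay nonzero -/
theorem sp_one (hwm : S_wm) {Λ : Type} [Group Λ] (P : Subgroup Λ) {K : Type} [Field K]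
    (ρ : Λ →* SL2 K) (h : PIC.Pt P ρ) :
    ∃ (Θ : P →* Q2 K) (x y : K), x ≠ 0 ∧ y ≠ 0 ∧
      ∀ (k : Type) [Field k] (R : Subring K) (π : R →+* k) (ρ' : Λ →* SL2 R) (Θ' : P →* Q2 R),
        (SLm R.subtype).comp ρ' = ρ → (Q2.map R.subtype).comp Θ' = Θ →
        (∀ r : R, (r : K) = x → π r ≠ 0) → (∀ r : R, (r : K) = y → π r ≠ 0) →
        PIC.Pt P ((SLm π).comp ρ') := by
  obtain ⟨⟨a, b, hab⟩, Θ, hm, ht, c, d, hcd⟩ := h
  have hcd' : ∃ s, Q2.W (Θ c) (Θ d) s ≠ 0 := by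
    by_contra hc
    push Not at hc
    exact hcd (funext hc)
  obtain ⟨s, hs⟩ := hcd'
  refine ⟨Θ, tr ((ρ.comp P.subtype) (a * b * a⁻¹ * b⁻¹)) - 2, Q2.W (Θ c) (Θ d) s,
    fun h3 => hab (sub_eq_zero.1 h3), hs, ?_⟩
  intro k _ R π ρ' Θ' hρ' hΘ' hx hy
  constructor
  · refine ⟨a, b, fun h0 => ?_⟩
    have e1 := PIC.sp_tr ρ ρ' hρ' (P.subtype (a * b * a⁻¹ * b⁻¹))
    refine hx (tr (ρ' (P.subtype (a * b * a⁻¹ * b⁻¹))) - 2) ?_ ?_
    · have e2 : (((tr (ρ' (P.subtype (a * b * a⁻¹ * b⁻¹))) : R) : K)) - 2 =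
          tr (ρ (P.subtype (a * b * a⁻¹ * b⁻¹))) - 2 := by rw [e1]
      exact e2
    · have h4 : tr (SLm π (ρ' (P.subtype (a * b * a⁻¹ * b⁻¹)))) = 2 := h0
      rw [map_sub, ← tr_map, h4, map_ofNat, sub_self]
  · refine ⟨(Q2.map π).comp Θ', ?_, ?_, c, d, fun h0 => ?_⟩
    · ext1 x
      show SLm π (Θ' x).m = SLm π (ρ' (P.subtype x))
      have h3 : (Θ' x).m = ρ' (P.subtype x) := by
        apply PIC.sp_inj R
        have h4 : (Q2.map R.subtype (Θ' x)).m = (Θ x).m :=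
          congrArg Q2.m (DFunLike.congr_fun hΘ' x)
        have h5 : SLm R.subtype (ρ' (P.subtype x)) = ρ (P.subtype x) :=
          DFunLike.congr_fun hρ' _
        have h6 : (Θ x).m = ρ (P.subtype x) := DFunLike.congr_fun hm x
        rw [h5, ← h6, ← h4]
        rfl
      rw [h3]
    · ext1 x
      have h4 : (Q2.map R.subtype (Θ' x)).t = (Θ x).t :=
        congrArg Q2.t (DFunLike.congr_fun hΘ' x)
      have h5 : (Θ x).t = 1 := DFunLike.congr_fun ht x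
      have h6 : (Θ' x).t = 1 := by
        apply Units.map_injective (f := R.subtype.toMonoidHom) Subtype.val_injective
        rw [map_one, ← h5, ← h4]
        rfl
      show Units.map π.toMonoidHom (Θ' x).t = 1
      rw [h6, map_one]
    · have hc' := congrFun h0 s
      have hc2 : Q2.W (Q2.map π (Θ' c)) (Q2.map π (Θ' d)) s = 0 := hc'
      rw [hwm] at hc2
      have hK : ((Q2.W (Θ' c) (Θ' d) s : R) : K) = Q2.W (Θ c) (Θ d) s := by
        have := hwm R K R.subtype (Θ' c) (Θ' d) s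
        rw [← hΘ']
        exact this.symm
      exact hy _ hK hc2

/-- the specialisation of the data -/
theorem sp_core (hwm : S_wm) (Λ : Type) [Group Λ] (P Q : Subgroup Λ) (K : Type) [Field K]
    (h2 : (2 : K) ≠ 0) (N : ℕ) (hG : GdP P Q K N) :
    ∃ (T : Set (Λ × P × Q →* Q2 K)) (X : Set K), T.Finite ∧ X.Finite ∧
      ∀ (k : Type) [Field k] (R : Subring K) (π : R →+* k), SpR π T X →
      (2 : k) ≠ 0 ∧ GdP P Q k N := by
  obtain ⟨ρ, hP, hd⟩ := hG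
  choose Θ x y hx hy hsp using fun i => sp_one hwm P (ρ i) (hP i).1
  choose Θ₂ x₂ y₂ hx₂ hy₂ hsp₂ using fun i => sp_one hwm Q (ρ i) (hP i).2
  have hd' : ∀ p : Fin N × Fin N, ∃ g, p.1 ≠ p.2 → tr (ρ p.1 g) ≠ tr (ρ p.2 g) := fun p => by
    by_cases hp : p.1 = p.2
    · exact ⟨1, fun h => absurd hp h⟩
    · obtain ⟨g, hg⟩ := hd p.1 p.2 hp
      exact ⟨g, fun _ => hg⟩
  choose g hg using hd'
  refine ⟨Set.range (fun i => (q0 (ρ i)).comp (MonoidHom.fst Λ (P × Q))) ∪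
      (Set.range (fun i => ((Θ i).comp (MonoidHom.fst P Q)).comp (MonoidHom.snd Λ (P × Q))) ∪
        Set.range (fun i => ((Θ₂ i).comp (MonoidHom.snd P Q)).comp (MonoidHom.snd Λ (P × Q)))),
    (({2} ∪ Set.range x) ∪ (Set.range y ∪ Set.range x₂)) ∪
      (Set.range y₂ ∪
        Set.range (fun p : Fin N × Fin N => tr (ρ p.1 (g p)) - tr (ρ p.2 (g p)))), ?_, ?_, ?_⟩
  · exact (Set.finite_range _).union ((Set.finite_range _).union (Set.finite_range _))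
  · exact (((Set.finite_singleton _).union (Set.finite_range _)).union
      ((Set.finite_range _).union (Set.finite_range _))).union
      ((Set.finite_range _).union (Set.finite_range _))
  intro k _ R π hS
  have hρ : ∀ i, ∃ ρ' : Λ →* SL2 R, (SLm R.subtype).comp ρ' = ρ i := by
    intro i
    obtain ⟨Θ', h⟩ := hS.hom _ (Or.inl ⟨i, rfl⟩)
    refine ⟨(Q2.mH.comp Θ').comp (MonoidHom.inl _ _), ?_⟩
    ext1 z
    have h3 := congrArg Q2.m (DFunLike.congr_fun h (MonoidHom.inl Λ (P × Q) z))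
    exact h3
  have hΘ : ∀ i, ∃ Θ' : P →* Q2 R, (Q2.map R.subtype).comp Θ' = Θ i := by
    intro i
    obtain ⟨Θ', h⟩ := hS.hom _ (Or.inr (Or.inl ⟨i, rfl⟩))
    refine ⟨(Θ'.comp (MonoidHom.inr _ _)).comp (MonoidHom.inl _ _), ?_⟩
    ext1 z
    have h3 := DFunLike.congr_fun h (MonoidHom.inr Λ (P × Q) (MonoidHom.inl P Q z))
    exact h3
  have hΘ₂ : ∀ i, ∃ Θ' : Q →* Q2 R, (Q2.map R.subtype).comp Θ' = Θ₂ i := by
    intro i
    obtain ⟨Θ', h⟩ := hS.hom _ (Or.inr (Or.inr ⟨i, rfl⟩))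
    refine ⟨(Θ'.comp (MonoidHom.inr _ _)).comp (MonoidHom.inr _ _), ?_⟩
    ext1 z
    have h3 := DFunLike.congr_fun h (MonoidHom.inr Λ (P × Q) (MonoidHom.inr P Q z))
    exact h3
  choose ρ' hρ' using hρ
  choose Θ' hΘ' using hΘ
  choose Θ₂' hΘ₂' using hΘ₂
  constructor
  · have h1 := PIC.sp_key hS 2 2 rfl (Or.inl (Or.inl (Or.inl rfl))) h2
    rwa [map_ofNat] at h1
  refine ⟨fun i => (SLm π).comp (ρ' i), fun i => ⟨?_, ?_⟩, fun i j hij => ?_⟩
  · exact hsp i k R π (ρ' i) (Θ' i) (hρ' i) (hΘ' i)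
      (fun r hr => PIC.sp_key hS r _ hr (Or.inl (Or.inl (Or.inr ⟨i, rfl⟩))) (hx i))
      (fun r hr => PIC.sp_key hS r _ hr (Or.inl (Or.inr (Or.inl ⟨i, rfl⟩))) (hy i))
  · exact hsp₂ i k R π (ρ' i) (Θ₂' i) (hρ' i) (hΘ₂' i)
      (fun r hr => PIC.sp_key hS r _ hr (Or.inl (Or.inr (Or.inr ⟨i, rfl⟩))) (hx₂ i))
      (fun r hr => PIC.sp_key hS r _ hr (Or.inr (Or.inl ⟨i, rfl⟩)) (hy₂ i))
  · refine ⟨g (i, j), fun h0 => ?_⟩
    have e1 := PIC.sp_tr (ρ i) (ρ' i) (hρ' i) (g (i, j))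
    have e2 := PIC.sp_tr (ρ j) (ρ' j) (hρ' j) (g (i, j))
    refine PIC.sp_key hS (tr (ρ' i (g (i, j))) - tr (ρ' j (g (i, j))))
      (tr (ρ i (g (i, j))) - tr (ρ j (g (i, j)))) ?_
      (Or.inr (Or.inr ⟨(i, j), rfl⟩)) (sub_ne_zero.2 (hg (i, j) hij)) ?_
    · rw [← e1, ← e2]
      rfl
    · have h4 : tr (SLm π (ρ' i (g (i, j)))) = tr (SLm π (ρ' j (g (i, j)))) := h0
      rw [map_sub, ← tr_map, ← tr_map, h4, sub_self]

/-- the piece sp -/
theorem p_sp (hspt : S_spt) (hwm : S_wm) : S_sp := by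
  intro Λ _ _ P Q hPf hQf K _ _ N hG
  obtain ⟨T, X, hT, hX, h⟩ := sp_core hwm Λ P Q K two_ne_zero N hG
  have hP : Group.FG P := by
    have := hPf
    infer_instance
  have hQ : Group.FG Q := by
    have := hQf
    infer_instance
  have hPQ : Group.FG (P × Q) := inferInstance
  have hLP : Group.FG (Λ × P × Q) := inferInstance
  obtain ⟨h1, h2⟩ := hspt K (Λ × P × Q) T X hT hX
  constructor
  · obtain ⟨k, i1, i2, R, π, hS⟩ := h1
    exact ⟨k, i1, i2, h k R π hS⟩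
  · obtain ⟨R, π, hS⟩ := h2 inferInstance
    exact (h (AlgebraicClosure ℚ) R π hS).2

end Pool.Agent.F8.PIC7
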