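import Pool.Agent.Lib.MP_305fdd_al.F8.PIC7.StmT
import Pool.Agent.Lib.MP_305fdd_al.F8.P.wm

set_option autoImplicit false

namespace Pool.Agent.F8.PIC7

open Pool.Agent.MP_305fdd_al Pool.Agent.Lib.MP_305fdd_al Pool.Agent.F2X Pool.Agent.F8
  Pool.Agent.F8.HN Pool.Agent.F8.AB Pool.Agent.F8.D7
open scoped QuadraticAlgebra

private theorem tb2_nm (z : O7) : PG.nm (cj ℤ z) = PG.nm z := by
  rw [cj_apply]
  show (z.re - z.im) ^ 2 - (z.re - z.im) * (-z.im) + 2 * (-z.im) ^ 2 =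
    z.re ^ 2 - z.re * z.im + 2 * z.im ^ 2
  ring

/-- conjugation from `P2` to `P1` -/
private def tb2_c : P2 →* P1 where
  toFun g := ⟨cG g.1, (mem_P2 g.1).1 g.2⟩
  map_one' := Subtype.ext (map_one cG)
  map_mul' a b := Subtype.ext (map_mul cG a.1 b.1)

theorem p_tb2 : S_tab → S_tb2 := by
  rintro ⟨-, Θ, hm, ht, g, h, h1, h2⟩
  refine ⟨(Q2.map (cj ℤ)).comp (Θ.comp tb2_c), ?_, ?_, ⟨cG g.1, ?_⟩, ⟨cG h.1, ?_⟩, ?_⟩
  · apply MonoidHom.ext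
    intro x
    have e : (Θ (tb2_c x)).m = cG x.1 := DFunLike.congr_fun hm (tb2_c x)
    show SLm (cj ℤ) (Θ (tb2_c x)).m = x.1
    rw [e]
    exact cG_cG x.1
  · apply MonoidHom.ext
    intro x
    have e : (Θ (tb2_c x)).t = 1 := DFunLike.congr_fun ht (tb2_c x)
    show Units.map (cj ℤ).toMonoidHom (Θ (tb2_c x)).t = 1
    rw [e, map_one]
  · exact (mem_P1 g.1).1 g.2
  · exact (mem_P1 h.1).1 h.2
  · have e1 : tb2_c ⟨cG g.1, (mem_P1 g.1).1 g.2⟩ = g := Subtype.ext (cG_cG g.1)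
    have e2 : tb2_c ⟨cG h.1, (mem_P1 h.1).1 h.2⟩ = h := Subtype.ext (cG_cG h.1)
    have e : Q2.W (((Q2.map (cj ℤ)).comp (Θ.comp tb2_c)) ⟨cG g.1, (mem_P1 g.1).1 g.2⟩)
        (((Q2.map (cj ℤ)).comp (Θ.comp tb2_c)) ⟨cG h.1, (mem_P1 h.1).1 h.2⟩) 0 =
        cj ℤ (Q2.W (Θ g) (Θ h) 0) := by
      show Q2.W (Q2.map (cj ℤ) (Θ (tb2_c _))) (Q2.map (cj ℤ) (Θ (tb2_c _))) 0 = _
      rw [e1, e2]
      exact pf_wm _ _ (cj ℤ) _ _ 0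
    rw [e, tb2_nm]
    exact ⟨h1, h2⟩

end Pool.Agent.F8.PIC7
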