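import Pool.Agent.Lib.MP_305fdd_al.F8.PIC.Main
import Pool.Agent.Lib.MP_305fdd_al.F8.PIC7.P_psl
import Pool.Agent.Lib.MP_305fdd_al.F8.PIC7.P_tab
import Pool.Agent.Lib.MP_305fdd_al.F8.PIC7.P_nf
import Pool.Agent.Lib.MP_305fdd_al.F8.PIC7.P_std
import Pool.Agent.Lib.MP_305fdd_al.F8.PIC7.P_alg
import Pool.Agent.Lib.MP_305fdd_al.F8.PIC7.P_det
import Pool.Agent.Lib.MP_305fdd_al.F8.PIC7.P_coc
import Pool.Agent.Lib.MP_305fdd_al.F8.PIC7.P_cg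
import Pool.Agent.Lib.MP_305fdd_al.F8.PIC7.P_g3
import Pool.Agent.Lib.MP_305fdd_al.F8.PIC7.P_pf
import Pool.Agent.Lib.MP_305fdd_al.F8.PIC7.P_px
import Pool.Agent.Lib.MP_305fdd_al.F8.PIC7.P_sp
import Pool.Agent.Lib.MP_305fdd_al.F8.PIC7.P_lim
import Pool.Agent.Lib.MP_305fdd_al.F8.PIC7.P_tb2
import Pool.Agent.Lib.MP_305fdd_al.F8.PIC7.P_dat
import Pool.Agent.Lib.MP_305fdd_al.F8.PIC7.P_d4
import Pool.Agent.Lib.MP_305fdd_al.F8.PIC7.P_sq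
import Pool.Agent.Lib.MP_305fdd_al.F8.PIC7.P_d5
import Pool.Agent.Lib.MP_305fdd_al.F8.PIC7.P_d6
import Pool.Agent.Lib.MP_305fdd_al.F8.PIC7.P_out
import Pool.Agent.Lib.MP_305fdd_al.F8.PIC7.P_sig
import Pool.Agent.Lib.MP_305fdd_al.F8.PIC7.P_E
import Pool.Agent.Lib.MP_305fdd_al.F8.PIC7.P_X1
import Pool.Agent.Lib.MP_305fdd_al.F8.PIC7.P_X3
import Pool.Agent.Lib.MP_305fdd_al.F8.PIC7.P_X4
import Pool.Agent.Lib.MP_305fdd_al.F8.PIC7.P_X5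
import Pool.Agent.Lib.MP_305fdd_al.F8.PIC7.P_f6
import Pool.Agent.Lib.MP_305fdd_al.F8.PIC7.P_e1
import Pool.Agent.Lib.MP_305fdd_al.F8.PIC7.P_e2
import Pool.Agent.Lib.MP_305fdd_al.F8.PIC7.P_eta
import Pool.Agent.Lib.MP_305fdd_al.F8.PIC7.P_n5
import Pool.Agent.Lib.MP_305fdd_al.F8.PIC7.P_h6
import Pool.Agent.Lib.MP_305fdd_al.F8.PIC7.P_m5
import Pool.Agent.Lib.MP_305fdd_al.F8.PIC7.P_frm
import Pool.Agent.Lib.MP_305fdd_al.F8.PIC7.P_frg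
import Pool.Agent.Lib.MP_305fdd_al.F8.PIC7.P_afg
import Pool.Agent.Lib.MP_305fdd_al.F8.PIC7.P_i2
import Pool.Agent.Lib.MP_305fdd_al.F8.PIC7.P_i3
import Pool.Agent.Lib.MP_305fdd_al.F8.PIC7.P_i4
import Pool.Agent.Lib.MP_305fdd_al.F8.PIC7.P_fin
import Pool.Agent.Lib.MP_305fdd_al.F8.PIC7.P_fi
import Pool.Agent.Lib.MP_305fdd_al.F8.PIC7.P_con
import Pool.Agent.Lib.MP_305fdd_al.F8.PIC7.P_ok7
import Pool.Agent.Lib.MP_305fdd_al.F8.PIC7.P_pso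
import Pool.Agent.Lib.MP_305fdd_al.F8.PIC7.MainOf

/-!
# MP_305fdd_al, `PSL₂` of the ring of integers of `ℚ(√-7)`: assembly of the pieces
-/

set_option autoImplicit false

namespace Pool.Agent.F8.PIC7

open Pool.Agent.MP_305fdd_al Pool.Agent.Lib.MP_305fdd_al Pool.Agent.F2X Pool.Agent.F8
  Pool.Agent.F8.HN Pool.Agent.F8.AB Pool.Agent.F8.D7
open scoped QuadraticAlgebra

theorem m_psl : S_psl := p_psl PIC.m_prd
theorem m_tab : S_tab := p_tab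
theorem m_nf : S_nf := p_nf
theorem m_std : S_std := p_std
theorem m_alg : S_alg := p_alg
theorem m_det : S_det := p_det
theorem m_coc : S_coc := p_coc m_tab m_alg m_det
theorem m_cg : S_cg := p_cg
theorem m_pf : S_pf := p_pf PIC.m_pf
theorem m_g3 : S_g3 := p_g3 m_nf m_std m_coc m_cg m_pf
theorem m_px : S_px := p_px pf_mt pf_mp
theorem m_sp : S_sp := p_sp all_spt pf_wm
theorem m_lim : S_lim := p_lim
theorem m_tb2 : S_tb2 := p_tb2 m_tab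
theorem m_dat : S_dat := p_dat m_tab m_tb2 m_lim
theorem m_d4 : S_d4 := p_d4 m_pf pf_gal pf_int
theorem m_sq : S_sq1 := p_sq
theorem m_d5 : S_d5 := p_d5
theorem m_d6 : S_d6 := p_d6 m_pf
theorem m_out : S_out := p_out m_g3 m_px m_sp m_dat m_d4 m_sq m_d5 m_d6
theorem m_sig : S_sig := p_sig
theorem m_E : S_E := p_E m_sig
theorem m_X1 : S_X1 := p_X1 PIC.m_gr m_sig
theorem m_X3 : S_X3 := p_X3
theorem m_X4 : S_X4 := p_X4
theorem m_X5 : S_X5 := p_X5 m_E m_X1 m_X3 m_X4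
theorem m_f6 : S_f6 := p_f6
theorem m_e1 : S_e1 := p_e1 m_f6
theorem m_e2 : S_e2 := p_e2 m_e1
theorem m_eta : S_eta := p_eta m_e1 m_e2
theorem m_n5 : S_n5 := p_n5 m_f6
theorem m_h6 : S_h6 := p_h6
theorem m_m5 : S_m5 := p_m5 m_n5
theorem m_frm : S_frm := p_frm
theorem m_frg : S_frg := p_frg m_frm
theorem m_afg : S_afg := p_afg m_frg
theorem m_i2 : S_i2 := p_i2 PIC.m_i1
theorem m_i3 : S_i3 := p_i3
theorem m_i4 : S_i4 := p_i4
theorem m_inf : S_inf := inf_of PIC.m_i0 m_i2 m_i3 m_i4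
theorem m_fin : S_fin := p_fin m_afg m_inf
theorem m_fi : S_fi := p_fi m_eta m_h6 m_m5 m_fin
theorem m_con : S_con := p_con m_eta PIC.m_hl1 PIC.m_hl2

/-- the isomorphism compatible with a matching of the finite quotients -/
theorem m_rho : S_rho := rho_of m_out m_X5 m_fi m_con

/-- `SL₂(O7)` is profinitely rigid -/
theorem SL_rigid : ProfinitelyRigid GG := rigid_SL m_rho

/-- `SL₂(O7) / ±1` is profinitely rigid -/
theorem PSL_rigid : ProfinitelyRigid (SL2 O7 ⧸ pm O7) := m_psl SL_rigid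

/-- `PSL₂` of the ring of integers of `ℚ(√-7)` is profinitely rigid -/
theorem m_main7 : S_main7 := main_of m_rho m_psl p_ok7 p_pso

end Pool.Agent.F8.PIC7
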