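import Pool.Agent.Lib.MP_305fdd_al.F8.PIC.Stm
import Pool.Agent.Lib.MP_305fdd_al.F8.D7.Defs
import Pool.Agent.Lib.MP_305fdd_al.F8.D7.G.End

/-!
# MP_305fdd_al, `PSL₂(O₇)` is profinitely rigid (`O₇` the ring of integers of `ℚ(√-7)`): definitions

`GG = SL₂(O7)`, `O7 = ℤ[δ]`, `δ² = -δ - 2`; `tt = mU 1`, `uu = mU δ`, `mB O7` are generators. `rd m` is the reduction modulo `m`,
`r4` the reduction modulo `δ²` (`O7 / δ² = ℤ / 4`, `δ ↦ 2`), `r4b` the reduction modulo the square of the conjugate of `δ` (`δ ↦ 1`),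
`P1 = Γ₁(δ²)`, `P2` its Galois conjugate. `P1` is generated by `tt`, `uu`, `yy = [[1, 0], [δ², 1]]`.

`G6` is the subgroup of the matrices `[[a, b], [δ c', d]]` with `sgn g = (-1) ^ (b + c')`, where `sgn` is the sign of `g` modulo the
conjugate of `δ` (in `SL₂(F₂) = S₃`); `G6 / ±1` is isomorphic to the subgroup of index two of `G7 = F ⋊ ℤ` of the elements `(w, n)` with `w` of
even length (in `ga`, `gb`).
-/

set_option autoImplicit false

namespace Pool.Agent.F8.PIC7

open Pool.Agent.MP_305fdd_al Pool.Agent.Lib.MP_305fdd_al Pool.Agent.F2X Pool.Agent.F8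
  Pool.Agent.F8.HN Pool.Agent.F8.AB Pool.Agent.F8.D7
open scoped QuadraticAlgebra

/-- `SL₂(O7)` -/
abbrev GG : Type := SL2 O7

/-- `t = [[1, 1], [0, 1]]` -/
def tt : GG := mU 1
/-- `u = [[1, δ], [0, 1]]` -/
def uu : GG := mU (D7.dl ℤ)
/-- `y = [[1, 0], [δ², 1]]` -/
def yy : GG := mx 1 0 ⟨-2, -1⟩ 1 (by decide)

/-- reduction modulo `m` -/
def rd (m : ℕ) : GG →* SL2 (E7 (ZMod m)) := SLm (E7m (Int.castRingHom (ZMod m)))

/-- reduction modulo `δ²` -/
def r4 : GG →* SL2 (ZMod 4) := SLm (ev7 (Int.castRingHom (ZMod 4)) 2 (by decide))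

/-- reduction modulo the square of the conjugate of `δ` -/
def r4b : GG →* SL2 (ZMod 4) := SLm (ev7 (Int.castRingHom (ZMod 4)) 1 (by decide))

/-- reduction modulo the conjugate of `δ` -/
def r2 : GG →* SL2 (ZMod 2) := SLm (ev7 (Int.castRingHom (ZMod 2)) 1 (by decide))

/-- reduction modulo `7`, `δ ↦ 3` -/
def r7p : GG →* SL2 (ZMod 7) := SLm (ev7 (Int.castRingHom (ZMod 7)) 3 (by decide))

/-- the reductions modulo `δ²` and the conjugate of `δ` -/
def r42 : GG →* SL2 (ZMod 4) × SL2 (ZMod 2) := r4.prod r2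

theorem r42_apply (g : GG) : r42 g = (r4 g, r2 g) := rfl

/-- complex conjugation on `R[δ]`, `δ ↦ -1 - δ` -/
def cj (R : Type) [CommRing R] : E7 R →+* E7 R where
  toFun z := ⟨z.re - z.im, -z.im⟩
  map_one' := by
    apply QuadraticAlgebra.ext
    · simp
    · simp
  map_zero' := by
    apply QuadraticAlgebra.ext
    · simp
    · simp
  map_add' x y := by
    apply QuadraticAlgebra.ext
    · simp only [QuadraticAlgebra.im_add, QuadraticAlgebra.re_add]; ring
    · simp only [QuadraticAlgebra.im_add]; ring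
  map_mul' x y := by
    apply QuadraticAlgebra.ext
    · simp only [QuadraticAlgebra.re_mul, QuadraticAlgebra.im_mul]; ring
    · simp only [QuadraticAlgebra.im_mul]; ring

theorem cj_apply {R : Type} [CommRing R] (z : E7 R) : cj R z = ⟨z.re - z.im, -z.im⟩ := rfl

theorem cj_cj {R : Type} [CommRing R] (z : E7 R) : cj R (cj R z) = z := by
  rw [cj_apply, cj_apply]
  apply QuadraticAlgebra.ext
  · show z.re - z.im - -z.im = z.re
    ring
  · exact neg_neg _

/-- `δ ↦ -f + (1 - 2 f) δ`, `f² = f`: the identity for `f = 0`, complex conjugation for `f = 1` -/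
def sge {R : Type} [CommRing R] (f : R) (hf : f * f = f) : E7 R →+* E7 R where
  toFun z := ⟨z.re - f * z.im, (1 - 2 * f) * z.im⟩
  map_one' := by
    apply QuadraticAlgebra.ext
    · simp
    · simp
  map_zero' := by
    apply QuadraticAlgebra.ext
    · simp
    · simp
  map_add' x y := by
    apply QuadraticAlgebra.ext
    · simp only [QuadraticAlgebra.im_add, QuadraticAlgebra.re_add]; ring
    · simp only [QuadraticAlgebra.im_add]; ring
  map_mul' x y := by
    apply QuadraticAlgebra.ext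
    · simp only [QuadraticAlgebra.re_mul, QuadraticAlgebra.im_mul]
      linear_combination (7 * x.im * y.im) * hf
    · simp only [QuadraticAlgebra.im_mul]
      ring

theorem sge_apply {R : Type} [CommRing R] (f : R) (hf : f * f = f) (z : E7 R) :
    sge f hf z = ⟨z.re - f * z.im, (1 - 2 * f) * z.im⟩ := rfl

theorem sge_sge {R : Type} [CommRing R] (f : R) (hf : f * f = f) (z : E7 R) :
    sge f hf (sge f hf z) = z := by
  rw [sge_apply, sge_apply]
  apply QuadraticAlgebra.ext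
  · show z.re - f * z.im - f * ((1 - 2 * f) * z.im) = z.re
    linear_combination (2 * z.im) * hf
  · show (1 - 2 * f) * ((1 - 2 * f) * z.im) = z.im
    linear_combination (4 * z.im) * hf

/-- the Galois conjugation of `GG` -/
def cG : GG →* GG := SLm (cj ℤ)

theorem cG_cG (g : GG) : cG (cG g) = g := by
  apply G.SL_ext <;> exact cj_cj _

/-- `Γ₁(δ²)` -/
def P1 : Subgroup GG := (PIC.UP (ZMod 4)).comap r4

/-- the Galois conjugate of `Γ₁(δ²)` -/
def P2 : Subgroup GG := (PIC.UP (ZMod 4)).comap r4b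

theorem r4_cG (g : GG) : r4 (cG g) = r4b g := by
  have h : ∀ z : O7, ev7 (Int.castRingHom (ZMod 4)) 2 (by decide) (cj ℤ z) =
      ev7 (Int.castRingHom (ZMod 4)) 1 (by decide) z := by
    intro z
    rw [cj_apply, ev7_apply, ev7_apply]
    simp only [map_sub, map_neg, mul_one]
    have h4 : (4 : ZMod 4) = 0 := by decide
    linear_combination (-(Int.castRingHom (ZMod 4)) z.im) * h4
  apply G.SL_ext <;> exact h _

theorem r4b_cG (g : GG) : r4b (cG g) = r4 g := by
  rw [← r4_cG, cG_cG]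

theorem mem_P2 (g : GG) : g ∈ P2 ↔ cG g ∈ P1 := by
  show r4b g ∈ PIC.UP (ZMod 4) ↔ r4 (cG g) ∈ PIC.UP (ZMod 4)
  rw [r4_cG]

theorem mem_P1 (g : GG) : g ∈ P1 ↔ cG g ∈ P2 := by
  show r4 g ∈ PIC.UP (ZMod 4) ↔ r4b (cG g) ∈ PIC.UP (ZMod 4)
  rw [r4b_cG]

/-- the subgroup of `Λ` corresponding to `P1` -/
def L1 {Λ : Type} [Group Λ] (Φ : NatBij GG Λ) : Subgroup Λ :=
  (PIC.UP (ZMod 4)).comap (Φ.toFun _ r4)

/-- the subgroup of `Λ` corresponding to `P2` -/
def L2 {Λ : Type} [Group Λ] (Φ : NatBij GG Λ) : Subgroup Λ :=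
  (PIC.UP (ZMod 4)).comap (Φ.toFun _ r4b)

/-! ### Property P -/

/-- Property P with respect to two subgroups: the representation is irreducible on both subgroups and has a non-trivial
cocycle on both. -/
def Pt2 {L : Type} [Group L] (P Q : Subgroup L) {K : Type} [CommRing K] (ρ : L →* SL2 K) : Prop :=
  PIC.Pt P ρ ∧ PIC.Pt Q ρ

/-- there are `N` representations over `K` with property P and pairwise different characters -/
def GdP {L : Type} [Group L] (P Q : Subgroup L) (K : Type) [CommRing K] (N : ℕ) : Prop :=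
  ∃ ρ : Fin N → (L →* SL2 K), (∀ i, Pt2 P Q (ρ i)) ∧ ∀ i j, i ≠ j → ∃ g, tr (ρ i g) ≠ tr (ρ j g)

/-- The normal form of a representation of `SL₂(O7)`. -/
structure NF {K : Type} [Field K] (ρ : GG →* SL2 K) (s p a b : K) : Prop where
  hs : s ≠ 0
  e1 : 4 * p ^ 2 = s ^ 2 + 3
  e2 : a * b * s ^ 2 = 2 * p
  e3 : (a ^ 2 + b ^ 2) * s ^ 2 = -3
  /-- `[[0, -1], [1, 0]]` -/
  B : (ρ (mB O7)).val = !![0, -1; 1, 0]
  /-- `[[p, (s + 1) / 2], [(s - 1) / 2, p]]` -/
  T : (ρ tt).val = !![p, (s + 1) / 2; (s - 1) / 2, p]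
  /-- the inverse of `uu`: `a + b T` -/
  U : (ρ uu⁻¹).val = !![a + b * p, b * ((s + 1) / 2); b * ((s - 1) / 2), a + b * p]

/-! ### The output of the transfer -/

/-- the data of the `p`-adic representation -/
structure DatP {Λ : Type} [Group Λ] (Φ : NatBij GG Λ) (p : ℕ) [Fact p.Prime]
    (r : Λ →* SL2 (E7 ℤ_[p])) : Prop where
  /-- the reductions -/
  red : ∀ k : ℕ, (SLm (E7m (PadicInt.toZModPow k))).comp r = Φ.toFun _ (rd (p ^ k))
  /-- property P under all homomorphisms to fields -/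
  good : ∀ (K : Type) [Field K] [CharZero K] (j : E7 ℤ_[p] →+* K),
    Pt2 (L1 Φ) (L2 Φ) ((SLm j).comp r)
  /-- the character is not rational -/
  ne : ∃ g, (tr (r g)).im ≠ 0

/-- the output of the transfer -/
structure OutP {Λ : Type} [Group Λ] (Φ : NatBij GG Λ) (T : Λ → O7)
    (s : Λ →* SL2 (AlgebraicClosure ℚ)) (w : AlgebraicClosure ℚ) (hw : w * w + w + 2 = 0) :
    Prop where
  /-- `T` is the character of `s` -/
  char : ∀ g, tr (s g) = ev7 (Int.castRingHom (AlgebraicClosure ℚ)) w hw (T g)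
  /-- `s` is irreducible -/
  irr : Irr s
  /-- the reductions of `T` -/
  red : ∀ (p : ℕ) [Fact p.Prime], ∃ c : Bool, (p = 2 → c = false) ∧ ∀ (k : ℕ) (g : Λ),
    E7m (Int.castRingHom (ZMod (p ^ k))) (if c then cj ℤ (T g) else T g) =
      tr (Φ.toFun _ (rd (p ^ k)) g)

/-! ### The congruence subgroup `G6` -/

/-- the sign of an element of `SL₂(F₂) = S₃`, with values `0`, `2` in `ℤ / 4` -/
def sx (h : SL2 (ZMod 2)) : ZMod 4 :=
  if h.val 0 0 * h.val 0 1 + h.val 1 0 * h.val 1 1 + h.val 0 1 * h.val 1 0 = 0 then 0 else 2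

theorem sx_fin : ∀ a b c d a' b' c' d' : ZMod 2, a * d - b * c = 1 → a' * d' - b' * c' = 1 →
    (if (a * a' + b * c') * (a * b' + b * d') + (c * a' + d * c') * (c * b' + d * d') +
      (a * b' + b * d') * (c * a' + d * c') = 0 then (0 : ZMod 4) else 2) =
    (if a * b + c * d + b * c = 0 then (0 : ZMod 4) else 2) +
      (if a' * b' + c' * d' + b' * c' = 0 then (0 : ZMod 4) else 2) := by
  decide

theorem sx_mul (g h : SL2 (ZMod 2)) : sx (g * h) = sx g + sx h := by
  unfold sx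
  rw [G.SL_mul, G.SL_mul, G.SL_mul, G.SL_mul]
  exact sx_fin _ _ _ _ _ _ _ _ (G.SL_det g) (G.SL_det h)

theorem sx_one : sx 1 = 0 := by decide

theorem sx_two (h : SL2 (ZMod 2)) : 2 * sx h = 0 := by
  unfold sx
  split_ifs
  · decide
  · decide

theorem sx_inv (h : SL2 (ZMod 2)) : sx h⁻¹ = sx h := by
  have h1 := sx_mul h⁻¹ h
  rw [inv_mul_cancel, sx_one] at h1
  linear_combination -h1 - sx_two h

theorem z4_odd : ∀ a d : ZMod 4, 2 * (a * d) = 2 → 2 * a = 2 ∧ 2 * d = 2 := by decide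

theorem z4_even : ∀ c a : ZMod 4, 2 * c = 0 → 2 * a = 2 → c * a = c := by decide

theorem z4_two : ∀ b : ZMod 4, 2 * b = -(2 * b) := by decide

/-- the condition implies that the lower left entry is even and the diagonal entries are odd -/
theorem a6_even (g : SL2 (ZMod 4)) (h : SL2 (ZMod 2)) (e : 2 * g.val 0 1 + g.val 1 0 = sx h) :
    2 * g.val 1 0 = 0 ∧ 2 * g.val 0 0 = 2 ∧ 2 * g.val 1 1 = 2 := by
  have h4 : (4 : ZMod 4) = 0 := by decide
  have h1 : 2 * g.val 1 0 = 0 := by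
    linear_combination 2 * e + sx_two h - g.val 0 1 * h4
  refine ⟨h1, z4_odd _ _ ?_⟩
  linear_combination 2 * G.SL_det g + g.val 0 1 * h1

/-- The pairs `([[a, b], [c, d]], h)`, `c = 2 c'`, with `sgn h = (-1) ^ (b + c')`; a group of order `48`. -/
def A6 : Subgroup (SL2 (ZMod 4) × SL2 (ZMod 2)) where
  carrier := {g | 2 * g.1.val 0 1 + g.1.val 1 0 = sx g.2}
  one_mem' := by
    show 2 * (1 : SL2 (ZMod 4)).val 0 1 + (1 : SL2 (ZMod 4)).val 1 0 = sx 1
    rw [G.one01, G.one10, sx_one]; ring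
  mul_mem' := by
    rintro ⟨g, h⟩ ⟨g', h'⟩ e e'
    replace e : 2 * g.val 0 1 + g.val 1 0 = sx h := e
    replace e' : 2 * g'.val 0 1 + g'.val 1 0 = sx h' := e'
    obtain ⟨a1, a2, a3⟩ := a6_even g h e
    obtain ⟨b1, b2, b3⟩ := a6_even g' h' e'
    show 2 * (g * g').val 0 1 + (g * g').val 1 0 = sx (h * h')
    rw [G.SL_mul, G.SL_mul, sx_mul, ← e, ← e', z4_even _ _ a1 b2, mul_comm (g.val 1 1),
      z4_even _ _ b1 a3]
    linear_combination g'.val 0 1 * a2 + g.val 0 1 * b3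
  inv_mem' := by
    rintro ⟨g, h⟩ e
    replace e : 2 * g.val 0 1 + g.val 1 0 = sx h := e
    obtain ⟨a1, a2, a3⟩ := a6_even g h e
    have hd := G.SL_det g
    have hi : g⁻¹ = mx (g.val 1 1) (-g.val 0 1) (-g.val 1 0) (g.val 0 0)
        (by linear_combination hd) := by
      apply inv_eq_of_mul_eq_one_left
      rw [mx_one]
      apply G.SL_ext
      · rw [G.SL_mul]; simp only [mx_00, mx_01]; linear_combination hd
      · rw [G.SL_mul]; simp only [mx_00, mx_01]; ring
      · rw [G.SL_mul]; simp only [mx_10, mx_11]; ring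
      · rw [G.SL_mul]; simp only [mx_10, mx_11]; linear_combination hd
    show 2 * (g⁻¹).val 0 1 + (g⁻¹).val 1 0 = sx h⁻¹
    rw [sx_inv, ← e, hi, mx_01, mx_10]
    linear_combination -z4_two (g.val 0 1) - a1

theorem mem_A6 (g : SL2 (ZMod 4)) (h : SL2 (ZMod 2)) :
    (g, h) ∈ A6 ↔ 2 * g.val 0 1 + g.val 1 0 = sx h := Iff.rfl

/-- the subgroup `G6` of `SL₂(O7)` -/
def G6 : Subgroup GG := A6.comap r42

/-- the corresponding subgroup of `Λ` -/
def L6 {Λ : Type} [Group Λ] (Φ : NatBij GG Λ) : Subgroup Λ := A6.comap (Φ.toFun _ r42)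

/-! ### The group `G7 = F ⋊ ℤ` and `G6` -/

theorem al7_cc : al7 PIC.cc = PIC.cc := by
  unfold PIC.cc
  rw [map_mul, map_mul, map_mul, map_inv, map_inv, al7_ga, al7_gb]
  group

/-- the representation of `G7` over `Z7 = O7[s]` -/
abbrev rz : G7 →* SL2 Z7 := rho7 (ss ℤ) (ss_eq ℤ)

/-- The properties of the homomorphism `G6 → G7`. -/
structure Eta (η : G6 →* G7) : Prop where
  /-- the kernel is `±1` -/
  ker : ∀ x, η x = 1 ↔ x.val = 1 ∨ x.val = -1
  /-- the image consists of all the `(w, n)` with `w` of even length -/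
  sur : ∀ (w : F) (n : ℤ), Even (vec w 0 + vec w 1) → ∃ x, η x = iA al7 w * tA al7 ^ n
  /-- the length is even -/
  ev : ∀ (x : G6) (w : F) (n : ℤ), η x = iA al7 w * tA al7 ^ n → Even (vec w 0 + vec w 1)
  /-- The exponent of `v` and `n`, modulo `2`, for `η x = (w, n)`. -/
  lab : ∀ (x : G6) (w : F) (n : ℤ), η x = iA al7 w * tA al7 ^ n →
    ((2 * vec w 1 : ℤ) : ZMod 4) = (r4 x.val).val 1 0 ∧
    ((2 * n : ℤ) : ZMod 4) = 2 * (r4 x.val).val 0 1 + (r4 x.val).val 1 0
  /-- the peripheral subgroup -/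
  par : ∀ x : G6, η x ∈ Subgroup.closure {iA al7 PIC.cc, tA al7} → x.val.val 1 0 = 0

/-- what we know about the representation `ρ : Λ → SL₂(O7)` -/
structure Rho {Λ : Type} [Group Λ] (Φ : NatBij GG Λ) (ρ : Λ →* GG) : Prop where
  /-- the congruence kernels correspond to each other -/
  ker : ∀ (m : ℕ) [NeZero m] (l : Λ), rd m (ρ l) = 1 ↔ Φ.toFun _ (rd m) l = 1
  /-- the image is dense for the congruence topology -/
  img : ∀ (m : ℕ) [NeZero m] (g : GG), ∃ l, rd m (ρ l) = rd m g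
  /-- modulo `2 δ` -/
  four : ∀ l, r42 (ρ l) = Φ.toFun _ r42 l

/-- the image in `G7` of the elements of `ρ(Λ)` in `G6` -/
def H6 {Λ : Type} [Group Λ] (ρ : Λ →* GG) (η : G6 →* G7) : Subgroup G7 :=
  (ρ.range.comap G6.subtype).map η

/-- the sign `(-1) ^ n` -/
def sn (x : G7) : (ZMod 5)ˣ := (-1) ^ Multiplicative.toAdd (nA al7 x)

/-- the properties of the subgroup `H6` which imply that its index is finite -/
structure Hyp6 (H : Subgroup G7) : Prop where
  /-- finitely generated -/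
  fg : H.FG
  /-- the length is even -/
  ev : ∀ (w : F) (n : ℤ), iA al7 w * tA al7 ^ n ∈ H → Even (vec w 0 + vec w 1)
  /-- there is an element with odd `n` -/
  odd : ∃ (w : F) (n : ℤ), iA al7 w * tA al7 ^ n ∈ H ∧ Odd n
  /-- there is an element with even `n` and odd exponent of `v` -/
  lab : ∃ (w : F) (n : ℤ), iA al7 w * tA al7 ^ n ∈ H ∧ Even n ∧ Odd (vec w 1)
  /-- no cocycle modulo `5` -/
  no5 : ∀ f : H → ZMod 5, (∀ x y : H, f (x * y) = f x + (sn x).val * f y) →
    ∀ x : H, nA al7 x = 1 → f x = 0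

end Pool.Agent.F8.PIC7
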