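import Pool.Agent.Lib.MP_305fdd_al.F8.PIC7.StmT

/-!
# MP_305fdd_al, PIC7: the representation with all properties
-/

set_option autoImplicit false

namespace Pool.Agent.F8.PIC7

open Pool.Agent.MP_305fdd_al Pool.Agent.Lib.MP_305fdd_al Pool.Agent.F2X Pool.Agent.F8
  Pool.Agent.F8.HN Pool.Agent.F8.AB Pool.Agent.F8.D7
open scoped QuadraticAlgebra

noncomputable section

/-- evaluation after reduction modulo four, `δ ↦ 2` -/
private def X5_e4 : E7 (ZMod 4) →+* ZMod 4 := ev7 (RingHom.id (ZMod 4)) 2 (by decide)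

/-- evaluation after reduction modulo four, `δ ↦ 1`, with values in `ZMod 2` -/
private def X5_e2 : E7 (ZMod 4) →+* ZMod 2 :=
  ev7 (ZMod.castHom (show 2 ∣ 4 by norm_num) (ZMod 2)) 1 (by decide)

private theorem X5_e4_comp (z : O7) : X5_e4 (E7m (Int.castRingHom (ZMod 4)) z) =
    ev7 (Int.castRingHom (ZMod 4)) 2 (by decide) z := rfl

private theorem X5_e2_comp (z : O7) : X5_e2 (E7m (Int.castRingHom (ZMod 4)) z) =
    ev7 (Int.castRingHom (ZMod 2)) 1 (by decide) z := by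
  have h : ∀ x : ℤ, ZMod.castHom (show 2 ∣ 4 by norm_num) (ZMod 2) (Int.castRingHom (ZMod 4) x) =
      Int.castRingHom (ZMod 2) x := by
    intro x
    simp
  show ZMod.castHom (show 2 ∣ 4 by norm_num) (ZMod 2) (Int.castRingHom (ZMod 4) z.re) +
    ZMod.castHom (show 2 ∣ 4 by norm_num) (ZMod 2) (Int.castRingHom (ZMod 4) z.im) * 1 =
    Int.castRingHom (ZMod 2) z.re + Int.castRingHom (ZMod 2) z.im * 1
  rw [h, h]

private theorem X5_r4 : r4 = (SLm X5_e4).comp (rd 4) := by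
  ext1 g
  apply G.SL_ext <;> exact (X5_e4_comp _).symm

private theorem X5_r2 : r2 = (SLm X5_e2).comp (rd 4) := by
  ext1 g
  apply G.SL_ext <;> exact (X5_e2_comp _).symm

private theorem X5_unit4 : ∀ x : ZMod 4, ZMod.castHom (show 2 ∣ 4 by norm_num) (ZMod 2) x = 1 →
    IsUnit x := by
  intro x hx
  have h : ∀ x : ZMod 4, ZMod.castHom (show 2 ∣ 4 by norm_num) (ZMod 2) x = 1 → x * x = 1 := by
    decide
  exact IsUnit.of_mul_eq_one x (h x hx)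

private theorem X5_unit2 : ∀ x : ZMod 2, RingHom.id (ZMod 2) x = 1 → IsUnit x := by
  intro x hx
  have hx' : x = 1 := hx
  rw [hx']
  exact isUnit_one

/-- [PIC7 X5] the representation with all properties -/
theorem p_X5 (hE : S_E) (hX1 : S_X1) (hX3 : S_X3) (hX4 : S_X4) : S_X5 := by
  intro Λ _ Φ T s w hw hO
  obtain ⟨ρ, hρ⟩ := hE Λ Φ T s w hw hO
  have h2 : ∀ l, tr (rd 4 (ρ l)) = tr (Φ.toFun _ (rd 4) l) := by
    obtain ⟨c, hc, h⟩ := hO.red 2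
    have h' := h 2
    rw [hc rfl] at h'
    intro l
    have h3 : E7m (Int.castRingHom (ZMod 4)) (T l) = tr (Φ.toFun _ (rd 4) l) := h' l
    rw [← h3, ← hρ]
    exact tr_map _ _
  have n4 : Φ.toFun _ r4 = (SLm X5_e4).comp (Φ.toFun _ (rd 4)) := by
    rw [X5_r4, Φ.nat]
  have n2 : Φ.toFun _ r2 = (SLm X5_e2).comp (Φ.toFun _ (rd 4)) := by
    rw [X5_r2, Φ.nat]
  have t4 : ∀ l, tr (r4.comp ρ l) = tr (Φ.toFun _ r4 l) := by
    intro l
    rw [n4, X5_r4]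
    show tr (SLm X5_e4 (rd 4 (ρ l))) = tr (SLm X5_e4 (Φ.toFun _ (rd 4) l))
    rw [tr_map, tr_map, h2]
  have t2 : ∀ l, tr (r2.comp ρ l) = tr (Φ.toFun _ r2 l) := by
    intro l
    rw [n2, X5_r2]
    show tr (SLm X5_e2 (rd 4 (ρ l))) = tr (SLm X5_e2 (Φ.toFun _ (rd 4) l))
    rw [tr_map, tr_map, h2]
  have g4 : ∀ g, ∃ l, Φ.toFun _ r4 l = r4 g := by
    intro g
    have : r4 g ∈ (Φ.toFun _ r4).range := by
      rw [Φ.range_eq]; exact ⟨g, rfl⟩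
    exact this
  have g2 : ∀ g, ∃ l, Φ.toFun _ r2 l = r2 g := by
    intro g
    have : r2 g ∈ (Φ.toFun _ r2).range := by
      rw [Φ.range_eq]; exact ⟨g, rfl⟩
    exact this
  obtain ⟨C, D, hCD, hDC, hC⟩ := hX3 (ZMod 4) (ZMod.castHom (show 2 ∣ 4 by norm_num) (ZMod 2))
    X5_unit4 Λ (Φ.toFun _ r4) (r4.comp ρ) t4 (by
    obtain ⟨l, hl⟩ := g4 (mU 1)
    refine ⟨l, ?_⟩
    rw [hl]
    apply G.SL_ext <;> decide) (by
    obtain ⟨l, hl⟩ := g4 (mB _)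
    refine ⟨l, ?_⟩
    rw [hl]
    apply G.SL_ext <;> decide)
  obtain ⟨C', D', hCD', hDC', hC'⟩ := hX3 (ZMod 2) (RingHom.id (ZMod 2))
    X5_unit2 Λ (Φ.toFun _ r2) (r2.comp ρ) t2 (by
    obtain ⟨l, hl⟩ := g2 (mU 1)
    refine ⟨l, ?_⟩
    rw [hl]
    apply G.SL_ext <;> decide) (by
    obtain ⟨l, hl⟩ := g2 (mB _)
    refine ⟨l, ?_⟩
    rw [hl]
    apply G.SL_ext <;> decide)
  obtain ⟨ρ₁, h1, hf⟩ := hX4 Λ ρ (Φ.toFun _ r4) (Φ.toFun _ r2) C D C' D' hCD hDC hCD' hDC' hC hC'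
  obtain ⟨hk, hi⟩ := hX1 Λ Φ T s w hw hO ρ₁ fun l => by rw [h1, hρ]
  refine ⟨ρ₁, hk, hi, ?_⟩
  intro l
  rw [hf]
  have e1 : (MonoidHom.fst (SL2 (ZMod 4)) (SL2 (ZMod 2))).comp r42 = r4 := rfl
  have e2 : (MonoidHom.snd (SL2 (ZMod 4)) (SL2 (ZMod 2))).comp r42 = r2 := rfl
  have f1 := Φ.nat (MonoidHom.fst (SL2 (ZMod 4)) (SL2 (ZMod 2))) r42
  have f2 := Φ.nat (MonoidHom.snd (SL2 (ZMod 4)) (SL2 (ZMod 2))) r42
  rw [e1] at f1
  rw [e2] at f2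
  rw [f1, f2]
  rfl

end

end Pool.Agent.F8.PIC7
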