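import Pool.Agent.Lib.MP_305fdd_al.F8.PIC7.StmU

/-!
# MP_305fdd_al, `PSL₂(O₇)`: piece cg, property P for `P2` and for `P1`
-/

set_option autoImplicit false

namespace Pool.Agent.F8.PIC7

open Pool.Agent.MP_305fdd_al Pool.Agent.Lib.MP_305fdd_al Pool.Agent.F2X Pool.Agent.F8
  Pool.Agent.F8.HN Pool.Agent.F8.AB Pool.Agent.F8.D7
open scoped QuadraticAlgebra

/-- the conjugation from `P1` to `P2` -/
def cg_e : P1 →* P2 := (cG.comp P1.subtype).codRestrict P2 (fun g => (mem_P1 g.val).1 g.2)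

theorem cg_val (g : P1) : (cg_e g).val = cG g.val := rfl

/-- the inverse -/
def cg_i (g : P2) : P1 := ⟨cG g.val, (mem_P2 g.val).1 g.2⟩

theorem cg_ei (g : P2) : cg_e (cg_i g) = g := Subtype.ext (cG_cG g.val)

/-- [PIC7 cg] -/
theorem p_cg : S_cg := by
  rintro K _ ρ ⟨⟨g, h, hgh⟩, Θ, hm, ht, k, l, hkl⟩
  have hcomp : (ρ.comp cG).comp P1.subtype = (ρ.comp P2.subtype).comp cg_e := rfl
  refine ⟨⟨cg_i g, cg_i h, ?_⟩, ?_⟩
  · rw [hcomp]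
    show tr ((ρ.comp P2.subtype) (cg_e (cg_i g * cg_i h * (cg_i g)⁻¹ * (cg_i h)⁻¹))) ≠ 2
    have e : cg_e (cg_i g * cg_i h * (cg_i g)⁻¹ * (cg_i h)⁻¹) = g * h * g⁻¹ * h⁻¹ := by
      rw [map_mul, map_mul, map_mul, map_inv, map_inv, cg_ei, cg_ei]
    rw [e]
    exact hgh
  · rw [hcomp]
    refine ⟨Θ.comp cg_e, ?_, ?_, cg_i k, cg_i l, ?_⟩
    · rw [← hm]; rfl
    · rw [← MonoidHom.comp_assoc, ht]; rfl
    · show Q2.W (Θ (cg_e (cg_i k))) (Θ (cg_e (cg_i l))) ≠ 0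
      rw [cg_ei, cg_ei]
      exact hkl

end Pool.Agent.F8.PIC7
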