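import Pool.Agent.Lib.MP_305fdd_al.F8.PIC7.Defs

/-!
# MP_305fdd_al, `PSL₂(O₇)` is profinitely rigid: the statements of the transfer (PSL, TR, E, X)

Every piece is the analogue of the piece of the same name of the Picard group project (`F8/PIC/Stm.lean`, proofs `F8/PIC/P_*.lean`), with `E7`
instead of `E1`; the changes are described in the docstrings. Property P is now taken with respect to two subgroups
`P1`, `P2` (`Pt2`, `GdP`). Every piece may use the statements named in its docstring (Uses ..) as hypotheses.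
-/

set_option autoImplicit false

namespace Pool.Agent.F8.PIC7

open Pool.Agent.MP_305fdd_al Pool.Agent.Lib.MP_305fdd_al Pool.Agent.F2X Pool.Agent.F8
  Pool.Agent.F8.HN Pool.Agent.F8.AB Pool.Agent.F8.D7
open scoped QuadraticAlgebra

noncomputable section

/-! ## PSL: from `PSL₂` to `SL₂` -/

/-- [PIC7 psl] from `SL₂` to `PSL₂`. (Uses `PIC.S_prd`.)

As `PIC/P_psl.lean` (read the docstring of `PIC.S_psl`), with `B = SL2 (ZMod 7)` and `r7p : GG →* SL2 (ZMod 7)` instead of `SL2 (ZMod 5)` and `r5`;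
`GG` is finitely generated by `PG.SL_sub` (`D7/G/Pres.lean`: `mU 1`, `mU (dl ℤ)`, `mB O7`). -/
def S_psl : Prop := ProfinitelyRigid GG → ProfinitelyRigid (SL2 O7 ⧸ pm O7)

/-! ## U: the cocycles and the uniqueness (pieces in `StmU.lean`) -/

/-- [PIC7 tab] The subgroup `P1` is generated by `tt`, `uu`, `yy` and has a non-trivial cocycle. -/
def S_tab : Prop := (∀ H : Subgroup GG, tt ∈ H → uu ∈ H → yy ∈ H → P1 ≤ H) ∧
  ∃ Θ : P1 →* Q2 O7, Q2.mH.comp Θ = P1.subtype ∧ Q2.tH.comp Θ = 1 ∧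
    ∃ g h : P1, 0 < PG.nm (Q2.W (Θ g) (Θ h) 0) ∧ PG.nm (Q2.W (Θ g) (Θ h) 0) < 1024

/-- [PIC7 g3] at most two characters -/
def S_g3 : Prop := ∀ (k : Type) [Field k], (2 : k) ≠ 0 → ¬ GdP P1 P2 k 3

/-! ## TR: the transfer -/

/-- [PIC7 pf] functoriality of property P. (Uses `PIC.S_pf`.)

From `PIC.S_pf`; the characters stay different because field homomorphisms are injective (as in `PIC/P_pf.lean`). -/
def S_pf : Prop := (∀ (L : Type) [Group L] (P Q : Subgroup L) (K K' : Type) [Field K] [Field K']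
    (f : K →+* K') (ρ : L →* SL2 K), Pt2 P Q ρ → Pt2 P Q ((SLm f).comp ρ)) ∧
  (∀ (L : Type) [Group L] (P Q : Subgroup L) (K K' : Type) [Field K] [Field K'] (_ : K →+* K')
    (N : ℕ), GdP P Q K N → GdP P Q K' N) ∧
  ∀ (L : Type) [Group L] (P Q : Subgroup L) (K : Type) [Field K] (C : SL2 K) (ρ : L →* SL2 K),
    Pt2 P Q ρ → Pt2 P Q ((MulAut.conj C).toMonoidHom.comp ρ)

/-- [PIC7 px] matching of property P.

As `PIC/P_px.lean`, for both subgroups: `Ψ₁ : NatBij P1 (L1 Φ)`, `Ψ₂ : NatBij P2 (L2 Φ)` from `natBij_comap`. -/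
def S_px : Prop := ∀ (Λ : Type) [Group Λ] (Φ : NatBij GG Λ) (k : Type) [Field k] [Finite k]
  (N : ℕ), GdP (L1 Φ) (L2 Φ) k N → GdP P1 P2 k N

/-- [PIC7 sp] specialisation.

As `PIC/P_sp.lean`, with the finitely generated group `Λ × P × Q` and the affine representations of `Λ`, of `P` and of `Q`. -/
def S_sp : Prop := ∀ (Λ : Type) [Group Λ] [Group.FG Λ] (P Q : Subgroup Λ), P.FiniteIndex →
  Q.FiniteIndex → ∀ (K : Type) [Field K] [CharZero K] (N : ℕ), GdP P Q K N →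
  (∃ (k : Type) (_ : Field k) (_ : Finite k), (2 : k) ≠ 0 ∧ GdP P Q k N) ∧
    GdP P Q (AlgebraicClosure ℚ) N

/-- [PIC7 lim] limits for `E7`. (As `PIC/P_lim.lean`.) -/
def S_lim : Prop := ∀ (R : Type) [CommRing R] (Rk : ℕ → Type) [∀ k, CommRing (Rk k)]
  (π : ∀ k, R →+* Rk k) (p : ∀ k, Rk (k + 1) →+* Rk k), IsLim R Rk π p →
  IsLim (E7 R) (fun k => E7 (Rk k)) (fun k => E7m (π k)) (fun k => E7m (p k))

/-- [PIC7 tb2] the cocycle of `P2`. (Uses `S_tab`.)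

Proof. `Θ' g = Q2.map (cj ℤ) (Θ ⟨cG g, _⟩)` (`mem_P2`); `mH (Θ' g) = cG (cG g) = g`; `Q2.W (Θ' g) (Θ' h) 0 = cj (Q2.W .. 0)` (`P/wm.lean`) and `nm (cj z) = nm z`
(`PG.nm` in `D7/G/Arith.lean`). Witnesses `⟨cG g, _⟩`, `⟨cG h, _⟩`. -/
def S_tb2 : Prop := ∃ Θ : P2 →* Q2 O7, Q2.mH.comp Θ = P2.subtype ∧ Q2.tH.comp Θ = 1 ∧
    ∃ g h : P2, 0 < PG.nm (Q2.W (Θ g) (Θ h) 0) ∧ PG.nm (Q2.W (Θ g) (Θ h) 0) < 1024

/-- [PIC7 dat] the `p`-adic representation. (Uses `S_tab`, `S_tb2`, `S_lim`.)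

As `PIC/P_dat.lean`, for both subgroups (prove a lemma for one subgroup `P = (PIC.UP (ZMod 4)).comap r`, `r = r4` or `r4b`, and a cocycle `Θ₀ : P →* Q2 O7` with
`0 < nm (W ..) < 1024`, `g₁, g₂ ∈ P` with `0 < nm (tr [g₁, g₂] - 2) < 1024`, and apply it twice). Changes: the norm of `z : E7 ℤ_p` is `re² - re im + 2 im²`, `z * cj z` is
this element of `ℤ_p`; a number between `0` and `1024` is not `0` modulo `p ^ 10`: use `k = 10`. `Irr` on `P1`: `g = tt`, `h = yy`, `tr [tt, yy] - 2 = δ⁴`, norm `16`; on `P2`: `g = tt`,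
`h = cG yy`. `ne`: `g ∈ GG` with trace `δ` (`uu * mB`). -/
def S_dat : Prop := ∀ (Λ : Type) [Group Λ] (Φ : NatBij GG Λ) (p : ℕ) [Fact p.Prime],
  ∃ r : Λ →* SL2 (E7 ℤ_[p]), DatP Φ p r

/-- [PIC7 d4] sum and product of the two characters are integers. (Uses `S_pf`, `S_gal`, `S_int`.)

As `PIC/P_d4.lean`. `j₁ = ev7 (iz p) w`, `j₂ = ev7 (iz p) (-1 - w)`, `w ∈ Fl p` a root of `w² + w + 2 = 0`; their characters are different by `DatP.ne` (`2 w + 1 ≠ 0`: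
its square is `-7`); the sum and the product are `iz p (2 re - im)`, `iz p (re² - re im + 2 im²)`. -/
def S_d4 : Prop := ∀ (Λ : Type) [Group Λ] [Group.FG Λ] (Φ : NatBij GG Λ),
  (∀ (K : Type) [Field K] [CharZero K], ¬ GdP (L1 Φ) (L2 Φ) K 3) →
  (∀ (p : ℕ) [Fact p.Prime], ∃ r : Λ →* SL2 (E7 ℤ_[p]), DatP Φ p r) →
  ∀ s₁ s₂ : Λ →* SL2 (AlgebraicClosure ℚ), Pt2 (L1 Φ) (L2 Φ) s₁ → Pt2 (L1 Φ) (L2 Φ) s₂ →
  (∃ g, tr (s₁ g) ≠ tr (s₂ g)) →
  ∀ l : Λ, ∃ S P : ℤ, tr (s₁ l) + tr (s₂ l) = (S : AlgebraicClosure ℚ) ∧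
    tr (s₁ l) * tr (s₂ l) = (P : AlgebraicClosure ℚ) ∧
    ∀ (p : ℕ) [Fact p.Prime] (r : Λ →* SL2 (E7 ℤ_[p])), DatP Φ p r →
      (S : ℤ_[p]) = 2 * (tr (r l)).re - (tr (r l)).im ∧
      (P : ℤ_[p]) = (tr (r l)).re ^ 2 - (tr (r l)).re * (tr (r l)).im + 2 * (tr (r l)).im ^ 2

/-- [PIC7 sq] a local-global principle for squares.

Proof. `p = 7`: `7 ∣ D`, `D = -7 N`, `N = y²` in `ℤ_p` for all `p` (cancel `7`). As `PIC/P_sq.lean`, `P/sq.lean`. -/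
def S_sq1 : Prop := ∀ D : ℤ, (∀ (p : ℕ) [Fact p.Prime], ∃ y : ℤ_[p], (D : ℤ_[p]) = -7 * (y * y)) →
  ∃ m : ℤ, D = -7 * (m * m)

/-- [PIC7 d5] one value.

Proof. `(2 c - S)² = S² - 4 P = -7 m² = (m (2 w + 1))²`, so `2 c - S = e m (2 w + 1)`, `e = ± 1`. `S - m` is even (`S² = 4 P - 7 m²`). `T = ⟨(S + e m) / 2, e m⟩`. -/
def S_d5 : Prop := ∀ (K : Type) [Field K] [CharZero K] (w : K) (hw : w * w + w + 2 = 0) (c c' : K)
  (S P m : ℤ), c + c' = S → c * c' = P → S * S - 4 * P = -7 * (m * m) →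
  ∃ T : O7, c = ev7 (Int.castRingHom K) w hw T ∧ c' = ev7 (Int.castRingHom K) w hw (cj ℤ T)

/-- [PIC7 d6] comparison with the `p`-adic character. (Uses `S_pf`. As `PIC/P_d6.lean`.) -/
def S_d6 : Prop := ∀ (Λ : Type) [Group Λ] [Group.FG Λ] (Φ : NatBij GG Λ),
  (∀ (K : Type) [Field K] [CharZero K], ¬ GdP (L1 Φ) (L2 Φ) K 3) →
  ∀ s₁ s₂ : Λ →* SL2 (AlgebraicClosure ℚ), Pt2 (L1 Φ) (L2 Φ) s₁ → Pt2 (L1 Φ) (L2 Φ) s₂ →
  (∃ g, tr (s₁ g) ≠ tr (s₂ g)) →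
  ∀ (w : AlgebraicClosure ℚ) (hw : w * w + w + 2 = 0) (T : Λ → O7),
  (∀ g, tr (s₁ g) = ev7 (Int.castRingHom _) w hw (T g) ∧
    tr (s₂ g) = ev7 (Int.castRingHom _) w hw (cj ℤ (T g))) →
  ∀ (p : ℕ) [Fact p.Prime] (r : Λ →* SL2 (E7 ℤ_[p])), DatP Φ p r →
  (∀ g, tr (r g) = E7m (Int.castRingHom ℤ_[p]) (T g)) ∨
    (∀ g, tr (r g) = E7m (Int.castRingHom ℤ_[p]) (cj ℤ (T g)))

/-- [PIC7 out] MAIN RESULT of the transfer. (Uses `S_pf`, `S_g3`, `S_px`, `S_sp`, `S_dat`, `S_d4`, `S_sq1`, `S_d5`, `S_d6`.)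

As `PIC/P_out.lean`. `D = S² - 4 P = -7 im²`. In the last step the root `w` is replaced by `-1 - w` (and `T` by `cj T`) if necessary such that `c = false` for `p = 2`. -/
def S_out : Prop := ∀ (Λ : Type) [Group Λ] [Group.FG Λ] (Φ : NatBij GG Λ),
  ∃ (T : Λ → O7) (s : Λ →* SL2 (AlgebraicClosure ℚ)) (w : AlgebraicClosure ℚ)
    (hw : w * w + w + 2 = 0), OutP Φ T s w hw

/-! ## E, X: the representation over `O7` -/

/-- [PIC7 sig] the reductions modulo all `m`.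

As `PIC/P_sig.lean`; `sge f` with `f² = f`: `f = 0` (identity) or `f = 1` (`cj`) modulo prime powers, Chinese remainders. -/
def S_sig : Prop := ∀ (Λ : Type) [Group Λ] (Φ : NatBij GG Λ) (T : Λ → O7)
  (s : Λ →* SL2 (AlgebraicClosure ℚ)) (w : AlgebraicClosure ℚ) (hw : w * w + w + 2 = 0),
  OutP Φ T s w hw → ∀ (m : ℕ) [NeZero m], ∃ (f : ZMod m) (hf : f * f = f), ∀ l,
    E7m (Int.castRingHom (ZMod m)) (T l) = sge f hf (tr (Φ.toFun _ (rd m) l))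

/-- [PIC7 E] from characters to matrices. (Uses `S_sig`.)

As `PIC/P_E.lean`; `EG.E_gen` with `leg7` (`D7/E/Base.lean`) and `dvd_n7` (`D7/E/Ar.lean`), see `D7/E/Main.lean`. `j = ev7 .. w` is injective (`ev7 z = 0` implies
`re² - re im + 2 im² = 0`). -/
def S_E : Prop := ∀ (Λ : Type) [Group Λ] (Φ : NatBij GG Λ) (T : Λ → O7)
  (s : Λ →* SL2 (AlgebraicClosure ℚ)) (w : AlgebraicClosure ℚ) (hw : w * w + w + 2 = 0),
  OutP Φ T s w hw → ∃ ρ : Λ →* GG, ∀ l, tr (ρ l) = T l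

/-- [PIC7 X1] the congruence kernels. (Uses `PIC.S_gr`, `S_sig`.)

As `PIC/P_X1.lean`. -/
def S_X1 : Prop := ∀ (Λ : Type) [Group Λ] (Φ : NatBij GG Λ) (T : Λ → O7)
  (s : Λ →* SL2 (AlgebraicClosure ℚ)) (w : AlgebraicClosure ℚ) (hw : w * w + w + 2 = 0),
  OutP Φ T s w hw → ∀ ρ : Λ →* GG, (∀ l, tr (ρ l) = T l) →
  (∀ (m : ℕ) [NeZero m] (l : Λ), rd m (ρ l) = 1 ↔ Φ.toFun _ (rd m) l = 1) ∧
    ∀ (m : ℕ) [NeZero m] (g : GG), ∃ l, rd m (ρ l) = rd m g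

/-- [PIC7 X3] two representations over a local ring with residue field `ZMod 2` with the same character are conjugate.

As `PIC/P_X3.lean` (docstring of `PIC.S_X3`), where `R = E1 (ZMod 4)`; there only the residue homomorphism `res` was used. -/
def S_X3 : Prop := ∀ (R : Type) [CommRing R] (res : R →+* ZMod 2), (∀ x, res x = 1 → IsUnit x) →
  ∀ (Λ : Type) [Group Λ] (r r' : Λ →* SL2 R),
  (∀ l, tr (r' l) = tr (r l)) → (∃ l, r l = mU 1) → (∃ l, r l = mB _) →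
  ∃ C D : Matrix (Fin 2) (Fin 2) R, C * D = 1 ∧ D * C = 1 ∧
    ∀ l, (r l).val = C * (r' l).val * D

/-- [PIC7 X4] lifting of the conjugation.

Proof. `det C` is a unit of `ZMod 4`, so it is (the reduction of) `e = ± 1`, `C = diag(e, 1) C₁` with `det C₁ = 1`; `det C' = 1`. `r42` is onto: the pairs of elementary matrices
`([[1, x], [0, 1]], [[1, y], [0, 1]])` are in the range (an element of `O7` with the reductions `x`, `y`: `x = y = 1`: `1`; `x = 2, y = 1`: `δ`; `x = 0, y = 1`: `2 + δ`), with `mB` also the lower ones, and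
`SL₂ (ZMod 4)`, `SL₂ (ZMod 2)` are generated by elementary matrices (as in `PIC/P_X4.lean`; or `decide`). So there is `γ : GG` with `r4 γ = C₁`, `r2 γ = C'`.
`ρ₁ l = diag(e, 1) γ ρ l (..)⁻¹`, again in `SL₂(O7)`. -/
def S_X4 : Prop := ∀ (Λ : Type) [Group Λ] (ρ : Λ →* GG) (r : Λ →* SL2 (ZMod 4))
  (r' : Λ →* SL2 (ZMod 2)) (C D : Matrix (Fin 2) (Fin 2) (ZMod 4))
  (C' D' : Matrix (Fin 2) (Fin 2) (ZMod 2)), C * D = 1 → D * C = 1 → C' * D' = 1 → D' * C' = 1 →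
  (∀ l, (r l).val = C * (r4 (ρ l)).val * D) → (∀ l, (r' l).val = C' * (r2 (ρ l)).val * D') →
  ∃ ρ₁ : Λ →* GG, (∀ l, tr (ρ₁ l) = tr (ρ l)) ∧ ∀ l, r42 (ρ₁ l) = (r l, r' l)

/-- [PIC7 X5] the representation with all properties. (Uses `S_E`, `S_X1`, `S_X3`, `S_X4`.)

As `rho_of` in `PIC/MainOf.lean`. Let `T, s, w` be the output of the transfer, `ρ` from `S_E`; `tr (rd 4 (ρ l)) = tr (Φ (rd 4) l)` (`OutP.red` for `p = 2`, `k = 2`, where `c = false`).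
`r4 = SLm (ev7 (RingHom.id _) 2 _) ∘ rd 4`, `r2 = SLm (ev7 (ZMod.castHom ..) 1 _) ∘ rd 4`, so by naturality of `Φ` `tr (r4 (ρ l)) = tr (Φ r4 l)`, `tr (r2 (ρ l)) = tr (Φ r2 l)`. `S_X3` for `R = ZMod 4`
(`res = ZMod.castHom`) and `R = ZMod 2` (`mU 1`, `mB` are in the range of `Φ r4`: `NatBij.range_eq`), `S_X4`, `S_X1` for `ρ₁`. `Φ r42 = (Φ r4).prod (Φ r2)`: naturality for `MonoidHom.fst`, `MonoidHom.snd`. -/
def S_X5 : Prop := ∀ (Λ : Type) [Group Λ] (Φ : NatBij GG Λ) (T : Λ → O7)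
  (s : Λ →* SL2 (AlgebraicClosure ℚ)) (w : AlgebraicClosure ℚ) (hw : w * w + w + 2 = 0),
  OutP Φ T s w hw → ∃ ρ : Λ →* GG, Rho Φ ρ

end

end Pool.Agent.F8.PIC7
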