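import Pool.Agent.Lib.MP_305fdd_al.F8.PIC7.StmT

/-!
# MP_305fdd_al, `PSL₂(O₇)` is profinitely rigid: the statements of the block U

THEOREM of the block. Over a field with `2 ≠ 0` there are at most two characters of representations of `GG = SL₂(O7)` with property P with
respect to `P1 = Γ₁(δ²)` and its conjugate `P2` (`S_g3`, stated in `StmT.lean`), namely those of the standard representations
`δ ↦ w`, `w² + w + 2 = 0`.

The proof. `S_nf`: normal form `NF ρ s p a b`; the equations describe the curve of the irreducible characters of `GG` (with `ρ (-1) = -1`). `S_tab` (stated in `StmT.lean`): the table of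
the six cosets of `± P1`, which gives generators of `P1` and the cocycle. `P1` is generated by `t = tt`, `u = uu`, `y = yy` with
`t u = u t` and `y (t y u⁻¹ y t) = (t y u⁻¹ y t) y`. The values `η` on `y` of the cocycles which are zero on `t`, `u` are the solutions of `D η = 0`,
`D = 1 - Y₂ - (1 - Y) (T + T Y U⁻¹)`, `Y₂ = T Y U⁻¹ Y T`; `S_det`: `det D = 8 - 4 (a + p b) - 2 s² a + 2 s² a²`; `S_alg`: this is zero only for
`p² = 1`, `a + p b = 1` or `p = 0`, `a = -1`, `b = 0`. The second case is reducible on `P1`. With `P2` in place of `P1`: `tr ρ (t u) = 2`, so `p = 1`.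

The pieces follow the pieces of the same name of the Picard group (`F8/PIC/Stm.lean`, `F8/PIC/P_*.lean`).
-/

set_option autoImplicit false

namespace Pool.Agent.F8.PIC7

open Pool.Agent.MP_305fdd_al Pool.Agent.Lib.MP_305fdd_al Pool.Agent.F2X Pool.Agent.F8
  Pool.Agent.F8.HN Pool.Agent.F8.AB Pool.Agent.F8.D7
open scoped QuadraticAlgebra

noncomputable section

/-! ## The table

[PIC7 tab] `S_tab` in `StmT.lean`. (Uses nothing; `PG.pres` in `D7/G/Pres.lean`.)

Adapt `PIC/P_tab.lean` (729 lines; the structure can be kept line by line; there is no `L`). `PG.Rel Q al up be`: `c1` `al up = up al`, `c2` `be be = 1`,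
`c3` `(al be)³ = 1`, `c4` `(up⁻¹ al⁻¹ be up be)² = 1`. Six cosets of `± P1`, `x r_i = ± r_j h`. Words: leftmost letter applied last, in `A = mU 1`, `U = mU (dl ℤ)`, `B = mB O7`, `A' = A⁻¹`; the
representatives are `1, B, A B, A' B, U B, B U B`. Tables (`j` for `i = 0..5`, then the words `h` in `t, u, y`, capital = inverse):
A: `0 2 4 1 3 5`; `t, 1, TYuYT, 1, y, Uyt`.
U: `0 4 3 2 1 5`; `u, 1, y, tyUyt, tyUyty, TUyty`.
B: `1 0 3 2 5 4`; `1, 1, T, t, 1, 1`.
Values in `Q2 O7`: `t ↦ (1, tt, (δ, 0))`, `u ↦ (1, uu, 0)`, `y ↦ (1, yy, (1, 0))`. (Checked by computer: the relations `Rel` hold in `Perm (Fin 6 × Q2 O7)`.)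
`-1` is not in `P1` (`1 ≠ -1` modulo `4`). `yy = B A² U B⁻¹`, so `yy = -(B A A U B)`. The model of `Q2 O7` and of the multiplication of `O7` as pairs of integers: `D1/G/Mat.lean` has `gmul`, `omul`, `o4` for `ℤ[i]`; here
`(x, x') (y, y') = (x y - 2 x' y', x y' + x' y - x' y')`. Last claim: `g = t y`, `h = u`: `Q2.W (Θ (t y)) (Θ u) 0 = 4 + 2 δ`, of norm `16`
(see the lemma `tab_W`). -/

/-! ## Uniqueness -/

/-- [PIC7 nf] the normal form of a representation which is irreducible.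

As `PIC/P_nf.lean`. Proof. Write `B, T, U` for the images of `mB, tt, uu`, `E = ρ (-1)`. In `SL2 O7`: `mB² = -1`, `(tt mB)³ = -1`, `tt uu = uu tt`,
`(uu⁻¹ tt⁻¹ mB uu mB)² = -1` (all by `decide`). `E * E = 1`, `2 ≠ 0`, so `E = 1` or `E = -1` (`2 E = tr E`). If `E = 1` then `B² = 1`, so `B = ± 1`, and `T`, `U` commute: `ρ` is abelian (`PG.SL_sub`),
contradiction to `Irr`. So `E = -1`, `B² = -1`, `tr B = 0`. `X = T B`, `X³ = -1`, `X² = x X - 1` (`x = tr X`): `(x² - 1) X = x - 1`, so `x = 1` or `X` is scalar, then `X = -1`. If `X = -1` then `T = B` commutes with `U`: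
abelian, contradiction. So `tr (T B) = 1`. `T` is not scalar (`tr B = 0`). Let `2 p = tr T`, `s² = 4 p² - 3` (`K` is algebraically closed), `c = (s - 1) / 2`, so `c² + c + 1 = p²` and
`det (T - p - c B) = 1 + c + c² - p² = 0`: there is `v ≠ 0` with `T v = p v + c B v`; from `T B = 1 + 2 p B - B T` (`X + X⁻¹ = 1`) `T B v = (1 + c) v + p B v`. If `B v = l v`, then `v` is a common eigenvector
of `T` and `B`, and of `U` (`U` commutes with `T`, which is not scalar, so `U` is a linear combination of `1`, `T`): all `ρ g` are triangular in a basis with `v` and `tr ρ [g, h] = 2`, contradiction to `Irr`. So `v, B v` is a basis;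
scale `v` such that `det (v, B v) = 1`: in this basis `B` and `T` are as in `NF`. `U⁻¹` commutes with `T`, not scalar: `U⁻¹ = a + b T` (from the entries). If `s = 0` then `T = p - B / 2`, all commute, contradiction.
`W = U⁻¹ T⁻¹ B U B`, `W² = -1`, so `tr W = 0`: `2 p (a² + b²) + 3 a b = 0`; `det U⁻¹ = 1`: `a² + b² + 2 p a b = 1`. These give `e2` (`2 p` times the second minus the first) and `e3`
(`(a² + b²) (4 p² - 3) = -6 p a b - 3 (a² + b²) = -3`). -/
def S_nf : Prop := ∀ (K : Type) [Field K] [IsAlgClosed K], (2 : K) ≠ 0 → ∀ ρ : GG →* SL2 K,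
  Irr ρ → ∃ (C : SL2 K) (s p a b : K), NF ((MulAut.conj C).toMonoidHom.comp ρ) s p a b

/-- [PIC7 std] the standard representations.

As `PIC/P_std.lean`. Proof. `s² = 1` by `e1`, `a b = 2` by `e2`. `w = -b`: `w² + w + 2 = 0`. `s = 1`: `T = [[1, 1], [0, 1]]`, `U⁻¹ = [[1, b], [0, 1]]`: `ρ = SLm (ev7 .. w)` on the generators, so everywhere
(`PG.SL_sub` for the equaliser). `s = -1`: `T = [[1, 0], [-1, 1]]`, `U⁻¹ = [[1, 0], [-b, 1]]`; conjugation with `B` maps `[[x, y], [z, t]]` to `[[t, -z], [-y, x]]`, so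
`B ρ B⁻¹ = SLm (ev7 .. w)`. -/
def S_std : Prop := ∀ (K : Type) [Field K], (2 : K) ≠ 0 → ∀ (ρ : GG →* SL2 K) (s a b : K),
  NF ρ s 1 a b → a + b = 1 → ∃ (w : K) (hw : w * w + w + 2 = 0), ∀ g,
    tr (ρ g) = ev7 (Int.castRingHom K) w hw (tr g)

/-- [PIC7 alg] the equations.

Proof. Let `z = s²`, `f = 4 - 2 a - 2 p b - z a + z a² = 0` (half of the last equation). `p b` times `..`: from `a b z = 2 p`, `4 p² = z + 3`: `2 a z (p b) = z + 3`.
(1) `z a f` gives `h = 2 z (1 + z) a² - z (3 + z) a + (5 z + 3) = 0` after replacing `z² a³` (here `2 z p a b = z + 3` and `4 p² = z + 3`, `a² b² z² = 4 p² = z + 3`, `(a² + b²) z = -3`, so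
`(z a²)² + 3 z a² + (z + 3) = 0`: relation (0)); similarly (2) `n' = z (5 z + 3) a² - z (3 z + 5) a - (z² - 14 z - 3) = 0`. Then `2 (1 + z) n' - (5 z + 3) h = -(z - 1)² (z a + 2 z + 3)`.
Case `z = 1`: `p² = 1`, `a b = 2 p`, `a² + b² = -3`, so `(a + p b)² = -3 + 4 p² = 1`; if `a + p b = -1` then `f = 4 + 2 - a + a²= 0`, and `a² + a + 2 = 0` (`a p b = 2`, `p b = -1 - a`), so `a = 2`, `8 = 0`, contradiction; so `a + p b = 1`.
Case `z a = -(2 z + 3)`: `h` gives `2 (z + 3) (5 z + 3) (z + 1) = 0`, `z n'` gives `(z + 3) (5 z + 3)² = 0`, so `z = -3` or `5 z + 3 = 0`. If `5 z + 3 = 0` (so `5 ≠ 0`, `3 ≠ 0` as `z ≠ 0`, `2 ≠ 0`), `z = -3/5`, `z a = -9/5`, `a = 3`, `z a² = -27/5`, (0) gives `3456 / 625 = 0`,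
`3456 = 2⁷ 27`, contradiction. If `z = -3`: `p = 0`, `a b = 0`, `a² + b² = 1`, `z a = 3`, `a = -1`, `b = 0` (`3 ≠ 0`).
(An alternative: the norm of `f` is `(z - 1)⁸ (z + 3)² / z⁴`. The certificates can be found with a computer; the intermediate equations have been checked only by hand.) -/
def S_alg : Prop := ∀ (K : Type) [Field K], (2 : K) ≠ 0 → ∀ s p a b : K, s ≠ 0 →
  4 * p ^ 2 = s ^ 2 + 3 → a * b * s ^ 2 = 2 * p → (a ^ 2 + b ^ 2) * s ^ 2 = -3 →
  8 - 4 * (a + p * b) - 2 * s ^ 2 * a + 2 * s ^ 2 * a ^ 2 = 0 →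
  (p ^ 2 = 1 ∧ a + p * b = 1) ∨ (p = 0 ∧ a = -1 ∧ b = 0)

/-- [PIC7 det] the determinant.

As `PIC/P_det.lean`: a computation with explicit matrices; certificates for `linear_combination` can be produced by the division
algorithm with the relations (`x = (s + 1) / 2`, `y = (s - 1) / 2` are the entries; `x - y = 1`, `4 x y = s² - 1`). `V` is the inverse of `U`. -/
def S_det : Prop := ∀ (K : Type) [Field K], (2 : K) ≠ 0 → ∀ s p a b : K, s ≠ 0 →
  4 * p ^ 2 = s ^ 2 + 3 → a * b * s ^ 2 = 2 * p → (a ^ 2 + b ^ 2) * s ^ 2 = -3 →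
  ∀ T V B Y : SL2 K,
  T.val = !![p, (s + 1) / 2; (s - 1) / 2, p] →
  V.val = !![a + b * p, b * ((s + 1) / 2); b * ((s - 1) / 2), a + b * p] →
  B.val = !![0, -1; 1, 0] → Y = B * T * T * V⁻¹ * B⁻¹ →
  (1 - (T * Y * V * Y * T).val - (1 - Y.val) * (T.val + (T * Y * V).val)).det =
    8 - 4 * (a + p * b) - 2 * s ^ 2 * a + 2 * s ^ 2 * a ^ 2

/-- [PIC7 coc] the representations with a cocycle. (Uses `S_tab`, `S_alg`, `S_det`.)

As `PIC/P_coc.lean`. Proof. `T, U, Y` the images of `tt, uu, yy`; `yy = mB tt² uu mB⁻¹`, `yy (tt yy uu⁻¹ yy tt) = (tt yy uu⁻¹ yy tt) yy` (`decide`). Suppose not (`p² = 1` and `a + p b = 1`). Let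
`Θ : P1 →* Q2 K` be as in `Ex1` (the translation parts `ζ g = (Θ g).v` satisfy `ζ (g h) = ζ g + ρ g ζ h`). `det (T - 1) = 2 - 2 p`, `det (U⁻¹ - 1) = 2 - 2 (a + p b)` (`det (U - 1)` is the same), so
one of `T - 1`, `U - 1` is invertible; subtracting a coboundary (this does not change `Q2.W`: conjugate `Θ` with a translation) we
get `ζ tt = 0` and `ζ uu = 0` (`coc_fix`). Let `η = ζ yy`. `ζ (t y u⁻¹ y t) = (T + T Y U⁻¹) η`, so the relation gives
`η + Y (T + T Y U⁻¹) η = (T + T Y U⁻¹) η + Y₂ η`: `D η = 0` with `D` of `S_det` (`V = U⁻¹ = ρ (uu⁻¹)`). If `det D ≠ 0` then `η = 0`, `ζ` is zero on the generators, so on `P1`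
(`S_tab`, first part), so all `W` are zero, contradiction to `NC`. If `det D = 0`: `S_alg`; in the second case
`U = -1`, `T² = -1` (`p = 0`), so `Y = B T² U B⁻¹ = 1`, the image of `P1` is generated by `T`, `-1`, abelian, and
`tr ρ [g, h] = 2` for `g, h ∈ P1`, contradiction to `Irr`. -/
def S_coc : Prop := ∀ (K : Type) [Field K], (2 : K) ≠ 0 → ∀ (ρ : GG →* SL2 K) (s p a b : K),
  NF ρ s p a b → PIC.Pt P1 ρ → p ^ 2 = 1 ∧ a + p * b = 1

/-- [PIC7 cg] property P for `P2` and for `P1`.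

Proof. `cG` restricts to an isomorphism of `P1` to `P2` (`mem_P1`, `mem_P2`, `cG_cG`). `Irr`: the witnesses are transported. `Ex1`: compose `Θ : P2 →* Q2 K` with `P1 →* P2`. -/
def S_cg : Prop := ∀ (K : Type) [CommRing K] (ρ : GG →* SL2 K), PIC.Pt P2 ρ → PIC.Pt P1 (ρ.comp cG)

/-- [PIC7 g3] at most two characters (`S_g3` in `StmT.lean`). (Uses `S_nf`, `S_std`, `S_coc`, `S_cg`, `S_pf`.)

As `PIC/P_g3.lean`. Proof. By `S_pf` we may replace `k` by its algebraic closure `K`. `CLAIM`: if `Pt2 P1 P2 ρ`, then there is `w`, `w² + w + 2 = 0`, with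
`tr (ρ g) = ev7 .. w (tr g)` for all `g`. `S_nf` (`Irr` of the restriction to `P1` implies `Irr`), `S_pf` (third part) and `S_coc` for `ρ` give `NF ρ₁ s p a b`, `p² = 1`, `a + p b = 1`, `ρ₁` a conjugate of `ρ`. The same for
`ρ' = ρ.comp cG` (`S_cg`) gives `tr ρ' (uu⁻¹) = 2 (a' + p' b') = 2`, and `cG uu⁻¹ = tt uu` (`decide`), so `tr ρ (tt uu) = 2`. In `ρ₁`: `s² = 1` (`e1`), `tr (T U) = 2 p (a + b p) - 2 b (s² - 1) / 4 = 2 p`, so `p = 1`. `S_std`.
Two of the three `w_i` are equal (`w_i = w_0` or `w_i = -1 - w_0`), then the two characters are equal. -/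
def S_g3w : Prop := ∀ (K : Type) [Field K] [IsAlgClosed K], (2 : K) ≠ 0 → ∀ ρ : GG →* SL2 K,
  Pt2 P1 P2 ρ → ∃ (w : K) (hw : w * w + w + 2 = 0), ∀ g,
    tr (ρ g) = ev7 (Int.castRingHom K) w hw (tr g)

end

end Pool.Agent.F8.PIC7
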